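import Pool.Agent.J6H16.E2.Dx

/-!
# Project E2 (helper16): the bilinear forms in a shell
-/

set_option autoImplicit false

namespace Pool.Agent.J6H16.E2

open Finset Filter Topology
open Pool.Agent.N782.GN hiding f1
open Pool.Agent.N855.GN
open Pool.Agent.H304R3.HK (UH bb LamK CS)
open Pool.Agent.J6H16.PF Pool.Agent.J6H16.PR

open Classical in
/-- the coefficients: primitive products of a prime of the window and a number with the weight `μ`, in a shell -/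
noncomputable def bt (M x y Yg : ℝ) (g : ℕ) (Z1 Z2 : ℝ) (w : ZI) : ℝ :=
  if Z1 < nz w ∧ nz w ≤ Z2 then (if ct w = 1 then cv (fw M x y) (gy Yg g) w else 0) else 0

theorem cvg_bd {M x y Yg : ℝ} {g : ℕ} (hM : 1 < M) {E : ℕ} {t : ZI} (ht : t ≠ 0) (hn : nz t ≤ M ^ E) :
    |cv (fw M x y) (gy Yg g) t| ≤ 4 * E := by
  have hl := Real.log_pos hM
  have h1 := cv_bd (f := fw M x y) (g := gy Yg g) (κ := 1 / Real.log M) (C1 := 1) (by positivity) (by norm_num)
    (fw_le hM _ _) (gy_abs _ _) ht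
  refine h1.trans ?_
  have h2 : Real.log (nz t) ≤ E * Real.log M := by
    rw [← Real.log_pow]
    exact Real.log_le_log (nz_pos ht) hn
  calc 1 * (1 / Real.log M) * (4 * Real.log (nz t)) ≤ 1 * (1 / Real.log M) * (4 * (E * Real.log M)) := by gcongr
    _ = 4 * E := by field_simp

theorem bt_bd {M x y Yg : ℝ} {g : ℕ} {Z1 Z2 : ℝ} (hM : 1 < M) {E : ℕ} (hZ : Z2 ≤ M ^ E) (w : ZI) :
    |bt M x y Yg g Z1 Z2 w| ≤ 4 * E := by
  have hE : (0 : ℝ) ≤ 4 * E := by positivity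
  unfold bt
  split_ifs with h1 h2
  · by_cases h0 : w = 0
    · rw [h0, cv_zero, abs_zero]
      exact hE
    · exact cvg_bd hM h0 (h1.2.trans hZ)
  · rw [abs_zero]; exact hE
  · rw [abs_zero]; exact hE

/-- **the bilinear form in a shell** -/
theorem box1 (ε : ℝ) (A B : ℕ) (hε : 0 < ε) (hε1 : ε ≤ 1) {c3 c4 : ℝ} (hc3 : 0 < c3) (h34 : c3 < c4)
    (hc4 : 3 * c4 ≤ ε) : ∃ C : ℝ, 0 < C ∧ ∀ᶠ M : ℝ in atTop, ∀ (M' L R x y Yg Z1 Z2 : ℝ) (g : ℕ),
    M ^ (1 / 2 : ℝ) ≤ M' → M' ≤ M ^ 2 → 1 ≤ L → L ≤ M' ^ (1 - ε) → 0 < R → M' ^ (1 + ε) ≤ R ^ 2 * L →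
    R ^ 2 ≤ L * M' ^ (1 - ε) → M ^ c3 ≤ x → y ≤ M ^ c4 → 1 ≤ g → (g : ℝ) ≤ (Real.log M) ^ B → Z2 ≤ M ^ 4 →
    ∀ γ : ZI → ℝ, (∀ v, |γ v| ≤ 1) →
      ∑ l ∈ Icc (1 : ℤ) ⌊L⌋, |Th (bt M x y Yg g Z1 Z2) γ R (M' / (8 * R)) l| ≤ C * L * M' / (Real.log M') ^ A := by
  classical
  obtain ⟨A', B', C, M0, hC, hgc⟩ := gc ε A 16 hε (by norm_num)
  have hc40 : 0 < c4 := by linarith
  have hcE : c4 ≤ (5 : ℕ) := by
    push_cast
    linarith
  refine ⟨C, hC, ?_⟩
  filter_upwards [z0 hc3 h34 (A' + 1) (B + B' + 1) 5 hcE, msk3 hc3 h34 1 (by norm_num) (A' + 1) (B + B' + 1) 5 hcE,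
    ev_rp (show (0 : ℝ) < 1 / 2 by norm_num) M0, ev_log (2 ^ B' + 32 * 2 ^ A' + 1), eventually_ge_atTop (4 : ℝ),
    ev_qM hc3 (A' + 1 + 3), ev_qM (show 0 < ε / 6 by positivity) (B' + 1)] with M hz0 hms hM0 hlog hM4 hq3 hq6
  intro M' L R x y Yg Z1 Z2 g hM1 hM2 hL hLM hR hRL hRL2 hx hy hg hgB hZ2 γ hγ
  have hM0' : 0 < M := by linarith
  have hM1' : 1 ≤ M := by linarith
  set ℓ := Real.log M with hℓ
  have hp1 : (0 : ℝ) < 2 ^ B' := by positivity
  have hp2 : (0 : ℝ) < 2 ^ A' := by positivity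
  have hℓ1 : 1 ≤ ℓ := by linarith
  have hℓ0 : 0 < ℓ := by linarith
  have hsq : 2 ≤ M ^ (1 / 2 : ℝ) := by
    rw [← Real.sqrt_eq_rpow]
    apply Real.le_sqrt_of_sq_le
    linarith
  have hM'2 : 2 ≤ M' := hsq.trans hM1
  have hM'0 : 0 < M' := by linarith
  have hM'1 : 1 ≤ M' := by linarith
  have hL0 : 0 < L := by linarith
  have hlogM' : Real.log M' ≤ 2 * ℓ := by
    have h1 := Real.log_le_log hM'0 hM2
    rw [Real.log_pow] at h1
    push_cast at h1
    exact h1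
  have hlogM'0 : 0 ≤ Real.log M' := Real.log_nonneg hM'1
  have hLM' : L ≤ M' := hLM.trans (by
    calc M' ^ (1 - ε) ≤ M' ^ (1 : ℝ) := Real.rpow_le_rpow_of_exponent_le hM'1 (by linarith)
      _ = M' := Real.rpow_one _)
  have hR2M : 4 * R ^ 2 ≤ M ^ 5 := by
    have h1 : M' ^ (1 - ε) ≤ M' := by
      calc M' ^ (1 - ε) ≤ M' ^ (1 : ℝ) := Real.rpow_le_rpow_of_exponent_le hM'1 (by linarith)
        _ = M' := Real.rpow_one _
    have h2 : R ^ 2 ≤ M' * M' := hRL2.trans (mul_le_mul hLM' h1 (by positivity) hM'0.le)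
    have h3 : M' * M' ≤ M ^ 2 * M ^ 2 := mul_le_mul hM2 hM2 hM'0.le (by positivity)
    have h4 : (0 : ℝ) ≤ M ^ 4 := by positivity
    calc 4 * R ^ 2 ≤ 4 * (M ^ 2 * M ^ 2) := by linarith
      _ = 4 * M ^ 4 := by ring
      _ ≤ M * M ^ 4 := mul_le_mul_of_nonneg_right hM4 h4
      _ = M ^ 5 := by ring
  have hMe : M ^ (ε / 2) ≤ M' ^ ε := by
    calc M ^ (ε / 2) = (M ^ (1 / 2 : ℝ)) ^ ε := by
          rw [← Real.rpow_mul hM0'.le]
          ring_nf
      _ ≤ M' ^ ε := Real.rpow_le_rpow (by positivity) hM1 hε.le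
  have hR2b : M' / L * M' ^ ε ≤ R ^ 2 := by
    rw [Real.rpow_add hM'0, Real.rpow_one] at hRL
    rw [div_mul_eq_mul_div, div_le_iff₀ hL0]
    exact hRL
  have hML : M' ^ ε ≤ M' / L := by
    rw [le_div_iff₀ hL0]
    calc M' ^ ε * L ≤ M' ^ ε * M' ^ (1 - ε) := mul_le_mul_of_nonneg_left hLM (by positivity)
      _ = M' := by rw [← Real.rpow_add hM'0]; simp
  have hV3 : M ^ (3 * c4) ≤ 4 * R ^ 2 := by
    have h1 : M ^ (3 * c4) ≤ M ^ (ε / 2) * M ^ (ε / 2) := by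
      rw [← Real.rpow_add hM0']
      exact Real.rpow_le_rpow_of_exponent_le hM1' (by linarith)
    have h2 : M ^ (ε / 2) * M ^ (ε / 2) ≤ (M' / L) * M' ^ ε :=
      mul_le_mul (hMe.trans hML) hMe (by positivity) (by positivity)
    linarith [sq_nonneg R]
  have hV2 : M ^ (2 * c4) ≤ 4 * R ^ 2 :=
    (Real.rpow_le_rpow_of_exponent_le hM1' (by linarith)).trans hV3
  have hlB : (Real.log M') ^ B' ≤ ℓ ^ (B' + 1) := by
    calc (Real.log M') ^ B' ≤ (2 * ℓ) ^ B' := pow_le_pow_left₀ hlogM'0 hlogM' _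
      _ = 2 ^ B' * ℓ ^ B' := mul_pow _ _ _
      _ ≤ ℓ * ℓ ^ B' := mul_le_mul_of_nonneg_right (by linarith) (by positivity)
      _ = _ := by ring
  have hgB2 : (g : ℝ) ≤ ℓ ^ (B + B' + 1) := hgB.trans (pow_le_pow_right₀ hℓ1 (by omega))
  apply hgc M' L R (bt M x y Yg g Z1 Z2) (hM0.trans hM1) hL hLM hR hRL hRL2
  · intro w
    have := bt_bd (x := x) (y := y) (Yg := Yg) (g := g) (Z1 := Z1) (by linarith : 1 < M) (E := 4) hZ2 w
    norm_num at this
    exact this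
  · intro w hw
    unfold bt
    rw [if_neg hw]
    simp
  · intro q r Y1 Y2 K hq hqB hY1 hY12 hY2 hK hKV
    have hqB2 : (q : ℝ) ≤ ℓ ^ (B + B' + 1) := (hqB.trans hlB).trans (pow_le_pow_right₀ hℓ1 (by omega))
    set Y1' := max Y1 Z1 with hY1'
    set Y2' := min Y2 Z2 with hY2'
    have e1 : ∀ k : ℤ, ∑ t ∈ (cls q r Y2).filter (fun t => Y1 < nz t), (bt M x y Yg g Z1 Z2 t : ℂ) * ph k 0 t =
        ∑ t ∈ ci q r Y1' Y2', ((if ct t = 1 then cv (fw M x y) (gy Yg g) t else 0 : ℝ) : ℂ) * ph k 0 t := by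
      intro k
      symm
      have hsub : ci q r Y1' Y2' ⊆ (cls q r Y2).filter (fun t => Y1 < nz t) := by
        intro t ht
        have : t ∈ ci q r Y1 Y2 := by
          rw [mem_ci] at ht ⊢
          exact ⟨ht.1, ht.2.1.trans (min_le_left _ _), ht.2.2.1, lt_of_le_of_lt (le_max_left _ _) ht.2.2.2⟩
        exact this
      have e2 : ∑ t ∈ ci q r Y1' Y2', ((if ct t = 1 then cv (fw M x y) (gy Yg g) t else 0 : ℝ) : ℂ) * ph k 0 t =
          ∑ t ∈ ci q r Y1' Y2', (bt M x y Yg g Z1 Z2 t : ℂ) * ph k 0 t := by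
        refine sum_congr rfl fun t ht => ?_
        rw [mem_ci] at ht
        unfold bt
        rw [if_pos (⟨lt_of_le_of_lt (le_max_right _ _) ht.2.2.2, ht.2.1.trans (min_le_right _ _)⟩ : Z1 < nz t ∧ nz t ≤ Z2)]
      rw [e2]
      apply sum_subset hsub
      intro t ht ht'
      have ht2 : t ∈ ci q r Y1 Y2 := ht
      rw [mem_ci] at ht2
      unfold bt
      rw [if_neg]
      · simp
      · rintro ⟨h1, h2⟩
        apply ht'
        rw [mem_ci]
        exact ⟨ht2.1, le_min ht2.2.1 h2, ht2.2.2.1, max_lt ht2.2.2.2 h1⟩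
    simp only [e1]
    have hK0 : (K : ℝ) ≤ 4 * R ^ 2 / M ^ c4 := by
      rw [le_div_iff₀ (by positivity)]
      calc (K : ℝ) * M ^ c4 ≤ (M' / L * (Real.log M') ^ B') * M ^ c4 := by gcongr
        _ ≤ (M' / L * M ^ (ε / 6)) * M ^ (ε / 3) := by
            apply mul_le_mul
            · exact mul_le_mul_of_nonneg_left (hlB.trans hq6) (by positivity)
            · exact Real.rpow_le_rpow_of_exponent_le hM1' (by linarith)
            · positivity
            · positivity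
        _ = M' / L * M ^ (ε / 2) := by
            rw [mul_assoc, ← Real.rpow_add hM0']
            ring_nf
        _ ≤ M' / L * M' ^ ε := mul_le_mul_of_nonneg_left hMe (by positivity)
        _ ≤ R ^ 2 := hR2b
        _ ≤ 4 * R ^ 2 := by nlinarith [sq_nonneg R]
    have htarget : 2 * ((4 * R ^ 2) ^ 2 / ℓ ^ (A' + 1)) ≤ R ^ 4 / (Real.log M') ^ A' := by
      have hlog' : 0 < Real.log M' := Real.log_pos (by linarith)
      rw [mul_div_assoc', div_le_div_iff₀ (by positivity) (by positivity)]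
      calc 2 * (4 * R ^ 2) ^ 2 * (Real.log M') ^ A' ≤ 2 * (4 * R ^ 2) ^ 2 * (2 * ℓ) ^ A' := by gcongr
        _ = R ^ 4 * ((32 * 2 ^ A') * ℓ ^ A') := by rw [mul_pow 2 ℓ]; ring
        _ ≤ R ^ 4 * (ℓ * ℓ ^ A') := by
            apply mul_le_mul_of_nonneg_left _ (by positivity)
            exact mul_le_mul_of_nonneg_right (by linarith) (by positivity)
        _ = _ := by ring
    refine le_trans ?_ htarget
    rcases le_or_gt Y1' Y2' with hcase | hcase
    · have hY1'0 : 0 ≤ Y1' := hY1.trans (le_max_left _ _)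
      have hY2'V : Y2' ≤ 4 * R ^ 2 := (min_le_left _ _).trans hY2
      have k0 := hz0 x y Yg g q r (4 * R ^ 2) Y1' Y2' hx hy hg hgB2 hq hqB2 hV3 hR2M hY1'0 hcase hY2'V
      have k1 := hms x y (gy Yg g) hx hy (gy_abs _ _) (fun m hm => gy_ct hm) (fun a m ha hm => by
        have h1 := fw_ne ha
        have h2 : ct m = 1 := by
          by_contra hcon
          exact hm (gy_ct hcon)
        rcases ct_np h1.1 h2 with h3 | h3
        · exact Or.inl h3
        · right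
          linarith [h1.2.1]) q K r (4 * R ^ 2) Y1' Y2' hq hqB2 hK hK0 hR2M hV2 hY1'0 hcase hY2'V
      have h0mem : (0 : ℤ) ∈ Icc (-(K : ℤ)) K := by
        rw [mem_Icc]
        omega
      rw [← add_sum_erase _ _ h0mem]
      have e2 : ∑ t ∈ ci q r Y1' Y2', ((if ct t = 1 then cv (fw M x y) (gy Yg g) t else 0 : ℝ) : ℂ) * ph 0 0 t =
          ((∑ t ∈ ci q r Y1' Y2', (if ct t = 1 then cv (fw M x y) (gy Yg g) t else 0) : ℝ) : ℂ) := by
        rw [Complex.ofReal_sum]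
        refine sum_congr rfl fun t _ => ?_
        unfold ph
        simp
      rw [e2, Complex.norm_real, Real.norm_eq_abs]
      have h3 : |∑ t ∈ ci q r Y1' Y2', (if ct t = 1 then cv (fw M x y) (gy Yg g) t else 0)| ^ 2 ≤
          (4 * R ^ 2) ^ 2 / ℓ ^ (A' + 1) := by
        calc |∑ t ∈ ci q r Y1' Y2', (if ct t = 1 then cv (fw M x y) (gy Yg g) t else 0)| ^ 2 ≤
              (4 * R ^ 2 / ℓ ^ (A' + 1)) ^ 2 := pow_le_pow_left₀ (abs_nonneg _) k0 2
          _ = (4 * R ^ 2) ^ 2 / (ℓ ^ (A' + 1)) ^ 2 := div_pow _ _ _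
          _ ≤ (4 * R ^ 2) ^ 2 / ℓ ^ (A' + 1) := by
              apply div_le_div_of_nonneg_left (by positivity) (by positivity)
              exact le_self_pow₀ (one_le_pow₀ hℓ1) (by norm_num)
      linarith
    · have h1 : ci q r Y1' Y2' = ∅ := by
        rw [eq_empty_iff_forall_notMem]
        intro t ht
        rw [mem_ci] at ht
        linarith [ht.2.1, ht.2.2.2]
      rw [h1]
      simp only [sum_empty, norm_zero]
      rw [sum_eq_zero (fun k _ => by norm_num)]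
      positivity
  · exact hγ

end Pool.Agent.J6H16.E2
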