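import Pool.Agent.J6H16.E2.Z0
import Pool.Agent.N954.GN.Div
import Pool.Agent.N407.GN.Til

/-!
# Project E2 (helper16): divisor sums over boxes
-/

set_option autoImplicit false

namespace Pool.Agent.J6H16.E2

open Finset Filter Topology
open Pool.Agent.N782.GN hiding f1
open Pool.Agent.N855.GN
open Pool.Agent.H304R3.HK (UH bb LamK CS)
open Pool.Agent.J6H16.PF Pool.Agent.J6H16.PR

/-- the multiples of `c` in an interval -/
theorem mult_card (N : ℤ) (hN : 0 ≤ N) (c : ℤ) (hc : 1 ≤ c) :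
    (((Icc 1 N).filter (fun l => c ∣ l)).card : ℝ) * c ≤ N := by
  classical
  have h1 : ((Icc 1 N).filter (fun l => c ∣ l)).card ≤ (Icc 1 (N / c)).card := by
    apply card_le_card_of_injOn (fun l => l / c)
    · intro l hl
      rw [mem_coe, mem_filter, mem_Icc] at hl
      rw [mem_coe, mem_Icc]
      obtain ⟨⟨h1, h2⟩, k, rfl⟩ := hl
      have hk : 1 ≤ k := by
        by_contra h
        have : k ≤ 0 := by omega
        nlinarith
      constructor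
      · simp only
        rw [Int.mul_ediv_cancel_left _ (by omega)]
        exact hk
      · exact Int.ediv_le_ediv (by omega) h2
    · intro l hl l' hl' h
      rw [mem_coe, mem_filter] at hl hl'
      obtain ⟨-, k, rfl⟩ := hl
      obtain ⟨-, k', rfl⟩ := hl'
      simp only at h
      rw [Int.mul_ediv_cancel_left _ (by omega), Int.mul_ediv_cancel_left _ (by omega)] at h
      rw [h]
  rw [Int.card_Icc] at h1
  have h2 : 0 ≤ N / c := Int.ediv_nonneg hN (by omega)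
  have h3 : (((Icc 1 N).filter (fun l => c ∣ l)).card : ℤ) ≤ N / c := by
    have h4 : ((N / c + 1 - 1).toNat : ℤ) = N / c := by
      rw [add_sub_cancel_right, Int.toNat_of_nonneg h2]
    calc (((Icc 1 N).filter (fun l => c ∣ l)).card : ℤ) ≤ ((N / c + 1 - 1).toNat : ℤ) := by exact_mod_cast h1
      _ = _ := h4
  have h5 : (((Icc 1 N).filter (fun l => c ∣ l)).card : ℤ) * c ≤ N := by
    calc _ ≤ N / c * c := mul_le_mul_of_nonneg_right h3 (by omega)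
      _ ≤ N := Int.ediv_mul_le N (by omega)
  exact_mod_cast h5

theorem kap_nn (l : ℤ) (a : ZI) : 0 ≤ kap l a := by
  unfold kap
  split_ifs
  · exact Nat.cast_nonneg _
  · exact le_rfl

theorem kap_sum {L : ℝ} (hL : 0 ≤ L) {a : ZI} (ha : a ≠ 0) : ∑ l ∈ Icc 1 ⌊L⌋, kap l a ≤ L := by
  classical
  have hN : 0 ≤ ⌊L⌋ := Int.floor_nonneg.2 hL
  have hc : 1 ≤ ct a := ct_pos ha
  have h1 := mult_card ⌊L⌋ hN (ct a : ℤ) (by exact_mod_cast hc)
  unfold kap
  rw [← sum_filter, sum_const, nsmul_eq_mul]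
  calc _ ≤ (⌊L⌋ : ℝ) := by exact_mod_cast h1
    _ ≤ L := Int.floor_le L

/-- divisors of rational integers -/
theorem dvd_int {a : ZI} {n : ℤ} (h : a ∣ ((n : ℤ) : ZI)) : Zsqrtd.norm a ∣ (ct a : ℤ) * n := by
  obtain ⟨b, hb⟩ := h
  have h1 : (n : ℤ) = a.re * b.re - a.im * b.im := by
    have := congrArg Zsqrtd.re hb
    simpa [sub_eq_add_neg] using this
  have h2 : (0 : ℤ) = a.re * b.im + a.im * b.re := by
    have := congrArg Zsqrtd.im hb
    simpa using this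
  have h3 : Zsqrtd.norm a ∣ a.re * n := by
    refine ⟨b.re, ?_⟩
    rw [Zsqrtd.norm_def, h1]
    linear_combination (a.im) * h2
  have h4 : Zsqrtd.norm a ∣ a.im * n := by
    refine ⟨-b.im, ?_⟩
    rw [Zsqrtd.norm_def, h1]
    linear_combination (-a.re) * h2
  have h5 : Zsqrtd.norm a ∣ ((Int.gcd (a.re * n) (a.im * n) : ℕ) : ℤ) := Int.dvd_coe_gcd h3 h4
  rw [Int.gcd_mul_right] at h5
  have h6 : ((ct a * n.natAbs : ℕ) : ℤ) ∣ (ct a : ℤ) * n := by
    rw [Nat.cast_mul]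
    exact mul_dvd_mul_left _ (Int.natAbs_dvd.2 dvd_rfl)
  exact h5.trans h6

theorem ct_dvd_re {a : ZI} {l m : ℤ} (h : a ∣ (⟨l, m⟩ : ZI)) : ((ct a : ℕ) : ℤ) ∣ l := by
  have h1 : ((ct a : ℕ) : ZI) ∣ (⟨l, m⟩ : ZI) := ((Pool.Agent.N864.GN.MB.dvd_ct (ct a) a).2 dvd_rfl).trans h
  have h2 := (Zsqrtd.intCast_dvd (ct a : ℤ) (⟨l, m⟩ : ZI)).1 (by push_cast; exact h1)
  exact h2.1

/-- the number of the multiples of `a` on a line -/
theorem nm_up {M : ℝ} (hM : 0 ≤ M) {a : ZI} (ha : a ≠ 0) (l : ℤ) :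
    nm M a l ≤ if ((ct a : ℕ) : ℤ) ∣ l then 2 * M * (ct a : ℝ) / nz a + 1 else 0 := by
  classical
  split_ifs with hl
  swap
  · unfold nm
    rw [filter_eq_empty_iff.2, card_empty, Nat.cast_zero]
    intro m _ hd
    exact hl (ct_dvd_re hd)
  have hc : (1 : ℝ) ≤ ct a := by exact_mod_cast ct_pos ha
  have hn := nz_pos ha
  set s : ℝ := nz a / ct a with hs
  have hs0 : 0 < s := by positivity
  set F := (Icc ⌈-M⌉ ⌊M⌋).filter (fun m : ℤ => a ∣ (⟨l, m⟩ : ZI)) with hF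
  have hinj : Set.InjOn (fun m : ℤ => ⌊((m : ℝ) + M) / s⌋) (F : Set ℤ) := by
    intro m hm m' hm' h
    by_contra hne
    rw [mem_coe, hF, mem_filter] at hm hm'
    have h1 : a ∣ ((m - m' : ℤ) : ZI) := by
      have h2 := dvd_sub hm.2 hm'.2
      have h3 : (⟨l, m⟩ : ZI) - ⟨l, m'⟩ = ((m - m' : ℤ) : ZI) * ⟨0, 1⟩ := by
        apply Zsqrtd.ext <;> simp
      rw [h3] at h2
      have h4 : IsUnit (⟨0, 1⟩ : ZI) := by
        rw [← Zsqrtd.norm_eq_one_iff]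
        simp [Zsqrtd.norm_def]
      exact (h4.dvd_mul_right).1 h2
    have h5 := dvd_int h1
    have h6 : Zsqrtd.norm a ≤ |(ct a : ℤ) * (m - m')| := by
      apply Int.le_of_dvd
      · apply abs_pos.2
        apply mul_ne_zero
        · have : 0 < ct a := ct_pos ha
          omega
        · omega
      · exact (dvd_abs _ _).2 h5
    have h7 : nz a ≤ (ct a : ℝ) * |(m : ℝ) - m'| := by
      unfold nz
      have : ((Zsqrtd.norm a : ℤ) : ℝ) ≤ ((|(ct a : ℤ) * (m - m')| : ℤ) : ℝ) := by exact_mod_cast h6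
      rw [Int.cast_abs] at this
      push_cast at this
      rw [abs_mul, abs_of_nonneg (by linarith : (0 : ℝ) ≤ ct a)] at this
      exact this
    have h8 : 1 ≤ |(m : ℝ) - m'| / s := by
      rw [le_div_iff₀ hs0, one_mul, hs, div_le_iff₀ (by linarith)]
      linarith
    have h9 := Int.abs_sub_lt_one_of_floor_eq_floor h
    rw [← sub_div, add_sub_add_right_eq_sub, abs_div, abs_of_pos hs0] at h9
    linarith
  have hmap : ∀ m ∈ F, ⌊((m : ℝ) + M) / s⌋ ∈ Icc (0 : ℤ) ⌊2 * M / s⌋ := by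
    intro m hm
    rw [hF, mem_filter, mem_box2, abs_le] at hm
    rw [mem_Icc]
    constructor
    · apply Int.floor_nonneg.2
      apply div_nonneg _ hs0.le
      linarith [hm.1.1]
    · apply Int.floor_le_floor
      apply div_le_div_of_nonneg_right _ hs0.le
      linarith [hm.1.2]
  have h1 := card_le_card_of_injOn _ hmap hinj
  rw [Int.card_Icc] at h1
  have h2 : 0 ≤ ⌊2 * M / s⌋ := Int.floor_nonneg.2 (by positivity)
  have h3 : (((⌊2 * M / s⌋ + 1 - 0).toNat : ℕ) : ℝ) ≤ 2 * M / s + 1 := by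
    have h4 : (((⌊2 * M / s⌋ + 1 - 0).toNat : ℕ) : ℤ) = ⌊2 * M / s⌋ + 1 := by omega
    have h5 : (((⌊2 * M / s⌋ + 1 - 0).toNat : ℕ) : ℝ) = (⌊2 * M / s⌋ : ℝ) + 1 := by exact_mod_cast h4
    rw [h5]
    linarith [Int.floor_le (2 * M / s)]
  unfold nm
  rw [← hF]
  calc (F.card : ℝ) ≤ (((⌊2 * M / s⌋ + 1 - 0).toNat : ℕ) : ℝ) := by exact_mod_cast h1
    _ ≤ 2 * M / s + 1 := h3
    _ = _ := by
        rw [hs]
        field_simp

/-- the sum over the lines -/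
theorem nm_lines {L M : ℝ} (hL : 0 ≤ L) (hM : 0 ≤ M) {a : ZI} (ha : a ≠ 0) (haM : nz a ≤ 2 * M) :
    ∑ l ∈ Icc 1 ⌊L⌋, nm M a l ≤ 4 * (L * M) * (1 / nz a) := by
  have hn := nz_pos ha
  have hc : (1 : ℝ) ≤ ct a := by exact_mod_cast ct_pos ha
  have h1 : ∀ l ∈ Icc 1 ⌊L⌋, nm M a l ≤ 4 * M / nz a * kap l a := by
    intro l _
    refine (nm_up hM ha l).trans ?_
    unfold kap
    split_ifs
    · have h2 : (1 : ℝ) ≤ 2 * M * (ct a : ℝ) / nz a := by
        rw [le_div_iff₀ hn, one_mul]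
        nlinarith
      have h3 : 4 * M / nz a * (ct a : ℝ) = 2 * (2 * M * (ct a : ℝ) / nz a) := by ring
      rw [h3]
      linarith
    · rw [mul_zero]
  refine (sum_le_sum h1).trans ?_
  rw [← mul_sum]
  calc 4 * M / nz a * ∑ l ∈ Icc 1 ⌊L⌋, kap l a ≤ 4 * M / nz a * L :=
        mul_le_mul_of_nonneg_left (kap_sum hL ha) (by positivity)
    _ = _ := by ring

open Classical in
/-- the divisor function is bounded by the number of the small divisors -/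
theorem dv_small {L M : ℝ} (hM : 1 ≤ M) (hLM : L ≤ M) {l m : ℤ} (hl : l ∈ Icc 1 ⌊L⌋) (hm : m ∈ Icc ⌈-M⌉ ⌊M⌋) :
    (dv (⟨l, m⟩ : ZI) : ℝ) ≤ 2 * ∑ a ∈ bl (2 * M), (if a ∣ (⟨l, m⟩ : ZI) then (1 : ℝ) else 0) := by
  classical
  rw [mem_box] at hl
  rw [mem_box2] at hm
  have hl1 : (1 : ℝ) ≤ l := by exact_mod_cast hl.1
  have hz0 : (⟨l, m⟩ : ZI) ≠ 0 := by
    intro h0
    have h3 := congrArg Zsqrtd.re h0
    simp only [Zsqrtd.re_zero] at h3
    omega
  have hz : nz (⟨l, m⟩ : ZI) ≤ (2 * M) ^ 2 := by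
    rw [nz_mk]
    have h4 : (m : ℝ) ^ 2 ≤ M ^ 2 := by
      rw [← sq_abs]
      exact pow_le_pow_left₀ (abs_nonneg _) hm 2
    have h5 : (l : ℝ) ^ 2 ≤ M ^ 2 := pow_le_pow_left₀ (by linarith) (hl.2.trans hLM) 2
    nlinarith
  have h1 := Pool.Agent.N954.GN.dv_le (by linarith : 0 < 2 * M) hz0 hz
  rw [← sum_filter, sum_const, nsmul_eq_mul, mul_one]
  have h2 : ((bl (2 * M)).filter (fun a => a ∣ (⟨l, m⟩ : ZI))).card =
    ((bl (2 * M)).filter fun d => d ∣ (⟨l, m⟩ : ZI)).card := rfl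
  calc (dv (⟨l, m⟩ : ZI) : ℝ) ≤ ((2 * ((bl (2 * M)).filter fun d => d ∣ (⟨l, m⟩ : ZI)).card : ℕ) : ℝ) := by
        exact_mod_cast (by convert h1)
    _ = _ := by push_cast; rfl

/-- **divisors in a box** -/
theorem dvbox {L M : ℝ} (hL : 0 ≤ L) (hM : 1 ≤ M) (hLM : L ≤ M) :
    ∑ l ∈ Icc 1 ⌊L⌋, ∑ m ∈ Icc ⌈-M⌉ ⌊M⌋, (dv (⟨l, m⟩ : ZI) : ℝ) ≤ 96 * (L * M) * (1 + Real.log (2 * M)) := by
  classical
  calc ∑ l ∈ Icc 1 ⌊L⌋, ∑ m ∈ Icc ⌈-M⌉ ⌊M⌋, (dv (⟨l, m⟩ : ZI) : ℝ) ≤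
        ∑ l ∈ Icc 1 ⌊L⌋, ∑ m ∈ Icc ⌈-M⌉ ⌊M⌋, 2 * ∑ a ∈ bl (2 * M), (if a ∣ (⟨l, m⟩ : ZI) then (1 : ℝ) else 0) :=
        sum_le_sum fun l hl => sum_le_sum fun m hm => dv_small hM hLM hl hm
    _ = 2 * ∑ a ∈ bl (2 * M), ∑ l ∈ Icc 1 ⌊L⌋, nm M a l := by
        rw [sum_comm' (s := bl (2 * M)) (t := fun _ => Icc 1 ⌊L⌋) (s' := fun _ => bl (2 * M)) (t' := Icc 1 ⌊L⌋)
          (by intros; tauto), mul_sum]
        refine sum_congr rfl fun l _ => ?_
        rw [← mul_sum, sum_comm]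
        congr 1
        refine sum_congr rfl fun a _ => ?_
        unfold nm
        rw [← sum_filter, sum_const, nsmul_eq_mul, mul_one]
    _ ≤ 2 * ∑ a ∈ bl (2 * M), 4 * (L * M) * (1 / nz a) := by
        apply mul_le_mul_of_nonneg_left _ (by norm_num)
        refine sum_le_sum fun a ha => ?_
        rw [mem_bl] at ha
        exact nm_lines hL (by linarith) ha.1 ha.2
    _ = 8 * (L * M) * ∑ a ∈ bl (2 * M), 1 / nz a := by
        rw [← mul_sum]
        ring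
    _ ≤ 8 * (L * M) * (12 * (1 + Real.log (2 * M))) := by
        apply mul_le_mul_of_nonneg_left (Pool.Agent.N954.GN.sum_inv_norm (2 * M) (by linarith))
        have : 0 ≤ M := by linarith
        positivity
    _ = _ := by ring

end Pool.Agent.J6H16.E2
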