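import Pool.Agent.J6H16.E2.Dv

/-!
# Project E2 (helper16): divisor sums over thin boxes, numbers with a large content
-/

set_option autoImplicit false

namespace Pool.Agent.J6H16.E2

open Finset Filter Topology
open Pool.Agent.N782.GN hiding f1
open Pool.Agent.N855.GN
open Pool.Agent.H304R3.HK (UH bb LamK CS)
open Pool.Agent.J6H16.PF Pool.Agent.J6H16.PR

open Classical in
/-- the box `1 ≤ Re z ≤ L`, `|Im z| ≤ M` -/
noncomputable def Zb (L M : ℝ) : Finset ZI :=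
  ((Icc 1 ⌊L⌋) ×ˢ (Icc ⌈-M⌉ ⌊M⌋)).image (fun p : ℤ × ℤ => (⟨p.1, p.2⟩ : ZI))

theorem mem_Zb {L M : ℝ} {z : ZI} : z ∈ Zb L M ↔ 1 ≤ z.re ∧ (z.re : ℝ) ≤ L ∧ |(z.im : ℝ)| ≤ M := by
  classical
  unfold Zb
  rw [mem_image]
  constructor
  · rintro ⟨⟨l, m⟩, h, rfl⟩
    rw [mem_product] at h
    have h1 := mem_box.1 h.1
    have h2 := mem_box2.1 h.2
    exact ⟨h1.1, h1.2, h2⟩
  · rintro ⟨h1, h2, h3⟩
    refine ⟨(z.re, z.im), ?_, rfl⟩
    rw [mem_product]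
    exact ⟨mem_box.2 ⟨h1, h2⟩, mem_box2.2 h3⟩

theorem Zb_ne {L M : ℝ} {z : ZI} (hz : z ∈ Zb L M) : z ≠ 0 := by
  rintro rfl
  rw [mem_Zb] at hz
  have := hz.1
  simp at this

theorem sum_Zb (L M : ℝ) (F : ZI → ℝ) : ∑ z ∈ Zb L M, F z = ∑ l ∈ Icc 1 ⌊L⌋, ∑ m ∈ Icc ⌈-M⌉ ⌊M⌋, F (⟨l, m⟩ : ZI) := by
  classical
  unfold Zb
  rw [sum_image]
  · rw [sum_product]
  · rintro ⟨p, q⟩ _ ⟨p', q'⟩ _ hpq
    have e1 := congrArg Zsqrtd.re hpq
    have e2 := congrArg Zsqrtd.im hpq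
    simp only at e1 e2
    rw [e1, e2]

theorem dvZ {L M : ℝ} (hL : 0 ≤ L) (hM : 1 ≤ M) (hLM : L ≤ M) :
    ∑ z ∈ Zb L M, (dv z : ℝ) ≤ 96 * (L * M) * (1 + Real.log (2 * M)) := by
  rw [sum_Zb]
  exact dvbox hL hM hLM

open Classical in
/-- **divisors in a thin box** -/
theorem thinZ {ε : ℝ} (hε : 0 < ε) : ∃ C : ℝ, 0 < C ∧ ∀ (L M1 M : ℝ), 2 ≤ M1 → M1 ≤ M → 1 ≤ L → L ≤ M1 ^ (1 - ε) →
    L ≤ M → 2 * M ≤ L * M1 ^ (1 - ε) →
    ∑ z ∈ (Zb L M).filter (fun z => M1 < |(z.im : ℝ)|), (dv z : ℝ) ≤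
      4 * (M - M1) * L * (12 * (1 + Real.log (2 * M))) + C * L * M ^ (1 - ε / 10) := by
  obtain ⟨C, hC, h⟩ := c_ti ε hε
  refine ⟨2 * (2 * C), by positivity, ?_⟩
  intro L M1 M hM1 hM12 hL hLM1 hLM hD
  have hM0 : 0 < M := by linarith
  have hM10 : 0 < M1 := by linarith
  have hM1' : 1 ≤ M := by linarith
  have hε1 : ε ≤ 1 := by
    by_contra hcon
    push Not at hcon
    have : M1 ^ (1 - ε) < 1 := Real.rpow_lt_one_of_one_lt_of_neg (by linarith) (by linarith)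
    linarith
  set lam : ℤ → ℝ := fun l => if 1 ≤ l ∧ (l : ℝ) ≤ L then 1 else 0 with hlam
  have hLm : Lm L lam := by
    refine ⟨fun l => ?_, fun l hl => ?_⟩
    · show |(if 1 ≤ l ∧ (l : ℝ) ≤ L then (1 : ℝ) else 0)| ≤ 1
      split_ifs <;> simp
    · show (if 1 ≤ l ∧ (l : ℝ) ≤ L then (1 : ℝ) else 0) = 0
      rw [if_neg]
      rintro ⟨h4, h5⟩
      rcases hl with hl | hl
      · omega
      · linarith
  have hmono : M1 ^ (1 - ε) ≤ M ^ (1 - ε) := Real.rpow_le_rpow hM10.le hM12 (by linarith)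
  have k1 := h M1 L (2 * M) lam hM1 hL hLM1 (by linarith) hD hLm
  have k2 := h M L (2 * M) lam (by linarith) hL (hLM1.trans hmono) (by linarith)
    (hD.trans (mul_le_mul_of_nonneg_left hmono (by linarith))) hLm
  have e0 : ∀ (f : ℤ → ℝ), ∑ l ∈ Icc 1 ⌊L⌋, lam l * f l = ∑ l ∈ Icc 1 ⌊L⌋, f l := by
    intro f
    refine sum_congr rfl fun l hl => ?_
    rw [mem_box] at hl
    rw [hlam]
    simp only
    rw [if_pos hl, one_mul]
  simp only [e0] at k1 k2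
  have e1 : ∑ z ∈ (Zb L M).filter (fun z => M1 < |(z.im : ℝ)|), (dv z : ℝ) ≤
      2 * ∑ a ∈ bl (2 * M), ∑ l ∈ Icc 1 ⌊L⌋, (nm M a l - nm M1 a l) := by
    rw [sum_filter, sum_Zb]
    calc ∑ l ∈ Icc 1 ⌊L⌋, ∑ m ∈ Icc ⌈-M⌉ ⌊M⌋, (if M1 < |(((⟨l, m⟩ : ZI).im : ℤ) : ℝ)| then (dv (⟨l, m⟩ : ZI) : ℝ) else 0) ≤
          ∑ l ∈ Icc 1 ⌊L⌋, ∑ m ∈ Icc ⌈-M⌉ ⌊M⌋, (if M1 < |(m : ℝ)| then
            2 * ∑ a ∈ bl (2 * M), (if a ∣ (⟨l, m⟩ : ZI) then (1 : ℝ) else 0) else 0) := by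
          refine sum_le_sum fun l hl => sum_le_sum fun m hm => ?_
          show (if M1 < |(m : ℝ)| then (dv (⟨l, m⟩ : ZI) : ℝ) else 0) ≤ _
          split_ifs
          · exact dv_small hM1' hLM hl hm
          · exact le_rfl
      _ = 2 * ∑ a ∈ bl (2 * M), ∑ l ∈ Icc 1 ⌊L⌋, (nm M a l - nm M1 a l) := by
          rw [sum_comm' (s := bl (2 * M)) (t := fun _ => Icc 1 ⌊L⌋) (s' := fun _ => bl (2 * M)) (t' := Icc 1 ⌊L⌋)
            (by intros; tauto), mul_sum]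
          refine sum_congr rfl fun l _ => ?_
          have e2 : ∀ m ∈ Icc ⌈-M⌉ ⌊M⌋, (if M1 < |(m : ℝ)| then
            2 * ∑ a ∈ bl (2 * M), (if a ∣ (⟨l, m⟩ : ZI) then (1 : ℝ) else 0) else 0) =
            2 * ∑ a ∈ bl (2 * M), (if M1 < |(m : ℝ)| ∧ a ∣ (⟨l, m⟩ : ZI) then (1 : ℝ) else 0) := by
            intro m _
            split_ifs with hm
            · congr 1
              refine sum_congr rfl fun a _ => ?_
              simp [hm]
            · rw [sum_eq_zero, mul_zero]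
              intro a _
              rw [if_neg]
              exact fun h => hm h.1
          rw [sum_congr rfl e2, ← mul_sum, sum_comm]
          congr 1
          refine sum_congr rfl fun a _ => ?_
          unfold nm
          rw [← sum_filter, sum_const, nsmul_eq_mul, mul_one]
          have e3 : (Icc ⌈-M1⌉ ⌊M1⌋).filter (fun m : ℤ => a ∣ (⟨l, m⟩ : ZI)) =
            ((Icc ⌈-M⌉ ⌊M⌋).filter (fun m : ℤ => a ∣ (⟨l, m⟩ : ZI))).filter (fun m : ℤ => ¬ M1 < |(m : ℝ)|) := by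
            ext m
            rw [mem_filter, mem_filter, mem_filter, mem_box2, mem_box2, not_lt]
            constructor
            · rintro ⟨h1, h2⟩
              exact ⟨⟨h1.trans hM12, h2⟩, h1⟩
            · rintro ⟨⟨h1, h2⟩, h3⟩
              exact ⟨h3, h2⟩
          have e4 : (Icc ⌈-M⌉ ⌊M⌋).filter (fun m : ℤ => M1 < |(m : ℝ)| ∧ a ∣ (⟨l, m⟩ : ZI)) =
            ((Icc ⌈-M⌉ ⌊M⌋).filter (fun m : ℤ => a ∣ (⟨l, m⟩ : ZI))).filter (fun m : ℤ => M1 < |(m : ℝ)|) := by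
            ext m
            rw [mem_filter, mem_filter, mem_filter]
            tauto
          rw [e3, e4]
          have e5 := card_filter_add_card_filter_not (s := (Icc ⌈-M⌉ ⌊M⌋).filter (fun m : ℤ => a ∣ (⟨l, m⟩ : ZI)))
            (fun m : ℤ => M1 < |(m : ℝ)|)
          rw [← e5]
          push_cast
          ring
  refine e1.trans ?_
  have e2 : ∑ a ∈ bl (2 * M), ∑ l ∈ Icc 1 ⌊L⌋, (nm M a l - nm M1 a l) ≤
      ∑ a ∈ bl (2 * M), (|∑ l ∈ Icc 1 ⌊L⌋, (nm M a l - 2 * M * (kap l a / nz a))| +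
        |∑ l ∈ Icc 1 ⌊L⌋, (nm M1 a l - 2 * M1 * (kap l a / nz a))| + 2 * (M - M1) * L * (1 / nz a)) := by
    refine sum_le_sum fun a ha => ?_
    rw [mem_bl] at ha
    have h1 : ∑ l ∈ Icc 1 ⌊L⌋, (nm M a l - nm M1 a l) = ∑ l ∈ Icc 1 ⌊L⌋, (nm M a l - 2 * M * (kap l a / nz a)) -
        ∑ l ∈ Icc 1 ⌊L⌋, (nm M1 a l - 2 * M1 * (kap l a / nz a)) + 2 * (M - M1) / nz a * ∑ l ∈ Icc 1 ⌊L⌋, kap l a := by
      rw [← sum_sub_distrib, mul_sum, ← sum_add_distrib]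
      refine sum_congr rfl fun l _ => ?_
      ring
    rw [h1]
    have h2 := le_abs_self (∑ l ∈ Icc 1 ⌊L⌋, (nm M a l - 2 * M * (kap l a / nz a)))
    have h3 := neg_le_abs (∑ l ∈ Icc 1 ⌊L⌋, (nm M1 a l - 2 * M1 * (kap l a / nz a)))
    have h4 : 2 * (M - M1) / nz a * ∑ l ∈ Icc 1 ⌊L⌋, kap l a ≤ 2 * (M - M1) / nz a * L := by
      apply mul_le_mul_of_nonneg_left (kap_sum (by linarith) ha.1)
      have := nz_pos ha.1
      have : 0 ≤ M - M1 := by linarith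
      positivity
    have h5 : 2 * (M - M1) / nz a * L = 2 * (M - M1) * L * (1 / nz a) := by ring
    linarith
  have e3 : ∑ a ∈ bl (2 * M), (|∑ l ∈ Icc 1 ⌊L⌋, (nm M a l - 2 * M * (kap l a / nz a))| +
        |∑ l ∈ Icc 1 ⌊L⌋, (nm M1 a l - 2 * M1 * (kap l a / nz a))| + 2 * (M - M1) * L * (1 / nz a)) ≤
      C * L * M ^ (1 - ε / 10) + C * L * M1 ^ (1 - ε / 10) + 2 * (M - M1) * L * (12 * (1 + Real.log (2 * M))) := by
    rw [sum_add_distrib, sum_add_distrib, ← mul_sum]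
    refine add_le_add (add_le_add k2 k1) ?_
    apply mul_le_mul_of_nonneg_left (Pool.Agent.N954.GN.sum_inv_norm (2 * M) (by linarith))
    have : 0 ≤ M - M1 := by linarith
    have : 0 ≤ L := by linarith
    positivity
  have e4 : C * L * M1 ^ (1 - ε / 10) ≤ C * L * M ^ (1 - ε / 10) := by
    have : M1 ^ (1 - ε / 10) ≤ M ^ (1 - ε / 10) := Real.rpow_le_rpow hM10.le hM12 (by linarith)
    have hL0 : 0 ≤ L := by linarith
    gcongr
  calc 2 * ∑ a ∈ bl (2 * M), ∑ l ∈ Icc 1 ⌊L⌋, (nm M a l - nm M1 a l) ≤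
        2 * (C * L * M ^ (1 - ε / 10) + C * L * M ^ (1 - ε / 10) + 2 * (M - M1) * L * (12 * (1 + Real.log (2 * M)))) := by
        apply mul_le_mul_of_nonneg_left _ (by norm_num)
        linarith
    _ = _ := by ring

/-- the numbers of a box with a large content -/
theorem ctZ {L M T : ℝ} (hL : 1 ≤ L) (hLM : L ≤ M) (hT : 2 ≤ T) :
    (((Zb L M).filter (fun z => T ≤ (ct z : ℝ))).card : ℝ) ≤ 6 * L * M / T := by
  classical
  have hM : 1 ≤ M := hL.trans hLM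
  set n : ℕ := ⌈T⌉₊ - 1 with hn
  set N : ℕ := ⌊L⌋₊ with hN
  have hT1 : T ≤ ⌈T⌉₊ := Nat.le_ceil T
  have hc2 : 2 ≤ ⌈T⌉₊ := by
    have : (2 : ℝ) ≤ ⌈T⌉₊ := hT.trans hT1
    exact_mod_cast this
  have hn1 : 1 ≤ n := by omega
  have hnT : T / 2 ≤ n := by
    have : (n : ℝ) = (⌈T⌉₊ : ℝ) - 1 := by
      rw [hn, Nat.cast_sub (by omega)]
      simp
    rw [this]
    linarith
  set P : ℕ → Finset ZI := fun e => (Zb L M).filter (fun z => ((e : ℕ) : ZI) ∣ z) with hP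
  have hsub : (Zb L M).filter (fun t => T ≤ (ct t : ℝ)) ⊆ (Ioc n N).biUnion P := by
    intro t ht
    rw [mem_filter] at ht
    rw [mem_biUnion]
    refine ⟨ct t, ?_, ?_⟩
    · rw [mem_Ioc]
      constructor
      · have : ⌈T⌉₊ ≤ ct t := Nat.ceil_le.2 ht.2
        omega
      · rw [hN]
        apply Nat.le_floor
        have h1 := mem_Zb.1 ht.1
        have h2 : ((ct t : ℕ) : ℤ) ∣ t.re := by
          have : (⟨t.re, t.im⟩ : ZI) = t := rfl
          apply ct_dvd_re (a := t) (l := t.re) (m := t.im)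
          rw [this]
        have h3 := Int.le_of_dvd (by omega) h2
        calc ((ct t : ℕ) : ℝ) ≤ (t.re : ℝ) := by exact_mod_cast h3
          _ ≤ L := h1.2.1
    · rw [hP]
      simp only
      rw [mem_filter]
      exact ⟨ht.1, (Pool.Agent.N864.GN.MB.dvd_ct (ct t) t).2 dvd_rfl⟩
  have h1 : ∀ e ∈ Ioc n N, ((P e).card : ℝ) ≤ 3 * L * M * (1 / (e : ℝ) ^ 2) := by
    intro e he
    rw [mem_Ioc] at he
    have he1 : 1 ≤ e := by omega
    have he0 : (0 : ℝ) < e := by exact_mod_cast he1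
    have heL : (e : ℝ) ≤ L := (by exact_mod_cast he.2 : (e : ℝ) ≤ N).trans (Nat.floor_le (by linarith))
    have h2 : (P e).card ≤ ((Icc (1 : ℤ) ⌊L / e⌋) ×ˢ (Icc ⌈-(M / e)⌉ ⌊M / e⌋)).card := by
      apply card_le_card_of_injOn (fun z : ZI => (z.re / (e : ℤ), z.im / (e : ℤ)))
      · intro z hz
        rw [hP] at hz
        simp only [coe_filter, Set.mem_ofPred_eq] at hz
        obtain ⟨h3, h4⟩ := hz
        rw [mem_Zb] at h3
        have h5 := (Zsqrtd.intCast_dvd (e : ℤ) z).1 (by push_cast; exact h4)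
        obtain ⟨⟨u, hu⟩, ⟨v, hv⟩⟩ := h5
        have e1 : z.re / (e : ℤ) = u := by rw [hu, Int.mul_ediv_cancel_left _ (by omega)]
        have e2 : z.im / (e : ℤ) = v := by rw [hv, Int.mul_ediv_cancel_left _ (by omega)]
        simp only [e1, e2]
        rw [coe_product, Set.mem_prod, mem_coe, mem_coe]
        simp only
        have e3 : (z.re : ℝ) = e * u := by rw [hu]; push_cast; ring
        have e4 : (z.im : ℝ) = e * v := by rw [hv]; push_cast; ring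
        rw [mem_box, mem_box2]
        refine ⟨⟨?_, ?_⟩, ?_⟩
        · by_contra hcon
          have h6 : u ≤ 0 := by omega
          have h7 := h3.1
          rw [hu] at h7
          have : (e : ℤ) * u ≤ 0 := mul_nonpos_of_nonneg_of_nonpos (by omega) h6
          omega
        · rw [le_div_iff₀ he0]
          have := h3.2.1
          rw [e3] at this
          linarith
        · rw [le_div_iff₀ he0]
          have := h3.2.2
          rw [e4, abs_mul, abs_of_pos he0] at this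
          linarith
      · intro z hz z' hz' h
        rw [hP] at hz hz'
        simp only [coe_filter, Set.mem_ofPred_eq] at hz hz'
        have h5 := (Zsqrtd.intCast_dvd (e : ℤ) z).1 (by push_cast; exact hz.2)
        have h6 := (Zsqrtd.intCast_dvd (e : ℤ) z').1 (by push_cast; exact hz'.2)
        obtain ⟨⟨u, hu⟩, ⟨v, hv⟩⟩ := h5
        obtain ⟨⟨u', hu'⟩, ⟨v', hv'⟩⟩ := h6
        simp only [Prod.mk.injEq] at h
        rw [hu, hv, hu', hv', Int.mul_ediv_cancel_left _ (by omega), Int.mul_ediv_cancel_left _ (by omega),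
          Int.mul_ediv_cancel_left _ (by omega), Int.mul_ediv_cancel_left _ (by omega)] at h
        apply Zsqrtd.ext
        · rw [hu, hu', h.1]
        · rw [hv, hv', h.2]
    rw [card_product, Int.card_Icc, Int.card_Icc] at h2
    have hLe : 0 ≤ ⌊L / e⌋ := Int.floor_nonneg.2 (by positivity)
    have h3 : (((⌊L / e⌋ + 1 - 1).toNat : ℕ) : ℝ) ≤ L / e := by
      have h4 : (((⌊L / e⌋ + 1 - 1).toNat : ℕ) : ℤ) = ⌊L / e⌋ := by omega
      have h5 : (((⌊L / e⌋ + 1 - 1).toNat : ℕ) : ℝ) = (⌊L / e⌋ : ℝ) := by exact_mod_cast h4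
      rw [h5]
      exact Int.floor_le _
    have h4 : (((⌊M / e⌋ + 1 - ⌈-(M / e)⌉).toNat : ℕ) : ℝ) ≤ 3 * (M / e) := by
      rw [Int.ceil_neg]
      have h5 : 0 ≤ ⌊M / e⌋ := Int.floor_nonneg.2 (by positivity)
      have h6 : (((⌊M / e⌋ + 1 - -⌊M / e⌋).toNat : ℕ) : ℤ) = 2 * ⌊M / e⌋ + 1 := by omega
      have h7 : (((⌊M / e⌋ + 1 - -⌊M / e⌋).toNat : ℕ) : ℝ) = 2 * (⌊M / e⌋ : ℝ) + 1 := by exact_mod_cast h6
      rw [h7]
      have h8 := Int.floor_le (M / (e : ℝ))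
      have h9 : 1 ≤ M / (e : ℝ) := by
        rw [le_div_iff₀ he0, one_mul]
        linarith
      linarith
    calc ((P e).card : ℝ) ≤ ((((⌊L / e⌋ + 1 - 1).toNat * (⌊M / e⌋ + 1 - ⌈-(M / e)⌉).toNat : ℕ)) : ℝ) := by
          exact_mod_cast h2
      _ = (((⌊L / e⌋ + 1 - 1).toNat : ℕ) : ℝ) * (((⌊M / e⌋ + 1 - ⌈-(M / e)⌉).toNat : ℕ) : ℝ) := by push_cast; ring
      _ ≤ (L / e) * (3 * (M / e)) := mul_le_mul h3 h4 (Nat.cast_nonneg _) (by positivity)
      _ = _ := by field_simp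
  calc (((Zb L M).filter (fun t => T ≤ (ct t : ℝ))).card : ℝ) ≤ (((Ioc n N).biUnion P).card : ℝ) := by
          exact_mod_cast card_le_card hsub
    _ ≤ ∑ e ∈ Ioc n N, ((P e).card : ℝ) := by exact_mod_cast card_biUnion_le
    _ ≤ ∑ e ∈ Ioc n N, 3 * L * M * (1 / (e : ℝ) ^ 2) := sum_le_sum h1
    _ = 3 * L * M * ∑ e ∈ Ioc n N, (1 : ℝ) / (e : ℝ) ^ 2 := by rw [mul_sum]
    _ ≤ 3 * L * M * (1 / n) := by
        apply mul_le_mul_of_nonneg_left _ (by positivity)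
        exact Pool.Agent.N277.GN.sum_one_div_sq n N hn1
    _ ≤ 3 * L * M * (1 / (T / 2)) := by
        apply mul_le_mul_of_nonneg_left _ (by positivity)
        exact one_div_le_one_div_of_le (by linarith) hnT
    _ = _ := by field_simp; ring

end Pool.Agent.J6H16.E2
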