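import Pool.Agent.J6H16.E2.Ms3

/-!
# Project E2 (helper16): the weight of the first factor, and its sums with frequencies in all classes
-/

set_option autoImplicit false

namespace Pool.Agent.J6H16.E2

open Finset Filter Topology
open Pool.Agent.N782.GN hiding f1
open Pool.Agent.N855.GN
open Pool.Agent.H304R3.HK (UH bb LamK CS)
open Pool.Agent.J6H16.PF Pool.Agent.J6H16.PR

/-- primes with `x < N(a) ≤ y`, weighted -/
noncomputable def fw (M x y : ℝ) (a : ZI) : ℝ := if x < nz a ∧ nz a ≤ y then Lp a / Real.log M else 0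

theorem fw_ne {M x y : ℝ} {a : ZI} (h : fw M x y a ≠ 0) : np a ∧ x < nz a ∧ nz a ≤ y := by
  unfold fw at h
  split_ifs at h with h1
  · refine ⟨?_, h1⟩
    by_contra h2
    apply h
    unfold Lp
    rw [if_neg h2, zero_div]
  · exact absurd rfl h

theorem fw_nonneg {M : ℝ} (hM : 1 ≤ M) (x y : ℝ) (a : ZI) : 0 ≤ fw M x y a := by
  unfold fw
  split_ifs
  · exact div_nonneg (Lp_nonneg _) (Real.log_nonneg hM)
  · exact le_rfl

theorem fw_le {M : ℝ} (hM : 1 < M) (x y : ℝ) (a : ZI) : |fw M x y a| ≤ 1 / Real.log M * Lp a := by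
  have hl := Real.log_pos hM
  rw [abs_of_nonneg (fw_nonneg hM.le _ _ _)]
  unfold fw
  have := Lp_nonneg a
  split_ifs
  · rw [one_div, div_eq_inv_mul]
  · positivity

/-- non-coprime classes contain no prime of large norm -/
theorem cls_cop {q : ℕ} {s a : ZI} (hq : 1 ≤ q) (ha : np a) (hqa : (q : ℝ) < nz a) (h : ((q : ℕ) : ZI) ∣ a - s) :
    IsCoprime s ((q : ℕ) : ZI) := by
  obtain ⟨u, v, huv⟩ := cop_np ha hq hqa
  obtain ⟨x, hx⟩ := h
  refine ⟨u, v + u * x, ?_⟩
  have : a = s + ((q : ℕ) : ZI) * x := by linear_combination hx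
  rw [this] at huv
  linear_combination huv

/-- the sums of the first factor, all classes, all windows -/
theorem fw_freq {c3 c4 : ℝ} (hc3 : 0 < c3) (h34 : c3 < c4) (A B E : ℕ) (hE : c4 ≤ E) : ∃ C : ℝ, 0 < C ∧
    ∀ᶠ M : ℝ in atTop, ∀ (x y : ℝ) (q : ℕ) (s : ZI) (k : ℤ) (A0 A1 : ℝ), M ^ c3 ≤ x → y ≤ M ^ c4 → 1 ≤ q →
      (q : ℝ) ≤ (Real.log M) ^ B → k ≠ 0 → |(k : ℝ)| ≤ M ^ E → M ^ c3 ≤ A0 → A0 ≤ A1 → A1 ≤ 2 * A0 →
      ‖∑ a ∈ SA q s A0 A1, (fw M x y a : ℂ) * ph k 0 a‖ ≤ C / (Real.log M) ^ A * A0 := by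
  classical
  obtain ⟨C, hC, h⟩ := f1_freq hc3 h34 A B E hE
  refine ⟨2 * C, by positivity, ?_⟩
  filter_upwards [h, ev_log 1, eventually_ge_atTop (3 : ℝ), ev_qM hc3 B] with M h hlog hM3 hqM
  intro x y q s k A0 A1 hx hy hq hqB hk hkE hA0 hA01 hA1
  have hM0 : 0 < M := by linarith
  have hℓ0 : 0 < Real.log M := by linarith
  have hA00 : 0 < A0 := lt_of_lt_of_le (by positivity) hA0
  have hpos : 0 ≤ 2 * C / Real.log M ^ A * A0 := by positivity
  by_cases hs : IsCoprime s ((q : ℕ) : ZI)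
  swap
  · rw [sum_eq_zero]
    · rw [norm_zero]; exact hpos
    · intro a ha
      rw [mem_SA] at ha
      have : fw M x y a = 0 := by
        by_contra hcon
        apply hs
        have h1 := fw_ne hcon
        refine cls_cop hq h1.1 ?_ ha.2.2.1
        calc (q : ℝ) ≤ M ^ c3 := hqB.trans hqM
          _ ≤ x := hx
          _ < nz a := h1.2.1
      rw [this]
      push_cast
      ring
  set A0' := max A0 x with hA0'
  set A1' := min A1 y with hA1'
  rcases le_or_gt A0' A1' with hcase | hcase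
  · have h1 := h q s k A0' A1' hq hqB hs hk hkE (hA0.trans (le_max_left _ _)) hcase (by
      calc A1' ≤ A1 := min_le_left _ _
        _ ≤ 2 * A0 := hA1
        _ ≤ 2 * A0' := by linarith [le_max_left A0 x])
    have e1 : ∑ a ∈ SA q s A0 A1, (fw M x y a : ℂ) * ph k 0 a = ∑ a ∈ SA q s A0' A1', (f1 M c3 c4 a : ℂ) * ph k 0 a := by
      symm
      have hsub : SA q s A0' A1' ⊆ SA q s A0 A1 := by
        intro a ha
        rw [mem_SA] at ha ⊢
        exact ⟨ha.1, ha.2.1.trans (min_le_left _ _), ha.2.2.1, lt_of_le_of_lt (le_max_left _ _) ha.2.2.2⟩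
      have e2 : ∑ a ∈ SA q s A0' A1', (f1 M c3 c4 a : ℂ) * ph k 0 a = ∑ a ∈ SA q s A0' A1', (fw M x y a : ℂ) * ph k 0 a := by
        refine sum_congr rfl fun a ha => ?_
        rw [mem_SA] at ha
        have h3 : x < nz a := lt_of_le_of_lt (le_max_right _ _) ha.2.2.2
        have h4 : nz a ≤ y := ha.2.1.trans (min_le_right _ _)
        unfold f1 fw
        rw [if_pos ⟨lt_of_le_of_lt hx h3, h4.trans hy⟩, if_pos ⟨h3, h4⟩]
      rw [e2]
      apply sum_subset hsub
      intro a ha ha'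
      rw [mem_SA] at ha
      have : fw M x y a = 0 := by
        by_contra hcon
        apply ha'
        have h3 := fw_ne hcon
        rw [mem_SA]
        exact ⟨ha.1, le_min ha.2.1 h3.2.2, ha.2.2.1, max_lt ha.2.2.2 h3.2.1⟩
      rw [this]
      push_cast
      ring
    rw [e1]
    refine h1.trans ?_
    have h5 : A0' ≤ 2 * A0 := hcase.trans ((min_le_left _ _).trans hA1)
    calc C / Real.log M ^ A * A0' ≤ C / Real.log M ^ A * (2 * A0) := by gcongr
      _ = _ := by ring
  · rw [sum_eq_zero]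
    · rw [norm_zero]; exact hpos
    · intro a ha
      rw [mem_SA] at ha
      have : fw M x y a = 0 := by
        by_contra hcon
        have h3 := fw_ne hcon
        have h4 : nz a ≤ A1' := le_min ha.2.1 h3.2.2
        have h5 : A0' < nz a := max_lt ha.2.2.2 h3.2.1
        linarith
      rw [this]
      push_cast
      ring

end Pool.Agent.J6H16.E2
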