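import Pool.Agent.J6H16.E2.Fw

/-!
# Project E2 (helper16): the mean square over the frequencies `k ≠ 0`, with a large parameter, all classes and windows
-/

set_option autoImplicit false

namespace Pool.Agent.J6H16.E2

open Finset Filter Topology MeasureTheory
open Pool.Agent.N782.GN Pool.Agent.N855.GN
open Pool.Agent.H304R3.HK (UH bb LamK CS)
open Pool.Agent.J6H16.PF Pool.Agent.J6H16.PR

/-- **the mean square over the frequencies `k ≠ 0`** -/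
theorem msk3 {c3 c4 : ℝ} (hc3 : 0 < c3) (h34 : c3 < c4) (C1 : ℝ) (hC1 : 0 ≤ C1) (A B E : ℕ) (hE : c4 ≤ E) :
    ∀ᶠ M : ℝ in atTop, ∀ (x y : ℝ) (g : ZI → ℝ), M ^ c3 ≤ x → y ≤ M ^ c4 → (∀ m, |g m| ≤ C1) → (∀ m, ct m ≠ 1 → g m = 0) →
      (∀ a m, fw M x y a ≠ 0 → g m ≠ 0 → ct (a * m) = 1 ∨ (Real.log M) ^ (A + 3) ≤ (ct (a * m) : ℝ)) → ∀ (q K : ℕ) (r : ZI) (V Y1 Y2 : ℝ), 1 ≤ q →
      (q : ℝ) ≤ (Real.log M) ^ B → 1 ≤ K → (K : ℝ) ≤ V / M ^ c4 → V ≤ M ^ E →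
      M ^ (2 * c4) ≤ V → 0 ≤ Y1 → Y1 ≤ Y2 → Y2 ≤ V →
      ∑ k ∈ (Icc (-(K : ℤ)) K).erase 0, ‖∑ t ∈ ci q r Y1 Y2, ((if ct t = 1 then cv (fw M x y) g t else 0 : ℝ) : ℂ) * ph k 0 t‖ ^ 2 ≤
        V ^ 2 / (Real.log M) ^ A := by
  classical
  obtain ⟨Cs, hCs, hms⟩ := ms3
  set A3 : ℕ := (A + 4 + 4 * B) + (A + 1) with hA3
  obtain ⟨C, hC, hf⟩ := fw_freq hc3 h34 A3 B E hE
  have hc4 : 0 < c4 := by linarith
  filter_upwards [hf, ev_log (4 * Cs * C ^ 2 * C1 ^ 2 + 16 * Cs * (C1 * (4 * (E + 1))) ^ 2 * (E + 3) ^ 2 + (2 * E + 2)), eventually_ge_atTop (3 : ℝ),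
    ev_qM hc4 (A + 3), ev_rp hc4 2, ev_rp hc3 1] with M hf hlog hM3 hqM hM2 hMc3
  intro x y g hx hy hg hgp hfg q K r V Y1 Y2 hq hqB hK hKV hVE hVc hY1 hY12 hY2
  have hM0 : 0 < M := by linarith
  have hM1 : 1 ≤ M := by linarith
  set ℓ := Real.log M with hℓ
  have hE0 : (0 : ℝ) ≤ E := Nat.cast_nonneg E
  have hx1 : 0 ≤ 4 * Cs * C ^ 2 * C1 ^ 2 := by positivity
  have hx2 : 0 ≤ 16 * Cs * (C1 * (4 * (E + 1))) ^ 2 * (E + 3) ^ 2 := by positivity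
  have hℓ2 : 2 ≤ ℓ := by linarith
  have hℓ1 : 1 ≤ ℓ := by linarith
  have hℓ0 : 0 < ℓ := by linarith
  have hV0 : 0 < V := lt_of_lt_of_le (by positivity) hVc
  have hM2c : M ^ (2 * c4) = M ^ c4 * M ^ c4 := by rw [← Real.rpow_add hM0]; ring_nf
  have hVM : M ^ c4 ≤ V / M ^ c4 := by
    rw [le_div_iff₀ (by positivity), ← hM2c]
    exact hVc
  have hw34 : M ^ c3 ≤ M ^ c4 := Real.rpow_le_rpow_of_exponent_le hM1 h34.le
  have hMV : M ^ c4 ≤ V := by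
    have : (1 : ℝ) ≤ M ^ c4 := by linarith
    calc M ^ c4 ≤ M ^ c4 * M ^ c4 := le_mul_of_one_le_left (by positivity) this
      _ = M ^ (2 * c4) := hM2c.symm
      _ ≤ V := hVc
  have hV1 : 1 ≤ V := by linarith
  -- parameters
  set η : ℝ := 1 / ℓ ^ (A + 2) with hη
  have hη0 : 0 < η := by positivity
  have hη1 : η ≤ 1 := by
    rw [hη, div_le_one (by positivity)]
    exact one_le_pow₀ hℓ1
  set I : ℕ := ⌈2 * Real.log V / η⌉₊ with hI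
  have hlogV : Real.log V ≤ E * ℓ := by
    have := Real.log_le_log hV0 hVE
    rwa [Real.log_pow] at this
  have hlogV0 : 0 ≤ Real.log V := Real.log_nonneg hV1
  have hI1 : 2 * Real.log V / η ≤ I := Nat.le_ceil _
  have hI2 : (I : ℝ) ≤ ℓ ^ (A + 4) := by
    have h1 := (Nat.ceil_lt_add_one (show 0 ≤ 2 * Real.log V / η by positivity)).le
    have h2 : 2 * Real.log V / η = 2 * Real.log V * ℓ ^ (A + 2) := by
      rw [hη]
      field_simp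
    have h3 : 1 ≤ ℓ ^ (A + 2) := one_le_pow₀ hℓ1
    calc (I : ℝ) ≤ 2 * Real.log V * ℓ ^ (A + 2) + 1 := by rw [← h2]; exact h1
      _ ≤ 2 * (E * ℓ) * ℓ ^ (A + 2) + 1 * ℓ * ℓ ^ (A + 2) := by
          apply add_le_add
          · gcongr
          · rw [one_mul]
            exact one_le_mul_of_one_le_of_one_le hℓ1 h3
      _ = (2 * E + 1) * (ℓ * ℓ ^ (A + 2)) := by ring
      _ ≤ ℓ * (ℓ * ℓ ^ (A + 2)) := by
          apply mul_le_mul_of_nonneg_right _ (by positivity)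
          linarith
      _ = _ := by rw [show A + 4 = (A + 2) + 1 + 1 by ring, pow_succ, pow_succ]; ring
  have hbig : V ≤ M ^ c3 * (1 + η) ^ I :=
    (big_pow hV1 hη0 hη1 hI1).trans (le_mul_of_one_le_left (by positivity) hMc3)
  -- the bound of the coefficients
  set C0 : ℝ := C1 * (4 * (E + 1)) with hC0
  have hC00 : 0 ≤ C0 := by positivity
  have hcf : ∀ t ∈ bl (2 * V), cf (fun a => |fw M x y a|) (fun m => |g m|) (bg (M ^ c3) (M ^ c4)) (bl V) t ≤ C0 := by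
    intro t ht
    rw [mem_bl] at ht
    have h1 := cf_bd (f := fw M x y) (g := g) (S := bg (M ^ c3) (M ^ c4)) (T := bl V) (κ := 1 / ℓ) (C1 := C1)
      (by positivity) hC1 (fw_le (by linarith) _ _) hg ht.1
    refine h1.trans ?_
    have h2 : Real.log (nz t) ≤ (E + 1) * ℓ := by
      have h3 := Real.log_le_log (nz_pos ht.1) ht.2
      rw [Real.log_mul (by norm_num) hV0.ne'] at h3
      have h4 := Real.log_two_lt_d9
      linarith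
    calc C1 * (1 / ℓ) * (4 * Real.log (nz t)) ≤ C1 * (1 / ℓ) * (4 * ((E + 1) * ℓ)) := by gcongr
      _ = C0 := by rw [hC0]; field_simp
  have hKE : ∀ k : ℤ, |(k : ℝ)| ≤ K → |(k : ℝ)| ≤ M ^ E := by
    intro k hk
    refine hk.trans (hKV.trans ((div_le_self hV0.le (by linarith)).trans hVE))
  have key := hms (fw M x y) g q r K I (M ^ c3) (M ^ c4) V η Y1 Y2 (C / ℓ ^ A3) C0 C1 (ℓ ^ (A + 3)) hq hMc3 hMV (hw34.trans hMV)
    hη0 hη1 hbig hY1 hY12 hY2 (by positivity) hC00 hC1 hK hKV (by linarith) (hM2.trans hVM)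
    (fun a ha => (fw_ne ha).2.2.trans hy)
    (fun k hk hkK s A0 A1 hA0 hA01 hA1 => hf x y q s k A0 A1 hx hy hq hqB hk (hKE k hkK) hA0 hA01 hA1)
    hg hgp (one_le_pow₀ hℓ1) hfg hcf
  have e1 : ∀ k : ℤ, ∑ t ∈ ci q r Y1 Y2, ((if ct t = 1 then cv (fw M x y) g t else 0 : ℝ) : ℂ) * ph k 0 t =
      ∑ t ∈ (cls q r Y2).filter (fun t => Y1 < nz t),
        ((if ct t = 1 then cf (fw M x y) g (bg (M ^ c3) (M ^ c4)) (bl V) t else 0 : ℝ) : ℂ) * ph k 0 t := by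
    intro k
    unfold ci
    refine sum_congr rfl fun t ht => ?_
    rw [mem_filter] at ht
    have ht' := (mem_bl _ _).1 (cls_sub q r Y2 ht.1)
    rw [cf_cv (ht'.2.trans hY2)]
    · intro a ha
      exact ((mem_bg).1 ha).1
    · intro a ha _ h
      by_contra hcon
      apply h
      rw [mem_bg]
      exact ⟨ha, (fw_ne hcon).2.2.trans hy, lt_of_le_of_lt hx (fw_ne hcon).2.1⟩
  simp only [e1]
  refine key.trans ?_
  have g1 : Cs * (((I : ℝ) * q ^ 4) ^ 2 * (C / ℓ ^ A3) ^ 2 * C1 ^ 2 * V ^ 2) ≤ V ^ 2 / ℓ ^ A / 4 := by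
    have h1 : ((I : ℝ) * q ^ 4) ^ 2 ≤ (ℓ ^ (A + 4 + 4 * B)) ^ 2 := by
      apply pow_le_pow_left₀ (by positivity)
      rw [pow_add, pow_mul' ℓ 4 B]
      gcongr
    have h2 : ℓ ^ A3 = ℓ ^ (A + 4 + 4 * B) * ℓ ^ A * ℓ := by rw [hA3, pow_add ℓ (A + 4 + 4 * B) (A + 1), pow_succ]; ring
    calc Cs * (((I : ℝ) * q ^ 4) ^ 2 * (C / ℓ ^ A3) ^ 2 * C1 ^ 2 * V ^ 2) ≤
          Cs * ((ℓ ^ (A + 4 + 4 * B)) ^ 2 * (C / ℓ ^ A3) ^ 2 * C1 ^ 2 * V ^ 2) := by gcongr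
      _ = V ^ 2 / ℓ ^ A / 4 * ((4 * Cs * C ^ 2 * C1 ^ 2) / (ℓ ^ A * ℓ ^ 2)) := by
          rw [h2]
          field_simp
      _ ≤ V ^ 2 / ℓ ^ A / 4 * 1 := by
          apply mul_le_mul_of_nonneg_left _ (by positivity)
          rw [div_le_one (by positivity)]
          have h3 : 1 ≤ ℓ ^ A := one_le_pow₀ hℓ1
          have h4 : ℓ ≤ ℓ ^ A * ℓ ^ 2 :=
            (le_self_pow₀ hℓ1 (by norm_num)).trans (le_mul_of_one_le_left (by positivity) h3)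
          linarith
      _ = _ := mul_one _
  have hx3 : 16 * Cs * C0 ^ 2 ≤ ℓ := by
    have h1 : (1 : ℝ) ≤ (E + 3) ^ 2 := one_le_pow₀ (by linarith)
    have h2 : 16 * Cs * C0 ^ 2 * 1 ≤ 16 * Cs * C0 ^ 2 * (E + 3) ^ 2 := mul_le_mul_of_nonneg_left h1 (by positivity)
    have h3 : 16 * Cs * C0 ^ 2 * (E + 3) ^ 2 ≤ ℓ := by rw [hC0]; linarith
    linarith
  have hx4 : 16 * Cs * C0 ^ 2 * (E + 3) ^ 2 ≤ ℓ := by rw [hC0]; linarith
  have hpw : ℓ ^ (A + 2) ≤ ℓ ^ (A + 3) := pow_le_pow_right₀ hℓ1 (by omega)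
  have hsq : Real.sqrt V ≤ V / ℓ ^ (A + 2) := by
    rw [le_div_iff₀ (by positivity)]
    have h1 : ℓ ^ (A + 2) ≤ Real.sqrt V := by
      apply Real.le_sqrt_of_sq_le
      calc (ℓ ^ (A + 2)) ^ 2 ≤ (M ^ c4) ^ 2 := by
            apply pow_le_pow_left₀ (by positivity)
            exact hpw.trans hqM
        _ = M ^ c4 * M ^ c4 := by ring
        _ ≤ V := by rw [← hM2c]; exact hVc
    calc Real.sqrt V * ℓ ^ (A + 2) ≤ Real.sqrt V * Real.sqrt V := mul_le_mul_of_nonneg_left h1 (Real.sqrt_nonneg _)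
      _ = V := Real.mul_self_sqrt hV0.le
  have g2 : Cs * (C0 ^ 2 * V * (η * V + Real.sqrt V)) ≤ V ^ 2 / ℓ ^ A / 4 := by
    calc Cs * (C0 ^ 2 * V * (η * V + Real.sqrt V)) ≤ Cs * (C0 ^ 2 * V * (1 / ℓ ^ (A + 2) * V + V / ℓ ^ (A + 2))) := by
          rw [hη]; gcongr
      _ = V ^ 2 / ℓ ^ A / 4 * ((8 * Cs * C0 ^ 2) / ℓ ^ 2) := by
          rw [pow_add]
          field_simp
          ring
      _ ≤ V ^ 2 / ℓ ^ A / 4 * 1 := by
          apply mul_le_mul_of_nonneg_left _ (by positivity)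
          rw [div_le_one (by positivity)]
          have h4 : ℓ ≤ ℓ ^ 2 := le_self_pow₀ hℓ1 (by norm_num)
          have h5 : 0 ≤ Cs * C0 ^ 2 := by positivity
          linarith
      _ = _ := mul_one _
  have hlog2V : (1 + Real.log (2 * V)) ^ 2 ≤ (E + 3) ^ 2 * ℓ ^ 2 := by
    have h1 : 0 ≤ Real.log (2 * V) := Real.log_nonneg (by linarith)
    have h2 : 1 + Real.log (2 * V) ≤ (E + 3) * ℓ := by
      rw [Real.log_mul (by norm_num) hV0.ne']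
      have := Real.log_two_lt_d9
      linarith
    calc (1 + Real.log (2 * V)) ^ 2 ≤ ((E + 3) * ℓ) ^ 2 := pow_le_pow_left₀ (by linarith) h2 2
      _ = _ := by ring
  have hKV2 : (K : ℝ) * V ≤ V ^ 2 / ℓ ^ (A + 3) := by
    rw [le_div_iff₀ (by positivity)]
    calc (K : ℝ) * V * ℓ ^ (A + 3) ≤ (V / M ^ c4) * V * M ^ c4 := by gcongr
      _ = V ^ 2 := by field_simp
  have g3 : Cs * (C0 ^ 2 * (1 + Real.log (2 * V)) ^ 2 * (K * V + V ^ 2 / (ℓ ^ (A + 3)) ^ 2)) ≤ V ^ 2 / ℓ ^ A / 4 := by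
    have h1 : V ^ 2 / (ℓ ^ (A + 3)) ^ 2 ≤ V ^ 2 / ℓ ^ (A + 3) := by
      apply div_le_div_of_nonneg_left (by positivity) (by positivity)
      exact le_self_pow₀ (one_le_pow₀ hℓ1) (by norm_num)
    calc Cs * (C0 ^ 2 * (1 + Real.log (2 * V)) ^ 2 * (K * V + V ^ 2 / (ℓ ^ (A + 3)) ^ 2)) ≤
          Cs * (C0 ^ 2 * ((E + 3) ^ 2 * ℓ ^ 2) * (V ^ 2 / ℓ ^ (A + 3) + V ^ 2 / ℓ ^ (A + 3))) := by gcongr
      _ = V ^ 2 / ℓ ^ A / 4 * ((8 * Cs * C0 ^ 2 * (E + 3) ^ 2) / ℓ) := by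
          rw [show A + 3 = A + 1 + 2 by ring, pow_add, pow_succ]
          field_simp
          ring
      _ ≤ V ^ 2 / ℓ ^ A / 4 * 1 := by
          apply mul_le_mul_of_nonneg_left _ (by positivity)
          rw [div_le_one (by positivity)]
          have h5 : 0 ≤ Cs * C0 ^ 2 * (E + 3) ^ 2 := by positivity
          linarith
      _ = _ := mul_one _
  have hVA : 0 ≤ V ^ 2 / ℓ ^ A := by positivity
  calc Cs * (((I : ℝ) * q ^ 4) ^ 2 * (C / ℓ ^ A3) ^ 2 * C1 ^ 2 * V ^ 2 + C0 ^ 2 * V * (η * V + Real.sqrt V) +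
        C0 ^ 2 * (1 + Real.log (2 * V)) ^ 2 * (K * V + V ^ 2 / (ℓ ^ (A + 3)) ^ 2)) =
        Cs * (((I : ℝ) * q ^ 4) ^ 2 * (C / ℓ ^ A3) ^ 2 * C1 ^ 2 * V ^ 2) + Cs * (C0 ^ 2 * V * (η * V + Real.sqrt V)) +
        Cs * (C0 ^ 2 * (1 + Real.log (2 * V)) ^ 2 * (K * V + V ^ 2 / (ℓ ^ (A + 3)) ^ 2)) := by ring
    _ ≤ _ := by linarith

end Pool.Agent.J6H16.E2
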