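import Pool.Agent.J6H16.PF.Dn

/-!
# Project E2 (helper16): the prime number theorem for the Gaussian integers, with the constant
-/

set_option autoImplicit false

namespace Pool.Agent.J6H16.E2

open Finset Filter Topology
open Pool.Agent.N782.GN hiding f1
open Pool.Agent.N855.GN
open Pool.Agent.H304R3.HK (UH bb LamK CS)
open Pool.Agent.J6H16.PF

theorem int_inv_sq {c y : ℝ} (hc : 0 < c) (hcy : c ≤ y) : ∫ u in c..y, 1 / u ^ 2 = 1 / c - 1 / y := by
  have h := intervalIntegral.integral_eq_sub_of_hasDerivAt (a := c) (b := y) (f := fun u : ℝ => -(1 / u))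
    (f' := fun u : ℝ => 1 / u ^ 2) (fun u hu => by
      rw [Set.uIcc_of_le hcy] at hu
      have hu0 : u ≠ 0 := by linarith [hu.1]
      have h1 := (hasDerivAt_inv hu0).neg
      have e : (fun u : ℝ => -(1 / u)) = fun u : ℝ => -u⁻¹ := by
        funext u
        rw [one_div]
      rw [e]
      refine h1.congr_deriv ?_
      rw [neg_neg, one_div]) (by
      apply ContinuousOn.intervalIntegrable
      intro u hu
      rw [Set.uIcc_of_le hcy] at hu
      have hu0 : u ≠ 0 := by linarith [hu.1]
      apply ContinuousAt.continuousWithinAt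
      exact continuousAt_const.div (continuousAt_id.pow 2) (pow_ne_zero 2 hu0))
  rw [h]
  ring

theorem ii_ind {x y c : ℝ} (hx : 0 < x) (hxy : x ≤ y) :
    IntervalIntegrable (fun u : ℝ => if c ≤ u then 1 / u ^ 2 else 0) MeasureTheory.volume x y := by
  have h1 : IntervalIntegrable (fun u : ℝ => 1 / u ^ 2) MeasureTheory.volume x y := by
    apply ContinuousOn.intervalIntegrable
    intro u hu
    rw [Set.uIcc_of_le hxy] at hu
    have hu0 : u ≠ 0 := by linarith [hu.1]
    apply ContinuousAt.continuousWithinAt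
    exact continuousAt_const.div (continuousAt_id.pow 2) (pow_ne_zero 2 hu0)
  have h2 : (fun u : ℝ => if c ≤ u then 1 / u ^ 2 else 0) = Set.indicator (Set.Ici c) (fun u => 1 / u ^ 2) := by
    funext u
    rw [Set.indicator_apply]
    rfl
  rw [h2]
  rw [intervalIntegrable_iff] at h1 ⊢
  exact h1.indicator measurableSet_Ici

theorem inv_int {x y c : ℝ} (hx : 0 < x) (hxc : x ≤ c) (hcy : c ≤ y) :
    1 / c = 1 / y + ∫ u in x..y, (if c ≤ u then 1 / u ^ 2 else 0) := by
  have hxy := hxc.trans hcy
  have h3 : ∫ u in x..y, (if c ≤ u then 1 / u ^ 2 else 0) =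
      (∫ u in x..c, (if c ≤ u then 1 / u ^ 2 else 0)) + ∫ u in c..y, (if c ≤ u then 1 / u ^ 2 else 0) := by
    rw [intervalIntegral.integral_add_adjacent_intervals]
    · exact ii_ind hx hxc
    · exact ii_ind (by linarith) hcy
  have h4 : ∫ u in c..y, (if c ≤ u then 1 / u ^ 2 else 0) = ∫ u in c..y, 1 / u ^ 2 := by
    rw [intervalIntegral.integral_of_le hcy, intervalIntegral.integral_of_le hcy]
    exact MeasureTheory.setIntegral_congr_fun measurableSet_Ioc fun u hu => if_pos hu.1.le
  have h5 : ∫ u in x..c, (if c ≤ u then 1 / u ^ 2 else 0) = 0 := by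
    rw [intervalIntegral.integral_of_le hxc, MeasureTheory.integral_Ioc_eq_integral_Ioo]
    exact MeasureTheory.setIntegral_eq_zero_of_forall_eq_zero fun u hu => if_neg (not_le.2 hu.2)
  rw [h3, h4, h5, int_inv_sq (by linarith) hcy]
  ring

theorem int_mod {x y κ : ℝ} (hx : 0 < x) (hxy : x ≤ y) :
    ∫ u in x..y, κ * (u - x) * (1 / u ^ 2) = κ * (Real.log (y / x) - 1 + x / y) := by
  have h := intervalIntegral.integral_eq_sub_of_hasDerivAt (a := x) (b := y)
    (f := fun u : ℝ => κ * (Real.log u + x * u⁻¹))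
    (f' := fun u : ℝ => κ * (u - x) * (1 / u ^ 2)) (fun u hu => by
      rw [Set.uIcc_of_le hxy] at hu
      have hu0 : u ≠ 0 := by linarith [hu.1]
      have h1 := ((Real.hasDerivAt_log hu0).add ((hasDerivAt_inv hu0).const_mul x)).const_mul κ
      refine h1.congr_deriv ?_
      field_simp
      ring) (by
      apply ContinuousOn.intervalIntegrable
      intro u hu
      rw [Set.uIcc_of_le hxy] at hu
      have hu0 : u ≠ 0 := by linarith [hu.1]
      apply ContinuousAt.continuousWithinAt
      exact (continuousAt_const.mul (continuousAt_id.sub continuousAt_const)).mul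
        (continuousAt_const.div (continuousAt_id.pow 2) (pow_ne_zero 2 hu0)))
  rw [h, Real.log_div (by linarith) (by linarith)]
  field_simp
  ring

theorem int_plus {x y η : ℝ} (hx : 0 < x) (hxy : x ≤ y) :
    ∫ u in x..y, η * (u + x) * (1 / u ^ 2) = η * (Real.log (y / x) + 1 - x / y) := by
  have h := intervalIntegral.integral_eq_sub_of_hasDerivAt (a := x) (b := y)
    (f := fun u : ℝ => η * (Real.log u - x * u⁻¹))
    (f' := fun u : ℝ => η * (u + x) * (1 / u ^ 2)) (fun u hu => by
      rw [Set.uIcc_of_le hxy] at hu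
      have hu0 : u ≠ 0 := by linarith [hu.1]
      have h1 := ((Real.hasDerivAt_log hu0).sub ((hasDerivAt_inv hu0).const_mul x)).const_mul η
      refine h1.congr_deriv ?_
      field_simp
      ring) (by
      apply ContinuousOn.intervalIntegrable
      intro u hu
      rw [Set.uIcc_of_le hxy] at hu
      have hu0 : u ≠ 0 := by linarith [hu.1]
      apply ContinuousAt.continuousWithinAt
      exact (continuousAt_const.mul (continuousAt_id.add continuousAt_const)).mul
        (continuousAt_const.div (continuousAt_id.pow 2) (pow_ne_zero 2 hu0)))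
  rw [h, Real.log_div (by linarith) (by linarith)]
  field_simp
  ring

/-- partial summation -/
theorem abel_inv (f : ZI → ℝ) {x y κ η : ℝ} (hx : 0 < x) (hxy : x ≤ y)
    (h : ∀ u : ℝ, x ≤ u → u ≤ y → |∑ t ∈ bl u, f t - κ * u| ≤ η * u) :
    |∑ t ∈ bg x y, f t / nz t - κ * Real.log (y / x)| ≤ η * (2 + Real.log (y / x)) := by
  classical
  have hy0 : 0 < y := by linarith
  set g : ℝ → ℝ := fun u => ∑ t ∈ (bg x y).filter (fun t => nz t ≤ u), f t with hg
  have hgu : ∀ u, x ≤ u → u ≤ y → g u = ∑ t ∈ bl u, f t - ∑ t ∈ bl x, f t := by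
    intro u hu hu'
    have e1 : (bg x y).filter (fun t => nz t ≤ u) = bg x u := by
      ext t
      rw [mem_filter, mem_bg, mem_bg]
      constructor
      · rintro ⟨⟨h1, -, h3⟩, h4⟩
        exact ⟨h1, h4, h3⟩
      · rintro ⟨h1, h2, h3⟩
        exact ⟨⟨h1, h2.trans hu', h3⟩, h2⟩
    simp only [hg]
    rw [e1, bg_sum _ hu]
  have hgb : ∀ u, x ≤ u → u ≤ y → |g u - κ * (u - x)| ≤ η * (u + x) := by
    intro u hu hu'
    have h1 := h u hu hu'
    have h2 := h x le_rfl hxy
    rw [hgu u hu hu']
    have e1 : ∑ t ∈ bl u, f t - ∑ t ∈ bl x, f t - κ * (u - x) =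
      (∑ t ∈ bl u, f t - κ * u) - (∑ t ∈ bl x, f t - κ * x) := by ring
    rw [e1]
    refine (abs_sub _ _).trans ?_
    linarith
  -- the integral representation
  have e1 : ∑ t ∈ bg x y, f t / nz t = 1 / y * g y + ∫ u in x..y, g u * (1 / u ^ 2) := by
    have e2 : ∀ u : ℝ, g u * (1 / u ^ 2) = ∑ t ∈ bg x y, f t * (if nz t ≤ u then 1 / u ^ 2 else 0) := by
      intro u
      simp only [hg]
      rw [sum_filter, sum_mul]
      refine sum_congr rfl fun t _ => ?_
      split_ifs <;> ring
    simp only [e2]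
    rw [intervalIntegral.integral_finsetSum (fun t ht => (ii_ind hx hxy).const_mul (f t))]
    have e3 : g y = ∑ t ∈ bg x y, f t := by
      simp only [hg]
      rw [filter_true_of_mem]
      intro t ht
      exact (mem_bg.1 ht).2.1
    rw [e3, mul_sum, ← sum_add_distrib]
    refine sum_congr rfl fun t ht => ?_
    rw [mem_bg] at ht
    rw [intervalIntegral.integral_const_mul]
    have := inv_int hx ht.2.2.le ht.2.1
    rw [div_eq_mul_one_div, this]
    ring
  have hgi : IntervalIntegrable (fun u => g u * (1 / u ^ 2)) MeasureTheory.volume x y := by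
    have e2 : (fun u : ℝ => g u * (1 / u ^ 2)) =
        ∑ t ∈ bg x y, fun u => f t * (if nz t ≤ u then 1 / u ^ 2 else 0) := by
      funext u
      rw [Finset.sum_apply]
      simp only [hg]
      rw [sum_filter, sum_mul]
      refine sum_congr rfl fun t _ => ?_
      split_ifs <;> ring
    rw [e2]
    exact IntervalIntegrable.sum _ fun t _ => (ii_ind hx hxy).const_mul (f t)
  have hcont : ∀ (a b : ℝ), IntervalIntegrable (fun u : ℝ => a * (u + b) * (1 / u ^ 2)) MeasureTheory.volume x y := by
    intro a b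
    apply ContinuousOn.intervalIntegrable
    intro u hu
    rw [Set.uIcc_of_le hxy] at hu
    have hu0 : u ≠ 0 := by linarith [hu.1]
    apply ContinuousAt.continuousWithinAt
    exact (continuousAt_const.mul (continuousAt_id.add continuousAt_const)).mul
      (continuousAt_const.div (continuousAt_id.pow 2) (pow_ne_zero 2 hu0))
  have hmi : IntervalIntegrable (fun u => κ * (u - x) * (1 / u ^ 2)) MeasureTheory.volume x y := by
    have := hcont κ (-x)
    simpa only [← sub_eq_add_neg] using this
  have e4 : ∑ t ∈ bg x y, f t / nz t - κ * Real.log (y / x) =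
      1 / y * (g y - κ * (y - x)) + ∫ u in x..y, (g u - κ * (u - x)) * (1 / u ^ 2) := by
    have e5 : ∫ u in x..y, (g u - κ * (u - x)) * (1 / u ^ 2) =
        (∫ u in x..y, g u * (1 / u ^ 2)) - ∫ u in x..y, κ * (u - x) * (1 / u ^ 2) := by
      rw [← intervalIntegral.integral_sub hgi hmi]
      refine intervalIntegral.integral_congr fun u _ => ?_
      exact sub_mul _ _ _
    rw [e1, e5, int_mod hx hxy]
    field_simp
    ring
  rw [e4]
  have b1 : |1 / y * (g y - κ * (y - x))| ≤ η * (1 + x / y) := by
    rw [abs_mul, abs_of_pos (by positivity : 0 < 1 / y)]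
    calc 1 / y * |g y - κ * (y - x)| ≤ 1 / y * (η * (y + x)) :=
          mul_le_mul_of_nonneg_left (hgb y hxy le_rfl) (by positivity)
      _ = _ := by field_simp
  have b2 : |∫ u in x..y, (g u - κ * (u - x)) * (1 / u ^ 2)| ≤ η * (Real.log (y / x) + 1 - x / y) := by
    rw [← int_plus hx hxy, ← Real.norm_eq_abs]
    apply intervalIntegral.norm_integral_le_of_norm_le hxy
    · refine MeasureTheory.ae_of_all _ fun u hu => ?_
      have hu0 : 0 < u := by linarith [hu.1]
      rw [norm_mul, Real.norm_eq_abs, Real.norm_eq_abs, abs_of_pos (by positivity : 0 < 1 / u ^ 2)]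
      exact mul_le_mul_of_nonneg_right (hgb u hu.1.le hu.2) (by positivity)
    · exact hcont η x
  calc _ ≤ |1 / y * (g y - κ * (y - x))| + |∫ u in x..y, (g u - κ * (u - x)) * (1 / u ^ 2)| := abs_add_le _ _
    _ ≤ η * (1 + x / y) + η * (Real.log (y / x) + 1 - x / y) := add_le_add b1 b2
    _ = _ := by ring

end Pool.Agent.J6H16.E2
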