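import Pool.Agent.J6H16.E2.Pn

/-!
# Project E2 (helper16): the theorem of Mertens for the Gaussian integers, and the constant of the prime number theorem
-/

set_option autoImplicit false

namespace Pool.Agent.J6H16.E2

open Finset Filter Topology
open Pool.Agent.N782.GN hiding f1
open Pool.Agent.N855.GN
open Pool.Agent.H304R3.HK (UH bb LamK CS)
open Pool.Agent.J6H16.PF

/-- sums with a square root -/
theorem sq_sum (f : ZI → ℝ) (hf : ∀ t, 0 ≤ f t) {c : ℝ} (hc0 : 0 ≤ c)
    (h : ∀ Z : ℝ, 0 < Z → ∑ t ∈ bl Z, f t ≤ c * Z) {X : ℝ} (hX : 0 < X) :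
    ∑ t ∈ bl X, f t * Real.sqrt (X / nz t) ≤ 4 * c * X := by
  classical
  obtain ⟨I, hI⟩ := pow_unbounded_of_one_lt X (show (1 : ℝ) < 4 by norm_num)
  have hpt : ∀ t ∈ bl X, f t * Real.sqrt (X / nz t) ≤ ∑ i ∈ range I, (if nz t ≤ X / 4 ^ i then f t * (2 * 2 ^ i) else 0) := by
    intro t ht
    rw [mem_bl] at ht
    have h1 := nz_one_le ht.1
    have h0 : 0 < nz t := by linarith
    have h2 : 1 ≤ X / nz t := by
      rw [le_div_iff₀ h0, one_mul]
      exact ht.2
    obtain ⟨i, hi1, hi2⟩ := exists_nat_pow_near h2 (show (1 : ℝ) < 4 by norm_num)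
    have hiI : i ∈ range I := by
      rw [mem_range]
      by_contra hcon
      push Not at hcon
      have h3 : (4 : ℝ) ^ I ≤ 4 ^ i := pow_le_pow_right₀ (by norm_num) hcon
      have h4 : X / nz t ≤ X := div_le_self hX.le h1
      linarith
    have h5 : Real.sqrt (X / nz t) ≤ 2 * 2 ^ i := by
      apply Real.sqrt_le_iff.2
      refine ⟨by positivity, hi2.le.trans (le_of_eq ?_)⟩
      rw [mul_pow, ← pow_mul, mul_comm i 2, pow_mul]
      norm_num
      ring
    have h6 : nz t ≤ X / 4 ^ i := by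
      rw [le_div_iff₀ (by positivity), mul_comm]
      rwa [le_div_iff₀ h0] at hi1
    calc f t * Real.sqrt (X / nz t) ≤ f t * (2 * 2 ^ i) := mul_le_mul_of_nonneg_left h5 (hf t)
      _ = (if nz t ≤ X / 4 ^ i then f t * (2 * 2 ^ i) else 0) := by rw [if_pos h6]
      _ ≤ _ := by
        refine single_le_sum (f := fun i => (if nz t ≤ X / 4 ^ i then f t * (2 * 2 ^ i) else 0)) (fun j _ => ?_) hiI
        split_ifs
        · exact mul_nonneg (hf t) (by positivity)
        · exact le_rfl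
  refine (sum_le_sum hpt).trans ?_
  rw [sum_comm]
  have h7 : ∀ i ∈ range I, ∑ t ∈ bl X, (if nz t ≤ X / 4 ^ i then f t * (2 * 2 ^ i) else 0) ≤ 2 * c * X * (1 / 2) ^ i := by
    intro i _
    rw [← sum_filter, ← sum_mul]
    have e1 : (bl X).filter (fun t => nz t ≤ X / 4 ^ i) ⊆ bl (X / 4 ^ i) := by
      intro t ht
      rw [mem_filter, mem_bl] at ht
      exact (mem_bl _ _).2 ⟨ht.1.1, ht.2⟩
    have e2 : ∑ t ∈ (bl X).filter (fun t => nz t ≤ X / 4 ^ i), f t ≤ c * (X / 4 ^ i) :=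
      (sum_le_sum_of_subset_of_nonneg e1 fun t _ _ => hf t).trans (h _ (by positivity))
    calc _ ≤ c * (X / 4 ^ i) * (2 * 2 ^ i) := mul_le_mul_of_nonneg_right e2 (by positivity)
      _ = _ := by
        rw [div_pow, one_pow, show (4 : ℝ) ^ i = 2 ^ i * 2 ^ i by rw [← mul_pow]; norm_num]
        field_simp
  refine (sum_le_sum h7).trans ?_
  rw [← mul_sum]
  have h8 : ∑ i ∈ range I, (1 / 2 : ℝ) ^ i ≤ 2 := by
    rw [geom_sum_eq (by norm_num)]
    have : 0 ≤ (1 / 2 : ℝ) ^ I := by positivity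
    rw [div_le_iff_of_neg (by norm_num)]
    linarith
  calc 2 * c * X * ∑ i ∈ range I, (1 / 2 : ℝ) ^ i ≤ 2 * c * X * 2 := mul_le_mul_of_nonneg_left h8 (by positivity)
    _ = _ := by ring

/-- the bound of Chebyshev -/
theorem cheb : ∃ c : ℝ, 0 < c ∧ ∀ Z : ℝ, 0 < Z → ∑ t ∈ bl Z, LamK t ≤ c * Z := by
  classical
  obtain ⟨C, hC, h⟩ := p2m (show (0 : ℝ) < 1 / 2 by norm_num) 1 0 1
  obtain ⟨C1, hC1, h1⟩ := pow_log (1 / 2) 3 (by norm_num)
  have hev := (h.and (dn_up (show (0 : ℝ) < 1 / 2 by norm_num) le_rfl)).and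
    ((ev_log C).and (eventually_ge_atTop (3 : ℝ)))
  obtain ⟨M0, hM0⟩ := eventually_atTop.1 hev
  set M1 := max M0 3 with hM1
  have hM1' : 3 ≤ M1 := le_max_right _ _
  set c0 := ∑ t ∈ bl M1, LamK t with hc0
  have hc00 : 0 ≤ c0 := sum_nonneg fun t _ => LamK_nonneg t
  refine ⟨1301 + 24 * C1 + c0, by positivity, fun Z hZ => ?_⟩
  by_cases hZ1 : Z < 1
  · have e : bl Z = ∅ := by
      ext t
      rw [mem_bl]
      simp only [notMem_empty, iff_false, not_and, not_le]
      intro ht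
      linarith [nz_one_le ht]
    rw [e, sum_empty]
    positivity
  push Not at hZ1
  by_cases hZM : Z ≤ M1
  · have e1 : ∑ t ∈ bl Z, LamK t ≤ c0 := by
      refine sum_le_sum_of_subset_of_nonneg ?_ fun t _ _ => LamK_nonneg t
      intro t ht
      rw [mem_bl] at ht ⊢
      exact ⟨ht.1, ht.2.trans hZM⟩
    nlinarith
  push Not at hZM
  obtain ⟨⟨g1, g2⟩, g3, g4⟩ := hM0 Z ((le_max_left _ _).trans hZM.le)
  have hZ3 : 3 ≤ Z := by linarith
  have k1 := g1 Z 1 1 (by
    calc Z ^ (1 / 2 : ℝ) ≤ Z ^ (1 : ℝ) := Real.rpow_le_rpow_of_exponent_le hZ1 (by norm_num)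
      _ = Z := Real.rpow_one Z) (by rw [pow_one]) le_rfl (by simp) cop_one1
  rw [cls_one, pow_one] at k1
  have k2 := lamdiff hZ3
  have hl0 : 0 < Real.log Z := Real.log_pos (by linarith)
  have k3 : C * Z / Real.log Z ≤ Z := by
    rw [div_le_iff₀ hl0, mul_comm]
    exact mul_le_mul_of_nonneg_left g3 (by linarith)
  have k4 : 24 * Real.sqrt Z * (Real.log Z) ^ 3 ≤ 24 * C1 * Z := by
    have h5 := h1 Z hZ1
    rw [← Real.sqrt_eq_rpow] at h5
    calc 24 * Real.sqrt Z * (Real.log Z) ^ 3 ≤ 24 * Real.sqrt Z * (C1 * Real.sqrt Z) :=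
          mul_le_mul_of_nonneg_left h5 (by positivity)
      _ = 24 * C1 * (Real.sqrt Z * Real.sqrt Z) := by ring
      _ = _ := by rw [Real.mul_self_sqrt (by linarith)]
  rw [sum_sub_distrib] at k2
  rw [abs_le] at k1
  have k5 : dn (Z ^ (1 / 2 / 4 : ℝ)) 1 * Z ≤ 1300 * Z := mul_le_mul_of_nonneg_right g2 hZ.le
  have k6 : 0 ≤ c0 * Z := by positivity
  calc ∑ t ∈ bl Z, LamK t ≤ 24 * Real.sqrt Z * (Real.log Z) ^ 3 + ∑ t ∈ bl Z, Lp t := by linarith
    _ ≤ 24 * C1 * Z + (1300 * Z + Z) := by linarith [k1.2]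
    _ ≤ _ := by linarith

/-- the theorem of Mertens, with the constant -/
theorem mert : ∃ C : ℝ, 0 < C ∧ ∀ X : ℝ, 1 ≤ X → |∑ c ∈ bl X, LamK c / nz c - 4 * Real.log X| ≤ C := by
  classical
  obtain ⟨c, hc, hch⟩ := cheb
  obtain ⟨C₀, hC₀, hel⟩ := el0
  refine ⟨4 * C₀ * c + 4 * (72 + 2 * C₀), by positivity, fun X hX => ?_⟩
  have hX0 : 0 < X := by linarith
  have hN : ∀ y : ℝ, 1 ≤ y → |((bl y).card : ℝ) - Real.pi * y| ≤ C₀ * Real.sqrt y := by
    intro y hy
    have := hel 1 1 y le_rfl hy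
    rwa [cls_one, Nat.cast_one, one_pow, div_one] at this
  have h1 := tsum_id X
  have hlX : 0 ≤ Real.log X := Real.log_nonneg hX
  -- the left side
  have h2 : |∑ c ∈ bl X, LamK c * ((bl (X / nz c)).card : ℝ) - Real.pi * X * ∑ c ∈ bl X, LamK c / nz c| ≤
      4 * C₀ * c * X := by
    have e1 : ∑ c ∈ bl X, LamK c * ((bl (X / nz c)).card : ℝ) - Real.pi * X * ∑ c ∈ bl X, LamK c / nz c =
        ∑ c ∈ bl X, LamK c * (((bl (X / nz c)).card : ℝ) - Real.pi * (X / nz c)) := by
      rw [mul_sum, ← sum_sub_distrib]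
      refine sum_congr rfl fun t _ => ?_
      ring
    rw [e1]
    calc _ ≤ ∑ c ∈ bl X, C₀ * (LamK c * Real.sqrt (X / nz c)) := by
          refine (abs_sum_le_sum_abs _ _).trans (sum_le_sum fun t ht => ?_)
          rw [mem_bl] at ht
          have htp := nz_pos ht.1
          rw [abs_mul, abs_of_nonneg (LamK_nonneg t)]
          calc LamK t * |((bl (X / nz t)).card : ℝ) - Real.pi * (X / nz t)| ≤ LamK t * (C₀ * Real.sqrt (X / nz t)) :=
                mul_le_mul_of_nonneg_left (hN _ (by rw [le_div_iff₀ htp, one_mul]; exact ht.2)) (LamK_nonneg t)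
            _ = _ := by ring
      _ = C₀ * ∑ c ∈ bl X, LamK c * Real.sqrt (X / nz c) := by rw [mul_sum]
      _ ≤ C₀ * (4 * c * X) := mul_le_mul_of_nonneg_left (sq_sum LamK LamK_nonneg hc.le hch hX0) hC₀.le
      _ = _ := by ring
  -- the right side
  have h3 : |∑ z ∈ bl X, Real.log (nz z) - Real.pi * X * Real.log X| ≤ (72 + 2 * C₀) * X := by
    have e1 : ∑ z ∈ bl X, Real.log (nz z) = ((bl X).card : ℝ) * Real.log X - ∑ z ∈ bl X, Real.log (X / nz z) := by
      rw [← nsmul_eq_mul, ← sum_const, ← sum_sub_distrib]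
      refine sum_congr rfl fun t ht => ?_
      rw [mem_bl] at ht
      rw [Real.log_div hX0.ne' (nz_pos ht.1).ne']
      ring
    have e2 : 0 ≤ ∑ z ∈ bl X, Real.log (X / nz z) := by
      refine sum_nonneg fun t ht => ?_
      rw [mem_bl] at ht
      apply Real.log_nonneg
      rw [le_div_iff₀ (nz_pos ht.1), one_mul]
      exact ht.2
    have e3 : ∑ z ∈ bl X, Real.log (X / nz z) ≤ 72 * X := by
      have e4 := sq_sum (fun _ => (1 : ℝ)) (fun _ => zero_le_one) (c := 9) (by norm_num) (fun Z hZ => by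
        rw [sum_const, nsmul_eq_mul, mul_one]
        by_cases hZ1 : Z < 1
        · have e : bl Z = ∅ := by
            ext t
            rw [mem_bl]
            simp only [notMem_empty, iff_false, not_and, not_le]
            intro ht
            linarith [nz_one_le ht]
          rw [e, card_empty]
          push_cast
          positivity
        · push Not at hZ1
          exact card_bl hZ1) hX0
      calc ∑ z ∈ bl X, Real.log (X / nz z) ≤ ∑ z ∈ bl X, 2 * (1 * Real.sqrt (X / nz z)) := by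
            refine sum_le_sum fun t ht => ?_
            rw [mem_bl] at ht
            have htp := nz_pos ht.1
            have h5 : 0 < X / nz t := by positivity
            have h6 := Real.log_le_sub_one_of_pos (Real.sqrt_pos.2 h5)
            rw [Real.log_sqrt h5.le] at h6
            linarith
        _ = 2 * ∑ z ∈ bl X, 1 * Real.sqrt (X / nz z) := by rw [mul_sum]
        _ ≤ 2 * (4 * 9 * X) := mul_le_mul_of_nonneg_left e4 (by norm_num)
        _ = _ := by ring
    have e5 : |(((bl X).card : ℝ) - Real.pi * X) * Real.log X| ≤ 2 * C₀ * X := by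
      rw [abs_mul, abs_of_nonneg hlX]
      have h6 : Real.log X ≤ 2 * Real.sqrt X := by
        have h7 := Real.log_le_sub_one_of_pos (Real.sqrt_pos.2 hX0)
        rw [Real.log_sqrt hX0.le] at h7
        linarith
      calc _ ≤ C₀ * Real.sqrt X * (2 * Real.sqrt X) := mul_le_mul (hN X hX) h6 hlX (by positivity)
        _ = 2 * C₀ * (Real.sqrt X * Real.sqrt X) := by ring
        _ = _ := by rw [Real.mul_self_sqrt hX0.le]
    have e6 : ∑ z ∈ bl X, Real.log (nz z) - Real.pi * X * Real.log X =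
        (((bl X).card : ℝ) - Real.pi * X) * Real.log X - ∑ z ∈ bl X, Real.log (X / nz z) := by
      rw [e1]
      ring
    rw [e6]
    refine (abs_sub _ _).trans ?_
    rw [abs_of_nonneg e2]
    linarith
  have h4 : |Real.pi * X * (∑ c ∈ bl X, LamK c / nz c - 4 * Real.log X)| ≤ (4 * C₀ * c + 4 * (72 + 2 * C₀)) * X := by
    have e1 : Real.pi * X * (∑ c ∈ bl X, LamK c / nz c - 4 * Real.log X) =
        4 * (∑ z ∈ bl X, Real.log (nz z) - Real.pi * X * Real.log X) -
        (∑ c ∈ bl X, LamK c * ((bl (X / nz c)).card : ℝ) - Real.pi * X * ∑ c ∈ bl X, LamK c / nz c) := by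
      rw [h1]
      ring
    rw [e1]
    refine (abs_sub _ _).trans ?_
    rw [abs_mul, abs_of_pos (by norm_num : (0 : ℝ) < 4)]
    linarith
  rw [abs_mul, abs_of_pos (by positivity)] at h4
  have h5 : X ≤ Real.pi * X := by
    have := Real.pi_gt_three
    nlinarith
  have h6 := mul_le_mul_of_nonneg_right h5 (abs_nonneg (∑ c ∈ bl X, LamK c / nz c - 4 * Real.log X))
  have h7 : |∑ c ∈ bl X, LamK c / nz c - 4 * Real.log X| * X ≤ (4 * C₀ * c + 4 * (72 + 2 * C₀)) * X := by linarith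
  exact le_of_mul_le_mul_right h7 hX0

end Pool.Agent.J6H16.E2
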