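import Pool.Agent.J6H16.E2.Po

/-!
# Project E2 (helper16): the sums of `Lp(a) / N(a)` over windows
-/

set_option autoImplicit false

namespace Pool.Agent.J6H16.E2

open Finset Filter Topology
open Pool.Agent.N782.GN hiding f1
open Pool.Agent.N855.GN
open Pool.Agent.H304R3.HK (UH bb LamK CS)
open Pool.Agent.J6H16.PF

theorem two_div {ℓ K : ℝ} (h : 1 ≤ ℓ) (hK : 0 ≤ K) : K / ℓ * (2 + ℓ) ≤ 3 * K := by
  rw [div_mul_eq_mul_div, div_le_iff₀ (by linarith)]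
  nlinarith

/-- the density, with a weak error term -/
theorem dn_four1 {c : ℝ} (hc : 0 < c) : ∃ C : ℝ, 0 < C ∧ ∀ᶠ M : ℝ in atTop,
    |dn (M ^ (c / 4)) 1 - 4| ≤ C / Real.log M := by
  obtain ⟨E, hE⟩ := exists_nat_ge (c + 1)
  obtain ⟨C, hC, h⟩ := p2m hc 1 0 E
  obtain ⟨C1, hC1, h1⟩ := pow_log (1 / 2) 4 (by norm_num)
  obtain ⟨C2, hC2, h2⟩ := mert
  refine ⟨3 * C + 3 * (24 * C1 / c) + 2 * C2, by positivity, ?_⟩
  filter_upwards [h, eventually_ge_atTop (3 : ℝ), ev_rp hc 3] with M h hM3 hMc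
  have hM0 : 0 < M := by linarith
  have hM1 : 1 ≤ M := by linarith
  have hℓ1 := one_le_log hM3
  set ℓ := Real.log M with hℓ
  have hℓ0 : 0 < ℓ := by linarith
  set d := dn (M ^ (c / 4)) 1 with hd
  set w := M ^ c with hw
  set V := M ^ c * M with hV
  have hw0 : 0 < w := by positivity
  have hw1 : 1 ≤ w := by linarith
  have hwV : w ≤ V := le_mul_of_one_le_right hw0.le hM1
  have hV1 : 1 ≤ V := hw1.trans hwV
  have hVE : V ≤ M ^ E := by
    rw [hV, ← Real.rpow_natCast]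
    calc M ^ c * M = M ^ (c + 1) := by rw [Real.rpow_add hM0, Real.rpow_one]
      _ ≤ _ := Real.rpow_le_rpow_of_exponent_le hM1 hE
  have hlog : Real.log (V / w) = ℓ := by
    rw [hV, mul_div_cancel_left₀ _ hw0.ne']
  have k1 := abel_inv Lp (κ := d) (η := C / ℓ) hw0 hwV (fun u hu hu' => by
    have := h u 1 1 hu (hu'.trans hVE) le_rfl (by simp) cop_one1
    rw [cls_one, pow_one] at this
    refine this.trans (le_of_eq ?_)
    ring)
  have k2 := abel_inv (fun t => LamK t - Lp t) (κ := 0) (η := 24 * C1 / c / ℓ) hw0 hwV (fun u hu hu' => by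
    have hu3 : 3 ≤ u := hMc.trans hu
    have hu0 : 0 < u := by linarith
    have e1 := lamdiff hu3
    have e2 : 0 ≤ ∑ t ∈ bl u, (LamK t - Lp t) := sum_nonneg fun t _ => by linarith [Lp_le_LamK t]
    rw [zero_mul, sub_zero, abs_of_nonneg e2]
    refine e1.trans ?_
    have e3 : c * ℓ ≤ Real.log u := by
      have := Real.log_le_log hw0 hu
      rwa [hw, Real.log_rpow hM0] at this
    have e4 : 0 < Real.log u := by
      have : 0 < c * ℓ := by positivity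
      linarith
    have e5 := h1 u (by linarith)
    rw [← Real.sqrt_eq_rpow] at e5
    have e6 : 24 * Real.sqrt u * (Real.log u) ^ 3 * Real.log u ≤ 24 * C1 * u := by
      calc 24 * Real.sqrt u * (Real.log u) ^ 3 * Real.log u = 24 * Real.sqrt u * (Real.log u) ^ 4 := by ring
        _ ≤ 24 * Real.sqrt u * (C1 * Real.sqrt u) := mul_le_mul_of_nonneg_left e5 (by positivity)
        _ = 24 * C1 * (Real.sqrt u * Real.sqrt u) := by ring
        _ = _ := by rw [Real.mul_self_sqrt hu0.le]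
    have e7 : 0 ≤ 24 * Real.sqrt u * (Real.log u) ^ 3 := by positivity
    rw [div_div, div_mul_eq_mul_div, le_div_iff₀ (by positivity)]
    calc 24 * Real.sqrt u * (Real.log u) ^ 3 * (c * ℓ) ≤ 24 * Real.sqrt u * (Real.log u) ^ 3 * Real.log u :=
          mul_le_mul_of_nonneg_left e3 e7
      _ ≤ _ := e6)
  have k3 := h2 V hV1
  have k4 := h2 w hw1
  have k5 : ∑ t ∈ bg w V, (LamK t - Lp t) / nz t = ∑ t ∈ bg w V, LamK t / nz t - ∑ t ∈ bg w V, Lp t / nz t := by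
    rw [← sum_sub_distrib]
    exact sum_congr rfl fun t _ => sub_div _ _ _
  have k6 := bg_sum (fun t => LamK t / nz t) hwV
  have k7 : Real.log V = Real.log w + ℓ := by
    rw [hV, Real.log_mul hw0.ne' hM0.ne']
  rw [hlog] at k1 k2
  have k8 := two_div hℓ1 hC.le
  have k9 := two_div hℓ1 (show 0 ≤ 24 * C1 / c by positivity)
  rw [k5, zero_mul, sub_zero] at k2
  rw [k6] at k2
  generalize ∑ t ∈ bg w V, Lp t / nz t = s1 at *
  generalize ∑ t ∈ bl V, LamK t / nz t = s2 at *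
  generalize ∑ t ∈ bl w, LamK t / nz t = s3 at *
  have k10 : |d * ℓ - 4 * ℓ| ≤ 3 * C + 3 * (24 * C1 / c) + 2 * C2 := by
    rw [k7] at k3
    rw [abs_le] at k1 k2 k3 k4 ⊢
    constructor <;> linarith [k1.1, k1.2, k2.1, k2.2, k3.1, k3.2, k4.1, k4.2]
  rw [← sub_mul, abs_mul, abs_of_pos hℓ0] at k10
  rw [le_div_iff₀ hℓ0]
  exact k10

/-- **the density is four** -/
theorem dn_four {c : ℝ} (hc : 0 < c) (A : ℕ) : ∃ C : ℝ, 0 < C ∧ ∀ᶠ M : ℝ in atTop,
    |dn (M ^ (c / 4)) 1 - 4| ≤ C / (Real.log M) ^ A := by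
  classical
  obtain ⟨C1, hC1, h1⟩ := dn_four1 hc
  obtain ⟨C2, hC2, h2⟩ := p0m (show 0 < c / 4 by positivity) (2 * A + 1) 0
  obtain ⟨M0, hM0⟩ := eventually_atTop.1 h1
  refine ⟨C1 + 2 * C2 * c, by positivity, ?_⟩
  filter_upwards [h2, eventually_ge_atTop (3 : ℝ), eventually_ge_atTop M0, ev_rp (show 0 < c / 4 by positivity) 1]
    with M h2 hM3 hMM0 hMc
  have hMp : 0 < M := by linarith
  have hℓ1 := one_le_log hM3
  have hℓd : Real.log M = Real.log M := rfl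
  set ℓ := Real.log M with hℓ
  have hℓ0 : 0 < ℓ := by linarith
  set M' := Real.exp (ℓ ^ (A + 1)) with hM'
  have hlM' : Real.log M' = ℓ ^ (A + 1) := Real.log_exp _
  have hMM' : M ≤ M' := by
    rw [← Real.exp_log hMp, hM']
    apply Real.exp_le_exp.2
    rw [← hℓ]
    calc ℓ = ℓ ^ 1 := (pow_one ℓ).symm
      _ ≤ ℓ ^ (A + 1) := pow_le_pow_right₀ hℓ1 (by omega)
  have hM'p : 0 < M' := by linarith
  have k1 := hM0 M' (hMM0.trans hMM')
  rw [hlM'] at k1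
  have hDD : M ^ (c / 4) ≤ M' ^ (c / 4) := Real.rpow_le_rpow hMp.le hMM' (by positivity)
  have k2 := dn_diff (q := 1) le_rfl hMc hDD (c := C2 / ℓ ^ (2 * A + 1)) (fun Z hZ => h2 Z 1 hZ le_rfl (by simp))
  rw [Real.log_rpow hM'p, hlM'] at k2
  have k3 : 2 * (C2 / ℓ ^ (2 * A + 1)) * (c / 4 * ℓ ^ (A + 1)) ≤ 2 * C2 * c / ℓ ^ A := by
    have e : 2 * (C2 / ℓ ^ (2 * A + 1)) * (c / 4 * ℓ ^ (A + 1)) = (1 / 4) * (2 * C2 * c / ℓ ^ A) := by
      have : ℓ ^ (2 * A + 1) = ℓ ^ (A + 1) * ℓ ^ A := by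
        rw [← pow_add]
        congr 1
        ring
      rw [this]
      field_simp
    rw [e]
    have : 0 ≤ 2 * C2 * c / ℓ ^ A := by positivity
    linarith
  have k4 : C1 / ℓ ^ (A + 1) ≤ C1 / ℓ ^ A :=
    div_le_div_of_nonneg_left hC1.le (by positivity) (pow_le_pow_right₀ hℓ1 (by omega))
  have e : (C1 + 2 * C2 * c) / ℓ ^ A = C1 / ℓ ^ A + 2 * C2 * c / ℓ ^ A := by ring
  rw [e]
  generalize dn (M' ^ (c / 4)) 1 = d1 at *
  generalize dn (M ^ (c / 4)) 1 = d2 at *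
  rw [abs_le] at k1 k2 ⊢
  constructor <;> linarith [k1.1, k1.2, k2.1, k2.2]

/-- **the sums over windows** -/
theorem Lp_log {c3 c4 : ℝ} (hc3 : 0 < c3) (hc4 : 0 ≤ c4) (A : ℕ) : ∃ C : ℝ, 0 < C ∧ ∀ᶠ M : ℝ in atTop,
    ∀ x y : ℝ, M ^ c3 ≤ x → x ≤ y → y ≤ M ^ c4 →
      |∑ a ∈ bg x y, Lp a / nz a - 4 * Real.log (y / x)| ≤ C / (Real.log M) ^ A := by
  obtain ⟨E, hE⟩ := exists_nat_ge c4
  obtain ⟨C, hC, h⟩ := p2m hc3 (A + 1) 0 E
  obtain ⟨C1, hC1, h1⟩ := dn_four hc3 (A + 1)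
  refine ⟨C * (2 + c4) + C1 * c4, by positivity, ?_⟩
  filter_upwards [h, h1, eventually_ge_atTop (3 : ℝ)] with M h h1 hM3
  intro x y hx hxy hy
  have hM0 : 0 < M := by linarith
  have hM1 : 1 ≤ M := by linarith
  have hℓ1 := one_le_log hM3
  set ℓ := Real.log M with hℓ
  have hℓ0 : 0 < ℓ := by linarith
  have hx1 : 1 ≤ x := (Real.one_le_rpow hM1 hc3.le).trans hx
  have hx0 : 0 < x := by linarith
  have hyE : y ≤ M ^ E := by
    rw [← Real.rpow_natCast]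
    exact hy.trans (Real.rpow_le_rpow_of_exponent_le hM1 hE)
  have k1 := abel_inv Lp (κ := dn (M ^ (c3 / 4)) 1) (η := C / ℓ ^ (A + 1)) hx0 hxy (fun u hu hu' => by
    have := h u 1 1 (hx.trans hu) (hu'.trans hyE) le_rfl (by simp) cop_one1
    rw [cls_one] at this
    refine this.trans (le_of_eq ?_)
    ring)
  have hl0 : 0 ≤ Real.log (y / x) := Real.log_nonneg (by rw [le_div_iff₀ hx0]; linarith)
  have hl1 : Real.log (y / x) ≤ c4 * ℓ := by
    have e1 : y / x ≤ y := div_le_self (by linarith) hx1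
    have e2 := Real.log_le_log (div_pos (by linarith) hx0 : 0 < y / x) (e1.trans hy)
    rwa [Real.log_rpow hM0] at e2
  set u := Real.log (y / x) with hu
  have k2 : C / ℓ ^ (A + 1) * (2 + u) ≤ C * (2 + c4) / ℓ ^ A := by
    rw [div_mul_eq_mul_div, div_le_div_iff₀ (by positivity) (by positivity), pow_succ]
    have e3 : 2 + u ≤ (2 + c4) * ℓ := by nlinarith
    calc C * (2 + u) * ℓ ^ A ≤ C * ((2 + c4) * ℓ) * ℓ ^ A := by gcongr
      _ = _ := by ring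
  have k3 : |(dn (M ^ (c3 / 4)) 1 - 4) * u| ≤ C1 * c4 / ℓ ^ A := by
    rw [abs_mul, abs_of_nonneg hl0]
    calc |dn (M ^ (c3 / 4)) 1 - 4| * u ≤ C1 / ℓ ^ (A + 1) * (c4 * ℓ) := mul_le_mul h1 hl1 hl0 (by positivity)
      _ = _ := by
        rw [pow_succ]
        field_simp
  have e4 : ∑ a ∈ bg x y, Lp a / nz a - 4 * u = (∑ a ∈ bg x y, Lp a / nz a - dn (M ^ (c3 / 4)) 1 * u) +
      (dn (M ^ (c3 / 4)) 1 - 4) * u := by ring
  rw [e4]
  calc _ ≤ _ := abs_add_le _ _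
    _ ≤ C * (2 + c4) / ℓ ^ A + C1 * c4 / ℓ ^ A := add_le_add (k1.trans k2) k3
    _ = _ := by ring

end Pool.Agent.J6H16.E2
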