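import Pool.Agent.J6H16.E2.Ve

/-!
# Project E2 (helper16): from the Gaussian integers to the rational primes, the identity
-/

set_option autoImplicit false

namespace Pool.Agent.J6H16.E2

open Finset Filter Topology
open Pool.Agent.N782.GN hiding f1
open Pool.Agent.N855.GN
open Pool.Agent.H304R3.HK (UH bb LamK CS)
open Pool.Agent.J6H16.PF Pool.Agent.J6H16.PR

/-- the units -/
def U4 : Finset (ℤ × ℤ) := {(1, 0), (-1, 0), (0, 1), (0, -1)}

theorem U4_mem {v : ZI} (h : nn v = 1) : (v.re, v.im) ∈ U4 := by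
  have h1 : Zsqrtd.norm v = 1 := by
    have h2 : 0 ≤ Zsqrtd.norm v := GaussianInt.norm_nonneg v
    have h3 : ((nn v : ℕ) : ℤ) = Zsqrtd.norm v := Int.natAbs_of_nonneg h2
    rw [← h3, h]
    rfl
  rw [Zsqrtd.norm_def] at h1
  have ha : v.re ≤ 1 := by nlinarith [sq_nonneg v.im]
  have hb : -1 ≤ v.re := by nlinarith [sq_nonneg v.im]
  have hc : v.im ≤ 1 := by nlinarith [sq_nonneg v.re]
  have hd : -1 ≤ v.im := by nlinarith [sq_nonneg v.re]
  generalize v.re = r at *
  generalize v.im = s at *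
  unfold U4
  interval_cases r <;> interval_cases s <;> simp_all

theorem U4_norm {p : ℤ × ℤ} (h : p ∈ U4) : (⟨p.1, p.2⟩ : ZI) * star (⟨p.1, p.2⟩ : ZI) = 1 := by
  unfold U4 at h
  simp only [mem_insert, mem_singleton] at h
  rcases h with rfl | rfl | rfl | rfl <;> rfl

theorem U4_nn {p : ℤ × ℤ} (h : p ∈ U4) : nn (⟨p.1, p.2⟩ : ZI) = 1 := by
  unfold U4 at h
  simp only [mem_insert, mem_singleton] at h
  rcases h with rfl | rfl | rfl | rfl <;> rfl

theorem nn_star (z : ZI) : nn (star z) = nn z := by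
  unfold nn
  rw [Zsqrtd.norm_conj]

theorem nn_cast (z : ZI) : ((nn z : ℕ) : ZI) = z * star z := by
  rw [← Zsqrtd.norm_eq_mul_conj]
  have h10 : 0 ≤ Zsqrtd.norm z := GaussianInt.norm_nonneg z
  have h11 : ((nn z : ℕ) : ℤ) = Zsqrtd.norm z := Int.natAbs_of_nonneg h10
  rw [← h11]
  push_cast
  rfl

/-- a factor of prime norm -/
theorem ex_factor {z : ZI} {p q : ℕ} (hp : p.Prime) (hq : q.Prime) (hpq : p ≠ q) (h : nn z = p * q) :
    ∃ a b : ZI, a * b = z ∧ nn a = p := by
  haveI := Fact.mk hp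
  have hpz : ((p : ℕ) : ZI) ∣ z * star z := by
    rw [← nn_cast, h]
    push_cast
    exact dvd_mul_right _ _
  have hnot : ¬ ((p : ℕ) : ZI) ∣ z := by
    rintro ⟨w, hw⟩
    have h1 : nn z = p * p * nn w := by
      rw [hw, nn_mul, nn_nat]
    rw [h, mul_assoc] at h1
    have h2 : q = p * nn w := Nat.eq_of_mul_eq_mul_left hp.pos h1
    have h3 : p ∣ q := ⟨_, h2⟩
    exact hpq ((Nat.prime_dvd_prime_iff_eq hp hq).1 h3)
  have hirr : ¬ Irreducible ((p : ℕ) : ZI) := by
    intro hirr
    rcases hirr.prime.dvd_or_dvd hpz with h1 | h1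
    · exact hnot h1
    · apply hnot
      obtain ⟨w, hw⟩ := h1
      refine ⟨star w, ?_⟩
      rw [← star_star z, hw, star_mul, mul_comm, star_natCast]
  obtain ⟨a, b, hab⟩ := GaussianInt.sq_add_sq_of_nat_prime_of_not_irreducible p hirr
  set π : ZI := ⟨a, b⟩ with hπ
  have hnπ : nn π = p := by
    unfold nn
    rw [Zsqrtd.norm_def, hπ]
    have : a * a - -1 * b * b = ((a ^ 2 + b ^ 2 : ℕ) : ℤ) := by
      push_cast
      ring
    simp only
    rw [this, hab]
    rfl
  have hπp : Prime π := np_prime (show (nn π).Prime by rw [hnπ]; exact hp)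
  have hπd : π ∣ z * star z := (Dvd.intro _ (by rw [← nn_cast, hnπ])).trans hpz
  rcases hπp.dvd_or_dvd hπd with ⟨w, hw⟩ | ⟨w, hw⟩
  · exact ⟨π, w, hw.symm, hnπ⟩
  · refine ⟨star π, star w, ?_, by rw [nn_star, hnπ]⟩
    rw [← star_star z, hw, star_mul, mul_comm]

/-- the pairs of factors with a prime norm -/
theorem four_pairs {z : ZI} {p q : ℕ} (hz : z ≠ 0) (hp : p.Prime) (hq : q.Prime) (hpq : p ≠ q) (h : nn z = p * q) :
    (((bl (nz z) ×ˢ bl (nz z)).filter (fun c : ZI × ZI => c.1 * c.2 = z)).filter (fun c => nn c.1 = p)).card = 4 := by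
  classical
  obtain ⟨a, b, hab, ha⟩ := ex_factor hp hq hpq h
  have ha0 : a ≠ 0 := by
    rintro rfl
    rw [zero_mul] at hab
    exact hz hab.symm
  have hnb : nn b = q := by
    have h1 : nn z = nn a * nn b := by rw [← hab, nn_mul]
    rw [h, ha] at h1
    exact (Nat.eq_of_mul_eq_mul_left hp.pos h1).symm
  have key : ((bl (nz z) ×ˢ bl (nz z)).filter (fun c : ZI × ZI => c.1 * c.2 = z)).filter (fun c => nn c.1 = p) =
      U4.image (fun u => ((⟨u.1, u.2⟩ : ZI) * a, star (⟨u.1, u.2⟩ : ZI) * b)) := by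
    ext ⟨c, d⟩
    rw [mem_filter, mem_filter, mem_product, mem_image]
    constructor
    · rintro ⟨⟨⟨h1, h2⟩, h3⟩, h4⟩
      simp only at h1 h2 h3 h4
      have hcp : Prime c := np_prime (show (nn c).Prime by rw [h4]; exact hp)
      have hcd : c ∣ a * b := by rw [hab, ← h3]; exact dvd_mul_right _ _
      have hca : c ∣ a := by
        rcases hcp.dvd_or_dvd hcd with h5 | h5
        · exact h5
        · exfalso
          obtain ⟨e, he⟩ := h5
          have h6 : nn b = nn c * nn e := by rw [he, nn_mul]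
          rw [hnb, h4] at h6
          have h7 : p ∣ q := ⟨_, h6⟩
          exact hpq ((Nat.prime_dvd_prime_iff_eq hp hq).1 h7)
      obtain ⟨v, hv⟩ := hca
      have hnv : nn v = 1 := by
        have h6 : nn a = nn c * nn v := by rw [hv, nn_mul]
        rw [ha, h4] at h6
        have h8 : p * 1 = p * nn v := by rw [mul_one]; exact h6
        exact (Nat.eq_of_mul_eq_mul_left hp.pos h8).symm
      have hu := U4_mem (v := star v) (by rw [nn_star, hnv])
      have hve : (⟨(star v).re, (star v).im⟩ : ZI) = star v := rfl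
      have hvv : v * star v = 1 := by
        rw [← nn_cast, hnv]
        simp
      refine ⟨((star v).re, (star v).im), hu, ?_⟩
      simp only [hve, star_star]
      have hc : star v * a = c := by
        rw [hv]
        linear_combination c * hvv
      have hc0 : c ≠ 0 := hcp.ne_zero
      have hd : v * b = d := by
        apply mul_left_cancel₀ hc0
        rw [h3, ← hab, hv]
        ring
      rw [hc, hd]
    · rintro ⟨u, hu, hue⟩
      have h1 := U4_norm hu
      have h2 := U4_nn hu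
      set w : ZI := ⟨u.1, u.2⟩ with hw
      simp only [Prod.mk.injEq] at hue
      obtain ⟨rfl, rfl⟩ := hue
      have h3 : w * a * (star w * b) = z := by
        rw [← hab]
        linear_combination a * b * h1
      have hne : w * a ≠ 0 := by
        intro h0
        rw [h0, zero_mul] at h3
        exact hz h3.symm
      have hne2 : star w * b ≠ 0 := by
        intro h0
        rw [h0, mul_zero] at h3
        exact hz h3.symm
      have h4 : nz (w * a) * nz (star w * b) = nz z := by rw [← Pool.Agent.N855.GN.nz_mul, h3]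
      have h5 := nz_one_le hne
      have h6 := nz_one_le hne2
      refine ⟨⟨⟨(mem_bl _ _).2 ⟨hne, by nlinarith⟩, (mem_bl _ _).2 ⟨hne2, by nlinarith⟩⟩, h3⟩, ?_⟩
      simp only
      rw [nn_mul, h2, one_mul, ha]
  rw [key, card_image_of_injective]
  · rfl
  · intro u u' huu
    simp only [Prod.mk.injEq] at huu
    have h1 := mul_right_cancel₀ ha0 huu.1
    rw [Zsqrtd.mk.injEq] at h1
    exact Prod.ext h1.1 h1.2

open Classical in
/-- the weighted number of the representations `n = p q`, `x < p ≤ y` -/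
noncomputable def w2 (x y : ℝ) (n : ℕ) : ℝ :=
  ∑ p ∈ n.primeFactors.filter (fun p => (n / p).Prime ∧ x < (p : ℝ) ∧ (p : ℝ) ≤ y),
    Real.log p * Real.log ((n / p : ℕ) : ℝ)

/-- **the identity** -/
theorem cv_w2 {M x y : ℝ} {z : ZI} (hz : z ≠ 0) (hy : y ^ 2 < nz z) :
    cv (fw M x y) Lp z = 4 / Real.log M * w2 x y (nn z) := by
  classical
  have hn0 : nn z ≠ 0 := nn_ne_zero hz
  set n := nn z with hn
  set P := (bl (nz z) ×ˢ bl (nz z)).filter (fun c : ZI × ZI => c.1 * c.2 = z) with hP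
  set F := n.primeFactors.filter (fun p => (n / p).Prime ∧ x < (p : ℝ) ∧ (p : ℝ) ≤ y) with hF
  have hPm : ∀ c ∈ P, nn c.1 * nn c.2 = n := by
    intro c hc
    rw [hP, mem_filter] at hc
    rw [← nn_mul, hc.2]
  have e1 : cv (fw M x y) Lp z = ∑ c ∈ P.filter (fun c => nn c.1 ∈ F), fw M x y c.1 * Lp c.2 := by
    unfold cv cf
    rw [← hP]
    symm
    apply sum_subset (filter_subset _ _)
    intro c hc hc'
    by_contra hne
    apply hc'
    rw [mem_filter]
    refine ⟨hc, ?_⟩
    have h1 := fw_ne (left_ne_zero_of_mul hne)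
    have h2 : np c.2 := by
      by_contra h3
      apply right_ne_zero_of_mul hne
      unfold Lp
      rw [if_neg h3]
    have h3 : (nn c.1).Prime := h1.1
    have h4 : (nn c.2).Prime := h2
    have h5 := hPm c hc
    rw [hF, mem_filter, Nat.mem_primeFactors]
    have h6 : n / nn c.1 = nn c.2 := by rw [← h5, Nat.mul_div_cancel_left _ h3.pos]
    refine ⟨⟨h3, ⟨_, h5.symm⟩, hn0⟩, ?_, ?_, ?_⟩
    · rw [h6]; exact h4
    · rw [← nz_nn]; exact h1.2.1
    · rw [← nz_nn]; exact h1.2.2
  rw [e1]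
  have e2 : ∑ c ∈ P.filter (fun c => nn c.1 ∈ F), fw M x y c.1 * Lp c.2 =
      ∑ p ∈ F, ∑ c ∈ (P.filter (fun c => nn c.1 ∈ F)).filter (fun c => nn c.1 = p), fw M x y c.1 * Lp c.2 := by
    rw [sum_fiberwise_of_maps_to]
    intro c hc
    exact (mem_filter.1 hc).2
  rw [e2]
  unfold w2
  rw [mul_sum]
  refine sum_congr rfl fun p hp => ?_
  have hpF : p ∈ F := hp
  rw [mem_filter, Nat.mem_primeFactors] at hp
  obtain ⟨⟨hpp, hpn, -⟩, hq, hxp, hpy⟩ := hp
  have hnpq : n = p * (n / p) := (Nat.mul_div_cancel' hpn).symm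
  have hne : p ≠ n / p := by
    intro h1
    rw [← h1] at hnpq
    have h2 : nz z = (p : ℝ) * p := by
      rw [nz_nn, ← hn, hnpq]
      push_cast
      ring
    have h3 : (0 : ℝ) ≤ p := Nat.cast_nonneg p
    nlinarith
  have e3 : (P.filter (fun c => nn c.1 ∈ F)).filter (fun c => nn c.1 = p) = P.filter (fun c => nn c.1 = p) := by
    rw [filter_filter]
    apply filter_congr
    intro c _
    constructor
    · exact fun h => h.2
    · exact fun h => ⟨by rw [h]; exact hpF, h⟩
  rw [e3]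
  have e4 : ∀ c ∈ P.filter (fun c => nn c.1 = p), fw M x y c.1 * Lp c.2 =
      Real.log p / Real.log M * Real.log ((n / p : ℕ) : ℝ) := by
    intro c hc
    rw [mem_filter] at hc
    have h1 := hPm c hc.1
    have h2 : nn c.2 = n / p := by
      rw [← h1, hc.2, Nat.mul_div_cancel_left _ hpp.pos]
    have h3 : np c.1 := by
      show (nn c.1).Prime
      rw [hc.2]; exact hpp
    have h4 : np c.2 := by
      show (nn c.2).Prime
      rw [h2]; exact hq
    have h5 : nz c.1 = p := by rw [nz_nn, hc.2]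
    have h6 : nz c.2 = ((n / p : ℕ) : ℝ) := by rw [nz_nn, h2]
    unfold fw Lp
    rw [if_pos h3, if_pos h4, h5, h6, if_pos ⟨hxp, hpy⟩]
  rw [sum_congr rfl e4, sum_const, nsmul_eq_mul]
  have e5 : (P.filter (fun c => nn c.1 = p)).card = 4 := four_pairs hz hpp hq hne hnpq
  rw [e5]
  push_cast
  ring

end Pool.Agent.J6H16.E2
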