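import Pool.Agent.J6H16.E2.Pq
import Pool.Agent.J6H16.E2.Pp

/-!
# Project E2 (helper16): from the Gaussian integers to the rational primes, on average
-/

set_option autoImplicit false

namespace Pool.Agent.J6H16.E2

open Finset Filter Topology
open Pool.Agent.N782.GN hiding f1
open Pool.Agent.N855.GN
open Pool.Agent.H304R3.HK (UH bb LamK CS)
open Pool.Agent.J6H16.PF Pool.Agent.J6H16.PR

/-- the prime powers -/
noncomputable def Dp (t : ZI) : ℝ := LamK t - Lp t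

theorem Dp_nonneg (t : ZI) : 0 ≤ Dp t := by
  unfold Dp
  linarith [Lp_le_LamK t]

theorem cv_split (f : ZI → ℝ) (t : ZI) : cv f LamK t = cv f Lp t + cv f Dp t := by
  unfold cv cf
  rw [← sum_add_distrib]
  refine sum_congr rfl fun p _ => ?_
  unfold Dp
  ring

theorem cv_Dp_nonneg {M : ℝ} (hM : 1 ≤ M) (x y : ℝ) (t : ZI) : 0 ≤ cv (fw M x y) Dp t := by
  unfold cv cf
  exact sum_nonneg fun p _ => mul_nonneg (fw_nonneg hM _ _ _) (Dp_nonneg _)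

theorem Zb_sub {L M : ℝ} (hLM : L ≤ M) : Zb L M ⊆ bl (2 * M ^ 2) := by
  intro z hz
  have h1 := mem_Zb.1 hz
  have h2 : (1 : ℝ) ≤ z.re := by exact_mod_cast h1.1
  rw [mem_bl]
  refine ⟨Zb_ne hz, ?_⟩
  rw [nz_eq]
  have h4 : (z.im : ℝ) ^ 2 ≤ M ^ 2 := by
    rw [← sq_abs]
    exact pow_le_pow_left₀ (abs_nonneg _) h1.2.2 2
  have h5 : (z.re : ℝ) ^ 2 ≤ M ^ 2 := pow_le_pow_left₀ (by linarith) (h1.2.1.trans hLM) 2
  linarith

/-- the prime powers are negligible -/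
theorem pw_small {M L x y : ℝ} (hM : 3 ≤ M) (hLM : L ≤ M) (hy1 : 1 ≤ y) (hyM : y ≤ M) :
    ∑ l ∈ Icc 1 ⌊L⌋, ∑ m ∈ Icc ⌈-M⌉ ⌊M⌋, cv (fw M x y) Dp (⟨l, m⟩ : ZI) ≤ 400000 * (M * y * (Real.log M) ^ 3) := by
  classical
  have hM1 : 1 ≤ M := by linarith
  have hM1' : 1 < M := by linarith
  set X := 2 * M ^ 2 with hX
  have hX3 : 3 ≤ X := by nlinarith
  have hX1 : 1 ≤ X := by linarith
  rw [← sum_Zb L M (cv (fw M x y) Dp)]
  have e1 : ∑ z ∈ Zb L M, cv (fw M x y) Dp z ≤ ∑ z ∈ bl X, cv (fw M x y) Dp z * (if z ∈ bl X then 1 else 0) := by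
    refine (sum_le_sum_of_subset_of_nonneg (Zb_sub hLM) fun z _ _ => cv_Dp_nonneg hM1 x y z).trans (le_of_eq ?_)
    refine sum_congr rfl fun z hz => ?_
    rw [if_pos hz, mul_one]
  refine e1.trans ?_
  rw [cv_sum (fw M x y) Dp (fun z => if z ∈ bl X then 1 else 0) hX1 (fun t ht => if_neg ht)]
  have e2 : ∑ a ∈ bl X, ∑ m ∈ bl X, fw M x y a * Dp m * (if a * m ∈ bl X then (1 : ℝ) else 0) ≤
      (∑ a ∈ bl X, fw M x y a) * ∑ m ∈ bl X, Dp m := by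
    rw [sum_mul]
    refine sum_le_sum fun a _ => ?_
    rw [mul_sum]
    refine sum_le_sum fun m _ => ?_
    have h1 : 0 ≤ fw M x y a * Dp m := mul_nonneg (fw_nonneg hM1 _ _ _) (Dp_nonneg _)
    split_ifs
    · rw [mul_one]
    · rw [mul_zero]; exact h1
  refine e2.trans ?_
  have e3 : ∑ a ∈ bl X, fw M x y a ≤ 288 * y := by
    have h1 := sg_le (x := x) hM1' hy1 hyM
    have hsub : bg x y ⊆ bl X := by
      intro a ha
      rw [mem_bg] at ha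
      refine (mem_bl _ _).2 ⟨ha.1, ha.2.1.trans (hyM.trans ?_)⟩
      exact le_two_sq hM1
    calc ∑ a ∈ bl X, fw M x y a = ∑ a ∈ bg x y, fw M x y a := by
          symm
          apply sum_subset hsub
          intro a ha ha'
          by_contra hne
          apply ha'
          have h3 := fw_ne hne
          exact mem_bg.2 ⟨((mem_bl _ _).1 ha).1, h3.2.2, h3.2.1⟩
      _ ≤ ∑ a ∈ bg x y, fw M x y a / nz a * y := by
          refine sum_le_sum fun a ha => ?_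
          rw [mem_bg] at ha
          have hap := nz_pos ha.1
          rw [div_mul_eq_mul_div, le_div_iff₀ hap]
          exact mul_le_mul_of_nonneg_left ha.2.1 (fw_nonneg hM1 _ _ _)
      _ = sg M x y * y := by rw [← sum_mul, sg]
      _ ≤ _ := mul_le_mul_of_nonneg_right h1 (by linarith)
  have e4 := lamdiff hX3
  have hsq : Real.sqrt X ≤ 2 * M := by
    apply Real.sqrt_le_iff.2
    refine ⟨by linarith, ?_⟩
    rw [hX]
    nlinarith
  have hlog : Real.log X ≤ 3 * Real.log M := by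
    have h1 : X ≤ M ^ 3 := two_sq_le hM
    have h2 := Real.log_le_log (by linarith) h1
    rwa [Real.log_pow, Nat.cast_ofNat] at h2
  have hlog0 : 0 ≤ Real.log X := Real.log_nonneg hX1
  have hlM : 0 ≤ Real.log M := Real.log_nonneg hM1
  have e5 : ∑ m ∈ bl X, Dp m ≤ 24 * (2 * M) * (3 * Real.log M) ^ 3 := by
    refine (show ∑ m ∈ bl X, Dp m ≤ _ from e4).trans ?_
    gcongr
  have e6 : 0 ≤ ∑ m ∈ bl X, Dp m := sum_nonneg fun m _ => Dp_nonneg m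
  calc (∑ a ∈ bl X, fw M x y a) * ∑ m ∈ bl X, Dp m ≤ 288 * y * (24 * (2 * M) * (3 * Real.log M) ^ 3) :=
        mul_le_mul e3 e5 e6 (by linarith)
    _ = 373248 * (M * y * (Real.log M) ^ 3) := by ring
    _ ≤ _ := by
        have : 0 ≤ M * y * (Real.log M) ^ 3 := by positivity
        linarith

/-- the mean value of the singular series -/
theorem SS_mean : ∃ C : ℝ, 0 < C ∧ ∀ L : ℝ, 1 ≤ L → ∑ l ∈ Icc 1 ⌊L⌋, |SS l| ≤ C * L := by
  obtain ⟨C, hC, h⟩ := c_mt1 0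
  refine ⟨C + 27, by positivity, fun L hL => ?_⟩
  have h1 := (h L 3 hL le_rfl).2
  rw [pow_zero, div_one] at h1
  have hl3 : Real.log 3 ≤ 2 := by
    have := Real.log_le_sub_one_of_pos (show (0 : ℝ) < 3 by norm_num)
    linarith
  have e1 : ∀ l ∈ Icc 1 ⌊L⌋, |SS l| ≤ |1 / 4 * ∑ b ∈ bl 3, mu b * (kap l b / nz b) * Real.log (nz b) + SS l| +
      1 / 2 * ∑ b ∈ bl 3, kap l b := by
    intro l _
    have e2 : |1 / 4 * ∑ b ∈ bl 3, mu b * (kap l b / nz b) * Real.log (nz b)| ≤ 1 / 2 * ∑ b ∈ bl 3, kap l b := by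
      rw [abs_mul, abs_of_pos (by norm_num : (0 : ℝ) < 1 / 4)]
      have e3 : |∑ b ∈ bl 3, mu b * (kap l b / nz b) * Real.log (nz b)| ≤ ∑ b ∈ bl 3, 2 * kap l b := by
        refine (abs_sum_le_sum_abs _ _).trans (sum_le_sum fun b hb => ?_)
        rw [mem_bl] at hb
        have hb1 := nz_one_le hb.1
        have hk := kap_nn l b
        rw [abs_mul, abs_mul, abs_of_nonneg (Real.log_nonneg hb1), abs_of_nonneg (div_nonneg hk (nz_nonneg b))]
        have h2 : Real.log (nz b) ≤ 2 := (Real.log_le_log (by linarith) hb.2).trans hl3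
        calc |mu b| * (kap l b / nz b) * Real.log (nz b) ≤ 1 * (kap l b / 1) * 2 := by
              refine mul_le_mul (mul_le_mul (abs_mu_le b) ?_ (div_nonneg hk (nz_nonneg b)) zero_le_one) h2
                (Real.log_nonneg hb1) (by positivity)
              exact div_le_div_of_nonneg_left hk one_pos hb1
          _ = _ := by ring
      rw [← mul_sum] at e3
      linarith
    have e4 := abs_sub (1 / 4 * ∑ b ∈ bl 3, mu b * (kap l b / nz b) * Real.log (nz b) + SS l)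
      (1 / 4 * ∑ b ∈ bl 3, mu b * (kap l b / nz b) * Real.log (nz b))
    rw [add_sub_cancel_left] at e4
    linarith
  refine (sum_le_sum e1).trans ?_
  rw [sum_add_distrib, ← mul_sum, sum_comm]
  have e5 : ∑ b ∈ bl 3, ∑ l ∈ Icc 1 ⌊L⌋, kap l b ≤ 27 * L := by
    calc _ ≤ ∑ b ∈ bl 3, L := sum_le_sum fun b hb => kap_sum (by linarith) ((mem_bl _ _).1 hb).1
      _ = ((bl 3).card : ℝ) * L := by rw [sum_const, nsmul_eq_mul]
      _ ≤ 27 * L := by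
        have := card_bl (X := 3) (by norm_num)
        exact mul_le_mul_of_nonneg_right (by linarith) (by linarith)
  linarith

/-- the weighted number of the representations `l² + m² = p q`, `1 ≤ m ≤ M`, `x < p ≤ y` -/
noncomputable def Wl (l : ℤ) (M x y : ℝ) : ℝ := ∑ m ∈ Icc 1 ⌊M⌋, w2 x y (l ^ 2 + m ^ 2).natAbs

theorem w2_nonneg (x y : ℝ) (n : ℕ) : 0 ≤ w2 x y n := by
  unfold w2
  exact sum_nonneg fun p _ => mul_nonneg (Real.log_natCast_nonneg _) (Real.log_natCast_nonneg _)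

theorem w2_sq {x y : ℝ} {l : ℤ} (hl : 1 ≤ l) (hyl : y < l) : w2 x y (l ^ 2 + 0 ^ 2).natAbs = 0 := by
  classical
  unfold w2
  rw [filter_false_of_mem, sum_empty]
  rintro p hp ⟨hq, -, hpy⟩
  set k := l.natAbs with hk
  have hkl : ((k : ℕ) : ℤ) = l := Int.natAbs_of_nonneg (by omega)
  have hn : (l ^ 2 + 0 ^ 2).natAbs = k * k := by
    rw [← hkl]
    have : ((k : ℤ) ^ 2 + 0 ^ 2) = ((k * k : ℕ) : ℤ) := by
      push_cast
      ring
    rw [this, Int.natAbs_natCast]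
  rw [hn] at hp hq
  rw [Nat.mem_primeFactors] at hp
  obtain ⟨hpp, hpd, hne⟩ := hp
  have h1 : k * k = p * (k * k / p) := (Nat.mul_div_cancel' hpd).symm
  have h2 : p ∣ k := by
    rcases (Nat.Prime.dvd_mul hpp).1 hpd with h | h <;> exact h
  obtain ⟨c, hc⟩ := h2
  have h3 : k * k / p = p * (c * c) := by
    have e : k * k = p * (p * (c * c)) := by rw [hc]; ring
    rw [e, Nat.mul_div_cancel_left _ hpp.pos]
  rw [h3] at hq
  have h4 : c * c = 1 := by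
    rcases hq.eq_one_or_self_of_dvd p ⟨_, rfl⟩ with h | h
    · exact absurd h hpp.one_lt.ne'
    · have h5 : p * 1 = p * (c * c) := by rw [mul_one]; exact h
      exact (Nat.eq_of_mul_eq_mul_left hpp.pos h5).symm
  have h5 : c = 1 := Nat.eq_one_of_mul_eq_one_right h4
  have h6 : k = p := by rw [hc, h5, mul_one]
  have h7 : (l : ℝ) = (p : ℝ) := by
    rw [← hkl, h6]
    push_cast
    rfl
  linarith

theorem nn_mk (l m : ℤ) : nn (⟨l, m⟩ : ZI) = (l ^ 2 + m ^ 2).natAbs := by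
  unfold nn
  rw [Zsqrtd.norm_def]
  congr 1
  simp only
  ring

/-- one `l` -/
theorem one_l {M x y : ℝ} (hM : 3 ≤ M) {l : ℤ} (hl : 1 ≤ l) (hyl : y < l) (hy : 0 ≤ y) :
    ∑ m ∈ Icc ⌈-M⌉ ⌊M⌋, cv (fw M x y) LamK (⟨l, m⟩ : ZI) =
      8 / Real.log M * Wl l M x y + ∑ m ∈ Icc ⌈-M⌉ ⌊M⌋, cv (fw M x y) Dp (⟨l, m⟩ : ZI) := by
  have e1 : ∀ m : ℤ, cv (fw M x y) Lp (⟨l, m⟩ : ZI) = 4 / Real.log M * w2 x y (l ^ 2 + m ^ 2).natAbs := by
    intro m
    have hne : (⟨l, m⟩ : ZI) ≠ 0 := by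
      intro h0
      have h3 := congrArg Zsqrtd.re h0
      simp only [Zsqrtd.re_zero] at h3
      omega
    rw [cv_w2 hne, nn_mk]
    rw [Pool.Agent.N782.GN.nz_mk]
    have h1 : y ^ 2 < (l : ℝ) ^ 2 := pow_lt_pow_left₀ hyl hy two_ne_zero
    have h2 := sq_nonneg (m : ℝ)
    linarith
  have e2 : ∑ m ∈ Icc ⌈-M⌉ ⌊M⌋, cv (fw M x y) LamK (⟨l, m⟩ : ZI) =
      ∑ m ∈ Icc ⌈-M⌉ ⌊M⌋, 4 / Real.log M * w2 x y (l ^ 2 + m ^ 2).natAbs +
      ∑ m ∈ Icc ⌈-M⌉ ⌊M⌋, cv (fw M x y) Dp (⟨l, m⟩ : ZI) := by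
    rw [← sum_add_distrib]
    refine sum_congr rfl fun m _ => ?_
    rw [cv_split, e1 m]
  rw [e2, ← mul_sum, two_sided (by linarith) (fun m => w2 x y (l ^ 2 + m ^ 2).natAbs) (fun m => by
    simp only [neg_sq]), w2_sq hl hyl, add_zero]
  unfold Wl
  ring

/-- **the asymptotic formula, on average over `l`** -/
theorem avg_w2 (ε : ℝ) (A : ℕ) (hε : 0 < ε) (hε1 : ε ≤ 1 / 6) {c3 c4 : ℝ} (hc3 : 0 < c3) (h34 : c3 < c4)
    (hc4 : 6 * c4 ≤ ε) : ∃ C : ℝ, 0 < C ∧ ∀ᶠ M : ℝ in atTop, ∀ (L x y : ℝ),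
    M ^ (1 / 3 + 2 * ε) ≤ L → L ≤ M ^ (1 - 2 * ε) → M ^ c3 ≤ x → x ≤ y → y ≤ M ^ c4 →
    ∑ l ∈ (Icc 1 ⌊L⌋).filter (fun l : ℤ => y < l), |Wl l M x y - M * SS l * Real.log (y / x)| ≤
      C * (L * M / (Real.log M) ^ A) := by
  classical
  obtain ⟨C1, hC1, h1⟩ := main_e2 ε (A + 1) hε hε1 hc3 h34 hc4
  obtain ⟨C2, hC2, h2⟩ := Lp_log hc3 (show 0 ≤ c4 by linarith) A
  obtain ⟨C3, hC3, h3⟩ := SS_mean
  obtain ⟨C4, hC4, h4⟩ := pow_log (1 / 4) (A + 4) (by norm_num)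
  refine ⟨C1 + 400000 * C4 + C2 * C3, by positivity, ?_⟩
  filter_upwards [h1, h2, eventually_ge_atTop (3 : ℝ)] with M h1 h2 hM3
  intro L x y hL1 hL2 hx hxy hy
  have hM : 1 ≤ M := by linarith
  have hM1 : 1 < M := by linarith
  have hx1 : 1 ≤ x := (Real.one_le_rpow hM hc3.le).trans hx
  have hP : PE ε c4 M L y := ⟨hε, hε1, hM3, hL1, hL2, hc4, hx1.trans hxy, hy⟩
  have hL := hP.L0
  have hM0 : 0 < M := by linarith
  have hlog := hP.log1
  have hyM : y ≤ M := by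
    calc y ≤ M ^ c4 := hy
      _ ≤ M ^ (1 : ℝ) := Real.rpow_le_rpow_of_exponent_le hM (by linarith)
      _ = M := Real.rpow_one _
  have g1 := h1 L x y hL1 hL2 hx hxy hy
  have g2 := h2 x y hx hxy hy
  have g3 := h3 L hL
  have g4 := pw_small (x := x) hM3 hP.LM (hx1.trans hxy) hyM
  set ℓ := Real.log M with hℓ
  have hℓ0 : 0 < ℓ := by linarith
  have hsg : ℓ * sg M x y = ∑ a ∈ bg x y, Lp a / nz a := by
    unfold sg
    rw [mul_sum]
    refine sum_congr rfl fun a ha => ?_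
    rw [mem_bg] at ha
    unfold fw
    rw [if_pos ⟨ha.2.2, ha.2.1⟩, ← hℓ]
    field_simp
  have hpt : ∀ l ∈ (Icc 1 ⌊L⌋).filter (fun l : ℤ => y < l), |Wl l M x y - M * SS l * Real.log (y / x)| ≤
      ℓ * |∑ m ∈ Icc ⌈-M⌉ ⌊M⌋, cv (fw M x y) LamK (⟨l, m⟩ : ZI) - 2 * M * SS l * sg M x y| +
      ℓ * ∑ m ∈ Icc ⌈-M⌉ ⌊M⌋, cv (fw M x y) Dp (⟨l, m⟩ : ZI) + M * (C2 / ℓ ^ A) * |SS l| := by
    intro l hl
    rw [mem_filter, mem_Icc] at hl
    have e1 := one_l (x := x) hM3 hl.1.1 hl.2 (by linarith)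
    rw [← hℓ] at e1
    have e0 : 0 ≤ ∑ m ∈ Icc ⌈-M⌉ ⌊M⌋, cv (fw M x y) Dp (⟨l, m⟩ : ZI) := sum_nonneg fun m _ => cv_Dp_nonneg hM _ _ _
    set S1 := ∑ m ∈ Icc ⌈-M⌉ ⌊M⌋, cv (fw M x y) LamK (⟨l, m⟩ : ZI) with hS1
    set S2 := ∑ m ∈ Icc ⌈-M⌉ ⌊M⌋, cv (fw M x y) Dp (⟨l, m⟩ : ZI) with hS2
    have e2 : Wl l M x y - M * SS l * Real.log (y / x) =
        ℓ / 8 * (S1 - 2 * M * SS l * sg M x y) - ℓ / 8 * S2 + M / 4 * SS l * (ℓ * sg M x y - 4 * Real.log (y / x)) := by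
      rw [e1]
      field_simp
      ring
    rw [e2]
    have b1 : |ℓ / 8 * (S1 - 2 * M * SS l * sg M x y)| ≤ ℓ * |S1 - 2 * M * SS l * sg M x y| := by
      rw [abs_mul, abs_of_pos (by positivity : 0 < ℓ / 8)]
      exact mul_le_mul_of_nonneg_right (by linarith) (abs_nonneg _)
    have b2 : |ℓ / 8 * S2| ≤ ℓ * S2 := by
      rw [abs_mul, abs_of_pos (by positivity : 0 < ℓ / 8), abs_of_nonneg e0]
      exact mul_le_mul_of_nonneg_right (by linarith) e0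
    have b3 : |M / 4 * SS l * (ℓ * sg M x y - 4 * Real.log (y / x))| ≤ M * (C2 / ℓ ^ A) * |SS l| := by
      rw [hsg, abs_mul, abs_mul, abs_of_pos (by positivity : 0 < M / 4)]
      calc M / 4 * |SS l| * |∑ a ∈ bg x y, Lp a / nz a - 4 * Real.log (y / x)| ≤ M * |SS l| * (C2 / ℓ ^ A) := by
            refine mul_le_mul ?_ g2 (abs_nonneg _) (by positivity)
            exact mul_le_mul_of_nonneg_right (by linarith) (abs_nonneg _)
        _ = _ := by ring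
    exact (abs_add_le _ _).trans (add_le_add ((abs_sub _ _).trans (add_le_add b1 b2)) b3)
  refine (sum_le_sum hpt).trans ?_
  have hsub : ∀ f : ℤ → ℝ, (∀ l, 0 ≤ f l) → ∑ l ∈ (Icc 1 ⌊L⌋).filter (fun l : ℤ => y < l), f l ≤ ∑ l ∈ Icc 1 ⌊L⌋, f l :=
    fun f hf => sum_le_sum_of_subset_of_nonneg (filter_subset _ _) fun l _ _ => hf l
  rw [sum_add_distrib, sum_add_distrib, ← mul_sum, ← mul_sum, ← mul_sum]
  have c1 : ℓ * ∑ l ∈ (Icc 1 ⌊L⌋).filter (fun l : ℤ => y < l),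
      |∑ m ∈ Icc ⌈-M⌉ ⌊M⌋, cv (fw M x y) LamK (⟨l, m⟩ : ZI) - 2 * M * SS l * sg M x y| ≤ C1 * (L * M / ℓ ^ A) := by
    calc _ ≤ ℓ * (C1 * (L * M / ℓ ^ (A + 1))) :=
          mul_le_mul_of_nonneg_left ((hsub _ fun _ => abs_nonneg _).trans g1) hℓ0.le
      _ = _ := by
        rw [pow_succ]
        field_simp
  have c2 : ℓ * ∑ l ∈ (Icc 1 ⌊L⌋).filter (fun l : ℤ => y < l),
      ∑ m ∈ Icc ⌈-M⌉ ⌊M⌋, cv (fw M x y) Dp (⟨l, m⟩ : ZI) ≤ 400000 * C4 * (L * M / ℓ ^ A) := by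
    have d1 : y * M ^ (1 / 4 : ℝ) ≤ L := by
      calc y * M ^ (1 / 4 : ℝ) ≤ M ^ c4 * M ^ (1 / 4 : ℝ) := mul_le_mul_of_nonneg_right hy (by positivity)
        _ = M ^ (c4 + 1 / 4) := (Real.rpow_add hM0 _ _).symm
        _ ≤ M ^ (1 / 3 + 2 * ε) := Real.rpow_le_rpow_of_exponent_le hM (by linarith)
        _ ≤ L := hL1
    have d2 := h4 M hM
    calc _ ≤ ℓ * (400000 * (M * y * ℓ ^ 3)) :=
          mul_le_mul_of_nonneg_left ((hsub _ fun l => sum_nonneg fun m _ => cv_Dp_nonneg hM _ _ _).trans g4) hℓ0.le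
      _ = 400000 * M * y * ℓ ^ (A + 4) / ℓ ^ A := by
        rw [eq_div_iff (by positivity)]
        ring
      _ ≤ 400000 * M * y * (C4 * M ^ (1 / 4 : ℝ)) / ℓ ^ A := by
        apply div_le_div_of_nonneg_right _ (by positivity)
        apply mul_le_mul_of_nonneg_left d2
        have : 0 ≤ y := by linarith
        positivity
      _ = 400000 * C4 * M * (y * M ^ (1 / 4 : ℝ)) / ℓ ^ A := by ring
      _ ≤ 400000 * C4 * M * L / ℓ ^ A := by
        apply div_le_div_of_nonneg_right _ (by positivity)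
        exact mul_le_mul_of_nonneg_left d1 (by positivity)
      _ = _ := by ring
  have c3' : M * (C2 / ℓ ^ A) * ∑ l ∈ (Icc 1 ⌊L⌋).filter (fun l : ℤ => y < l), |SS l| ≤ C2 * C3 * (L * M / ℓ ^ A) := by
    calc _ ≤ M * (C2 / ℓ ^ A) * (C3 * L) :=
          mul_le_mul_of_nonneg_left ((hsub _ fun _ => abs_nonneg _).trans g3) (by positivity)
      _ = _ := by ring
  calc _ ≤ C1 * (L * M / ℓ ^ A) + 400000 * C4 * (L * M / ℓ ^ A) + C2 * C3 * (L * M / ℓ ^ A) :=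
        add_le_add (add_le_add c1 c2) c3'
    _ = _ := by ring

end Pool.Agent.J6H16.E2
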