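import Pool.Agent.J6H16.E2.Pr

/-!
# Project E2 (helper16): almost all `l`, the grid
-/

set_option autoImplicit false

namespace Pool.Agent.J6H16.E2

open Finset Filter Topology
open Pool.Agent.N782.GN hiding f1
open Pool.Agent.N855.GN
open Pool.Agent.H304R3.HK (UH bb LamK CS)
open Pool.Agent.J6H16.PF Pool.Agent.J6H16.PR

theorem w2_mono {x y x' y' : ℝ} (hx : x' ≤ x) (hy : y ≤ y') (n : ℕ) : w2 x y n ≤ w2 x' y' n := by
  classical
  unfold w2
  apply sum_le_sum_of_subset_of_nonneg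
  · intro p hp
    rw [mem_filter] at hp ⊢
    exact ⟨hp.1, hp.2.1, lt_of_le_of_lt hx hp.2.2.1, hp.2.2.2.trans hy⟩
  · intro p _ _
    exact mul_nonneg (Real.log_natCast_nonneg _) (Real.log_natCast_nonneg _)

theorem Wl_mono {l : ℤ} {M M' x y x' y' : ℝ} (hM : M ≤ M') (hx : x' ≤ x) (hy : y ≤ y') :
    Wl l M x y ≤ Wl l M' x' y' := by
  unfold Wl
  calc ∑ m ∈ Icc 1 ⌊M⌋, w2 x y (l ^ 2 + m ^ 2).natAbs ≤ ∑ m ∈ Icc 1 ⌊M'⌋, w2 x y (l ^ 2 + m ^ 2).natAbs := by
        apply sum_le_sum_of_subset_of_nonneg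
        · exact Icc_subset_Icc le_rfl (Int.floor_le_floor hM)
        · intro m _ _
          exact w2_nonneg _ _ _
    _ ≤ _ := sum_le_sum fun m _ => w2_mono hx hy _

theorem Wl_nonneg (l : ℤ) (M x y : ℝ) : 0 ≤ Wl l M x y := sum_nonneg fun m _ => w2_nonneg _ _ _

theorem exp_small {h : ℝ} (h0 : 0 ≤ h) (h1 : h ≤ 1 / 2) : Real.exp h ≤ 1 + 2 * h ∧ Real.exp h ≤ 2 ∧ 1 - h ≤ Real.exp (-h) := by
  have h2 : Real.exp h ≤ 1 + 2 * h := by
    have h3 := Real.add_one_le_exp (-h)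
    have h4 : Real.exp (-h) * Real.exp h = 1 := by rw [← Real.exp_add]; simp
    have h5 := Real.exp_pos h
    have h6 : (1 - h) * Real.exp h ≤ 1 := by
      calc (1 - h) * Real.exp h ≤ Real.exp (-h) * Real.exp h := mul_le_mul_of_nonneg_right (by linarith) h5.le
        _ = 1 := h4
    nlinarith
  refine ⟨h2, by linarith, ?_⟩
  have := Real.add_one_le_exp (-h)
  linarith

/-- the upper part -/
theorem sand_up {N Np s lam Lp D h η W e : ℝ} (hN : 0 < N) (hNp : Np ≤ N * e) (hNp0 : 0 ≤ Np) (he : e ≤ 1 + 2 * h)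
    (he2 : e ≤ 2) (hs : 0 ≤ s) (h0 : 0 ≤ h) (hlam0 : 0 ≤ lam) (hlam : lam ≤ Lp)
    (hD : D ≤ lam + 2 * h) (hη : 0 ≤ η) (hW : W ≤ Np * s * D + Np * η) :
    W - N * s * lam ≤ N * (s * (4 * h * (1 + Lp)) + 2 * η) := by
  have h1 : Np * s * D ≤ N * e * s * (lam + 2 * h) := by
    have a1 : Np * s * D ≤ Np * s * (lam + 2 * h) := mul_le_mul_of_nonneg_left hD (mul_nonneg hNp0 hs)
    have a2 : Np * s * (lam + 2 * h) ≤ N * e * s * (lam + 2 * h) :=
      mul_le_mul_of_nonneg_right (mul_le_mul_of_nonneg_right hNp hs) (by linarith)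
    linarith
  have h2 : Np * η ≤ N * 2 * η := by
    have a1 : Np ≤ N * 2 := hNp.trans (mul_le_mul_of_nonneg_left he2 hN.le)
    exact mul_le_mul_of_nonneg_right a1 hη
  have h3 : N * e * s * (lam + 2 * h) ≤ N * s * lam + N * (s * (4 * h * (1 + Lp))) := by
    have a1 : e * (lam + 2 * h) ≤ lam + 4 * h * (1 + Lp) := by
      have b1 : e * lam ≤ (1 + 2 * h) * lam := mul_le_mul_of_nonneg_right he hlam0
      have b2 : e * (2 * h) ≤ 2 * (2 * h) := mul_le_mul_of_nonneg_right he2 (by linarith)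
      have b3 : h * lam ≤ h * Lp := mul_le_mul_of_nonneg_left hlam h0
      have b4 : 0 ≤ h * Lp := mul_nonneg h0 (by linarith)
      linarith
    have a2 := mul_le_mul_of_nonneg_left a1 (mul_nonneg hN.le hs)
    calc N * e * s * (lam + 2 * h) = N * s * (e * (lam + 2 * h)) := by ring
      _ ≤ N * s * (lam + 4 * h * (1 + Lp)) := a2
      _ = _ := by ring
  linarith

/-- the lower part -/
theorem sand_lo {N Np s lam Lp D h η W : ℝ} (hN : 0 < N) (hNp : N * (1 - h) ≤ Np) (hNp1 : Np ≤ N)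
    (hs : 0 ≤ s) (h0 : 0 ≤ h) (hlam0 : 0 ≤ lam) (hlam : lam ≤ Lp)
    (hD0 : 0 ≤ D) (hD : lam - 2 * h ≤ D) (hD1 : D ≤ lam) (hη : 0 ≤ η) (hW : Np * s * D - Np * η ≤ W) :
    N * s * lam - W ≤ N * (s * (4 * h * (1 + Lp)) + 2 * η) := by
  have hsD : 0 ≤ s * D := mul_nonneg hs hD0
  have h1 : N * (1 - h) * (s * D) ≤ Np * (s * D) := mul_le_mul_of_nonneg_right hNp hsD
  have h2 : Np * η ≤ N * η := mul_le_mul_of_nonneg_right hNp1 hη
  have h3 : N * s * (lam - 2 * h) ≤ N * s * D := mul_le_mul_of_nonneg_left hD (mul_nonneg hN.le hs)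
  have h4 : N * h * (s * D) ≤ N * h * (s * Lp) :=
    mul_le_mul_of_nonneg_left (mul_le_mul_of_nonneg_left (hD1.trans hlam) hs) (mul_nonneg hN.le h0)
  have h5 : 0 ≤ N * (s * h) := mul_nonneg hN.le (mul_nonneg hs h0)
  have h6 : 0 ≤ N * η := mul_nonneg hN.le hη
  have h7 : 0 ≤ N * h * (s * Lp) := mul_nonneg (mul_nonneg hN.le h0) (mul_nonneg hs (by linarith))
  nlinarith

/-- from the grid to all the parameters -/
theorem sand {l : ℤ} {h η s Lp N y z : ℝ} (h0 : 0 < h) (h1 : h ≤ 1 / 2) (hη : 0 ≤ η) (hs : 0 ≤ s)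
    (hN : 1 ≤ N) (hy : 1 ≤ y) (hyz : y ≤ z) (hLp : Real.log (z / y) ≤ Lp)
    (hg : ∀ i j k : ℕ, N / 2 ≤ Real.exp (i * h) → Real.exp (i * h) ≤ 2 * N → y / 2 ≤ Real.exp (j * h) → j ≤ k →
      Real.exp (k * h) ≤ 2 * z →
      |Wl l (Real.exp (i * h)) (Real.exp (j * h)) (Real.exp (k * h)) - Real.exp (i * h) * s * ((k - j) * h)| ≤
        Real.exp (i * h) * η) :
    |Wl l N y z - N * s * Real.log (z / y)| ≤ N * (s * (4 * h * (1 + Lp)) + 2 * η) := by
  obtain ⟨he1, he2, he3⟩ := exp_small h0.le h1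
  have hz : 1 ≤ z := hy.trans hyz
  have hN0 : 0 < N := by linarith
  have hy0 : 0 < y := by linarith
  have hz0 : 0 < z := by linarith
  have key : ∀ u : ℝ, 1 ≤ u → ∃ i : ℕ, (i : ℝ) * h ≤ Real.log u ∧ Real.log u ≤ (i + 1 : ℕ) * h := by
    intro u hu
    have hlu : 0 ≤ Real.log u := Real.log_nonneg hu
    refine ⟨⌊Real.log u / h⌋₊, ?_, ?_⟩
    · have := Nat.floor_le (show 0 ≤ Real.log u / h by positivity)
      rwa [le_div_iff₀ h0] at this
    · have := (Nat.lt_floor_add_one (Real.log u / h)).le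
      rw [div_le_iff₀ h0] at this
      push_cast
      exact this
  obtain ⟨i, hi1, hi2⟩ := key N hN
  obtain ⟨j, hj1, hj2⟩ := key y hy
  obtain ⟨k, hk1, hk2⟩ := key z hz
  have ex1 : ∀ {u : ℝ} {a : ℕ}, 0 < u → (a : ℝ) * h ≤ Real.log u → Real.exp (a * h) ≤ u := by
    intro u a hu h2
    calc Real.exp (a * h) ≤ Real.exp (Real.log u) := Real.exp_le_exp.2 h2
      _ = u := Real.exp_log hu
  have ex2 : ∀ {u : ℝ} {a : ℕ}, 0 < u → Real.log u ≤ (a : ℝ) * h → u ≤ Real.exp (a * h) := by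
    intro u a hu h2
    calc u = Real.exp (Real.log u) := (Real.exp_log hu).symm
      _ ≤ Real.exp (a * h) := Real.exp_le_exp.2 h2
  have ex3 : ∀ a : ℕ, Real.exp ((a + 1 : ℕ) * h) = Real.exp (a * h) * Real.exp h := by
    intro a
    rw [← Real.exp_add]
    congr 1
    push_cast
    ring
  have hj2' := hj2
  have hk2' := hk2
  have hi2' := hi2
  push_cast at hj2' hk2' hi2'
  have hlog : Real.log (z / y) = Real.log z - Real.log y := Real.log_div hz0.ne' hy0.ne'
  have hlam0 : 0 ≤ Real.log (z / y) := Real.log_nonneg (by rw [le_div_iff₀ hy0]; linarith)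
  have hlow : ∀ {u : ℝ} {a : ℕ}, 0 < u → Real.log u ≤ (a + 1 : ℕ) * h → u / 2 ≤ Real.exp (a * h) := by
    intro u a hu h2
    have h3 := ex2 hu h2
    rw [ex3] at h3
    have h4 := Real.exp_pos (a * h)
    nlinarith
  have hup : ∀ {u : ℝ} {a : ℕ}, 0 < u → (a : ℝ) * h ≤ Real.log u → Real.exp ((a + 1 : ℕ) * h) ≤ u * Real.exp h := by
    intro u a hu h2
    have h3 := ex1 hu h2
    rw [ex3]
    exact mul_le_mul_of_nonneg_right h3 (Real.exp_pos _).le
  have eh : 1 ≤ Real.exp h := Real.one_le_exp h0.le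
  -- upper bound
  have u1 := hg (i + 1) j (k + 1) (by
    have := ex2 hN0 hi2
    linarith) (by
    have := hup hN0 hi1
    nlinarith) (hlow hy0 hj2) (by
    by_contra hcon
    push Not at hcon
    have h2 : ((k + 1 : ℕ) : ℝ) * h ≤ j * h := mul_le_mul_of_nonneg_right (by exact_mod_cast hcon.le) h0.le
    have h3 : ((k + 1 : ℕ) : ℝ) + 1 ≤ j := by exact_mod_cast hcon
    have h4 : (((k + 1 : ℕ) : ℝ) + 1) * h ≤ j * h := mul_le_mul_of_nonneg_right h3 h0.le
    have h5 := Real.log_le_log hy0 hyz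
    linarith) (by
    have := hup hz0 hk1
    nlinarith)
  have m1 : Wl l N y z ≤ Wl l (Real.exp ((i + 1 : ℕ) * h)) (Real.exp (j * h)) (Real.exp ((k + 1 : ℕ) * h)) :=
    Wl_mono (ex2 hN0 hi2) (ex1 hy0 hj1) (ex2 hz0 hk2)
  have U : Wl l N y z - N * s * Real.log (z / y) ≤ N * (s * (4 * h * (1 + Lp)) + 2 * η) := by
    refine sand_up (Np := Real.exp ((i + 1 : ℕ) * h)) (D := (((k + 1 : ℕ) : ℝ) - j) * h) (e := Real.exp h) hN0
      (hup hN0 hi1) (Real.exp_pos _).le he1 he2 hs h0.le hlam0 hLp ?_ hη ?_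
    · rw [hlog]
      push_cast
      linarith
    · have := (abs_le.1 u1).2
      linarith
  -- lower bound
  have V : N * s * Real.log (z / y) - Wl l N y z ≤ N * (s * (4 * h * (1 + Lp)) + 2 * η) := by
    by_cases hjk : j + 1 ≤ k
    · have v1 := hg i (j + 1) k (hlow hN0 hi2) (by
        have := ex1 hN0 hi1
        linarith) (by
        have := ex2 hy0 hj2
        linarith) hjk (by
        have := ex1 hz0 hk1
        linarith)
      have m2 : Wl l (Real.exp (i * h)) (Real.exp ((j + 1 : ℕ) * h)) (Real.exp (k * h)) ≤ Wl l N y z :=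
        Wl_mono (ex1 hN0 hi1) (ex2 hy0 hj2) (ex1 hz0 hk1)
      have hjk' : ((j + 1 : ℕ) : ℝ) ≤ k := by exact_mod_cast hjk
      refine sand_lo (Np := Real.exp (i * h)) (D := ((k : ℝ) - (j + 1 : ℕ)) * h) hN0 ?_ (ex1 hN0 hi1) hs h0.le hlam0 hLp
        (mul_nonneg (by linarith) h0.le) ?_ ?_ hη ?_
      · have h2 := ex2 hN0 hi2
        rw [ex3] at h2
        have h3 : N * Real.exp (-h) ≤ Real.exp (i * h) := by
          have h4 : Real.exp h * Real.exp (-h) = 1 := by rw [← Real.exp_add]; simp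
          calc N * Real.exp (-h) ≤ (Real.exp (i * h) * Real.exp h) * Real.exp (-h) :=
                mul_le_mul_of_nonneg_right h2 (Real.exp_pos _).le
            _ = _ := by rw [mul_assoc, h4, mul_one]
        exact (mul_le_mul_of_nonneg_left he3 hN0.le).trans h3
      · rw [hlog]
        push_cast
        linarith
      · rw [hlog]
        push_cast
        linarith
      · have := (abs_le.1 v1).1
        linarith
    · push Not at hjk
      have h2 : (k : ℝ) ≤ j := by exact_mod_cast (by omega : k ≤ j)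
      have h3 : (k : ℝ) * h ≤ j * h := mul_le_mul_of_nonneg_right h2 h0.le
      have h4 : Real.log (z / y) ≤ h := by
        rw [hlog]
        linarith
      have h5 := Wl_nonneg l N y z
      have h6 : N * s * Real.log (z / y) ≤ N * s * h := mul_le_mul_of_nonneg_left h4 (mul_nonneg hN0.le hs)
      have h7 : 0 ≤ N * s * h := mul_nonneg (mul_nonneg hN0.le hs) h0.le
      have h8 : 0 ≤ N * η := mul_nonneg hN0.le hη
      have h9 : 0 ≤ N * s * h * Lp := mul_nonneg h7 (hlam0.trans hLp)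
      nlinarith
  rw [abs_le]
  constructor <;> linarith

theorem markov {α : Type} (S : Finset α) (f : α → ℝ) (hf : ∀ a, 0 ≤ f a) {c : ℝ} (hc : 0 < c) :
    (((S.filter (fun a => c < f a)).card : ℕ) : ℝ) ≤ (∑ a ∈ S, f a) / c := by
  classical
  rw [le_div_iff₀ hc]
  calc ((S.filter (fun a => c < f a)).card : ℝ) * c = ∑ a ∈ S.filter (fun a => c < f a), c := by
        rw [sum_const, nsmul_eq_mul]
    _ ≤ ∑ a ∈ S.filter (fun a => c < f a), f a := sum_le_sum fun a ha => (mem_filter.1 ha).2.le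
    _ ≤ _ := sum_le_sum_of_subset_of_nonneg (filter_subset _ _) fun a _ _ => hf a

end Pool.Agent.J6H16.E2
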