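import Pool.Agent.J6H16.E2.Ps

/-!
# Project E2 (helper16): almost all `l`
-/

set_option autoImplicit false

namespace Pool.Agent.J6H16.E2

open Finset Filter Topology
open Pool.Agent.N782.GN hiding f1
open Pool.Agent.N855.GN
open Pool.Agent.H304R3.HK (UH bb LamK CS)
open Pool.Agent.J6H16.PF Pool.Agent.J6H16.PR

/-- one point of the grid -/
theorem one_pt (ε δ : ℝ) (A2 : ℕ) (hε : 0 < ε) (hε1 : ε ≤ 1) (hδ : 0 < δ) : ∃ C : ℝ, 0 < C ∧ ∀ᶠ K : ℝ in atTop,
    ∀ M x y : ℝ, K ^ (1 + ε / 2) ≤ M → M ≤ K ^ (3 - ε / 2) → K ^ (δ / 2) ≤ x → x ≤ y → y ≤ K ^ (ε / 432) →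
      ∑ l ∈ (Icc 1 ⌊K⌋).filter (fun l : ℤ => K ^ (ε / 432) < l), |Wl l M x y - M * SS l * Real.log (y / x)| ≤
        C * (K * M / (Real.log K) ^ A2) := by
  set c3 : ℝ := min (δ / 6) (ε / 432) with hc3
  have hc30 : 0 < c3 := lt_min (by positivity) (by positivity)
  have hc31 : c3 ≤ δ / 6 := min_le_left _ _
  have hc32 : c3 ≤ ε / 432 := min_le_right _ _
  obtain ⟨C, hC, h⟩ := avg_w2 (ε / 36) A2 (by positivity) (by linarith) (c3 := c3) (c4 := ε / 216) hc30 (by linarith)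
    (by linarith)
  obtain ⟨M0, hM0⟩ := eventually_atTop.1 h
  refine ⟨C, hC, ?_⟩
  filter_upwards [eventually_ge_atTop (3 : ℝ), eventually_ge_atTop M0] with K hK3 hKM0
  intro M x y hM1 hM2 hx hxy hy
  have hK0 : 0 < K := by linarith
  have hK1 : 1 ≤ K := by linarith
  have hKM : K ≤ M := by
    calc K = K ^ (1 : ℝ) := (Real.rpow_one K).symm
      _ ≤ K ^ (1 + ε / 2) := Real.rpow_le_rpow_of_exponent_le hK1 (by linarith)
      _ ≤ M := hM1
  have hM0' : 0 < M := by linarith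
  have hMK3 : M ≤ K ^ (3 : ℝ) := hM2.trans (Real.rpow_le_rpow_of_exponent_le hK1 (by linarith))
  have g := hM0 M (hKM0.trans hKM) K x y ?_ ?_ ?_ hxy ?_
  · have e1 : ∑ l ∈ (Icc 1 ⌊K⌋).filter (fun l : ℤ => K ^ (ε / 432) < l), |Wl l M x y - M * SS l * Real.log (y / x)| ≤
        ∑ l ∈ (Icc 1 ⌊K⌋).filter (fun l : ℤ => y < l), |Wl l M x y - M * SS l * Real.log (y / x)| := by
      apply sum_le_sum_of_subset_of_nonneg
      · intro l hl
        rw [mem_filter] at hl ⊢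
        exact ⟨hl.1, lt_of_le_of_lt hy hl.2⟩
      · intro l _ _
        exact abs_nonneg _
    refine e1.trans (g.trans ?_)
    apply mul_le_mul_of_nonneg_left _ hC.le
    have hlK : 0 < Real.log K := Real.log_pos (by linarith)
    apply div_le_div_of_nonneg_left (by positivity) (by positivity)
    exact pow_le_pow_left₀ hlK.le (Real.log_le_log hK0 hKM) _
  · calc M ^ (1 / 3 + 2 * (ε / 36)) ≤ (K ^ (3 - ε / 2)) ^ (1 / 3 + 2 * (ε / 36)) :=
          Real.rpow_le_rpow hM0'.le hM2 (by positivity)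
      _ = K ^ ((3 - ε / 2) * (1 / 3 + 2 * (ε / 36))) := by rw [← Real.rpow_mul hK0.le]
      _ ≤ K ^ (1 : ℝ) := Real.rpow_le_rpow_of_exponent_le hK1 (by nlinarith)
      _ = K := Real.rpow_one K
  · calc K = K ^ (1 : ℝ) := (Real.rpow_one K).symm
      _ ≤ K ^ ((1 + ε / 2) * (1 - 2 * (ε / 36))) := Real.rpow_le_rpow_of_exponent_le hK1 (by nlinarith)
      _ = (K ^ (1 + ε / 2)) ^ (1 - 2 * (ε / 36)) := by rw [← Real.rpow_mul hK0.le]
      _ ≤ M ^ (1 - 2 * (ε / 36)) := Real.rpow_le_rpow (by positivity) hM1 (by linarith)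
  · calc M ^ c3 ≤ (K ^ (3 : ℝ)) ^ c3 := Real.rpow_le_rpow hM0'.le hMK3 hc30.le
      _ = K ^ (3 * c3) := by rw [← Real.rpow_mul hK0.le]
      _ ≤ K ^ (δ / 2) := Real.rpow_le_rpow_of_exponent_le hK1 (by linarith)
      _ ≤ x := hx
  · calc y ≤ K ^ (ε / 432) := hy
      _ ≤ K ^ (ε / 216) := Real.rpow_le_rpow_of_exponent_le hK1 (by linarith)
      _ ≤ M ^ (ε / 216) := Real.rpow_le_rpow hK0.le hKM (by positivity)

open Classical in
/-- **almost all `l`** -/
theorem grid_e2 (ε δ : ℝ) (A : ℕ) (hε : 0 < ε) (hε1 : ε ≤ 1) (hδ : 0 < δ) : ∀ᶠ K : ℝ in atTop,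
    (((Icc 1 ⌊K⌋).filter (fun l : ℤ => ¬ ∀ N y z : ℝ, K ^ (1 + ε) ≤ N → N ≤ K ^ (3 - ε) → K ^ δ ≤ y → y ≤ z →
      z ≤ K ^ (ε / 500) → |Wl l N y z - N * SS l * Real.log (z / y)| ≤ N / (Real.log K) ^ A)).card : ℝ) ≤
      K / (Real.log K) ^ A := by
  classical
  set B := 2 * A + 4 with hB
  set A2 := (A + 1) + (3 * (B + 1)) + (A + 1) with hA2
  obtain ⟨C, hC, h⟩ := one_pt ε δ A2 hε hε1 hδ
  obtain ⟨C3, hC3, h3⟩ := SS_mean
  obtain ⟨C4, hC4, h4⟩ := pow_log (1 / 2) (A + 1) (by norm_num)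
  filter_upwards [h, eventually_ge_atTop (3 : ℝ), ev_log (10 + C3 + C4 + 64 * C), ev_rp (show 0 < ε / 2 by positivity) 2,
    ev_rp (show 0 < δ / 2 by positivity) 2, ev_rp (show 0 < ε / 432 - ε / 500 by linarith) 2]
    with K h hK3 hℓK hKε hKδ hKβ
  have hK0 : 0 < K := by linarith
  have hK1 : 1 ≤ K := by linarith
  have h3 := h3 K hK1
  have h4 := h4 K hK1
  set ℓ := Real.log K with hℓ
  have hℓ10 : 10 ≤ ℓ := by
    have : 0 < C3 + C4 + 64 * C := by positivity
    linarith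
  have hℓ0 : 0 < ℓ := by linarith
  have hℓ1 : 1 ≤ ℓ := by linarith
  set h0 : ℝ := 1 / ℓ ^ B with hh0
  have hh0p : 0 < h0 := by positivity
  have hh02 : h0 ≤ 1 / 2 := by
    rw [hh0]
    apply one_div_le_one_div_of_le (by norm_num)
    calc (2 : ℝ) ≤ ℓ := by linarith
      _ = ℓ ^ 1 := (pow_one ℓ).symm
      _ ≤ ℓ ^ B := pow_le_pow_right₀ hℓ1 (by omega)
  set η : ℝ := 1 / ℓ ^ (A + 1) with hη
  have hηp : 0 < η := by positivity
  set I : ℕ := ⌊3 * ℓ ^ (B + 1)⌋₊ + 1 with hI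
  have hIb : (I : ℝ) ≤ 4 * ℓ ^ (B + 1) := by
    have h1 : (⌊3 * ℓ ^ (B + 1)⌋₊ : ℝ) ≤ 3 * ℓ ^ (B + 1) := Nat.floor_le (by positivity)
    have h2 : 1 ≤ ℓ ^ (B + 1) := one_le_pow₀ hℓ1
    rw [hI]
    push_cast
    linarith
  have hIlt : ∀ i : ℕ, Real.exp (i * h0) ≤ K ^ (3 : ℝ) → i < I := by
    intro i hi
    have h1 := Real.log_le_log (Real.exp_pos _) hi
    rw [Real.log_exp, Real.log_rpow hK0, ← hℓ, hh0, mul_one_div, div_le_iff₀ (by positivity)] at h1
    have h2 : (i : ℝ) ≤ 3 * ℓ ^ (B + 1) := by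
      refine h1.trans (le_of_eq ?_)
      ring
    rw [hI, Nat.lt_succ_iff]
    exact Nat.le_floor h2
  -- the sets
  set S0 := Icc 1 ⌊K⌋ with hS0
  set S1 := S0.filter (fun l : ℤ => (l : ℝ) ≤ K ^ (ε / 432)) with hS1
  set S2 := S0.filter (fun l : ℤ => ℓ ^ (A + 1) < |SS l|) with hS2
  set T := (range I ×ˢ (range I ×ˢ range I)).filter (fun t : ℕ × ℕ × ℕ => K ^ (1 + ε / 2) ≤ Real.exp (t.1 * h0) ∧
    Real.exp (t.1 * h0) ≤ K ^ (3 - ε / 2) ∧ K ^ (δ / 2) ≤ Real.exp (t.2.1 * h0) ∧ t.2.1 ≤ t.2.2 ∧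
    Real.exp (t.2.2 * h0) ≤ K ^ (ε / 432)) with hT
  set F : ℕ × ℕ × ℕ → ℤ → ℝ := fun t l => |Wl l (Real.exp (t.1 * h0)) (Real.exp (t.2.1 * h0)) (Real.exp (t.2.2 * h0)) -
    Real.exp (t.1 * h0) * SS l * ((t.2.2 - t.2.1) * h0)| with hF
  set St : ℕ × ℕ × ℕ → Finset ℤ := fun t => (S0.filter (fun l : ℤ => K ^ (ε / 432) < l)).filter
    (fun l => Real.exp (t.1 * h0) * η < F t l) with hSt
  have hcardS1 : (S1.card : ℝ) ≤ C4 * (K / ℓ ^ (A + 1)) := by
    have e1 : (S1.card : ℝ) ≤ K ^ (ε / 432) := by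
      have e2 : S1 ⊆ Icc 1 ⌊K ^ (ε / 432)⌋ := by
        intro l hl
        rw [hS1, mem_filter, hS0, mem_Icc] at hl
        rw [mem_Icc, Int.le_floor]
        exact ⟨hl.1.1, hl.2⟩
      have e3 : ((Icc 1 ⌊K ^ (ε / 432)⌋).card : ℝ) ≤ K ^ (ε / 432) := by
        rw [Int.card_Icc, show ⌊K ^ (ε / 432)⌋ + 1 - 1 = ⌊K ^ (ε / 432)⌋ by ring]
        have h5 : ((⌊K ^ (ε / 432)⌋.toNat : ℕ) : ℤ) = ⌊K ^ (ε / 432)⌋ :=
          Int.toNat_of_nonneg (Int.floor_nonneg.2 (by positivity))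
        have h6 : ((⌊K ^ (ε / 432)⌋.toNat : ℕ) : ℝ) = (⌊K ^ (ε / 432)⌋ : ℝ) := by exact_mod_cast h5
        rw [h6]
        exact Int.floor_le _
      have e4 : (S1.card : ℝ) ≤ (Icc 1 ⌊K ^ (ε / 432)⌋).card := by exact_mod_cast card_le_card e2
      exact e4.trans e3
    refine e1.trans ?_
    rw [mul_div_assoc', le_div_iff₀ (by positivity)]
    calc K ^ (ε / 432) * ℓ ^ (A + 1) ≤ K ^ (1 / 2 : ℝ) * (C4 * K ^ (1 / 2 : ℝ)) := by
          refine mul_le_mul (Real.rpow_le_rpow_of_exponent_le hK1 (by linarith)) h4 (by positivity) (by positivity)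
      _ = C4 * (K ^ (1 / 2 : ℝ) * K ^ (1 / 2 : ℝ)) := by ring
      _ = C4 * K := by
          rw [← Real.rpow_add hK0]
          norm_num
  have hcardS2 : (S2.card : ℝ) ≤ C3 * (K / ℓ ^ (A + 1)) := by
    refine (markov S0 (fun l => |SS l|) (fun _ => abs_nonneg _) (by positivity)).trans ?_
    rw [mul_div_assoc']
    exact div_le_div_of_nonneg_right h3 (by positivity)
  have hcardSt : ∀ t ∈ T, ((St t).card : ℝ) ≤ C * (K / ℓ ^ (A2 - (A + 1))) := by
    intro t ht
    rw [hT, mem_filter] at ht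
    obtain ⟨-, t1, t2, t3, t4, t5⟩ := ht
    have hE := Real.exp_pos (t.1 * h0)
    have hle : Real.exp (t.2.1 * h0) ≤ Real.exp (t.2.2 * h0) := by
      apply Real.exp_le_exp.2
      exact mul_le_mul_of_nonneg_right (by exact_mod_cast t4) hh0p.le
    have k1 := h (Real.exp (t.1 * h0)) (Real.exp (t.2.1 * h0)) (Real.exp (t.2.2 * h0)) t1 t2 t3 hle t5
    have k2 : Real.log (Real.exp (t.2.2 * h0) / Real.exp (t.2.1 * h0)) = (t.2.2 - t.2.1) * h0 := by
      rw [← Real.exp_sub, Real.log_exp]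
      ring
    rw [k2] at k1
    have k3 := markov (S0.filter (fun l : ℤ => K ^ (ε / 432) < l)) (F t) (fun _ => abs_nonneg _)
      (mul_pos hE hηp)
    refine k3.trans ?_
    rw [div_le_iff₀ (mul_pos hE hηp)]
    refine k1.trans (le_of_eq ?_)
    have : ℓ ^ A2 = ℓ ^ (A2 - (A + 1)) * ℓ ^ (A + 1) := by
      rw [← pow_add]
      congr 1
      omega
    rw [this, hη]
    field_simp
  have hcardT : (T.card : ℝ) ≤ 64 * ℓ ^ (3 * (B + 1)) := by
    have e1 : T.card ≤ I * (I * I) := by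
      refine (card_filter_le _ _).trans (le_of_eq ?_)
      rw [card_product, card_product, card_range]
    have e2 : (T.card : ℝ) ≤ I * (I * I) := by exact_mod_cast e1
    refine e2.trans ?_
    have hI0 : (0 : ℝ) ≤ I := Nat.cast_nonneg I
    calc (I : ℝ) * (I * I) ≤ (4 * ℓ ^ (B + 1)) * ((4 * ℓ ^ (B + 1)) * (4 * ℓ ^ (B + 1))) := by gcongr
      _ = 64 * ℓ ^ (3 * (B + 1)) := by
        rw [mul_comm 3 (B + 1), pow_mul]
        ring
  -- the inclusion
  have hincl : S0.filter (fun l : ℤ => ¬ ∀ N y z : ℝ, K ^ (1 + ε) ≤ N → N ≤ K ^ (3 - ε) → K ^ δ ≤ y → y ≤ z →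
      z ≤ K ^ (ε / 500) → |Wl l N y z - N * SS l * Real.log (z / y)| ≤ N / ℓ ^ A) ⊆ (S1 ∪ S2) ∪ T.biUnion St := by
    intro l hl
    rw [mem_filter] at hl
    by_contra hcon
    rw [mem_union, mem_union, mem_biUnion] at hcon
    push Not at hcon
    obtain ⟨⟨n1, n2⟩, n3⟩ := hcon
    apply hl.2
    have hl1 : 1 ≤ l := by
      have := hl.1
      rw [hS0, mem_Icc] at this
      exact this.1
    have m1 : K ^ (ε / 432) < l := by
      by_contra hc
      push Not at hc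
      exact n1 (by rw [hS1, mem_filter]; exact ⟨hl.1, hc⟩)
    have m2 : |SS l| ≤ ℓ ^ (A + 1) := by
      by_contra hc
      push Not at hc
      exact n2 (by rw [hS2, mem_filter]; exact ⟨hl.1, hc⟩)
    have hSS : 0 < SS l := (c_ssl l (by omega)).2
    rw [abs_of_pos hSS] at m2
    intro N y z hN1 hN2 hy hyz hz
    have hKN : K ≤ N := by
      calc K = K ^ (1 : ℝ) := (Real.rpow_one K).symm
        _ ≤ K ^ (1 + ε) := Real.rpow_le_rpow_of_exponent_le hK1 (by linarith)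
        _ ≤ N := hN1
    have hN0 : 0 < N := by linarith
    have hy1 : 1 ≤ y := (Real.one_le_rpow hK1 hδ.le).trans hy
    have hz1 : 1 ≤ z := hy1.trans hyz
    have hLp : Real.log (z / y) ≤ ℓ := by
      have e1 : z / y ≤ z := div_le_self (by linarith) hy1
      have e2 : z ≤ K := by
        calc z ≤ K ^ (ε / 500) := hz
          _ ≤ K ^ (1 : ℝ) := Real.rpow_le_rpow_of_exponent_le hK1 (by linarith)
          _ = K := Real.rpow_one K
      exact Real.log_le_log (div_pos (by linarith) (by linarith)) (e1.trans e2)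
    have key := sand (l := l) (h := h0) (η := η) (s := SS l) (Lp := ℓ) (N := N) (y := y) (z := z) hh0p hh02 hηp.le hSS.le (by linarith) hy1 hyz hLp
      (fun i j k hi1 hi2 hj hjk hk => by
        have t1 : K ^ (1 + ε / 2) ≤ Real.exp (i * h0) := by
          refine le_trans ?_ hi1
          rw [le_div_iff₀ (by norm_num)]
          calc K ^ (1 + ε / 2) * 2 ≤ K ^ (1 + ε / 2) * K ^ (ε / 2) := mul_le_mul_of_nonneg_left hKε (by positivity)
            _ = K ^ (1 + ε) := by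
              rw [← Real.rpow_add hK0]
              congr 1
              ring
            _ ≤ N := hN1
        have t2 : Real.exp (i * h0) ≤ K ^ (3 - ε / 2) := by
          refine hi2.trans ?_
          calc 2 * N ≤ K ^ (ε / 2) * K ^ (3 - ε) := mul_le_mul hKε hN2 hN0.le (by positivity)
            _ = K ^ (3 - ε / 2) := by
              rw [← Real.rpow_add hK0]
              congr 1
              ring
        have t3 : K ^ (δ / 2) ≤ Real.exp (j * h0) := by
          refine le_trans ?_ hj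
          rw [le_div_iff₀ (by norm_num)]
          calc K ^ (δ / 2) * 2 ≤ K ^ (δ / 2) * K ^ (δ / 2) := mul_le_mul_of_nonneg_left hKδ (by positivity)
            _ = K ^ δ := by
              rw [← Real.rpow_add hK0]
              congr 1
              ring
            _ ≤ y := hy
        have t5 : Real.exp (k * h0) ≤ K ^ (ε / 432) := by
          refine hk.trans ?_
          calc 2 * z ≤ K ^ (ε / 432 - ε / 500) * K ^ (ε / 500) := mul_le_mul hKβ hz (by linarith) (by positivity)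
            _ = K ^ (ε / 432) := by
              rw [← Real.rpow_add hK0]
              congr 1
              ring
        have hK3' : Real.exp (i * h0) ≤ K ^ (3 : ℝ) :=
          t2.trans (Real.rpow_le_rpow_of_exponent_le hK1 (by linarith))
        have hk3' : Real.exp (k * h0) ≤ K ^ (3 : ℝ) :=
          t5.trans (Real.rpow_le_rpow_of_exponent_le hK1 (by linarith))
        have hjI : j < I := lt_of_le_of_lt hjk (hIlt k hk3')
        have htT : (i, j, k) ∈ T := by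
          rw [hT, mem_filter, mem_product, mem_product, mem_range, mem_range, mem_range]
          exact ⟨⟨hIlt i hK3', hjI, hIlt k hk3'⟩, t1, t2, t3, hjk, t5⟩
        have n4 := n3 _ htT
        by_contra hc
        push Not at hc
        apply n4
        rw [hSt]
        simp only
        rw [mem_filter, mem_filter]
        exact ⟨⟨hl.1, m1⟩, hc⟩)
    refine key.trans ?_
    have b1 : SS l * (4 * h0 * (1 + ℓ)) ≤ 8 / ℓ ^ (A + 1) := by
      calc SS l * (4 * h0 * (1 + ℓ)) ≤ ℓ ^ (A + 1) * (4 * h0 * (2 * ℓ)) := by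
            refine mul_le_mul m2 ?_ (by positivity) (by positivity)
            exact mul_le_mul_of_nonneg_left (by linarith) (by positivity)
        _ = 8 / ℓ ^ (A + 2) := by
            have : ℓ ^ B = ℓ ^ (A + 1) * ℓ * ℓ ^ (A + 2) := by
              rw [← pow_succ, ← pow_add]
              congr 1
              omega
            rw [hh0, this]
            field_simp
            ring
        _ ≤ 8 / ℓ ^ (A + 1) := div_le_div_of_nonneg_left (by norm_num) (by positivity)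
            (pow_le_pow_right₀ hℓ1 (by omega))
    calc N * (SS l * (4 * h0 * (1 + ℓ)) + 2 * η) ≤ N * (8 / ℓ ^ (A + 1) + 2 * (1 / ℓ ^ (A + 1))) :=
          mul_le_mul_of_nonneg_left (add_le_add b1 le_rfl) hN0.le
      _ = N * (10 / ℓ) / ℓ ^ A := by
          rw [pow_succ]
          field_simp
          norm_num
      _ ≤ N * 1 / ℓ ^ A := by
          apply div_le_div_of_nonneg_right _ (by positivity)
          apply mul_le_mul_of_nonneg_left _ hN0.le
          rw [div_le_one hℓ0]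
          exact hℓ10
      _ = _ := by rw [mul_one]
  -- the end
  have hfin : (((S0.filter (fun l : ℤ => ¬ ∀ N y z : ℝ, K ^ (1 + ε) ≤ N → N ≤ K ^ (3 - ε) → K ^ δ ≤ y → y ≤ z →
      z ≤ K ^ (ε / 500) → |Wl l N y z - N * SS l * Real.log (z / y)| ≤ N / ℓ ^ A)).card : ℕ) : ℝ) ≤
      (S1.card : ℝ) + S2.card + ∑ t ∈ T, ((St t).card : ℝ) := by
    have e1 := card_le_card hincl
    have e2 := card_union_le (S1 ∪ S2) (T.biUnion St)
    have e3 := card_union_le S1 S2
    have e4 : (T.biUnion St).card ≤ ∑ t ∈ T, (St t).card := card_biUnion_le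
    have e5 := e1.trans (e2.trans (Nat.add_le_add e3 e4))
    exact_mod_cast e5
  refine hfin.trans ?_
  have hsumT : ∑ t ∈ T, ((St t).card : ℝ) ≤ 64 * C * (K / ℓ ^ (A + 1)) := by
    calc ∑ t ∈ T, ((St t).card : ℝ) ≤ ∑ t ∈ T, C * (K / ℓ ^ (A2 - (A + 1))) := sum_le_sum hcardSt
      _ = (T.card : ℝ) * (C * (K / ℓ ^ (A2 - (A + 1)))) := by rw [sum_const, nsmul_eq_mul]
      _ ≤ 64 * ℓ ^ (3 * (B + 1)) * (C * (K / ℓ ^ (A2 - (A + 1)))) :=
          mul_le_mul_of_nonneg_right hcardT (by positivity)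
      _ = 64 * C * (K / ℓ ^ (A + 1)) := by
          have : ℓ ^ (A2 - (A + 1)) = ℓ ^ (3 * (B + 1)) * ℓ ^ (A + 1) := by
            rw [← pow_add]
            congr 1
            omega
          rw [this]
          field_simp
  calc (S1.card : ℝ) + S2.card + ∑ t ∈ T, ((St t).card : ℝ) ≤
      C4 * (K / ℓ ^ (A + 1)) + C3 * (K / ℓ ^ (A + 1)) + 64 * C * (K / ℓ ^ (A + 1)) :=
        add_le_add (add_le_add hcardS1 hcardS2) hsumT
    _ = K * (C3 + C4 + 64 * C) / ℓ / ℓ ^ A := by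
        rw [pow_succ]
        field_simp
        ring
    _ ≤ K / ℓ ^ A := by
        apply div_le_div_of_nonneg_right _ (by positivity)
        rw [div_le_iff₀ hℓ0]
        exact mul_le_mul_of_nonneg_left (by linarith) hK0.le

end Pool.Agent.J6H16.E2
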