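import Pool.Agent.J6H16.E2.Sa

/-!
# Project E2 (helper16): the bilinear sums, one pair of shells
-/

set_option autoImplicit false

namespace Pool.Agent.J6H16.E2

open Finset Filter Topology
open Pool.Agent.N782.GN hiding f1
open Pool.Agent.N855.GN
open Pool.Agent.H304R3.HK (UH bb LamK CS)
open Pool.Agent.J6H16.PF Pool.Agent.J6H16.PR

/-- the conclusion of `box1` for a fixed `M` -/
def Box (ε C : ℝ) (A B : ℕ) (c3 c4 M : ℝ) : Prop := ∀ (M' L R x y Yg Z1 Z2 : ℝ) (g : ℕ),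
    M ^ (1 / 2 : ℝ) ≤ M' → M' ≤ M ^ 2 → 1 ≤ L → L ≤ M' ^ (1 - ε) → 0 < R → M' ^ (1 + ε) ≤ R ^ 2 * L →
    R ^ 2 ≤ L * M' ^ (1 - ε) → M ^ c3 ≤ x → y ≤ M ^ c4 → 1 ≤ g → (g : ℝ) ≤ (Real.log M) ^ B → Z2 ≤ M ^ 4 →
    ∀ γ : ZI → ℝ, (∀ v, |γ v| ≤ 1) →
      ∑ l ∈ Icc (1 : ℤ) ⌊L⌋, |Th (bt M x y Yg g Z1 Z2) γ R (M' / (8 * R)) l| ≤ C * L * M' / (Real.log M') ^ A

/-- the parameters -/
structure Hp (ε c3 c4 : ℝ) (B D : ℕ) (M L W Y x y : ℝ) (g : ℕ) : Prop where
  e0 : 0 < ε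
  e1 : ε ≤ 1
  c30 : 0 < c3
  c43 : c3 < c4
  M4 : 9 ≤ M
  L1 : M ^ ε ≤ L
  L2 : L ≤ M ^ (1 - ε)
  Y1 : M / L * M ^ ε ≤ Y
  W1 : M / L * M ^ ε ≤ W
  x1 : M ^ c3 ≤ x
  y1 : y ≤ M ^ c4
  g1 : 1 ≤ g
  g2 : (g : ℝ) ≤ (Real.log M) ^ B
  l1 : 7 ≤ Real.log M
  b1 : (Real.log M) ^ (B + D) ≤ M ^ (ε / 8)
  b2 : 2 * ((Real.log M) ^ B) ^ 2 ≤ M ^ c3
  b3 : 64 ≤ M ^ (ε / 2)

namespace Hp

variable {ε c3 c4 : ℝ} {B D : ℕ} {M L W Y x y : ℝ} {g : ℕ}

theorem M1 (h : Hp ε c3 c4 B D M L W Y x y g) : 1 ≤ M := by linarith [h.M4]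
theorem M0 (h : Hp ε c3 c4 B D M L W Y x y g) : 0 < M := by linarith [h.M4]
theorem L0 (h : Hp ε c3 c4 B D M L W Y x y g) : 1 ≤ L := (Real.one_le_rpow h.M1 h.e0.le).trans h.L1
theorem g0 (h : Hp ε c3 c4 B D M L W Y x y g) : (1 : ℝ) ≤ g := by exact_mod_cast h.g1
theorem x0 (h : Hp ε c3 c4 B D M L W Y x y g) : 1 ≤ x := (Real.one_le_rpow h.M1 h.c30.le).trans h.x1
theorem ML (h : Hp ε c3 c4 B D M L W Y x y g) : M ^ ε ≤ M / L := by
  rw [le_div_iff₀ (by linarith [h.L0])]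
  calc M ^ ε * L ≤ M ^ ε * M ^ (1 - ε) := mul_le_mul_of_nonneg_left h.L2 (by have := h.M0; positivity)
    _ = M := by rw [← Real.rpow_add h.M0]; simp
theorem W0 (h : Hp ε c3 c4 B D M L W Y x y g) : 1 ≤ W := by
  have h1 := Real.one_le_rpow h.M1 h.e0.le
  have h2 := h.ML
  have h3 := h.W1
  nlinarith

theorem Nbig (h : Hp ε c3 c4 B D M L W Y x y g) : M ^ (1 - ε / 8) ≤ M / g / (Real.log M) ^ D := by
  have hM0 := h.M0
  have hl := h.l1
  have hg0 := h.g0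
  rw [div_div, le_div_iff₀ (by positivity)]
  calc M ^ (1 - ε / 8) * (g * (Real.log M) ^ D) ≤ M ^ (1 - ε / 8) * ((Real.log M) ^ B * (Real.log M) ^ D) := by
        have := h.g2
        gcongr
    _ = M ^ (1 - ε / 8) * (Real.log M) ^ (B + D) := by rw [pow_add]
    _ ≤ M ^ (1 - ε / 8) * M ^ (ε / 8) := mul_le_mul_of_nonneg_left h.b1 (by positivity)
    _ = M := by rw [← Real.rpow_add hM0]; simp

end Hp

/-- **one pair of shells** -/
theorem tij {ε C c3 c4 : ℝ} {A B D : ℕ} {M L W Y x y : ℝ} {g : ℕ} (h : Hp ε c3 c4 B D M L W Y x y g) (hC : 0 < C)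
    (hbox : Box (ε / 2) C A B c3 c4 M) {lam : ℤ → ℝ} (hlam : Lm (L / g) lam) {a b ρ : ℝ} (ha : 1 ≤ a) (hb : 1 ≤ b)
    (hρ : 1 ≤ ρ) (hρ2 : ρ ≤ 2) (hab : (ρ * a) * (ρ * b) ≤ (M / g) ^ 2)
    (hab2 : (M / g / (Real.log M) ^ D) ^ 2 ≤ a * b) :
    |∑ t ∈ bg a (ρ * a), ∑ v ∈ bg b (ρ * b), G1 M x y (Y / (g : ℝ) ^ 2) g W (M / g) lam t v| ≤
      192 * C * 2 ^ A * Real.log M * (L * (M / g)) / (Real.log M) ^ A := by
  classical
  have hM0 := h.M0
  have hM1 := h.M1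
  have hM4 := h.M4
  have hL0 := h.L0
  have hg0 := h.g0
  have hx0 := h.x0
  have hW0 := h.W0
  have hl1 := h.l1
  have hε0 := h.e0
  have hε1 := h.e1
  set ℓ := Real.log M with hℓ
  have hℓ0 : 0 < ℓ := by linarith
  set N := M / g with hN
  have hN0 : 0 < N := by positivity
  have hNM : N ≤ M := div_le_self hM0.le hg0
  have hrhs : 0 ≤ 192 * C * 2 ^ A * ℓ * (L * N) / ℓ ^ A := by positivity
  have ha0 : 0 < a := by linarith
  have hb0 : 0 < b := by linarith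
  -- trivial cases
  by_cases hex : ∃ t ∈ bg a (ρ * a), ∃ v ∈ bg b (ρ * b), G1 M x y (Y / (g : ℝ) ^ 2) g W N lam t v ≠ 0
  swap
  · push Not at hex
    rw [sum_eq_zero fun t ht => sum_eq_zero fun v hv => hex t ht v hv, abs_zero]
    exact hrhs
  obtain ⟨t0, ht0, v0, hv0, hne⟩ := hex
  rw [mem_bg] at ht0 hv0
  unfold G1 at hne
  have hne1 : (if ct t0 = 1 then cv (fw M x y) (gy (Y / (g : ℝ) ^ 2) g) t0 else 0) ≠ 0 :=
    left_ne_zero_of_mul (left_ne_zero_of_mul hne)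
  have hne2 : aW W v0 ≠ 0 := right_ne_zero_of_mul (left_ne_zero_of_mul hne)
  have hρa : x * (Y / (g : ℝ) ^ 2) ≤ ρ * a := by
    split_ifs at hne1 with hct
    · obtain ⟨α, m, h1, h2, h3, h4, h5⟩ := cv_ne hne1
      have k1 := (fw_ne h2).2.1
      have k2 : Y / (g : ℝ) ^ 2 < nz m := by
        by_contra hcon
        apply h3
        unfold gy
        rw [if_neg hcon]
      have k3 : nz t0 = nz α * nz m := by rw [← h1, Pool.Agent.N855.GN.nz_mul]
      have hY0 : 0 ≤ Y := le_trans (by positivity) h.Y1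
      calc x * (Y / (g : ℝ) ^ 2) ≤ nz α * nz m := mul_le_mul k1.le k2.le (by positivity) (nz_nonneg _)
        _ = nz t0 := k3.symm
        _ ≤ ρ * a := ht0.2.1
    · exact absurd rfl hne1
  have hρb : W < ρ * b := by
    by_contra hcon
    apply hne2
    apply Pool.Agent.N277.GN.aW_zero
    linarith [hv0.2.1]
  -- the parameters of the box
  set M' := 8 * (Real.sqrt a * Real.sqrt b) with hM'
  have hsa0 : 0 < Real.sqrt a := Real.sqrt_pos.2 ha0
  have hsb0 : 0 < Real.sqrt b := Real.sqrt_pos.2 hb0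
  have hsa : (Real.sqrt a) ^ 2 = a := Real.sq_sqrt ha0.le
  have hsb : (Real.sqrt b) ^ 2 = b := Real.sq_sqrt hb0.le
  have hM'1 : N / ℓ ^ D ≤ Real.sqrt a * Real.sqrt b := by
    apply le_of_sq_le_sq _ (by positivity)
    rw [mul_pow, hsa, hsb]
    exact hab2
  have hbig := h.Nbig
  have hM'0 : M ^ (1 - ε / 8) ≤ M' := by
    have : 0 ≤ N / ℓ ^ D := by positivity
    calc M ^ (1 - ε / 8) ≤ N / ℓ ^ D := hbig
      _ ≤ 8 * (N / ℓ ^ D) := by linarith
      _ ≤ M' := by rw [hM']; linarith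
  have hM'00 : 0 < M' := lt_of_lt_of_le (by positivity) hM'0
  have hM'2 : M' ≤ 8 * N := by
    have : Real.sqrt a * Real.sqrt b ≤ N := by
      apply le_of_sq_le_sq _ hN0.le
      rw [mul_pow, hsa, hsb]
      refine le_trans ?_ hab
      have h1 : a ≤ ρ * a := by nlinarith
      have h2 : b ≤ ρ * b := by nlinarith
      exact mul_le_mul h1 h2 hb0.le (by linarith)
    rw [hM']
    linarith
  have hM'3 : M' ≤ 8 * M := hM'2.trans (by linarith)
  have hpowA : M ^ (1 - ε) ≤ M' ^ (1 - ε / 2) := by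
    calc M ^ (1 - ε) ≤ M ^ ((1 - ε / 8) * (1 - ε / 2)) := by
          apply Real.rpow_le_rpow_of_exponent_le hM1
          nlinarith
      _ = (M ^ (1 - ε / 8)) ^ (1 - ε / 2) := by rw [← Real.rpow_mul hM0.le]
      _ ≤ M' ^ (1 - ε / 2) := Real.rpow_le_rpow (by positivity) hM'0 (by linarith)
  have q1 : M ^ (1 / 2 : ℝ) ≤ M' := (Real.rpow_le_rpow_of_exponent_le hM1 (by linarith)).trans hM'0
  have q2 : M' ≤ M ^ 2 := by nlinarith
  have q4 : L ≤ M' ^ (1 - ε / 2) := h.L2.trans hpowA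
  have hYpos : 0 < Y := lt_of_lt_of_le (by positivity) h.Y1
  have q5 : M' ^ (1 + ε / 2) ≤ (Real.sqrt a) ^ 2 * L := by
    rw [hsa]
    have k1 : M' ^ (1 + ε / 2) ≤ M ^ (1 + ε) := by
      calc M' ^ (1 + ε / 2) ≤ (8 * M) ^ (1 + ε / 2) := Real.rpow_le_rpow hM'00.le hM'3 (by linarith)
        _ = 8 ^ (1 + ε / 2) * M ^ (1 + ε / 2) := Real.mul_rpow (by norm_num) hM0.le
        _ ≤ 8 ^ (2 : ℝ) * M ^ (1 + ε / 2) := by
            apply mul_le_mul_of_nonneg_right _ (by positivity)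
            exact Real.rpow_le_rpow_of_exponent_le (by norm_num) (by linarith)
        _ = 64 * M ^ (1 + ε / 2) := by norm_num
        _ ≤ M ^ (ε / 2) * M ^ (1 + ε / 2) := mul_le_mul_of_nonneg_right h.b3 (by positivity)
        _ = M ^ (1 + ε) := by rw [← Real.rpow_add hM0]; ring_nf
    have k2 : M ^ (1 + ε) ≤ Y * L := by
      have := h.Y1
      calc M ^ (1 + ε) = M / L * M ^ ε * L := by
            rw [Real.rpow_add hM0, Real.rpow_one]
            field_simp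
        _ ≤ Y * L := mul_le_mul_of_nonneg_right this (by linarith)
    have k3 : Y ≤ a := by
      have k4 : 2 * (g : ℝ) ^ 2 ≤ x := by
        calc 2 * (g : ℝ) ^ 2 ≤ 2 * (ℓ ^ B) ^ 2 := by
              have := h.g2
              gcongr
          _ ≤ M ^ c3 := h.b2
          _ ≤ x := h.x1
      have k5 : 2 * Y ≤ x * (Y / (g : ℝ) ^ 2) := by
        rw [mul_div_assoc', le_div_iff₀ (by positivity)]
        nlinarith
      nlinarith
    calc M' ^ (1 + ε / 2) ≤ M ^ (1 + ε) := k1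
      _ ≤ Y * L := k2
      _ ≤ a * L := mul_le_mul_of_nonneg_right k3 (by linarith)
  have q6 : (Real.sqrt a) ^ 2 ≤ L * M' ^ (1 - ε / 2) := by
    rw [hsa]
    have hWpos : 0 < W := by linarith
    have k1 : a * W ≤ M ^ 2 := by
      calc a * W ≤ (ρ * a) * (ρ * b) := by
            apply mul_le_mul _ hρb.le hWpos.le (by positivity)
            nlinarith
        _ ≤ N ^ 2 := hab
        _ ≤ M ^ 2 := pow_le_pow_left₀ hN0.le hNM 2
    have k2 : a ≤ L * M ^ (1 - ε) := by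
      have k3 : M / L * M ^ ε * a ≤ M ^ 2 := by
        calc M / L * M ^ ε * a ≤ W * a := mul_le_mul_of_nonneg_right h.W1 ha0.le
          _ = a * W := mul_comm _ _
          _ ≤ M ^ 2 := k1
      have k4 : M ^ ε * M ^ (1 - ε) = M := by rw [← Real.rpow_add hM0]; simp
      have k5 : (0 : ℝ) < M / L * M ^ ε := by positivity
      have k6 : M ^ 2 = (M / L * M ^ ε) * (L * M ^ (1 - ε)) := by
        calc M ^ 2 = M * M := by ring
          _ = M * (M ^ ε * M ^ (1 - ε)) := by rw [k4]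
          _ = _ := by field_simp
      rw [k6] at k3
      exact le_of_mul_le_mul_left k3 k5
    exact k2.trans (mul_le_mul_of_nonneg_left hpowA (by linarith))
  have q7 : ρ * a ≤ M ^ 4 := by
    calc ρ * a ≤ (ρ * a) * (ρ * b) := le_mul_of_one_le_right (by positivity) (by nlinarith)
      _ ≤ N ^ 2 := hab
      _ ≤ M ^ 2 := pow_le_pow_left₀ hN0.le hNM 2
      _ ≤ M ^ 4 := pow_le_pow_right₀ hM1 (by norm_num)
  have hρbM : ρ * b ≤ M ^ 6 := by
    calc ρ * b ≤ (ρ * a) * (ρ * b) := le_mul_of_one_le_left (by positivity) (by nlinarith)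
      _ ≤ N ^ 2 := hab
      _ ≤ M ^ 2 := pow_le_pow_left₀ hN0.le hNM 2
      _ ≤ M ^ 6 := pow_le_pow_right₀ hM1 (by norm_num)
  set γ : ZI → ℝ := fun v => if b < nz v ∧ nz v ≤ ρ * b then aW W v / (24 * ℓ) else 0 with hγ
  have hγ1 : ∀ v, |γ v| ≤ 1 := by
    intro v
    simp only [hγ]
    split_ifs with hv
    · have hv0' : v ≠ 0 := by
        rintro rfl
        have : nz (0 : ZI) = 0 := by simp [nz]
        rw [this] at hv
        linarith [hv.1]
      have := aW_bd (W := W) (by linarith : 1 < M) (E := 6) hv0' (hv.2.trans hρbM)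
      rw [abs_div, abs_of_pos (by positivity : 0 < 24 * ℓ), div_le_one (by positivity)]
      push_cast at this
      rw [← hℓ] at this
      linarith
    · rw [abs_zero]; norm_num
  have key := hbox M' L (Real.sqrt a) x y (Y / (g : ℝ) ^ 2) a (ρ * a) g q1 q2 hL0 q4 hsa0 q5 q6 h.x1 h.y1 h.g1 h.g2 q7 γ hγ1
  have hP : M' / (8 * Real.sqrt a) = Real.sqrt b := by
    rw [hM']
    field_simp
  rw [hP] at key
  rw [tgood hlam ha hb hρ (by linarith) hab hN0.le (by positivity : 0 < 24 * ℓ), abs_mul,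
    abs_of_pos (by positivity : 0 < 24 * ℓ)]
  have hlogM' : ℓ / 2 ≤ Real.log M' := by
    have := Real.log_le_log (by positivity) q1
    rw [Real.log_rpow hM0] at this
    linarith
  calc 24 * ℓ * |∑ l ∈ Icc 1 ⌊L / (g : ℝ)⌋, lam l * Th (bt M x y (Y / (g : ℝ) ^ 2) g a (ρ * a)) γ (Real.sqrt a) (Real.sqrt b) l|
      ≤ 24 * ℓ * ∑ l ∈ Icc 1 ⌊L⌋, |Th (bt M x y (Y / (g : ℝ) ^ 2) g a (ρ * a)) γ (Real.sqrt a) (Real.sqrt b) l| := by
        apply mul_le_mul_of_nonneg_left _ (by positivity)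
        refine (abs_sum_le_sum_abs _ _).trans ?_
        have hsub : Icc (1 : ℤ) ⌊L / (g : ℝ)⌋ ⊆ Icc 1 ⌊L⌋ := by
          apply Icc_subset_Icc_right
          apply Int.floor_le_floor
          exact div_le_self (by linarith) hg0
        refine (sum_le_sum fun l _ => ?_).trans (sum_le_sum_of_subset_of_nonneg hsub fun l _ _ => abs_nonneg _)
        rw [abs_mul]
        calc |lam l| * _ ≤ 1 * _ := mul_le_mul_of_nonneg_right (hlam.1 l) (abs_nonneg _)
          _ = _ := one_mul _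
    _ ≤ 24 * ℓ * (C * L * M' / (Real.log M') ^ A) := mul_le_mul_of_nonneg_left key (by positivity)
    _ ≤ 24 * ℓ * (C * L * (8 * N) / (ℓ / 2) ^ A) := by
        apply mul_le_mul_of_nonneg_left _ (by positivity)
        have h1 : (ℓ / 2) ^ A ≤ (Real.log M') ^ A := pow_le_pow_left₀ (by positivity) hlogM' A
        have h2 : (0 : ℝ) < (ℓ / 2) ^ A := by positivity
        apply div_le_div₀ (by positivity) _ h2 h1
        apply mul_le_mul_of_nonneg_left hM'2 (by positivity)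
    _ = _ := by
        rw [div_pow]
        field_simp
        ring

end Pool.Agent.J6H16.E2
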