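import Pool.Agent.J6H16.E2.Sb

/-!
# Project E2 (helper16): the bilinear sums, all shells
-/

set_option autoImplicit false

namespace Pool.Agent.J6H16.E2

open Finset Filter Topology
open Pool.Agent.N782.GN hiding f1
open Pool.Agent.N855.GN
open Pool.Agent.H304R3.HK (UH bb LamK CS)
open Pool.Agent.J6H16.PF Pool.Agent.J6H16.PR

/-- the exceptional set of the products -/
theorem bad_Z {L N N1 N2 a b ρ δ : ℝ} {lam : ℤ → ℝ} (hlam : Lm L lam) (hL : 0 ≤ L) (hN1 : 0 ≤ N1) (hN2 : 0 ≤ N2)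
    (hρ : 1 ≤ ρ) (hN1' : ρ ^ 2 * (N1 ^ 2 + L ^ 2) ≤ N ^ 2) (hN2' : ρ ^ 2 * δ ≤ N2 ^ 2) (ha : 0 < a) (hb : 0 < b)
    (hbad : ¬ ((ρ * a) * (ρ * b) ≤ N ^ 2 ∧ δ ≤ a * b)) {t v : ZI} (ht : t ∈ bg a (ρ * a)) (hv : v ∈ bg b (ρ * b))
    (hF : Fz lam N (t * v) ≠ 0) : t * v ∈ (Zb L N).filter (fun z => N1 < |(z.im : ℝ)|) ∪ Zb L N2 := by
  have hz := Fz_Zb hlam hF
  have hz' := mem_Zb.1 hz
  rw [mem_bg] at ht hv
  have hre : ((t * v).re : ℝ) ^ 2 ≤ L ^ 2 := by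
    have h1 : (1 : ℝ) ≤ ((t * v).re : ℝ) := by exact_mod_cast hz'.1
    exact pow_le_pow_left₀ (by linarith) hz'.2.1 2
  have hn : nz (t * v) = ((t * v).re : ℝ) ^ 2 + ((t * v).im : ℝ) ^ 2 := nz_eq _
  have hnm : nz (t * v) = nz t * nz v := Pool.Agent.N855.GN.nz_mul _ _
  rw [mem_union, mem_filter]
  by_cases h1 : (ρ * a) * (ρ * b) ≤ N ^ 2
  · have h2 : a * b < δ := by
      by_contra hcon
      exact hbad ⟨h1, not_lt.1 hcon⟩
    right
    rw [mem_Zb]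
    refine ⟨hz'.1, hz'.2.1, ?_⟩
    have h3 : nz (t * v) ≤ ρ ^ 2 * δ := by
      rw [hnm]
      calc nz t * nz v ≤ (ρ * a) * (ρ * b) := mul_le_mul ht.2.1 hv.2.1 (nz_nonneg _) (by positivity)
        _ = ρ ^ 2 * (a * b) := by ring
        _ ≤ ρ ^ 2 * δ := mul_le_mul_of_nonneg_left h2.le (by positivity)
    apply abs_le_of_sq_le_sq _ hN2
    nlinarith [sq_nonneg ((t * v).re : ℝ)]
  · left
    refine ⟨hz, ?_⟩
    push Not at h1
    have h2 : a * b < nz (t * v) := by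
      rw [hnm]
      exact mul_lt_mul'' ht.2.2 hv.2.2 ha.le hb.le
    have h3 : N ^ 2 < ρ ^ 2 * nz (t * v) := by
      calc N ^ 2 < (ρ * a) * (ρ * b) := h1
        _ = ρ ^ 2 * (a * b) := by ring
        _ ≤ ρ ^ 2 * nz (t * v) := mul_le_mul_of_nonneg_left h2.le (by positivity)
    have h4 : N1 ^ 2 < ((t * v).im : ℝ) ^ 2 := by
      have h5 : ρ ^ 2 * (N1 ^ 2 + L ^ 2) < ρ ^ 2 * nz (t * v) := lt_of_le_of_lt hN1' h3
      have h6 := lt_of_mul_lt_mul_left h5 (by positivity)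
      linarith
    rw [← sq_abs ((t * v).im : ℝ)] at h4
    exact lt_of_pow_lt_pow_left₀ 2 (abs_nonneg _) h4

/-- the number of the shells and their size -/
theorem shells {M ℓ : ℝ} {D : ℕ} (hM : 9 ≤ M) (hℓ : ℓ = Real.log M) (hℓ7 : 7 ≤ ℓ) : ∃ I : ℕ,
    2 * M ^ 2 ≤ (1 + 1 / ℓ ^ D) ^ I ∧ (1 + 1 / ℓ ^ D) ^ I ≤ M ^ 6 ∧ (I : ℝ) ≤ ℓ ^ (D + 2) := by
  have hM0 : 0 < M := by linarith
  have hℓ0 : 0 < ℓ := by linarith
  set η := 1 / ℓ ^ D with hη
  have hη0 : 0 < η := by positivity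
  have hη1 : η ≤ 1 := by
    rw [hη, div_le_one (by positivity)]
    exact one_le_pow₀ (by linarith)
  set V := 2 * M ^ 2 with hV
  have hV1 : 1 ≤ V := by nlinarith
  have hlogV : Real.log V ≤ 5 / 2 * ℓ := by
    rw [hV, Real.log_mul (by norm_num) (by positivity), Real.log_pow]
    have h1 := Real.log_two_lt_d9
    rw [hℓ] at hℓ7 ⊢
    push_cast
    linarith
  have hlogV0 : 0 ≤ Real.log V := Real.log_nonneg hV1
  refine ⟨⌈2 * Real.log V / η⌉₊, ?_, ?_, ?_⟩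
  · exact big_pow hV1 hη0 hη1 (Nat.le_ceil _)
  · have h1 := (Nat.ceil_lt_add_one (show 0 ≤ 2 * Real.log V / η by positivity)).le
    have h2 : (1 + η) ≤ Real.exp η := by
      have := Real.add_one_le_exp η
      linarith
    calc (1 + η) ^ ⌈2 * Real.log V / η⌉₊ ≤ (Real.exp η) ^ ⌈2 * Real.log V / η⌉₊ := pow_le_pow_left₀ (by positivity) h2 _
      _ = Real.exp (⌈2 * Real.log V / η⌉₊ * η) := by rw [← Real.exp_nat_mul]
      _ ≤ Real.exp (6 * ℓ) := by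
          apply Real.exp_le_exp.2
          calc (⌈2 * Real.log V / η⌉₊ : ℝ) * η ≤ (2 * Real.log V / η + 1) * η := mul_le_mul_of_nonneg_right h1 hη0.le
            _ = 2 * Real.log V + η := by field_simp
            _ ≤ 6 * ℓ := by linarith
      _ = M ^ 6 := by
          rw [hℓ, show (6 : ℝ) * Real.log M = ((6 : ℕ) : ℝ) * Real.log M by norm_num, Real.exp_nat_mul, Real.exp_log hM0]
  · have h1 := (Nat.ceil_lt_add_one (show 0 ≤ 2 * Real.log V / η by positivity)).le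
    have h2 : 2 * Real.log V / η = 2 * Real.log V * ℓ ^ D := by
      rw [hη]
      field_simp
    have h3 : 1 ≤ ℓ ^ D := one_le_pow₀ (by linarith)
    calc (⌈2 * Real.log V / η⌉₊ : ℝ) ≤ 2 * Real.log V * ℓ ^ D + 1 := h1.trans (by rw [h2])
      _ ≤ 5 * ℓ * ℓ ^ D + ℓ * ℓ ^ D := by
          have : 1 ≤ ℓ * ℓ ^ D := one_le_mul_of_one_le_of_one_le (by linarith) h3
          nlinarith
      _ = 6 * (ℓ * ℓ ^ D) := by ring
      _ ≤ ℓ * (ℓ * ℓ ^ D) := mul_le_mul_of_nonneg_right (by linarith) (by positivity)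
      _ = _ := by ring

/-- **all shells, primitive `t`** -/
theorem allS {ε C c3 c4 : ℝ} {A B D : ℕ} {M L W Y x y : ℝ} {g : ℕ} (h : Hp ε c3 c4 B D M L W Y x y g) (hC : 0 < C)
    (hbox : Box (ε / 2) C A B c3 c4 M) {lam : ℤ → ℝ} (hlam : Lm (L / g) lam) {ρ N1 N2 : ℝ} {I : ℕ} (hρ : 1 ≤ ρ) (hρ2 : ρ ≤ 2)
    (hN1 : 0 ≤ N1) (hN2 : 0 ≤ N2)
    (hN1' : ρ ^ 2 * (N1 ^ 2 + (L / g) ^ 2) ≤ (M / g) ^ 2) (hN2' : ρ ^ 2 * (M / g / (Real.log M) ^ D) ^ 2 ≤ N2 ^ 2)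
    (hI : ρ ^ I ≤ M ^ 6) :
    |∑ t ∈ bg 1 (ρ ^ I), ∑ v ∈ bg 1 (ρ ^ I), G1 M x y (Y / (g : ℝ) ^ 2) g W (M / g) lam t v| ≤
      (I : ℝ) ^ 2 * (192 * C * 2 ^ A * Real.log M * (L * (M / g)) / (Real.log M) ^ A) +
      576 * Real.log M * ∑ z ∈ (Zb (L / g) (M / g)).filter (fun z => N1 < |(z.im : ℝ)|) ∪ Zb (L / g) N2, (dv z : ℝ) := by
  classical
  have hM0 := h.M0
  have hM1 := h.M1
  have hM4 := h.M4
  have hL0 := h.L0
  have hg0 := h.g0
  have hl1 := h.l1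
  set ℓ := Real.log M with hℓ
  have hℓ0 : 0 < ℓ := by linarith
  set Z := (Zb (L / g) (M / g)).filter (fun z => N1 < |(z.im : ℝ)|) ∪ Zb (L / g) N2 with hZ
  have hZ0 : ∀ z ∈ Z, z ≠ 0 := by
    intro z hz
    rw [hZ, mem_union, mem_filter] at hz
    rcases hz with hz | hz
    · exact Zb_ne hz.1
    · exact Zb_ne hz
  set K := 576 * ℓ with hK
  have hK0 : 0 ≤ K := by positivity
  set Bd := 192 * C * 2 ^ A * ℓ * (L * (M / g)) / ℓ ^ A with hBd
  have hBd0 : 0 ≤ Bd := by positivity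
  set G := G1 M x y (Y / (g : ℝ) ^ 2) g W (M / g) lam with hG
  have hcell : ∀ i ∈ range I, ∀ j ∈ range I, |∑ t ∈ bg (ρ ^ i) (ρ ^ (i + 1)), ∑ v ∈ bg (ρ ^ j) (ρ ^ (j + 1)), G t v| ≤
      Bd + ∑ t ∈ bg (ρ ^ i) (ρ ^ (i + 1)), ∑ v ∈ bg (ρ ^ j) (ρ ^ (j + 1)), (if t * v ∈ Z then K else 0) := by
    intro i hi j hj
    rw [mem_range] at hi hj
    have ha : 1 ≤ ρ ^ i := one_le_pow₀ hρ
    have hb : 1 ≤ ρ ^ j := one_le_pow₀ hρ
    have hnn : 0 ≤ ∑ t ∈ bg (ρ ^ i) (ρ ^ (i + 1)), ∑ v ∈ bg (ρ ^ j) (ρ ^ (j + 1)), (if t * v ∈ Z then K else 0) :=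
      sum_nonneg fun t _ => sum_nonneg fun v _ => by split_ifs <;> positivity
    have e1 : ρ ^ (i + 1) = ρ * ρ ^ i := by ring
    have e2 : ρ ^ (j + 1) = ρ * ρ ^ j := by ring
    rw [e1, e2] at hnn ⊢
    by_cases hgood : (ρ * ρ ^ i) * (ρ * ρ ^ j) ≤ (M / g) ^ 2 ∧ (M / g / ℓ ^ D) ^ 2 ≤ ρ ^ i * ρ ^ j
    · have := tij h hC hbox hlam ha hb hρ hρ2 hgood.1 hgood.2
      rw [← hℓ, ← hBd] at this
      exact this.trans (by linarith)
    · refine le_trans ?_ (le_add_of_nonneg_left hBd0)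
      refine (abs_sum_le_sum_abs _ _).trans (sum_le_sum fun t ht => ?_)
      refine (abs_sum_le_sum_abs _ _).trans (sum_le_sum fun v hv => ?_)
      by_cases hF : Fz lam (M / g) (t * v) = 0
      · rw [hG]
        unfold G1
        rw [hF, mul_zero, abs_zero]
        split_ifs <;> positivity
      · rw [if_pos (bad_Z hlam (by positivity) hN1 hN2 hρ hN1' hN2' (by positivity) (by positivity) hgood ht hv hF)]
        rw [mem_bg] at ht hv
        have ht6 : nz t ≤ M ^ 6 := by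
          refine ht.2.1.trans (le_trans ?_ hI)
          rw [← e1]
          exact pow_le_pow_right₀ hρ (by omega)
        have hv6 : nz v ≤ M ^ 6 := by
          refine hv.2.1.trans (le_trans ?_ hI)
          rw [← e2]
          exact pow_le_pow_right₀ hρ (by omega)
        have k1 : |(if ct t = 1 then cv (fw M x y) (gy (Y / (g : ℝ) ^ 2) g) t else 0)| ≤ 24 := by
          split_ifs
          · have := cvg_bd (x := x) (y := y) (Yg := Y / (g : ℝ) ^ 2) (g := g) (by linarith : 1 < M) ht.1 ht6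
            push_cast at this
            linarith
          · rw [abs_zero]; norm_num
        have k2 : |aW W v| ≤ 24 * ℓ := by
          have := aW_bd (W := W) (by linarith : 1 < M) hv.1 hv6
          push_cast at this
          rw [← hℓ] at this
          linarith
        rw [hG]
        unfold G1
        rw [abs_mul, abs_mul]
        calc _ ≤ 24 * (24 * ℓ) * 1 :=
              mul_le_mul (mul_le_mul k1 k2 (abs_nonneg _) (by norm_num)) (Fz_abs hlam.1 _ _) (abs_nonneg _) (by positivity)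
          _ = K := by rw [hK]; ring
  have hdec : ∀ H : ZI → ZI → ℝ, ∑ t ∈ bg 1 (ρ ^ I), ∑ v ∈ bg 1 (ρ ^ I), H t v =
      ∑ i ∈ range I, ∑ j ∈ range I, ∑ t ∈ bg (ρ ^ i) (ρ ^ (i + 1)), ∑ v ∈ bg (ρ ^ j) (ρ ^ (j + 1)), H t v := by
    intro H
    rw [shell_sum hρ]
    refine sum_congr rfl fun i _ => ?_
    conv_rhs => rw [sum_comm]
    refine sum_congr rfl fun t _ => ?_
    exact shell_sum hρ _ I
  rw [hdec]
  calc |∑ i ∈ range I, ∑ j ∈ range I, ∑ t ∈ bg (ρ ^ i) (ρ ^ (i + 1)), ∑ v ∈ bg (ρ ^ j) (ρ ^ (j + 1)), G t v| ≤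
        ∑ i ∈ range I, ∑ j ∈ range I, (Bd + ∑ t ∈ bg (ρ ^ i) (ρ ^ (i + 1)), ∑ v ∈ bg (ρ ^ j) (ρ ^ (j + 1)),
          (if t * v ∈ Z then K else 0)) := by
        refine (abs_sum_le_sum_abs _ _).trans (sum_le_sum fun i hi => ?_)
        refine (abs_sum_le_sum_abs _ _).trans (sum_le_sum fun j hj => ?_)
        exact hcell i hi j hj
    _ = (I : ℝ) ^ 2 * Bd + ∑ t ∈ bg 1 (ρ ^ I), ∑ v ∈ bg 1 (ρ ^ I), (if t * v ∈ Z then K else 0) := by
        rw [hdec fun t v => (if t * v ∈ Z then K else 0)]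
        simp only [sum_add_distrib]
        rw [sum_const, sum_const, card_range, nsmul_eq_mul, nsmul_eq_mul]
        ring
    _ ≤ (I : ℝ) ^ 2 * Bd + K * ∑ z ∈ Z, (dv z : ℝ) := by
        have := Pool.Agent.N277.GN.pair_count (bg 1 (ρ ^ I)) (bg 1 (ρ ^ I)) Z hZ0
          (fun t v => if t * v ∈ Z then K else 0) K hK0 (fun t _ v _ => by
            split_ifs
            · rw [abs_of_nonneg hK0]
            · rw [abs_zero]; exact hK0) (fun t _ v _ hne => by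
            by_contra hcon
            rw [if_neg hcon] at hne
            exact hne rfl)
        have h1 := (le_abs_self _).trans this
        linarith

end Pool.Agent.J6H16.E2
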