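import Pool.Agent.J6H16.E2.Sc

/-!
# Project E2 (helper16): the bilinear sums for a fixed content
-/

set_option autoImplicit false

namespace Pool.Agent.J6H16.E2

open Finset Filter Topology
open Pool.Agent.N782.GN hiding f1
open Pool.Agent.N855.GN
open Pool.Agent.H304R3.HK (UH bb LamK CS)
open Pool.Agent.J6H16.PF Pool.Agent.J6H16.PR

/-- the part with products of large content -/
theorem part_ct {c3 : ℝ} (hc3 : 0 < c3) (A : ℕ) : ∃ C : ℝ, 0 < C ∧ ∀ᶠ M : ℝ in atTop, ∀ (L N W x y Yg Z : ℝ) (g : ℕ)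
    (lam : ℤ → ℝ), 1 ≤ L → L ≤ N → N ≤ M → M ^ c3 ≤ x → Z ≤ M ^ 6 → Lm L lam →
    |∑ t ∈ bg 1 Z, ∑ v ∈ bg 1 Z, (cv (fw M x y) (gy Yg g) t * aW W v * (if ct t = 1 then 0 else Fz lam N (t * v)))| ≤
      C * (L * N) / (Real.log M) ^ A := by
  classical
  obtain ⟨Cd, hCd, hdv⟩ := c_dvb (c3 / 8) (by positivity)
  refine ⟨3456 * Cd, by positivity, ?_⟩
  filter_upwards [eventually_ge_atTop (9 : ℝ), ev_log 7, ev_rp hc3 2, ev_qM (show 0 < c3 / 2 by positivity) (A + 1)] with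
    M hM9 hl7 hMc hq
  intro L N W x y Yg Z g lam hL hLN hNM hx hZ hlam
  have hM0 : 0 < M := by linarith
  have hM1 : 1 ≤ M := by linarith
  set ℓ := Real.log M with hℓ
  have hℓ0 : 0 < ℓ := by linarith
  set ZZ := (Zb L N).filter (fun z => M ^ c3 ≤ (ct z : ℝ)) with hZZ
  set c : ZI → ZI → ℝ := fun t v => if t * v ∈ ZZ then (if ct t = 1 then 0 else Fz lam N (t * v)) else 0 with hc
  have e1 : ∀ t ∈ bg 1 Z, ∀ v ∈ bg 1 Z, cv (fw M x y) (gy Yg g) t * aW W v * (if ct t = 1 then 0 else Fz lam N (t * v)) =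
      cv (fw M x y) (gy Yg g) t * aW W v * c t v := by
    intro t ht v hv
    rw [hc]
    simp only
    by_cases hmem : t * v ∈ ZZ
    · rw [if_pos hmem]
    · rw [if_neg hmem, mul_zero]
      by_cases h1 : cv (fw M x y) (gy Yg g) t = 0
      · rw [h1]; ring
      by_cases h2 : ct t = 1
      · rw [if_pos h2, mul_zero]
      by_cases h3 : Fz lam N (t * v) = 0
      · rw [if_neg h2, h3, mul_zero]
      exfalso
      apply hmem
      rw [hZZ, mem_filter]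
      refine ⟨Fz_Zb hlam h3, ?_⟩
      obtain ⟨a, m, h4, h5, h6, h7, h8⟩ := cv_ne h1
      have hm : ct m = 1 := by
        by_contra hcon
        exact h6 (gy_ct hcon)
      rcases ct_np (fw_ne h5).1 hm with h9 | h9
      · rw [h4] at h9
        exact absurd h9 h2
      · rw [h4] at h9
        have h10 : ct t ∣ ct (t * v) := by
          apply (Pool.Agent.N864.GN.MB.dvd_ct _ _).1
          exact ((Pool.Agent.N864.GN.MB.dvd_ct (ct t) t).2 dvd_rfl).mul_right v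
        have h11 : ct t ≤ ct (t * v) := Nat.le_of_dvd (ct_pos (Zb_ne (Fz_Zb hlam h3))) h10
        have h12 : (ct t : ℝ) ≤ ct (t * v) := by exact_mod_cast h11
        linarith [(fw_ne h5).2.1]
  rw [sum_congr rfl fun t ht => sum_congr rfl fun v hv => e1 t ht v hv]
  have hS : ∀ t ∈ bg 1 Z, t ≠ 0 ∧ nz t ≤ M ^ 6 := by
    intro t ht
    rw [mem_bg] at ht
    exact ⟨ht.1, ht.2.1.trans hZ⟩
  refine (pairs_le M x y Yg g W (by linarith) _ _ hS hS ZZ (fun z hz => Zb_ne (mem_filter.1 hz).1) c (fun t v => by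
    simp only [hc]
    split_ifs
    · rw [abs_zero]; norm_num
    · exact Fz_abs hlam.1 _ _
    · rw [abs_zero]; norm_num) (fun t v hne => by
    by_contra hcon
    simp only [hc] at hne
    rw [if_neg hcon] at hne
    exact hne rfl)).trans ?_
  rw [← hℓ]
  have h1 : ∑ z ∈ ZZ, (dv z : ℝ) ≤ (6 * L * N / M ^ c3) * (Cd * M ^ (3 * c3 / 8)) := by
    calc ∑ z ∈ ZZ, (dv z : ℝ) ≤ ∑ z ∈ ZZ, Cd * M ^ (3 * c3 / 8) := by
          refine sum_le_sum fun z hz => ?_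
          rw [hZZ, mem_filter, mem_Zb] at hz
          have hz0 : z ≠ 0 := Zb_ne (mem_Zb.2 hz.1)
          refine (hdv z hz0).trans (mul_le_mul_of_nonneg_left ?_ hCd.le)
          have h2 : nz z ≤ M ^ (3 : ℝ) := by
            rw [nz_eq]
            have h3 : (z.re : ℝ) ^ 2 ≤ M ^ 2 := by
              have : (1 : ℝ) ≤ z.re := by exact_mod_cast hz.1.1
              exact pow_le_pow_left₀ (by linarith) (hz.1.2.1.trans (hLN.trans hNM)) 2
            have h4 : (z.im : ℝ) ^ 2 ≤ M ^ 2 := by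
              rw [← sq_abs]
              exact pow_le_pow_left₀ (abs_nonneg _) (hz.1.2.2.trans hNM) 2
            have h5 : M ^ (3 : ℝ) = M * M ^ 2 := by
              rw [show (3 : ℝ) = ((3 : ℕ) : ℝ) by norm_num, Real.rpow_natCast]
              ring
            rw [h5]
            nlinarith [sq_nonneg M]
          calc (nz z) ^ (c3 / 8) ≤ (M ^ (3 : ℝ)) ^ (c3 / 8) := Real.rpow_le_rpow (nz_nonneg _) h2 (by positivity)
            _ = M ^ (3 * c3 / 8) := by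
                rw [← Real.rpow_mul hM0.le]
                ring_nf
      _ = (ZZ.card : ℝ) * (Cd * M ^ (3 * c3 / 8)) := by rw [sum_const, nsmul_eq_mul]
      _ ≤ _ := mul_le_mul_of_nonneg_right (ctZ hL hLN hMc) (by positivity)
  have hN0 : 0 < N := by linarith
  calc 576 * ℓ * ∑ z ∈ ZZ, (dv z : ℝ) ≤ 576 * ℓ * ((6 * L * N / M ^ c3) * (Cd * M ^ (3 * c3 / 8))) :=
        mul_le_mul_of_nonneg_left h1 (by positivity)
    _ = 3456 * Cd * (L * N) * ℓ * (M ^ (3 * c3 / 8) / M ^ c3) := by ring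
    _ ≤ 3456 * Cd * (L * N) * ℓ * (1 / ℓ ^ (A + 1)) := by
        apply mul_le_mul_of_nonneg_left _ (by positivity)
        rw [div_le_div_iff₀ (by positivity) (by positivity), one_mul]
        calc M ^ (3 * c3 / 8) * ℓ ^ (A + 1) ≤ M ^ (3 * c3 / 8) * M ^ (c3 / 2) := by gcongr
          _ = M ^ (7 * c3 / 8) := by rw [← Real.rpow_add hM0]; ring_nf
          _ ≤ M ^ c3 := Real.rpow_le_rpow_of_exponent_le hM1 (by linarith)
    _ = _ := by
        rw [pow_succ]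
        field_simp

theorem mul_big {a b X : ℝ} (ha : 1 ≤ a) (hb : X < b) (hb0 : 0 ≤ b) : X < a * b :=
  lt_of_lt_of_le hb (le_mul_of_one_le_left hb0 ha)

theorem mul_small {a b x : ℝ} (hx : 1 ≤ x) (ha : x < a) (hb : 1 ≤ b) (h : a * b ≤ 1) : False := by nlinarith

theorem expo {ε : ℝ} (h0 : 0 < ε) (h1 : ε ≤ 1) : 1 - ε ≤ (1 - ε / 8) * (1 - ε / 4) ∧
    1 - ε / 2 ≤ (1 - ε / 8) * (1 - ε / 4) ∧ ε / 80 ≤ (1 - ε / 8) * (ε / 4 / 10) := by
  refine ⟨?_, ?_, ?_⟩ <;> nlinarith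

theorem rho_sq {η : ℝ} (h0 : 0 ≤ η) : 1 - 1 / (1 + η) ^ 2 ≤ 2 * η := by
  have h2 : 1 - 2 * η ≤ 1 / (1 + η) ^ 2 := by
    rw [le_div_iff₀ (by positivity)]
    nlinarith [mul_nonneg h0 h0, mul_nonneg (mul_nonneg h0 h0) h0]
  linarith

/-- the thin region -/
theorem numT {N l P ρ : ℝ} (hN : 0 < N) (hl : 0 ≤ l) (hP : 1 ≤ P) (hlN : l ≤ N / 64) (hlP : l ^ 2 * P ≤ N ^ 2)
    (hρ : ρ = 1 + 1 / P) : ∃ N1 : ℝ, 0 ≤ N1 ∧ N / 3 ≤ N1 ∧ N1 ≤ N ∧ N - N1 ≤ 3 * (N / P) ∧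
      ρ ^ 2 * (N1 ^ 2 + l ^ 2) ≤ N ^ 2 ∧ ρ ^ 2 * (N / P) ^ 2 ≤ (2 * N / P) ^ 2 := by
  have hP0 : 0 < P := by linarith
  have hη0 : 0 < 1 / P := by positivity
  have hη1 : 1 / P ≤ 1 := by
    rw [div_le_one hP0]
    exact hP
  have hρ1 : 1 ≤ ρ := by linarith
  have hρ2 : ρ ≤ 2 := by linarith
  have hρ0 : 0 < ρ := by linarith
  have hρ4 : ρ ^ 2 ≤ 4 := by nlinarith
  have hNN : 0 < N ^ 2 := by positivity
  have hNρ : N ^ 2 / 4 ≤ N ^ 2 / ρ ^ 2 := div_le_div_of_nonneg_left hNN.le (by positivity) hρ4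
  have hlsq : l ^ 2 ≤ N ^ 2 / 16 := by nlinarith
  have hdiff : 0 ≤ N ^ 2 / ρ ^ 2 - l ^ 2 := by linarith
  have hN1sq : (Real.sqrt (N ^ 2 / ρ ^ 2 - l ^ 2)) ^ 2 = N ^ 2 / ρ ^ 2 - l ^ 2 := Real.sq_sqrt hdiff
  have hN10 : 0 ≤ Real.sqrt (N ^ 2 / ρ ^ 2 - l ^ 2) := Real.sqrt_nonneg _
  set N1 := Real.sqrt (N ^ 2 / ρ ^ 2 - l ^ 2) with hN1
  have hN1N : N1 ≤ N := by
    apply le_of_sq_le_sq _ hN.le
    rw [hN1sq]
    have h1 : N ^ 2 / ρ ^ 2 ≤ N ^ 2 := div_le_self hNN.le (one_le_pow₀ hρ1)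
    linarith [sq_nonneg l]
  refine ⟨N1, hN10, ?_, hN1N, ?_, ?_, ?_⟩
  · apply Real.le_sqrt_of_sq_le
    rw [div_pow]
    linarith
  · have h1 : l ^ 2 ≤ N ^ 2 * (1 / P) := by
      rw [mul_one_div, le_div_iff₀ hP0]
      exact hlP
    have h5 : N ^ 2 - N ^ 2 / ρ ^ 2 = N ^ 2 * (1 - 1 / ρ ^ 2) := by ring
    have h6 : N ^ 2 * (1 - 1 / ρ ^ 2) ≤ N ^ 2 * (2 * (1 / P)) := by
      apply mul_le_mul_of_nonneg_left _ hNN.le
      rw [hρ]
      exact rho_sq hη0.le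
    have h4 : N ^ 2 - N1 ^ 2 ≤ 3 * (N ^ 2 * (1 / P)) := by
      rw [hN1sq]
      linarith
    have h7 : (N - N1) * N ≤ N ^ 2 - N1 ^ 2 := by nlinarith
    have h8 : (N - N1) * N ≤ (3 * (N / P)) * N := by
      calc (N - N1) * N ≤ 3 * (N ^ 2 * (1 / P)) := h7.trans h4
        _ = _ := by ring
    exact le_of_mul_le_mul_right h8 hN
  · rw [hN1sq, sub_add_cancel, mul_div_cancel₀ _ (by positivity)]
  · calc ρ ^ 2 * (N / P) ^ 2 ≤ 4 * (N / P) ^ 2 := mul_le_mul_of_nonneg_right hρ4 (by positivity)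
      _ = (2 * N / P) ^ 2 := by ring

/-- the sum over the exceptional set -/
theorem numZ {Ct N l P ℓ N1 N2 S1 S2 E1 : ℝ} (hCt : 0 < Ct) (hN : 0 < N) (hl : 0 ≤ l) (hP : 1 ≤ P) (hℓ : 7 ≤ ℓ)
    (hthick : N - N1 ≤ 3 * (N / P)) (hN2 : N2 = 2 * N / P) (hlog0 : 0 ≤ Real.log (2 * N))
    (hlog1 : 1 + Real.log (2 * N) ≤ 2 * ℓ) (hlog2 : 1 + Real.log (2 * N2) ≤ 2 * ℓ) (hE : E1 ≤ N * (1 / P))
    (hS1 : S1 ≤ 4 * (N - N1) * l * (12 * (1 + Real.log (2 * N))) + Ct * l * E1)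
    (hS2 : S2 ≤ 96 * (l * N2) * (1 + Real.log (2 * N2))) : S1 + S2 ≤ (672 + Ct) * ℓ * (l * N) / P := by
  have hP0 : 0 < P := by linarith
  have hℓ0 : 0 < ℓ := by linarith
  have h2 : 4 * (N - N1) * l * (12 * (1 + Real.log (2 * N))) ≤ 4 * (3 * (N / P)) * l * (12 * (2 * ℓ)) := by
    apply mul_le_mul _ _ _ (by positivity)
    · apply mul_le_mul_of_nonneg_right _ hl
      linarith
    · linarith
    · positivity
  have h3 : Ct * l * E1 ≤ Ct * l * (N * (1 / P)) := mul_le_mul_of_nonneg_left hE (by positivity)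
  have h3' : Ct * l * (N * (1 / P)) ≤ Ct * ℓ * (l * N) / P := by
    have : Ct * l * (N * (1 / P)) = Ct * 1 * (l * N) / P := by ring
    rw [this]
    have : (1 : ℝ) ≤ ℓ := by linarith
    gcongr
  have h4 : 96 * (l * N2) * (1 + Real.log (2 * N2)) ≤ 96 * (l * N2) * (2 * ℓ) := by
    apply mul_le_mul_of_nonneg_left hlog2
    rw [hN2]
    positivity
  have h5 : 4 * (3 * (N / P)) * l * (12 * (2 * ℓ)) = 288 * ℓ * (l * N) / P := by ring
  have h6 : 96 * (l * N2) * (2 * ℓ) = 384 * ℓ * (l * N) / P := by rw [hN2]; ring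
  have h7 : (672 + Ct) * ℓ * (l * N) / P = 288 * ℓ * (l * N) / P + 384 * ℓ * (l * N) / P +
      Ct * ℓ * (l * N) / P := by ring
  rw [h7]
  linarith

/-- from the sets `bl` to the shells -/
theorem to_shells {M x y Yg W N L : ℝ} {g : ℕ} {lam : ℤ → ℝ} {Z : ℝ} (hlam : Lm L lam) (hLN : L ≤ N) (hN : 0 ≤ N)
    (hNM : N ≤ M) (hx : 1 ≤ x) (hW : 1 ≤ W) (hZ : 2 * M ^ 2 ≤ Z) :
    ∑ t ∈ bl (2 * M ^ 2), ∑ v ∈ bl (2 * M ^ 2), GG M x y Yg g W N lam t v =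
      ∑ t ∈ bg 1 Z, ∑ v ∈ bg 1 Z, GG M x y Yg g W N lam t v := by
  have hNM2 : 2 * N ^ 2 ≤ 2 * M ^ 2 := by
    have := pow_le_pow_left₀ hN hNM 2
    linarith
  have hzero : ∀ z : ZI, 2 * M ^ 2 < nz z → Fz lam N z = 0 := fun z hz => Fz_zero hlam hLN hNM2 hz
  have e2 : ∀ t : ZI, t ≠ 0 → ∑ v ∈ bl (2 * M ^ 2), GG M x y Yg g W N lam t v =
      ∑ v ∈ bg 1 Z, GG M x y Yg g W N lam t v := by
    intro t ht
    apply sum_bl_bg hZ
    · intro v hv hv1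
      unfold GG
      rw [Pool.Agent.N277.GN.aW_zero W (hv1.trans hW), mul_zero, zero_mul]
    · intro v hv hv1
      unfold GG
      rw [hzero, mul_zero]
      rw [Pool.Agent.N855.GN.nz_mul]
      exact mul_big (nz_one_le ht) hv1 (nz_nonneg v)
  rw [sum_congr rfl fun t ht => e2 t ((mem_bl _ _).1 ht).1]
  apply sum_bl_bg hZ
  · intro t ht ht1
    have h1 : cv (fw M x y) (gy Yg g) t = 0 := by
      by_contra hcon
      obtain ⟨a, m, h4, h5, h6, h7, h8⟩ := cv_ne hcon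
      have h9 := (fw_ne h5).2.1
      have h10 := nz_one_le h8
      rw [← h4, Pool.Agent.N855.GN.nz_mul] at ht1
      exact mul_small hx h9 h10 ht1
    refine sum_eq_zero fun v _ => ?_
    unfold GG
    rw [h1, zero_mul, zero_mul]
  · intro t ht ht1
    refine sum_eq_zero fun v hv => ?_
    rw [mem_bg] at hv
    unfold GG
    rw [hzero, mul_zero]
    rw [Pool.Agent.N855.GN.nz_mul, mul_comm (nz t)]
    exact mul_big (nz_one_le hv.1) ht1 (nz_nonneg t)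

theorem GG_split {M x y Yg W N : ℝ} {g : ℕ} {lam : ℤ → ℝ} (S : Finset ZI) :
    ∑ t ∈ S, ∑ v ∈ S, GG M x y Yg g W N lam t v = ∑ t ∈ S, ∑ v ∈ S, G1 M x y Yg g W N lam t v +
      ∑ t ∈ S, ∑ v ∈ S, (cv (fw M x y) (gy Yg g) t * aW W v * (if ct t = 1 then 0 else Fz lam N (t * v))) := by
  rw [← sum_add_distrib]
  refine sum_congr rfl fun t _ => ?_
  rw [← sum_add_distrib]
  refine sum_congr rfl fun v _ => ?_
  unfold GG G1
  split_ifs <;> ring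

/-- **the bilinear sums for a small content** -/
theorem sgood (ε : ℝ) (A B : ℕ) (hε : 0 < ε) (hε1 : ε ≤ 1) {c3 c4 : ℝ} (hc3 : 0 < c3) (h34 : c3 < c4)
    (hc4 : 6 * c4 ≤ ε) : ∃ C : ℝ, 0 < C ∧ ∀ᶠ M : ℝ in atTop, ∀ (L W Y x y : ℝ) (g : ℕ) (lam : ℤ → ℝ),
    M ^ ε ≤ L → L ≤ M ^ (1 - ε) → M / L * M ^ ε ≤ Y → M / L * M ^ ε ≤ W → M ^ c3 ≤ x → y ≤ M ^ c4 →
    1 ≤ g → (g : ℝ) ≤ (Real.log M) ^ B → Lm (L / g) lam →
    |∑ t ∈ bl (2 * M ^ 2), ∑ v ∈ bl (2 * M ^ 2), GG M x y (Y / (g : ℝ) ^ 2) g W (M / g) lam t v| ≤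
      C * (L * M / g) / (Real.log M) ^ A := by
  classical
  set D : ℕ := A + 4 with hD
  set A1 : ℕ := A + (2 * (D + 2) + 1) with hA1
  obtain ⟨Cb, hCb, hbox⟩ := box1 (ε / 2) A1 B (by positivity) (by linarith) hc3 h34 (by linarith)
  obtain ⟨Ct, hCt, hthin⟩ := thinZ (show 0 < ε / 4 by positivity)
  obtain ⟨Cc, hCc, hct⟩ := part_ct hc3 A
  refine ⟨192 * Cb * 2 ^ A1 + 576 * (672 + Ct) + Cc, by positivity, ?_⟩
  filter_upwards [hbox, hct, eventually_ge_atTop (36 : ℝ), ev_log 7, ev_qM (show 0 < ε / 8 by positivity) (B + D),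
    ev_rp (show 0 < ε / 2 by positivity) 64,
    ev_qM (show 0 < ε / 80 by positivity) D, ev_qM (show 0 < c3 by positivity) (2 * B + 1)]
    with M hbox hct hM36 hl7 hb1 hb3 hb4 hb5
  intro L W Y x y g lam hL1 hL2 hY hW hx hy hg hgB hlam
  have hp : Hp ε c3 c4 B D M L W Y x y g := ⟨hε, hε1, hc3, h34, by linarith, hL1, hL2, hY, hW, hx, hy, hg, hgB, hl7, hb1, by
    have h1 : 2 ≤ Real.log M := by linarith
    have h2 : ((Real.log M) ^ B) ^ 2 = (Real.log M) ^ (2 * B) := by rw [← pow_mul, mul_comm]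
    rw [h2]
    calc 2 * (Real.log M) ^ (2 * B) ≤ (Real.log M) * (Real.log M) ^ (2 * B) :=
          mul_le_mul_of_nonneg_right h1 (by positivity)
      _ = (Real.log M) ^ (2 * B + 1) := by ring
      _ ≤ M ^ c3 := hb5, hb3⟩
  have hM0 := hp.M0
  have hM1 := hp.M1
  have hL0 := hp.L0
  have hg0 := hp.g0
  have hbig := hp.Nbig
  obtain ⟨x1, x2, x3⟩ := expo hε hε1
  generalize hℓ : Real.log M = ℓ at *
  have hℓ0 : 0 < ℓ := by linarith
  have hℓ1 : 1 ≤ ℓ := by linarith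
  generalize hN : M / (g : ℝ) = N at *
  generalize hL' : L / (g : ℝ) = L' at *
  have hN0 : 0 < N := by rw [← hN]; positivity
  have hNM : N ≤ M := by rw [← hN]; exact div_le_self hM0.le hg0
  have hℓD : 1 ≤ ℓ ^ D := one_le_pow₀ hℓ1
  have hD0 : 0 < ℓ ^ D := by positivity
  have hNb : M ^ (1 - ε / 8) ≤ N := hbig.trans (div_le_self hN0.le hℓD)
  have hNb2 : M ^ (1 - ε / 8) ≤ N / 3 := by
    have h1 : N / ℓ ^ D ≤ N / 3 := by
      apply div_le_div_of_nonneg_left hN0.le (by norm_num)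
      calc (3 : ℝ) ≤ ℓ ^ 1 := by rw [pow_one]; linarith
        _ ≤ ℓ ^ D := pow_le_pow_right₀ hℓ1 (by omega)
    exact hbig.trans h1
  have hN6 : 6 ≤ N := by
    have h1 : M ^ (1 / 2 : ℝ) ≤ M ^ (1 - ε / 8) := Real.rpow_le_rpow_of_exponent_le hM1 (by linarith)
    have h2 : 6 ≤ M ^ (1 / 2 : ℝ) := by
      rw [← Real.sqrt_eq_rpow]
      apply Real.le_sqrt_of_sq_le
      linarith
    linarith
  have hMe : (64 : ℝ) ≤ M ^ ε := hb3.trans (Real.rpow_le_rpow_of_exponent_le hM1 (by linarith))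
  have hMe0 : 0 < M ^ ε := by positivity
  have hLN : L' * M ^ ε ≤ N := by
    rw [← hL', ← hN, div_mul_eq_mul_div]
    apply div_le_div_of_nonneg_right _ (by linarith)
    calc L * M ^ ε ≤ M ^ (1 - ε) * M ^ ε := mul_le_mul_of_nonneg_right hL2 hMe0.le
      _ = M := by rw [← Real.rpow_add hM0]; simp
  have hℓDe : ℓ ^ D ≤ M ^ ε := by
    calc ℓ ^ D ≤ ℓ ^ (B + D) := pow_le_pow_right₀ hℓ1 (by omega)
      _ ≤ M ^ (ε / 8) := hb1
      _ ≤ M ^ ε := Real.rpow_le_rpow_of_exponent_le hM1 (by linarith)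
  have hL'1 : 1 ≤ L' := by
    rw [← hL', le_div_iff₀ (by linarith), one_mul]
    calc (g : ℝ) ≤ ℓ ^ B := hgB
      _ ≤ ℓ ^ (B + D) := pow_le_pow_right₀ hℓ1 (by omega)
      _ ≤ M ^ (ε / 8) := hb1
      _ ≤ M ^ ε := Real.rpow_le_rpow_of_exponent_le hM1 (by linarith)
      _ ≤ L := hL1
  have hL'0 : 0 ≤ L' := by linarith
  have hL'N : L' ≤ N / 64 := by
    rw [le_div_iff₀ (by norm_num)]
    calc L' * 64 ≤ L' * M ^ ε := mul_le_mul_of_nonneg_left hMe hL'0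
      _ ≤ N := hLN
  have hL'N2 : L' ≤ N := by linarith
  have hL'P : L' ^ 2 * ℓ ^ D ≤ N ^ 2 := by
    calc L' ^ 2 * ℓ ^ D ≤ L' ^ 2 * (M ^ ε) ^ 2 := by
          apply mul_le_mul_of_nonneg_left _ (by positivity)
          exact hℓDe.trans (le_self_pow₀ (by linarith) (by norm_num))
      _ = (L' * M ^ ε) ^ 2 := (mul_pow _ _ _).symm
      _ ≤ N ^ 2 := pow_le_pow_left₀ (by positivity) hLN 2
  -- the shells
  obtain ⟨I, hI1, hI2, hI3⟩ := shells (D := D) (show 9 ≤ M by linarith) hℓ.symm hl7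
  obtain ⟨N1, hN10, hN13, hN1N, hthick, hN1ρ, hN2ρ⟩ := numT hN0 hL'0 hℓD hL'N hL'P (rfl : 1 + 1 / ℓ ^ D = 1 + 1 / ℓ ^ D)
  have hρ1 : 1 ≤ 1 + 1 / ℓ ^ D := by
    have : 0 < 1 / ℓ ^ D := by positivity
    linarith
  have hρ2 : 1 + 1 / ℓ ^ D ≤ 2 := by
    have : 1 / ℓ ^ D ≤ 1 := by
      rw [div_le_one hD0]
      exact hℓD
    linarith
  rw [to_shells hlam hL'N2 hN0.le hNM hp.x0 hp.W0 hI1, GG_split]
  -- step 2
  have hM1e : (0 : ℝ) ≤ M ^ (1 - ε / 8) := by positivity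
  have hpA : M ^ (1 - ε) ≤ N1 ^ (1 - ε / 4) := by
    calc M ^ (1 - ε) ≤ M ^ ((1 - ε / 8) * (1 - ε / 4)) := Real.rpow_le_rpow_of_exponent_le hM1 x1
      _ = (M ^ (1 - ε / 8)) ^ (1 - ε / 4) := by rw [← Real.rpow_mul hM0.le]
      _ ≤ N1 ^ (1 - ε / 4) := Real.rpow_le_rpow hM1e (hNb2.trans hN13) (by linarith)
  have hpB : 2 * M ≤ L * N1 ^ (1 - ε / 4) := by
    calc 2 * M ≤ M ^ (ε / 2) * M := mul_le_mul_of_nonneg_right (by linarith) hM0.le
      _ = M ^ ε * M ^ (1 - ε / 2) := by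
          rw [← Real.rpow_add hM0, ← Real.rpow_add_one hM0.ne']
          congr 1
          ring
      _ ≤ M ^ ε * M ^ ((1 - ε / 8) * (1 - ε / 4)) :=
          mul_le_mul_of_nonneg_left (Real.rpow_le_rpow_of_exponent_le hM1 x2) hMe0.le
      _ = M ^ ε * (M ^ (1 - ε / 8)) ^ (1 - ε / 4) := by rw [← Real.rpow_mul hM0.le]
      _ ≤ L * N1 ^ (1 - ε / 4) := by
          apply mul_le_mul hL1 _ (Real.rpow_nonneg hM1e _) (by linarith)
          exact Real.rpow_le_rpow hM1e (hNb2.trans hN13) (by linarith)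
  have t1 := hthin L' N1 N (by linarith) hN1N hL'1
    (by
      calc L' ≤ L := by rw [← hL']; exact div_le_self (by linarith) hg0
        _ ≤ M ^ (1 - ε) := hL2
        _ ≤ _ := hpA) hL'N2 (by
      rw [← hN, ← hL', mul_div_assoc', div_mul_eq_mul_div]
      exact div_le_div_of_nonneg_right hpB (by linarith))
  have hNP : 1 ≤ N / ℓ ^ D := (Real.one_le_rpow hM1 (by linarith)).trans hbig
  have hN2eq : 2 * N / ℓ ^ D = 2 * (N / ℓ ^ D) := by ring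
  have hN21 : 1 ≤ 2 * N / ℓ ^ D := by
    rw [hN2eq]
    linarith
  have hL'N2' : L' ≤ 2 * N / ℓ ^ D := by
    have h4 : L' ≤ N / ℓ ^ D := by
      rw [le_div_iff₀ hD0]
      exact (mul_le_mul_of_nonneg_left hℓDe hL'0).trans hLN
    rw [hN2eq]
    linarith
  have t2 := dvZ hL'0 hN21 hL'N2'
  have hlog2 := Real.log_two_lt_d9
  have hlog2N : 1 + Real.log (2 * N) ≤ 2 * ℓ := by
    rw [Real.log_mul (by norm_num) hN0.ne']
    have := Real.log_le_log hN0 hNM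
    linarith
  have hlog2N2 : 1 + Real.log (2 * (2 * N / ℓ ^ D)) ≤ 2 * ℓ := by
    have h0 : 2 * N / ℓ ^ D ≤ 2 * M := by
      calc 2 * N / ℓ ^ D ≤ 2 * N := div_le_self (by positivity) hℓD
        _ ≤ 2 * M := by linarith
    rw [Real.log_mul (by norm_num) (by linarith)]
    have h2 := Real.log_le_log (by linarith) h0
    rw [Real.log_mul (by norm_num) hM0.ne'] at h2
    linarith
  have hNe : N ^ (1 - ε / 4 / 10) ≤ N * (1 / ℓ ^ D) := by
    have h1 : N ^ (1 - ε / 4 / 10) = N * N ^ (-(ε / 4 / 10)) := by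
      rw [sub_eq_add_neg, Real.rpow_add hN0, Real.rpow_one]
    rw [h1]
    apply mul_le_mul_of_nonneg_left _ hN0.le
    rw [Real.rpow_neg hN0.le, ← one_div]
    apply one_div_le_one_div_of_le hD0
    calc ℓ ^ D ≤ M ^ (ε / 80) := hb4
      _ ≤ M ^ ((1 - ε / 8) * (ε / 4 / 10)) := Real.rpow_le_rpow_of_exponent_le hM1 x3
      _ = (M ^ (1 - ε / 8)) ^ (ε / 4 / 10) := by rw [← Real.rpow_mul hM0.le]
      _ ≤ N ^ (ε / 4 / 10) := Real.rpow_le_rpow hM1e hNb (by positivity)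
  have hlog0 : 0 ≤ Real.log (2 * N) := Real.log_nonneg (by linarith)
  have hZsum : ∑ z ∈ (Zb L' N).filter (fun z => N1 < |(z.im : ℝ)|) ∪ Zb L' (2 * N / ℓ ^ D), (dv z : ℝ) ≤
      (672 + Ct) * ℓ * (L' * N) / ℓ ^ D := by
    refine le_trans ?_ (numZ hCt hN0 hL'0 hℓD hl7 hthick rfl hlog0 hlog2N hlog2N2 hNe t1 t2)
    rw [← sum_union_inter]
    exact le_add_of_nonneg_right (sum_nonneg fun z _ => Nat.cast_nonneg _)
  have hbox' : Box (ε / 2) Cb A1 B c3 c4 M := by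
    intro M' L R x y Yg Z1 Z2 g
    have := hbox M' L R x y Yg Z1 Z2 g
    rw [hℓ]
    exact this
  have hmain := allS hp hCb hbox' (lam := lam) (by rw [hL']; exact hlam) (N1 := N1) (N2 := 2 * N / ℓ ^ D) (I := I) hρ1 hρ2
    hN10 (by linarith) (by rw [hL', hN]; exact hN1ρ) (by rw [hN, hℓ]; exact hN2ρ) hI2
  rw [hℓ, hN, hL'] at hmain
  have hct' := hct L' N W x y (Y / (g : ℝ) ^ 2) ((1 + 1 / ℓ ^ D) ^ I) g lam hL'1 hL'N2 hNM hx hI2 hlam
  refine (abs_add_le _ _).trans ((add_le_add hmain hct').trans ?_)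
  have hLMg : L' * N ≤ L * M / g := by
    have : L' * N = L * M / g / g := by rw [← hL', ← hN]; field_simp
    rw [this]
    exact div_le_self (by positivity) hg0
  have hLNg : L * N = L * M / g := by rw [← hN]; ring
  have hT0 : 0 ≤ L * M / (g : ℝ) := by positivity
  generalize hT : L * M / (g : ℝ) = T at *
  have f1 : (I : ℝ) ^ 2 * (192 * Cb * 2 ^ A1 * ℓ * (L * N) / ℓ ^ A1) ≤ 192 * Cb * 2 ^ A1 * T / ℓ ^ A := by
    have h1 : (I : ℝ) ^ 2 ≤ (ℓ ^ (D + 2)) ^ 2 := pow_le_pow_left₀ (Nat.cast_nonneg I) hI3 2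
    have h2 : ℓ ^ A1 = ℓ ^ A * ((ℓ ^ (D + 2)) ^ 2 * ℓ) := by rw [hA1, pow_add, pow_succ, pow_mul']
    rw [hLNg]
    calc (I : ℝ) ^ 2 * (192 * Cb * 2 ^ A1 * ℓ * T / ℓ ^ A1) ≤
          (ℓ ^ (D + 2)) ^ 2 * (192 * Cb * 2 ^ A1 * ℓ * T / ℓ ^ A1) :=
          mul_le_mul_of_nonneg_right h1 (by positivity)
      _ = 192 * Cb * 2 ^ A1 * T / ℓ ^ A := by
          rw [h2]
          field_simp
  have f2 : 576 * ℓ * ∑ z ∈ (Zb L' N).filter (fun z => N1 < |(z.im : ℝ)|) ∪ Zb L' (2 * N / ℓ ^ D), (dv z : ℝ) ≤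
      576 * (672 + Ct) * T / ℓ ^ A := by
    calc 576 * ℓ * ∑ z ∈ (Zb L' N).filter (fun z => N1 < |(z.im : ℝ)|) ∪ Zb L' (2 * N / ℓ ^ D), (dv z : ℝ) ≤
          576 * ℓ * ((672 + Ct) * ℓ * (L' * N) / ℓ ^ D) := mul_le_mul_of_nonneg_left hZsum (by positivity)
      _ = 576 * (672 + Ct) * (L' * N) / ℓ ^ A * (1 / ℓ ^ 2) := by
          rw [hD, pow_add]
          field_simp
      _ ≤ 576 * (672 + Ct) * (L' * N) / ℓ ^ A * 1 := by
          apply mul_le_mul_of_nonneg_left _ (by positivity)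
          rw [div_le_one (by positivity)]
          exact one_le_pow₀ hℓ1
      _ ≤ _ := by
          rw [mul_one]
          gcongr
  have f3 : Cc * (L' * N) / ℓ ^ A ≤ Cc * T / ℓ ^ A := by gcongr
  have f4 : (192 * Cb * 2 ^ A1 + 576 * (672 + Ct) + Cc) * T / ℓ ^ A =
      192 * Cb * 2 ^ A1 * T / ℓ ^ A + 576 * (672 + Ct) * T / ℓ ^ A + Cc * T / ℓ ^ A := by
    ring
  rw [f4]
  linarith

end Pool.Agent.J6H16.E2
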