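import Pool.Agent.J6H16.E2.Se
import Pool.Agent.N782.GN.MainC
import Pool.Agent.J6H16.PF.Sd

/-!
# Project E2 (helper16): Vaughan's identity for the second factor
-/

set_option autoImplicit false

namespace Pool.Agent.J6H16.E2

open Finset Filter Topology
open Pool.Agent.N782.GN hiding f1
open Pool.Agent.N855.GN
open Pool.Agent.H304R3.HK (UH bb LamK CS)
open Pool.Agent.J6H16.PF Pool.Agent.J6H16.PR

/-- the main term for one `a` -/
noncomputable def EA (l : ℤ) (M Y W : ℝ) (a : ZI) : ℝ :=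
  1 / 4 * ∑ b ∈ bl Y, mu b * (kap l (a * b) / nz (a * b)) * (4 * M * (Real.log M - 1) - 2 * M * Real.log (nz (a * b))) -
    1 / 16 * (2 * M) * ∑ b ∈ bl Y, ∑ c ∈ bl W, mu b * LamK c * (kap l (a * (b * c)) / nz (a * (b * c)))

/-- the main term -/
noncomputable def EmE (l : ℤ) (M x y Y W : ℝ) : ℝ := ∑ a ∈ bg x y, fw M x y a * EA l M Y W a

noncomputable def V0a (M W : ℝ) (lam : ℤ → ℝ) (a : ZI) : ℝ := ∑ z ∈ bl W, LamK z * Fz lam M (a * z)

noncomputable def V1a (M L Y : ℝ) (lam : ℤ → ℝ) (a : ZI) : ℝ :=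
  ∑ b ∈ bl Y, mu b * (er2 M L lam (a * b) + er3 M L lam (a * b) - Real.log (nz (a * b)) * er1 M L lam (a * b))

noncomputable def V2a (M L Y W : ℝ) (lam : ℤ → ℝ) (a : ZI) : ℝ :=
  ∑ b ∈ bl Y, ∑ c ∈ bl W, mu b * LamK c * er1 M L lam (a * (b * c))

noncomputable def V3a (M Y W : ℝ) (lam : ℤ → ℝ) (a : ZI) : ℝ :=
  ∑ b ∈ (bl (2 * M ^ 2)).filter (fun b => Y < nz b), ∑ v ∈ bl (2 * M ^ 2), mu b * aW W v * Fz lam M (a * (b * v))

/-- Vaughan's identity for one `a` -/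
theorem va_one {M L Y W : ℝ} {lam : ℤ → ℝ} (hM : 1 ≤ M) (h : Lm L lam) (hLM : L ≤ M) (hY : 1 ≤ Y)
    (hW : 1 ≤ W) {a : ZI} (ha : a ≠ 0) :
    ∑ z ∈ bl (2 * M ^ 2), LamK z * Fz lam M (a * z) = ∑ l ∈ Icc 1 ⌊L⌋, lam l * EA l M Y W a +
      (V0a M W lam a + 1 / 4 * V1a M L Y lam a - 1 / 16 * V2a M L Y W lam a + 1 / 16 * V3a M Y W lam a) := by
  have hM2 : (1 : ℝ) ≤ 2 * M ^ 2 := by nlinarith
  have h0 : Fz lam M (a * 0) = 0 := by
    rw [mul_zero]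
    unfold Fz
    split_ifs
    · apply h.zero
      intro h1
      rw [mem_Icc] at h1
      simp at h1
    · rfl
  have hV := c_vau (fun z => Fz lam M (a * z)) (2 * M ^ 2) Y W hY hW hM2 h0 (fun z hz => by
    apply Fz_zero h hLM le_rfl
    rw [Pool.Agent.N855.GN.nz_mul]
    exact mul_big (nz_one_le ha) hz (nz_nonneg z))
  rw [hV]
  have e1 : ∑ b ∈ bl Y, ∑ u ∈ bl (2 * M ^ 2), mu b * Real.log (nz u) * Fz lam M (a * (b * u)) =
      V1a M L Y lam a + ∑ l ∈ Icc 1 ⌊L⌋, lam l * ∑ b ∈ bl Y, mu b * (kap l (a * b) / nz (a * b)) *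
          (4 * M * (Real.log M - 1) - 2 * M * Real.log (nz (a * b))) := by
    have e2 : ∀ b ∈ bl Y, ∑ u ∈ bl (2 * M ^ 2), mu b * Real.log (nz u) * Fz lam M (a * (b * u)) =
        mu b * (er2 M L lam (a * b) + er3 M L lam (a * b) - Real.log (nz (a * b)) * er1 M L lam (a * b)) +
        ∑ l ∈ Icc 1 ⌊L⌋, lam l * (mu b * (kap l (a * b) / nz (a * b)) *
          (4 * M * (Real.log M - 1) - 2 * M * Real.log (nz (a * b)))) := by
      intro b hb
      have e3 := sum_log h hLM (mul_ne_zero ha (bl_ne hb))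
      have e4 : ∑ u ∈ bl (2 * M ^ 2), mu b * Real.log (nz u) * Fz lam M (a * (b * u)) =
          mu b * ∑ u ∈ bl (2 * M ^ 2), Real.log (nz u) * Fz lam M (a * b * u) := by
        rw [mul_sum]
        refine sum_congr rfl fun u _ => ?_
        rw [mul_assoc a b u]
        ring
      rw [e4, e3, mul_add]
      congr 1
      rw [mul_sum]
      refine sum_congr rfl fun l _ => ?_
      ring
    rw [sum_congr rfl e2, sum_add_distrib, V1a]
    congr 1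
    rw [sum_comm]
    refine sum_congr rfl fun l _ => ?_
    rw [mul_sum]
  have e5 : ∑ b ∈ bl Y, ∑ c ∈ bl W, ∑ u ∈ bl (2 * M ^ 2), mu b * LamK c * Fz lam M (a * (b * c * u)) =
      V2a M L Y W lam a + ∑ l ∈ Icc 1 ⌊L⌋, lam l * (2 * M * ∑ b ∈ bl Y, ∑ c ∈ bl W,
        mu b * LamK c * (kap l (a * (b * c)) / nz (a * (b * c)))) := by
    have e6 : ∀ b ∈ bl Y, ∀ c ∈ bl W, ∑ u ∈ bl (2 * M ^ 2), mu b * LamK c * Fz lam M (a * (b * c * u)) =
        mu b * LamK c * er1 M L lam (a * (b * c)) +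
        ∑ l ∈ Icc 1 ⌊L⌋, lam l * (2 * M * (mu b * LamK c * (kap l (a * (b * c)) / nz (a * (b * c))))) := by
      intro b hb c hc
      rw [← mul_sum]
      have e7 : ∑ u ∈ bl (2 * M ^ 2), Fz lam M (a * (b * c * u)) = ∑ u ∈ bl (2 * M ^ 2), Fz lam M (a * (b * c) * u) := by
        refine sum_congr rfl fun u _ => ?_
        rw [mul_assoc a (b * c) u]
      rw [e7, sum_one h hLM (mul_ne_zero ha (mul_ne_zero (bl_ne hb) (bl_ne hc))), mul_add]
      congr 1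
      rw [mul_sum]
      refine sum_congr rfl fun l _ => ?_
      ring
    rw [sum_congr rfl fun b hb => sum_congr rfl fun c hc => e6 b hb c hc]
    rw [V2a]
    rw [show ∑ b ∈ bl Y, ∑ c ∈ bl W, (mu b * LamK c * er1 M L lam (a * (b * c)) +
        ∑ l ∈ Icc 1 ⌊L⌋, lam l * (2 * M * (mu b * LamK c * (kap l (a * (b * c)) / nz (a * (b * c)))))) =
        ∑ b ∈ bl Y, ∑ c ∈ bl W, mu b * LamK c * er1 M L lam (a * (b * c)) +
        ∑ b ∈ bl Y, ∑ c ∈ bl W, ∑ l ∈ Icc 1 ⌊L⌋, lam l * (2 * M * (mu b * LamK c *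
          (kap l (a * (b * c)) / nz (a * (b * c))))) by
      rw [← sum_add_distrib]
      refine sum_congr rfl fun b _ => ?_
      rw [← sum_add_distrib]]
    congr 1
    rw [show ∑ b ∈ bl Y, ∑ c ∈ bl W, ∑ l ∈ Icc 1 ⌊L⌋, lam l * (2 * M * (mu b * LamK c *
        (kap l (a * (b * c)) / nz (a * (b * c))))) = ∑ b ∈ bl Y, ∑ l ∈ Icc 1 ⌊L⌋, ∑ c ∈ bl W,
        lam l * (2 * M * (mu b * LamK c * (kap l (a * (b * c)) / nz (a * (b * c))))) from
      sum_congr rfl fun b _ => sum_comm]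
    rw [sum_comm]
    refine sum_congr rfl fun l _ => ?_
    simp only [mul_sum]
  rw [e1, e5]
  have e7 : ∑ l ∈ Icc 1 ⌊L⌋, lam l * EA l M Y W a =
      1 / 4 * ∑ l ∈ Icc 1 ⌊L⌋, lam l * ∑ b ∈ bl Y, mu b * (kap l (a * b) / nz (a * b)) *
          (4 * M * (Real.log M - 1) - 2 * M * Real.log (nz (a * b))) -
      1 / 16 * ∑ l ∈ Icc 1 ⌊L⌋, lam l * (2 * M * ∑ b ∈ bl Y, ∑ c ∈ bl W,
        mu b * LamK c * (kap l (a * (b * c)) / nz (a * (b * c)))) := by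
    rw [mul_sum, mul_sum, ← sum_sub_distrib]
    refine sum_congr rfl fun l _ => ?_
    unfold EA
    ring
  rw [e7, V0a, V3a]
  ring

/-- Vaughan's identity for the convolution -/
theorem va_all {M L x y Y W : ℝ} {lam : ℤ → ℝ} (hM : 1 ≤ M) (h : Lm L lam) (hLM : L ≤ M) (hY : 1 ≤ Y)
    (hW : 1 ≤ W) (hy : y ≤ 2 * M ^ 2) :
    ∑ l ∈ Icc 1 ⌊L⌋, lam l * (∑ m ∈ Icc ⌈-M⌉ ⌊M⌋, cv (fw M x y) LamK (⟨l, m⟩ : ZI) - EmE l M x y Y W) =
      ∑ a ∈ bg x y, fw M x y a * V0a M W lam a + 1 / 4 * ∑ a ∈ bg x y, fw M x y a * V1a M L Y lam a -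
      1 / 16 * ∑ a ∈ bg x y, fw M x y a * V2a M L Y W lam a + 1 / 16 * VE M x y Y W lam := by
  classical
  have hM2 : (1 : ℝ) ≤ 2 * M ^ 2 := by nlinarith
  have hF0 : ∀ t, t ∉ bl (2 * M ^ 2) → Fz lam M t = 0 := by
    intro t ht
    by_cases ht0 : t = 0
    · subst ht0
      unfold Fz
      split_ifs
      · apply h.zero
        intro h1
        rw [mem_Icc] at h1
        simp at h1
      · rfl
    · apply Fz_zero h hLM le_rfl
      by_contra hc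
      push Not at hc
      exact ht ((mem_bl _ _).2 ⟨ht0, hc⟩)
  have e0 : ∑ l ∈ Icc 1 ⌊L⌋, lam l * (∑ m ∈ Icc ⌈-M⌉ ⌊M⌋, cv (fw M x y) LamK (⟨l, m⟩ : ZI) - EmE l M x y Y W) =
      ∑ l ∈ Icc 1 ⌊L⌋, ∑ m ∈ Icc ⌈-M⌉ ⌊M⌋, lam l * cv (fw M x y) LamK (⟨l, m⟩ : ZI) -
        ∑ l ∈ Icc 1 ⌊L⌋, lam l * EmE l M x y Y W := by
    rw [← sum_sub_distrib]
    refine sum_congr rfl fun l _ => ?_
    rw [mul_sub, mul_sum]
  have e1 : ∑ l ∈ Icc 1 ⌊L⌋, ∑ m ∈ Icc ⌈-M⌉ ⌊M⌋, lam l * cv (fw M x y) LamK (⟨l, m⟩ : ZI) =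
      ∑ a ∈ bg x y, fw M x y a * ∑ z ∈ bl (2 * M ^ 2), LamK z * Fz lam M (a * z) := by
    rw [← sum_box h hLM (cv (fw M x y) LamK), cv_sum _ _ _ hM2 hF0]
    have hsub : bg x y ⊆ bl (2 * M ^ 2) := by
      intro a ha
      rw [mem_bg] at ha
      exact (mem_bl _ _).2 ⟨ha.1, ha.2.1.trans hy⟩
    rw [← sum_subset hsub]
    · refine sum_congr rfl fun a _ => ?_
      rw [mul_sum]
      refine sum_congr rfl fun z _ => ?_
      ring
    · intro a ha ha'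
      apply sum_eq_zero
      intro z _
      have : fw M x y a = 0 := by
        by_contra hne
        apply ha'
        have h3 := fw_ne hne
        exact mem_bg.2 ⟨((mem_bl _ _).1 ha).1, h3.2.2, h3.2.1⟩
      rw [this]
      ring
  have e2 : ∑ l ∈ Icc 1 ⌊L⌋, lam l * EmE l M x y Y W =
      ∑ a ∈ bg x y, fw M x y a * ∑ l ∈ Icc 1 ⌊L⌋, lam l * EA l M Y W a := by
    unfold EmE
    simp only [mul_sum]
    rw [sum_comm]
    refine sum_congr rfl fun a _ => sum_congr rfl fun l _ => ?_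
    ring
  rw [e0, e1, e2, ← sum_sub_distrib]
  have e3 : ∀ a ∈ bg x y, fw M x y a * ∑ z ∈ bl (2 * M ^ 2), LamK z * Fz lam M (a * z) -
      fw M x y a * ∑ l ∈ Icc 1 ⌊L⌋, lam l * EA l M Y W a =
      fw M x y a * V0a M W lam a + 1 / 4 * (fw M x y a * V1a M L Y lam a) -
        1 / 16 * (fw M x y a * V2a M L Y W lam a) + 1 / 16 * (fw M x y a * V3a M Y W lam a) := by
    intro a ha
    rw [va_one hM h hLM hY hW (mem_bg.1 ha).1]
    ring
  rw [sum_congr rfl e3, sum_add_distrib, sum_sub_distrib, sum_add_distrib, ← mul_sum, ← mul_sum, ← mul_sum]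
  rfl

end Pool.Agent.J6H16.E2
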