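import Pool.Agent.J6H16.E2.Va

/-!
# Project E2 (helper16): the errors of Vaughan's identity
-/

set_option autoImplicit false

namespace Pool.Agent.J6H16.E2

open Finset Filter Topology
open Pool.Agent.N782.GN hiding f1
open Pool.Agent.N855.GN
open Pool.Agent.H304R3.HK (UH bb LamK CS)
open Pool.Agent.J6H16.PF Pool.Agent.J6H16.PR

theorem gr12 {M x y D : ℝ} (hM : 1 < M) (hyD : y * D ≤ M ^ 3) (hy : 0 ≤ y) {H : ZI → ℝ}
    (hH : ∀ t, 0 ≤ H t) :
    ∑ a ∈ bg x y, fw M x y a * ∑ b ∈ bl D, H (a * b) ≤ 12 * ∑ t ∈ bl (y * D), H t := by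
  classical
  have hl := Real.log_pos hM
  have e1 : ∑ a ∈ bg x y, fw M x y a * ∑ b ∈ bl D, H (a * b) =
      ∑ a ∈ bg x y, ∑ b ∈ bl D, fw M x y a * (fun _ => (1 : ℝ)) b * H (a * b) := by
    refine sum_congr rfl fun a _ => ?_
    rw [mul_sum]
    refine sum_congr rfl fun b _ => ?_
    simp
  rw [e1, grp (fw M x y) (fun _ => (1 : ℝ)) H (bg x y) (bl D) (bl (y * D)) (fun a ha b hb => by
    rw [mem_bg] at ha
    rw [mem_bl] at hb ⊢
    refine ⟨mul_ne_zero ha.1 hb.1, ?_⟩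
    rw [Pool.Agent.N855.GN.nz_mul]
    exact mul_le_mul ha.2.1 hb.2 (nz_nonneg _) hy), mul_sum]
  refine sum_le_sum fun t ht => mul_le_mul_of_nonneg_right ?_ (hH t)
  rw [mem_bl] at ht
  have h1 := (cf_abs (fw M x y) (fun _ => (1 : ℝ)) (bg x y) (bl D) t).trans
    (cf_bd (κ := 1 / Real.log M) (C1 := 1) (by positivity) zero_le_one (fw_le hM x y) (fun _ => by simp) ht.1)
  refine (le_abs_self _).trans (h1.trans ?_)
  have h2 : Real.log (nz t) ≤ 3 * Real.log M := by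
    have h3 : nz t ≤ M ^ 3 := ht.2.trans hyD
    have h4 := Real.log_le_log (nz_pos ht.1) h3
    rwa [Real.log_pow, Nat.cast_ofNat] at h4
  calc 1 * (1 / Real.log M) * (4 * Real.log (nz t)) ≤ 1 * (1 / Real.log M) * (4 * (3 * Real.log M)) := by gcongr
    _ = 12 := by field_simp; norm_num

theorem cf_lam {S T : Finset ZI} {t : ZI} (ht : t ≠ 0) : cf LamK (fun _ => 1) S T t ≤ 4 * Real.log (nz t) := by
  classical
  rw [← c_mub.2.2.2.2.1 t ht]
  unfold cf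
  set F := (S ×ˢ T).filter (fun p => p.1 * p.2 = t) with hF
  have hinj : Set.InjOn Prod.fst (F : Set (ZI × ZI)) := by
    intro p hp p' hp' h
    rw [hF, coe_filter, Set.mem_ofPred_eq] at hp hp'
    have h1 : p.1 ≠ 0 := fun h0 => ht (by rw [← hp.2, h0, zero_mul])
    have h2 : p.1 * p.2 = p.1 * p'.2 := by rw [hp.2, h, hp'.2]
    exact Prod.ext h (mul_left_cancel₀ h1 h2)
  calc ∑ p ∈ F, LamK p.1 * 1 = ∑ a ∈ F.image Prod.fst, LamK a := by
        rw [sum_image hinj]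
        simp
    _ ≤ _ := by
        apply sum_le_sum_of_subset_of_nonneg
        · intro a ha
          rw [mem_image] at ha
          obtain ⟨p, hp, rfl⟩ := ha
          rw [hF, mem_filter] at hp
          exact (mem_Dv ht).2 ⟨p.2, hp.2.symm⟩
        · intro a _ _
          exact LamK_nonneg a

theorem V2a_le {M L Y W : ℝ} {lam : ℤ → ℝ} {a : ZI} (hW : 0 ≤ W) :
    |V2a M L Y W lam a| ≤ 4 * Real.log (W * Y) * ∑ d ∈ bl (W * Y), |er1 M L lam (a * d)| := by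
  classical
  have h1 : |V2a M L Y W lam a| ≤ ∑ c ∈ bl W, ∑ b ∈ bl Y, LamK c * (fun _ => (1 : ℝ)) b * |er1 M L lam (a * (c * b))| := by
    unfold V2a
    rw [sum_comm]
    refine (abs_sum_le_sum_abs _ _).trans (sum_le_sum fun c _ => ?_)
    refine (abs_sum_le_sum_abs _ _).trans (sum_le_sum fun b _ => ?_)
    rw [abs_mul, abs_mul, abs_of_nonneg (LamK_nonneg c), mul_comm b c]
    refine mul_le_mul_of_nonneg_right ?_ (abs_nonneg _)
    calc |mu b| * LamK c ≤ 1 * LamK c := mul_le_mul_of_nonneg_right (abs_mu_le b) (LamK_nonneg c)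
      _ = LamK c * 1 := by ring
  refine h1.trans ?_
  rw [grp LamK (fun _ => (1 : ℝ)) (fun t => |er1 M L lam (a * t)|) (bl W) (bl Y) (bl (W * Y)) (fun c hc b hb => by
    rw [mem_bl] at hc hb ⊢
    refine ⟨mul_ne_zero hc.1 hb.1, ?_⟩
    rw [Pool.Agent.N855.GN.nz_mul]
    exact mul_le_mul hc.2 hb.2 (nz_nonneg _) hW), mul_sum]
  refine sum_le_sum fun t ht => mul_le_mul_of_nonneg_right ?_ (abs_nonneg _)
  rw [mem_bl] at ht
  refine (cf_lam ht.1).trans ?_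
  have := Real.log_le_log (nz_pos ht.1) ht.2
  linarith

theorem V0a_le {M W : ℝ} {lam : ℤ → ℝ} {a : ZI} :
    |V0a M W lam a| ≤ Real.log W * ∑ z ∈ bl W, |Fz lam M (a * z)| := by
  unfold V0a
  rw [mul_sum]
  refine (abs_sum_le_sum_abs _ _).trans (sum_le_sum fun z hz => ?_)
  rw [mem_bl] at hz
  rw [abs_mul, abs_of_nonneg (LamK_nonneg z)]
  refine mul_le_mul_of_nonneg_right ?_ (abs_nonneg _)
  exact ((c_mub.2.2.2.2.2 z).2 hz.1).trans (Real.log_le_log (nz_pos hz.1) hz.2)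

theorem card_LQ {L Q : ℝ} (hL : 0 ≤ L) (hQ : 0 ≤ Q) : ((Zb L Q).card : ℝ) ≤ L * (2 * Q + 1) := by
  have h0 := sum_Zb L Q (fun _ => (1 : ℝ))
  simp only [sum_const, nsmul_eq_mul, mul_one] at h0
  rw [h0]
  have h4 : ((Icc 1 ⌊L⌋).card : ℝ) ≤ L := by
    rw [Int.card_Icc, show ⌊L⌋ + 1 - 1 = ⌊L⌋ by ring]
    have h5 : ((⌊L⌋.toNat : ℕ) : ℤ) = ⌊L⌋ := Int.toNat_of_nonneg (Int.floor_nonneg.2 hL)
    have h6 : ((⌊L⌋.toNat : ℕ) : ℝ) = (⌊L⌋ : ℝ) := by exact_mod_cast h5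
    rw [h6]
    exact Int.floor_le L
  have h5 : ((Icc ⌈-Q⌉ ⌊Q⌋).card : ℝ) ≤ 2 * Q + 1 := by
    rw [Int.card_Icc, Int.ceil_neg]
    have h7 : 0 ≤ ⌊Q⌋ := Int.floor_nonneg.2 hQ
    have h8 : (((⌊Q⌋ + 1 - -⌊Q⌋).toNat : ℕ) : ℤ) = 2 * ⌊Q⌋ + 1 := by
      rw [Int.toNat_of_nonneg (by omega)]
      ring
    have h9 : (((⌊Q⌋ + 1 - -⌊Q⌋).toNat : ℕ) : ℝ) = 2 * (⌊Q⌋ : ℝ) + 1 := by exact_mod_cast h8
    rw [h9]
    linarith [Int.floor_le Q]
  exact mul_le_mul h4 h5 (by positivity) hL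

theorem Fz_cnt {L M Q : ℝ} {lam : ℤ → ℝ} (h : Lm L lam) (hL : 0 ≤ L) :
    ∑ t ∈ bl Q, |Fz lam M t| ≤ L * (2 * Real.sqrt Q + 1) := by
  classical
  refine le_trans ?_ (card_LQ hL (Real.sqrt_nonneg Q))
  have e1 : ∑ t ∈ bl Q, |Fz lam M t| = ∑ t ∈ (bl Q).filter (fun t => Fz lam M t ≠ 0), |Fz lam M t| := by
    rw [sum_filter]
    refine sum_congr rfl fun t _ => ?_
    split_ifs with h1
    · rfl
    · push Not at h1
      rw [h1, abs_zero]
  rw [e1]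
  calc ∑ t ∈ (bl Q).filter (fun t => Fz lam M t ≠ 0), |Fz lam M t| ≤
      ∑ t ∈ (bl Q).filter (fun t => Fz lam M t ≠ 0), (1 : ℝ) := sum_le_sum fun t _ => Fz_abs h.1 M t
    _ = (((bl Q).filter (fun t => Fz lam M t ≠ 0)).card : ℝ) := by rw [sum_const, nsmul_eq_mul, mul_one]
    _ ≤ ((Zb L (Real.sqrt Q)).card : ℝ) := by
        rw [Nat.cast_le]
        apply card_le_card
        intro t ht
        rw [mem_filter, mem_bl] at ht
        have h2 := mem_Zb.1 (Fz_Zb h ht.2)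
        rw [mem_Zb]
        refine ⟨h2.1, h2.2.1, ?_⟩
        apply Real.abs_le_sqrt
        have h3 := ht.1.2
        rw [nz_eq] at h3
        nlinarith [sq_nonneg (t.re : ℝ)]

theorem V1a_le {M L Y Z : ℝ} {lam : ℤ → ℝ} {a : ZI} (ha : a ≠ 0) (haY : ∀ b ∈ bl Y, nz (a * b) ≤ Z) :
    |V1a M L Y lam a| ≤ ∑ b ∈ bl Y, |er2 M L lam (a * b)| + ∑ b ∈ bl Y, |er3 M L lam (a * b)| +
      Real.log Z * ∑ b ∈ bl Y, |er1 M L lam (a * b)| := by
  unfold V1a
  refine (abs_sum_le_sum_abs _ _).trans ?_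
  rw [mul_sum, ← sum_add_distrib, ← sum_add_distrib]
  refine sum_le_sum fun b hb => ?_
  rw [abs_mul]
  have hab : a * b ≠ 0 := mul_ne_zero ha (bl_ne hb)
  have h1 : 1 ≤ nz (a * b) := one_le_nz hab
  have h2 : 0 ≤ Real.log (nz (a * b)) := Real.log_nonneg h1
  have h3 : Real.log (nz (a * b)) ≤ Real.log Z := Real.log_le_log (by linarith) (haY b hb)
  calc |mu b| * |er2 M L lam (a * b) + er3 M L lam (a * b) - Real.log (nz (a * b)) * er1 M L lam (a * b)|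
      ≤ 1 * |er2 M L lam (a * b) + er3 M L lam (a * b) - Real.log (nz (a * b)) * er1 M L lam (a * b)| :=
        mul_le_mul_of_nonneg_right (abs_mu_le b) (abs_nonneg _)
    _ = |er2 M L lam (a * b) + er3 M L lam (a * b) - Real.log (nz (a * b)) * er1 M L lam (a * b)| := one_mul _
    _ ≤ |er2 M L lam (a * b) + er3 M L lam (a * b)| + |Real.log (nz (a * b)) * er1 M L lam (a * b)| := abs_sub _ _
    _ ≤ |er2 M L lam (a * b)| + |er3 M L lam (a * b)| + Real.log Z * |er1 M L lam (a * b)| := by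
        refine add_le_add (abs_add_le _ _) ?_
        rw [abs_mul, abs_of_nonneg h2]
        exact mul_le_mul_of_nonneg_right h3 (abs_nonneg _)

/-- sum over `a` with a bound -/
theorem sum_a {M x y D c : ℝ} (hM : 1 < M) (hyD : y * D ≤ M ^ 3) (hy : 0 ≤ y) (hc : 0 ≤ c) {H : ZI → ℝ}
    (hH : ∀ t, 0 ≤ H t) {V : ZI → ℝ} (hV : ∀ a ∈ bg x y, |V a| ≤ c * ∑ b ∈ bl D, H (a * b)) :
    |∑ a ∈ bg x y, fw M x y a * V a| ≤ 12 * c * ∑ t ∈ bl (y * D), H t := by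
  calc |∑ a ∈ bg x y, fw M x y a * V a| ≤ ∑ a ∈ bg x y, |fw M x y a * V a| := abs_sum_le_sum_abs _ _
    _ ≤ ∑ a ∈ bg x y, c * (fw M x y a * ∑ b ∈ bl D, H (a * b)) := by
        refine sum_le_sum fun a ha => ?_
        rw [abs_mul, abs_of_nonneg (fw_nonneg hM.le x y a)]
        calc fw M x y a * |V a| ≤ fw M x y a * (c * ∑ b ∈ bl D, H (a * b)) :=
              mul_le_mul_of_nonneg_left (hV a ha) (fw_nonneg hM.le x y a)
          _ = _ := by ring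
    _ = c * ∑ a ∈ bg x y, fw M x y a * ∑ b ∈ bl D, H (a * b) := by rw [mul_sum]
    _ ≤ c * (12 * ∑ t ∈ bl (y * D), H t) := mul_le_mul_of_nonneg_left (gr12 hM hyD hy hH) hc
    _ = _ := by ring

end Pool.Agent.J6H16.E2
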