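import Pool.Agent.J6H16.E2.Vb

/-!
# Project E2 (helper16): all the errors of Vaughan's identity
-/

set_option autoImplicit false

namespace Pool.Agent.J6H16.E2

open Finset Filter Topology
open Pool.Agent.N782.GN hiding f1
open Pool.Agent.N855.GN
open Pool.Agent.H304R3.HK (UH bb LamK CS)
open Pool.Agent.J6H16.PF Pool.Agent.J6H16.PR

/-- the parameters -/
structure PE (ε c4 M L y : ℝ) : Prop where
  e0 : 0 < ε
  e1 : ε ≤ 1 / 6
  M3 : 3 ≤ M
  L1 : M ^ (1 / 3 + 2 * ε) ≤ L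
  L2 : L ≤ M ^ (1 - 2 * ε)
  hc : 6 * c4 ≤ ε
  y0 : 1 ≤ y
  y1 : y ≤ M ^ c4

noncomputable def YE (ε M L : ℝ) : ℝ := M / L * M ^ ε

namespace PE
variable {ε c4 M L y : ℝ}

theorem M1 (h : PE ε c4 M L y) : 1 ≤ M := by linarith [h.M3]
theorem M0 (h : PE ε c4 M L y) : 0 < M := by linarith [h.M3]
theorem L0 (h : PE ε c4 M L y) : 1 ≤ L := (Real.one_le_rpow h.M1 (by linarith [h.e0])).trans h.L1
theorem LM (h : PE ε c4 M L y) : L ≤ M := by
  refine h.L2.trans ?_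
  calc M ^ (1 - 2 * ε) ≤ M ^ (1 : ℝ) := Real.rpow_le_rpow_of_exponent_le h.M1 (by linarith [h.e0])
    _ = M := Real.rpow_one M
theorem log1 (h : PE ε c4 M L y) : 1 ≤ Real.log M := by
  rw [Real.le_log_iff_exp_le h.M0]
  have := Real.exp_one_lt_d9
  linarith [h.M3]
theorem ML1 (h : PE ε c4 M L y) : 1 ≤ M / L := by
  rw [le_div_iff₀ (by linarith [h.L0]), one_mul]
  exact h.LM
theorem Y1 (h : PE ε c4 M L y) : 1 ≤ YE ε M L := by
  unfold YE
  calc (1 : ℝ) = 1 * 1 := (mul_one 1).symm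
    _ ≤ M / L * M ^ ε := mul_le_mul h.ML1 (Real.one_le_rpow h.M1 h.e0.le) zero_le_one (by linarith [h.ML1])
theorem MLup (h : PE ε c4 M L y) : M / L ≤ M ^ (2 / 3 - 2 * ε) := by
  rw [div_le_iff₀ (by linarith [h.L0])]
  calc M = M ^ (2 / 3 - 2 * ε) * M ^ (1 / 3 + 2 * ε) := by
        rw [← Real.rpow_add h.M0]
        have : (2 / 3 - 2 * ε + (1 / 3 + 2 * ε)) = (1 : ℝ) := by ring
        rw [this, Real.rpow_one]
    _ ≤ _ := mul_le_mul_of_nonneg_left h.L1 (Real.rpow_nonneg h.M0.le _)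
theorem Yup (h : PE ε c4 M L y) : YE ε M L ≤ M ^ (2 / 3 - ε) := by
  unfold YE
  calc M / L * M ^ ε ≤ M ^ (2 / 3 - 2 * ε) * M ^ ε := mul_le_mul_of_nonneg_right h.MLup (Real.rpow_nonneg h.M0.le _)
    _ = _ := by
      rw [← Real.rpow_add h.M0]
      congr 1
      ring
theorem YM (h : PE ε c4 M L y) : YE ε M L ≤ M := by
  refine h.Yup.trans ?_
  calc M ^ (2 / 3 - ε) ≤ M ^ (1 : ℝ) := Real.rpow_le_rpow_of_exponent_le h.M1 (by linarith [h.e0])
    _ = M := Real.rpow_one M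
theorem yY (h : PE ε c4 M L y) : y * YE ε M L ≤ M ^ (2 / 3 : ℝ) := by
  calc y * YE ε M L ≤ M ^ c4 * M ^ (2 / 3 - ε) := mul_le_mul h.y1 h.Yup (by linarith [h.Y1]) (Real.rpow_nonneg h.M0.le _)
    _ = M ^ (c4 + (2 / 3 - ε)) := (Real.rpow_add h.M0 _ _).symm
    _ ≤ _ := Real.rpow_le_rpow_of_exponent_le h.M1 (by linarith [h.hc, h.e0])
theorem yYY (h : PE ε c4 M L y) : y * (YE ε M L * YE ε M L) ≤ L * M ^ (1 - ε) := by
  have hM0 := h.M0
  have hL0 : 0 < L := by linarith [h.L0]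
  have h1 : (M / L) ^ 3 ≤ M ^ (2 - 6 * ε) := by
    calc (M / L) ^ 3 ≤ (M ^ (2 / 3 - 2 * ε)) ^ 3 := pow_le_pow_left₀ (by linarith [h.ML1]) h.MLup 3
      _ = M ^ (2 - 6 * ε) := by
        rw [← Real.rpow_natCast, ← Real.rpow_mul hM0.le]
        congr 1
        push_cast
        ring
  have h2 : y * (YE ε M L * YE ε M L) ≤ M ^ c4 * ((M / L) ^ 2 * M ^ (2 * ε)) := by
    unfold YE
    have h3 : M ^ (2 * ε) = M ^ ε * M ^ ε := by
      rw [← Real.rpow_add hM0]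
      congr 1
      ring
    rw [h3]
    calc y * (M / L * M ^ ε * (M / L * M ^ ε)) ≤ M ^ c4 * (M / L * M ^ ε * (M / L * M ^ ε)) :=
          mul_le_mul_of_nonneg_right h.y1 (by positivity)
      _ = _ := by ring
  refine h2.trans ?_
  have h4 : (M / L) ^ 2 = (M / L) ^ 3 * (L / M) := by
    field_simp
  rw [h4]
  calc M ^ c4 * ((M / L) ^ 3 * (L / M) * M ^ (2 * ε)) ≤ M ^ c4 * (M ^ (2 - 6 * ε) * (L / M) * M ^ (2 * ε)) := by gcongr
    _ = L * (M ^ c4 * M ^ (2 - 6 * ε) * M ^ (2 * ε) * M⁻¹) := by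
        field_simp
    _ = L * M ^ (c4 + (2 - 6 * ε) + 2 * ε + (-1)) := by
        rw [Real.rpow_add hM0, Real.rpow_add hM0, Real.rpow_add hM0, Real.rpow_neg_one]
    _ ≤ L * M ^ (1 - ε) := by
        apply mul_le_mul_of_nonneg_left _ hL0.le
        exact Real.rpow_le_rpow_of_exponent_le h.M1 (by linarith [h.hc, h.e0])
theorem L2' (h : PE ε c4 M L y) : L ≤ M ^ (1 - ε) :=
  h.L2.trans (Real.rpow_le_rpow_of_exponent_le h.M1 (by linarith [h.e0]))
theorem yYM (h : PE ε c4 M L y) : y * (YE ε M L * YE ε M L) ≤ M ^ 3 := by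
  refine h.yYY.trans ?_
  calc L * M ^ (1 - ε) ≤ M * M := by
        refine mul_le_mul h.LM ?_ (Real.rpow_nonneg h.M0.le _) h.M0.le
        calc M ^ (1 - ε) ≤ M ^ (1 : ℝ) := Real.rpow_le_rpow_of_exponent_le h.M1 (by linarith [h.e0])
          _ = M := Real.rpow_one M
    _ = M ^ 2 := by ring
    _ ≤ M ^ 3 := pow_le_pow_right₀ h.M1 (by norm_num)
theorem yY2 (h : PE ε c4 M L y) : y * YE ε M L ≤ L * M ^ (1 - ε) := by
  refine le_trans ?_ h.yYY
  have h1 := h.Y1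
  have h2 : YE ε M L ≤ YE ε M L * YE ε M L := by nlinarith
  exact mul_le_mul_of_nonneg_left h2 (by linarith [h.y0])
theorem yY3 (h : PE ε c4 M L y) : y * YE ε M L ≤ M ^ 3 := by
  refine le_trans ?_ h.yYM
  have h1 := h.Y1
  have h2 : YE ε M L ≤ YE ε M L * YE ε M L := by nlinarith
  exact mul_le_mul_of_nonneg_left h2 (by linarith [h.y0])
theorem yY1 (h : PE ε c4 M L y) : 1 ≤ y * YE ε M L := by
  nlinarith [h.y0, h.Y1]
theorem logY (h : PE ε c4 M L y) : Real.log (YE ε M L) ≤ Real.log M :=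
  Real.log_le_log (by linarith [h.Y1]) h.YM
theorem logY0 (h : PE ε c4 M L y) : 0 ≤ Real.log (YE ε M L) := Real.log_nonneg h.Y1
theorem logYY (h : PE ε c4 M L y) : Real.log (YE ε M L * YE ε M L) ≤ 2 * Real.log M := by
  have h1 := h.Y1
  rw [Real.log_mul (by linarith) (by linarith)]
  linarith [h.logY]
theorem logyY (h : PE ε c4 M L y) : Real.log (y * YE ε M L) ≤ 3 * Real.log M := by
  have h1 := Real.log_le_log (by linarith [h.yY1]) h.yY3
  rwa [Real.log_pow, Nat.cast_ofNat] at h1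

end PE

theorem le_two_sq {M : ℝ} (h : 1 ≤ M) : M ≤ 2 * M ^ 2 := by nlinarith

theorem two_sq_le {M : ℝ} (h : 3 ≤ M) : 2 * M ^ 2 ≤ M ^ 3 := by nlinarith [sq_nonneg M]

theorem one_le_m3 {y Y : ℝ} (hy : 1 ≤ y) (hY : 1 ≤ Y) : 1 ≤ y * (Y * Y) := by
  have h1 : 1 ≤ Y * Y := by nlinarith
  nlinarith

theorem lin1 {a b L l M' : ℝ} (h1 : a ≤ l) (h2 : l ≤ M' * l) (h3 : L * (1 + l) ≤ M' * (2 * l)) (hb : b = l)
    (h0 : 0 ≤ l) :
    2 * a + 4 * L * (1 + b) ≤ 12 * (M' * l) := by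
  subst hb
  linarith

/-- all the errors -/
theorem errE (ε : ℝ) (A : ℕ) (hε : 0 < ε) (hε1 : ε ≤ 1 / 6) {c3 c4 : ℝ} (hc3 : 0 < c3) (h34 : c3 < c4)
    (hc4 : 6 * c4 ≤ ε) : ∃ C : ℝ, 0 < C ∧ ∀ᶠ M : ℝ in atTop, ∀ (L x y : ℝ) (lam : ℤ → ℝ),
    M ^ (1 / 3 + 2 * ε) ≤ L → L ≤ M ^ (1 - 2 * ε) → M ^ c3 ≤ x → x ≤ y → y ≤ M ^ c4 → Lm L lam →
    |∑ l ∈ Icc 1 ⌊L⌋, lam l * (∑ m ∈ Icc ⌈-M⌉ ⌊M⌋, cv (fw M x y) LamK (⟨l, m⟩ : ZI) -
      EmE l M x y (YE ε M L) (YE ε M L))| ≤ C * (L * M / (Real.log M) ^ A) := by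
  obtain ⟨C3, hC3, h3⟩ := iie ε A hε (by linarith) hc3 h34 hc4
  obtain ⟨C1, hC1, h1⟩ := c_ti ε hε
  obtain ⟨C2, hC2, h2⟩ := c_til ε hε
  obtain ⟨K, hK, hdv⟩ := c_dvb (ε / 4) (by positivity)
  obtain ⟨C4, hC4, h4⟩ := pow_log (ε / 20) (A + 1) (by positivity)
  refine ⟨C4 * (36 + 12 * (C2 + 12 * K + 3 * C1) + 96 * C1) + C3, by positivity, ?_⟩
  filter_upwards [h3, eventually_ge_atTop (3 : ℝ)] with M h3 hM3
  intro L x y lam hL1 hL2 hx hxy hy hlam
  have hM : 1 ≤ M := by linarith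
  have hx1 : 1 ≤ x := (Real.one_le_rpow hM hc3.le).trans hx
  have hP : PE ε c4 M L y := ⟨hε, hε1, hM3, hL1, hL2, hc4, hx1.trans hxy, hy⟩
  have hL := hP.L0
  have hM0 : 0 < M := by linarith
  have hM1 : 1 < M := by linarith
  have hlog := hP.log1
  have hy0 : 0 ≤ y := by linarith
  have hyX : y ≤ 2 * M ^ 2 := by
    have h5 : M ^ c4 ≤ M := by
      calc M ^ c4 ≤ M ^ (1 : ℝ) := Real.rpow_le_rpow_of_exponent_le hM (by linarith)
        _ = M := Real.rpow_one _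
    exact hy.trans (h5.trans (le_two_sq hM))
  have hY1 := hP.Y1
  have hlY := hP.logY
  have hlY0 := hP.logY0
  have hlYY := hP.logYY
  have hlyY := hP.logyY
  have hyY := hP.yY
  have hyYY := hP.yYY
  have hyYM := hP.yYM
  have hyY2 := hP.yY2
  have hyY3 := hP.yY3
  have hyY1 := hP.yY1
  have hYd : YE ε M L = M / L * M ^ ε := rfl
  have h3' := h3 L (YE ε M L) (YE ε M L) x y lam (le_trans (Real.rpow_le_rpow_of_exponent_le hM (by linarith)) hL1) hP.L2'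
    (le_of_eq hYd.symm) (le_of_eq hYd.symm) hx hy hlam
  rw [va_all hM hlam hP.LM hY1 hY1 hyX]
  have hLM := hP.LM
  have hL2' := hP.L2'
  clear hYd
  generalize YE ε M L = Y at *
  set ℓ := Real.log M with hℓ
  have hℓ0 : 0 < ℓ := by linarith
  -- the power saving
  set Q : ℝ := L * M ^ (1 - ε / 20) * ℓ with hQ
  have hQ0 : 0 < Q := by positivity
  have hQA : Q ≤ C4 * (L * M / ℓ ^ A) := by
    have h5 := h4 M hM
    have h6 : ℓ * ℓ ^ A ≤ C4 * M ^ (ε / 20) := by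
      refine le_trans (le_of_eq ?_) h5
      rw [pow_succ]
      ring
    rw [hQ, mul_div_assoc', le_div_iff₀ (by positivity)]
    calc L * M ^ (1 - ε / 20) * ℓ * ℓ ^ A = L * M ^ (1 - ε / 20) * (ℓ * ℓ ^ A) := by ring
      _ ≤ L * M ^ (1 - ε / 20) * (C4 * M ^ (ε / 20)) := mul_le_mul_of_nonneg_left h6 (by positivity)
      _ = C4 * (L * (M ^ (1 - ε / 20) * M ^ (ε / 20))) := by ring
      _ = C4 * (L * M) := by
        rw [← Real.rpow_add hM0, sub_add_cancel, Real.rpow_one]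
  have hpw : ∀ a : ℝ, a ≤ 1 - ε / 20 → L * M ^ a * ℓ ≤ Q := by
    intro a ha
    rw [hQ]
    have : M ^ a ≤ M ^ (1 - ε / 20) := Real.rpow_le_rpow_of_exponent_le hM ha
    gcongr
  -- V0
  have hV0 : |∑ a ∈ bg x y, fw M x y a * V0a M Y lam a| ≤ 36 * Q := by
    refine (sum_a hM1 hyY3 hy0 hlY0 (fun t => abs_nonneg (Fz lam M t)) (fun a _ => V0a_le)).trans ?_
    have h6 := Fz_cnt (M := M) (Q := y * Y) hlam (by linarith : (0 : ℝ) ≤ L)
    have h7 : Real.sqrt (y * Y) ≤ M ^ (1 - ε / 20) := by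
      have e1 : Real.sqrt (y * Y) ≤ Real.sqrt (M ^ (2 / 3 : ℝ)) := Real.sqrt_le_sqrt hyY
      refine e1.trans ?_
      rw [Real.sqrt_eq_rpow, ← Real.rpow_mul hM0.le]
      exact Real.rpow_le_rpow_of_exponent_le hM (by linarith)
    have h8 : 1 ≤ M ^ (1 - ε / 20) := Real.one_le_rpow hM (by linarith)
    calc 12 * Real.log Y * ∑ t ∈ bl (y * Y), |Fz lam M t| ≤ 12 * ℓ * (L * (2 * M ^ (1 - ε / 20) + M ^ (1 - ε / 20))) := by
          refine mul_le_mul (by linarith) (h6.trans ?_) (sum_nonneg fun _ _ => abs_nonneg _) (by linarith)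
          exact mul_le_mul_of_nonneg_left (by linarith) (by linarith)
      _ = 36 * Q := by
          rw [hQ]
          ring
  -- er1
  have hT1 : ∀ D : ℝ, 1 ≤ D → D ≤ L * M ^ (1 - ε) → ∑ a ∈ bl D, |er1 M L lam a| ≤ C1 * L * M ^ (1 - ε / 10) :=
    fun D hD1 hD2 => h1 M L D lam (by linarith) hL hL2' hD1 hD2 hlam
  have hT2 : ∀ D : ℝ, 1 ≤ D → D ≤ L * M ^ (1 - ε) → ∑ a ∈ bl D, |er2 M L lam a| ≤ C2 * L * M ^ (1 - ε / 20) :=
    fun D hD1 hD2 => h2 M L D lam (by linarith) hL hL2' hD1 hD2 hlam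
  have hV2 : |∑ a ∈ bg x y, fw M x y a * V2a M L Y Y lam a| ≤ 96 * C1 * Q := by
    have h5 := hT1 (y * (Y * Y)) (one_le_m3 (hx1.trans hxy) hY1) hyYY
    have h6 : 0 ≤ ∑ a ∈ bl (y * (Y * Y)), |er1 M L lam a| := sum_nonneg fun _ _ => abs_nonneg _
    have h7 : 0 ≤ 4 * Real.log (Y * Y) := by
      exact mul_nonneg (by norm_num) (Real.log_nonneg (one_le_mul_of_one_le_of_one_le hY1 hY1))
    refine (sum_a hM1 hyYM hy0 h7 (fun t => abs_nonneg (er1 M L lam t)) (fun a _ => V2a_le (by linarith))).trans ?_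
    calc 12 * (4 * Real.log (Y * Y)) * ∑ a ∈ bl (y * (Y * Y)), |er1 M L lam a|
        ≤ 12 * (4 * (2 * ℓ)) * (C1 * L * M ^ (1 - ε / 10)) := by
          refine mul_le_mul ?_ h5 h6 (by positivity)
          linarith
      _ = 96 * C1 * (L * M ^ (1 - ε / 10) * ℓ) := by ring
      _ ≤ 96 * C1 * Q := mul_le_mul_of_nonneg_left (hpw _ (by linarith)) (by positivity)
  have hV1 : |∑ a ∈ bg x y, fw M x y a * V1a M L Y lam a| ≤ 12 * (C2 + 12 * K + 3 * C1) * Q := by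
    have g1 : ∀ a ∈ bg x y, |V1a M L Y lam a| ≤ 1 * ∑ b ∈ bl Y, (|er2 M L lam (a * b)| + |er3 M L lam (a * b)| +
        3 * ℓ * |er1 M L lam (a * b)|) := by
      intro a ha
      rw [mem_bg] at ha
      have g2 := V1a_le (M := M) (L := L) (Y := Y) (Z := y * Y) (lam := lam) ha.1 (fun b hb => by
        rw [Pool.Agent.N855.GN.nz_mul]
        exact mul_le_mul ha.2.1 (bl_le hb) (nz_nonneg _) hy0)
      refine g2.trans ?_
      rw [one_mul, sum_add_distrib, sum_add_distrib, ← mul_sum]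
      have g3 : 0 ≤ ∑ b ∈ bl Y, |er1 M L lam (a * b)| := sum_nonneg fun _ _ => abs_nonneg _
      have := mul_le_mul_of_nonneg_right hlyY g3
      linarith
    refine (sum_a (H := fun t => |er2 M L lam t| + |er3 M L lam t| + 3 * ℓ * |er1 M L lam t|) hM1 hyY3 hy0
      zero_le_one (fun t => by positivity) g1).trans ?_
    rw [mul_one, sum_add_distrib, sum_add_distrib, ← mul_sum]
    have h5 := hT1 (y * Y) hyY1 hyY2
    have h6 := hT2 (y * Y) hyY1 hyY2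
    have h7 : ∑ b ∈ bl (y * Y), |er3 M L lam b| ≤
        (K * (2 * M ^ 2) ^ (ε / 4)) * L * (2 * Real.log L + 4 * L * (1 + Real.log M)) := by
      refine er3_le hM hL hlam hLM (by positivity) fun z hz hz2 => (hdv z hz).trans ?_
      exact mul_le_mul_of_nonneg_left (Real.rpow_le_rpow (nz_nonneg z) hz2 (by positivity)) hK.le
    have h8 : Real.log L ≤ ℓ := Real.log_le_log (by linarith) hLM
    have h9 : (2 * M ^ 2) ^ (ε / 4) ≤ M ^ (3 * ε / 4) := by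
      have h10 : 2 * M ^ 2 ≤ M ^ (3 : ℝ) := by
        rw [show (3 : ℝ) = ((3 : ℕ) : ℝ) by norm_num, Real.rpow_natCast]
        exact two_sq_le hM3
      calc (2 * M ^ 2) ^ (ε / 4) ≤ (M ^ (3 : ℝ)) ^ (ε / 4) := Real.rpow_le_rpow (by positivity) h10 (by positivity)
        _ = M ^ (3 * ε / 4) := by
          rw [← Real.rpow_mul hM0.le]
          congr 1
          ring
    have h10 : (K * (2 * M ^ 2) ^ (ε / 4)) * L * (2 * Real.log L + 4 * L * (1 + Real.log M)) ≤ 12 * K * Q := by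
      have h11 : 2 * Real.log L + 4 * L * (1 + Real.log M) ≤ 12 * (M ^ (1 - ε) * ℓ) := by
        have h13 : 1 ≤ M ^ (1 - ε) := Real.one_le_rpow hM (by linarith)
        have h14 : ℓ ≤ M ^ (1 - ε) * ℓ := le_mul_of_one_le_left hℓ0.le h13
        have h15 : L * (1 + ℓ) ≤ M ^ (1 - ε) * (2 * ℓ) := mul_le_mul hL2' (by linarith) (by linarith) (by linarith)
        exact lin1 h8 h14 h15 rfl hℓ0.le
      calc (K * (2 * M ^ 2) ^ (ε / 4)) * L * (2 * Real.log L + 4 * L * (1 + Real.log M))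
          ≤ (K * M ^ (3 * ε / 4)) * L * (12 * (M ^ (1 - ε) * ℓ)) := by
            refine mul_le_mul ?_ h11 ?_ (by positivity)
            · gcongr
            · have := Real.log_nonneg hL
              positivity
        _ = 12 * K * (L * (M ^ (3 * ε / 4) * M ^ (1 - ε)) * ℓ) := by ring
        _ = 12 * K * (L * M ^ (1 - ε / 4) * ℓ) := by
            rw [← Real.rpow_add hM0]
            congr 4
            ring
        _ ≤ 12 * K * Q := mul_le_mul_of_nonneg_left (hpw _ (by linarith)) (by positivity)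
    have h11 : 3 * ℓ * ∑ b ∈ bl (y * Y), |er1 M L lam b| ≤ 3 * C1 * Q := by
      calc 3 * ℓ * ∑ b ∈ bl (y * Y), |er1 M L lam b| ≤ (3 * ℓ) * (C1 * L * M ^ (1 - ε / 10)) :=
            mul_le_mul_of_nonneg_left h5 (by positivity)
        _ = 3 * C1 * (L * M ^ (1 - ε / 10) * ℓ) := by ring
        _ ≤ 3 * C1 * Q := mul_le_mul_of_nonneg_left (hpw _ (by linarith)) (by positivity)
    have h12 : C2 * L * M ^ (1 - ε / 20) ≤ C2 * Q := by
      rw [hQ]
      have : 0 ≤ C2 * L * M ^ (1 - ε / 20) := by positivity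
      calc C2 * L * M ^ (1 - ε / 20) ≤ C2 * L * M ^ (1 - ε / 20) * ℓ := le_mul_of_one_le_right this hlog
        _ = _ := by ring
    linarith
  have hX : 0 ≤ C3 * (L * M / ℓ ^ A) := by positivity
  have hV3 : |VE M x y Y Y lam| ≤ C3 * (L * M / ℓ ^ A) := h3'.trans (le_of_eq (by rw [mul_div_assoc]))
  have hQ1 := mul_le_mul_of_nonneg_left hQA (show 0 ≤ 36 + 12 * (C2 + 12 * K + 3 * C1) + 96 * C1 by positivity)
  generalize ∑ a ∈ bg x y, fw M x y a * V0a M Y lam a = v0 at *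
  generalize ∑ a ∈ bg x y, fw M x y a * V1a M L Y lam a = v1 at *
  generalize ∑ a ∈ bg x y, fw M x y a * V2a M L Y Y lam a = v2 at *
  generalize VE M x y Y Y lam = v3 at *
  have e4 : |1 / 4 * v1| = 1 / 4 * |v1| := by
    rw [abs_mul, abs_of_pos (by norm_num : (0 : ℝ) < 1 / 4)]
  have e5 : |1 / 16 * v2| = 1 / 16 * |v2| := by
    rw [abs_mul, abs_of_pos (by norm_num : (0 : ℝ) < 1 / 16)]
  have e6 : |1 / 16 * v3| = 1 / 16 * |v3| := by
    rw [abs_mul, abs_of_pos (by norm_num : (0 : ℝ) < 1 / 16)]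
  have e1 := abs_add_le (v0 + 1 / 4 * v1 - 1 / 16 * v2) (1 / 16 * v3)
  have e2 := abs_sub (v0 + 1 / 4 * v1) (1 / 16 * v2)
  have e3 := abs_add_le v0 (1 / 4 * v1)
  rw [e4] at e3
  rw [e5] at e2
  rw [e6] at e1
  have f1 : 0 ≤ |v1| := abs_nonneg _
  have f2 : 0 ≤ |v2| := abs_nonneg _
  have f3 : 0 ≤ |v3| := abs_nonneg _
  calc _ ≤ |v0| + |v1| + |v2| + |v3| := by linarith
    _ ≤ 36 * Q + 12 * (C2 + 12 * K + 3 * C1) * Q + 96 * C1 * Q + C3 * (L * M / ℓ ^ A) := by linarith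
    _ = (36 + 12 * (C2 + 12 * K + 3 * C1) + 96 * C1) * Q + C3 * (L * M / ℓ ^ A) := by ring
    _ ≤ (36 + 12 * (C2 + 12 * K + 3 * C1) + 96 * C1) * (C4 * (L * M / ℓ ^ A)) + C3 * (L * M / ℓ ^ A) := by linarith
    _ = _ := by ring

end Pool.Agent.J6H16.E2
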