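import Pool.Agent.J6H16.E2.Vc
import Pool.Agent.N782.GN.All2

/-!
# Project E2 (helper16): the main term
-/

set_option autoImplicit false

namespace Pool.Agent.J6H16.E2

open Finset Filter Topology
open Pool.Agent.N782.GN hiding f1
open Pool.Agent.N855.GN
open Pool.Agent.H304R3.HK (UH bb LamK CS)
open Pool.Agent.J6H16.PF Pool.Agent.J6H16.PR

/-- the sum over `l` -/
theorem sumE (ε : ℝ) (A : ℕ) (hε : 0 < ε) (hε1 : ε ≤ 1 / 6) {c3 c4 : ℝ} (hc3 : 0 < c3) (h34 : c3 < c4)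
    (hc4 : 6 * c4 ≤ ε) : ∃ C : ℝ, 0 < C ∧ ∀ᶠ M : ℝ in atTop, ∀ (L x y : ℝ),
    M ^ (1 / 3 + 2 * ε) ≤ L → L ≤ M ^ (1 - 2 * ε) → M ^ c3 ≤ x → x ≤ y → y ≤ M ^ c4 →
    ∑ l ∈ Icc 1 ⌊L⌋, |∑ m ∈ Icc ⌈-M⌉ ⌊M⌋, cv (fw M x y) LamK (⟨l, m⟩ : ZI) -
      EmE l M x y (YE ε M L) (YE ε M L)| ≤ C * (L * M / (Real.log M) ^ A) := by
  obtain ⟨C, hC, h⟩ := errE ε A hε hε1 hc3 h34 hc4
  refine ⟨C, hC, ?_⟩
  filter_upwards [h] with M h L x y hL1 hL2 hx hxy hy
  set X : ℤ → ℝ := fun l => ∑ m ∈ Icc ⌈-M⌉ ⌊M⌋, cv (fw M x y) LamK (⟨l, m⟩ : ZI) -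
      EmE l M x y (YE ε M L) (YE ε M L) with hX
  set lam : ℤ → ℝ := fun l => if l ∈ Icc 1 ⌊L⌋ then sgn (X l) else 0 with hlam
  have hLm : Lm L lam := by
    constructor
    · intro l
      simp only [hlam]
      split_ifs
      · exact abs_sgn _
      · simp
    · intro l hl
      simp only [hlam]
      rw [if_neg]
      intro h1
      rw [mem_box] at h1
      rcases hl with h2 | h2
      · omega
      · linarith [h1.2]
  have h2 := h L x y lam hL1 hL2 hx hxy hy hLm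
  refine le_trans (le_of_eq ?_) ((le_abs_self _).trans h2)
  refine sum_congr rfl fun l hl => ?_
  simp only [hlam]
  rw [if_pos hl, sgn_mul]

/-- the main term of the Moebius sums -/
theorem em_gen (A : ℕ) {c : ℝ} (hc0 : 0 < c) :
    ∃ C : ℝ, 0 < C ∧ ∀ (M L Y W : ℝ), 3 ≤ M → 1 ≤ L → 3 ≤ Y → 3 ≤ W → c * Real.log M ≤ Real.log Y →
      Real.log W ≤ 2 * Real.log M →
      ∑ l ∈ Icc 1 ⌊L⌋, |Em l M Y W - 2 * M * SS l| ≤ C * (L * M / (Real.log M) ^ A) ∧
      ∑ l ∈ Icc 1 ⌊L⌋, |∑ b ∈ bl Y, mu b * (kap l b / nz b)| ≤ C * (L / (Real.log M) ^ (A + 1)) := by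
  obtain ⟨C1, hC1, h1⟩ := c_mt1 (A + 1)
  obtain ⟨C2, hC2, h2⟩ := Pool.Agent.N521.GN.mt2 c_mub c_mt1 (A + 1)
  refine ⟨(C1 + 2 * C1 + C2) / c ^ (A + 1), by positivity, fun M L Y W hM3 hL hY3 hW3 hlY hlW => ?_⟩
  have hM0 : 0 < M := by linarith
  have hlog : 1 ≤ Real.log M := by
    rw [Real.le_log_iff_exp_le hM0]
    have := Real.exp_one_lt_d9
    linarith
  set ℓ := Real.log M with hℓ
  have hcl : 0 < c * ℓ := by positivity
  have h4 : ∀ B : ℝ, 0 ≤ B → B / (Real.log Y) ^ (A + 1) ≤ B / (c ^ (A + 1) * ℓ ^ (A + 1)) := by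
    intro B hB
    rw [← mul_pow]
    exact div_le_div_of_nonneg_left hB (by positivity) (pow_le_pow_left₀ hcl.le hlY _)
  obtain ⟨g1, g2⟩ := h1 L Y hL hY3
  have g3 := h2 L Y W hL hY3 hW3
  have e1 : ∑ l ∈ Icc 1 ⌊L⌋, |Em l M Y W - 2 * M * SS l| ≤
      M * ℓ * ∑ l ∈ Icc 1 ⌊L⌋, |∑ b ∈ bl Y, mu b * (kap l b / nz b)| +
      2 * M * ∑ l ∈ Icc 1 ⌊L⌋, |1 / 4 * ∑ b ∈ bl Y, mu b * (kap l b / nz b) * Real.log (nz b) + SS l| +
      M / 8 * ∑ l ∈ Icc 1 ⌊L⌋, |∑ b ∈ bl Y, ∑ c ∈ bl W, mu b * LamK c * (kap l (b * c) / nz (b * c))| := by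
    rw [mul_sum, mul_sum, mul_sum, ← sum_add_distrib, ← sum_add_distrib]
    refine sum_le_sum fun l _ => ?_
    rw [em_eq]
    refine (abs_sub _ _).trans (add_le_add ((abs_sub _ _).trans (add_le_add ?_ ?_)) ?_)
    · rw [abs_mul, abs_of_nonneg (mul_nonneg hM0.le (by linarith))]
      refine mul_le_mul_of_nonneg_right ?_ (abs_nonneg _)
      exact mul_le_mul_of_nonneg_left (by linarith) hM0.le
    · rw [abs_mul, abs_of_nonneg (by positivity)]
    · rw [abs_mul, abs_of_nonneg (by positivity)]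
  have hLM0 : 0 < L * M := mul_pos (by linarith) hM0
  have k0 : ∑ l ∈ Icc 1 ⌊L⌋, |∑ b ∈ bl Y, mu b * (kap l b / nz b)| ≤ C1 / c ^ (A + 1) * (L / ℓ ^ (A + 1)) := by
    refine (g1.trans (h4 _ (by positivity))).trans (le_of_eq ?_)
    field_simp
  have k1 : M * ℓ * ∑ l ∈ Icc 1 ⌊L⌋, |∑ b ∈ bl Y, mu b * (kap l b / nz b)| ≤
      C1 / c ^ (A + 1) * (L * M / ℓ ^ A) := by
    calc _ ≤ M * ℓ * (C1 / c ^ (A + 1) * (L / ℓ ^ (A + 1))) :=
          mul_le_mul_of_nonneg_left k0 (by positivity)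
      _ = C1 / c ^ (A + 1) * (L * M / ℓ ^ A) := by
          rw [pow_succ ℓ A]
          field_simp
  have k2 : 2 * M * ∑ l ∈ Icc 1 ⌊L⌋, |1 / 4 * ∑ b ∈ bl Y, mu b * (kap l b / nz b) * Real.log (nz b) + SS l| ≤
      2 * C1 / c ^ (A + 1) * (L * M / ℓ ^ A) := by
    calc _ ≤ 2 * M * (C1 * L / (c ^ (A + 1) * ℓ ^ (A + 1))) :=
          mul_le_mul_of_nonneg_left (g2.trans (h4 _ (by positivity))) (by positivity)
      _ ≤ 2 * M * (C1 * L / (c ^ (A + 1) * ℓ ^ A)) := by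
          refine mul_le_mul_of_nonneg_left ?_ (by positivity)
          refine div_le_div_of_nonneg_left (by positivity) (by positivity) ?_
          refine mul_le_mul_of_nonneg_left ?_ (by positivity)
          exact pow_le_pow_right₀ hlog (by omega)
      _ = 2 * C1 / c ^ (A + 1) * (L * M / ℓ ^ A) := by
          field_simp
  have k3 : M / 8 * ∑ l ∈ Icc 1 ⌊L⌋, |∑ b ∈ bl Y, ∑ c ∈ bl W, mu b * LamK c * (kap l (b * c) / nz (b * c))| ≤
      C2 / c ^ (A + 1) * (L * M / ℓ ^ A) := by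
    calc _ ≤ M / 8 * (C2 * L * Real.log W / (c ^ (A + 1) * ℓ ^ (A + 1))) := by
          refine mul_le_mul_of_nonneg_left (g3.trans (h4 _ ?_)) (by positivity)
          have : 0 ≤ Real.log W := Real.log_nonneg (by linarith)
          positivity
      _ ≤ M / 8 * (C2 * L * (8 * ℓ) / (c ^ (A + 1) * ℓ ^ (A + 1))) := by
          refine mul_le_mul_of_nonneg_left ?_ (by positivity)
          refine div_le_div_of_nonneg_right ?_ (by positivity)
          refine mul_le_mul_of_nonneg_left ?_ (by positivity)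
          linarith
      _ = C2 / c ^ (A + 1) * (L * M / ℓ ^ A) := by
          rw [pow_succ ℓ A]
          field_simp
  refine ⟨?_, ?_⟩
  · calc _ ≤ C1 / c ^ (A + 1) * (L * M / ℓ ^ A) + 2 * C1 / c ^ (A + 1) * (L * M / ℓ ^ A) +
          C2 / c ^ (A + 1) * (L * M / ℓ ^ A) := by linarith
      _ = _ := by ring
  · refine k0.trans (mul_le_mul_of_nonneg_right ?_ (by positivity))
    exact div_le_div_of_nonneg_right (by linarith) (by positivity)

/-- the content of the products with a prime `a` -/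
theorem ct_star_dvd {a b : ZI} (ha : np a) (hb : b ≠ 0) (h : ct (a * b) ≠ ct b) : star a ∣ b := by
  obtain ⟨w, hw0, hw1, hw⟩ := Pool.Agent.N277.GN.ct_exists hb
  have h1 : ct (a * b) = ct b * ct (a * w) := by
    conv_lhs => rw [← hw]
    rw [show a * (((ct b : ℕ) : ZI) * w) = ((ct b : ℕ) : ZI) * (a * w) by ring, Pool.Agent.N277.GN.ct_nat_mul]
  have h2 : ct (a * w) ≠ 1 := by
    intro h3
    rw [h3, mul_one] at h1
    exact h h1
  obtain ⟨q, hq, hqd⟩ := Nat.exists_prime_and_dvd h2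
  have hqw : ((q : ℕ) : ZI) ∣ a * w := (Pool.Agent.N864.GN.MB.dvd_ct q (a * w)).2 hqd
  have hpa : Prime a := np_prime ha
  have key : nn a = q := by
    by_contra hne
    have hcop : IsCoprime ((q : ℕ) : ZI) a := by
      apply IsCoprime.symm
      rw [hpa.irreducible.coprime_iff_not_dvd]
      intro hd
      have h3 : Zsqrtd.norm a ∣ Zsqrtd.norm ((q : ℕ) : ZI) := by
        obtain ⟨e, he⟩ := hd
        rw [he, Zsqrtd.norm_mul]
        exact dvd_mul_right _ _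
      have h4 : nn a ∣ q * q := by
        have h5 := Int.natAbs_dvd_natAbs.2 h3
        rw [Zsqrtd.norm_natCast, Int.natAbs_mul, Int.natAbs_natCast] at h5
        exact h5
      have h6 : (nn a).Prime := ha
      rcases (Nat.Prime.dvd_mul h6).1 h4 with h | h <;>
        exact hne ((Nat.prime_dvd_prime_iff_eq h6 hq).1 h)
    have h7 : ((q : ℕ) : ZI) ∣ w := hcop.dvd_of_dvd_mul_left hqw
    have h8 := (Pool.Agent.N864.GN.MB.dvd_ct q w).1 h7
    rw [hw1, Nat.dvd_one] at h8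
    exact hq.one_lt.ne' h8
  have h9 : ((q : ℕ) : ZI) = a * star a := by
    rw [← key, ← Zsqrtd.norm_eq_mul_conj]
    have h10 : 0 ≤ Zsqrtd.norm a := GaussianInt.norm_nonneg a
    have h11 : ((nn a : ℕ) : ℤ) = Zsqrtd.norm a := Int.natAbs_of_nonneg h10
    rw [← h11]
    push_cast
    rfl
  rw [h9] at hqw
  have h12 : star a ∣ w := (mul_dvd_mul_iff_left (np_ne ha)).1 hqw
  rw [← hw]
  exact h12.mul_left _

open Classical in
theorem kap_diff {L : ℝ} (hL : 0 ≤ L) {a d : ZI} (ha : np a) (hd : d ≠ 0) :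
    ∑ l ∈ Icc 1 ⌊L⌋, |kap l (a * d) - kap l d| ≤ if star a ∣ d then 2 * L else 0 := by
  split_ifs with h
  · calc ∑ l ∈ Icc 1 ⌊L⌋, |kap l (a * d) - kap l d| ≤ ∑ l ∈ Icc 1 ⌊L⌋, (kap l (a * d) + kap l d) := by
          refine sum_le_sum fun l _ => (abs_sub _ _).trans ?_
          rw [abs_of_nonneg (kap_nn _ _), abs_of_nonneg (kap_nn _ _)]
      _ = ∑ l ∈ Icc 1 ⌊L⌋, kap l (a * d) + ∑ l ∈ Icc 1 ⌊L⌋, kap l d := sum_add_distrib
      _ ≤ L + L := add_le_add (kap_sum hL (mul_ne_zero (np_ne ha) hd)) (kap_sum hL hd)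
      _ = 2 * L := by ring
  · apply le_of_eq
    apply sum_eq_zero
    intro l _
    have h1 : ct (a * d) = ct d := by
      by_contra h2
      exact h (ct_star_dvd ha hd h2)
    unfold kap
    rw [h1, sub_self, abs_zero]

open Classical in
theorem sum_star {a : ZI} (ha : np a) {V : ℝ} (hV : 3 ≤ V) :
    ∑ b ∈ bl V, (if star a ∣ b then 1 / nz b else 0) ≤ 1 / nz a * (48 * (Real.log V) ^ 2) := by
  have ha0 := np_ne ha
  have hs : nz (star a) = nz a := by
    unfold nz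
    rw [Zsqrtd.norm_conj]
  have hs0 : star a ≠ 0 := by
    intro h
    have h1 := nz_pos ha0
    rw [← hs, h, nz_eq] at h1
    simp at h1
  have h1a := nz_pos ha0
  have h1b := nz_one_le ha0
  rw [← sum_filter]
  calc ∑ b ∈ (bl V).filter (fun b => star a ∣ b), 1 / nz b
      ≤ ∑ b ∈ (bl V).image (fun c => star a * c), 1 / nz b := by
        apply sum_le_sum_of_subset_of_nonneg
        · intro b hb
          rw [mem_filter, mem_bl] at hb
          obtain ⟨⟨hb0, hbV⟩, c, rfl⟩ := hb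
          rw [mem_image]
          refine ⟨c, ?_, rfl⟩
          have hc0 : c ≠ 0 := right_ne_zero_of_mul hb0
          rw [mem_bl]
          refine ⟨hc0, le_trans ?_ hbV⟩
          rw [Pool.Agent.N855.GN.nz_mul, hs]
          nlinarith [nz_nonneg c]
        · intro b _ _
          exact div_nonneg zero_le_one (nz_nonneg b)
    _ = ∑ c ∈ bl V, 1 / nz (star a * c) := by
        rw [sum_image]
        intro c _ c' _ h
        exact mul_left_cancel₀ hs0 h
    _ = 1 / nz a * ∑ c ∈ bl V, 1 / nz c := by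
        rw [mul_sum]
        refine sum_congr rfl fun c _ => ?_
        rw [Pool.Agent.N855.GN.nz_mul, hs, one_div_mul_one_div]
    _ ≤ _ := mul_le_mul_of_nonneg_left (sum_inv_nz hV) (by positivity)

/-- the difference between the main terms -/
noncomputable def RA (l : ℤ) (M Y W : ℝ) (a : ZI) : ℝ :=
  1 / 4 * ∑ b ∈ bl Y, mu b * ((kap l (a * b) - kap l b) / nz b) * (4 * M * (Real.log M - 1) - 2 * M * Real.log (nz (a * b))) -
    M / 8 * ∑ b ∈ bl Y, ∑ c ∈ bl W, mu b * LamK c * ((kap l (a * (b * c)) - kap l (b * c)) / nz (b * c))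

theorem EA_eq (l : ℤ) (M Y W : ℝ) {a : ZI} (ha : a ≠ 0) :
    nz a * EA l M Y W a = Em l M Y W - M / 2 * Real.log (nz a) * ∑ b ∈ bl Y, mu b * (kap l b / nz b) + RA l M Y W a := by
  have ha1 := nz_pos ha
  unfold EA Em RA
  have e1 : ∑ b ∈ bl Y, mu b * (kap l b / nz b) * (4 * M * (Real.log M - 1) - 2 * M * Real.log (nz b)) =
      nz a * ∑ b ∈ bl Y, mu b * (kap l (a * b) / nz (a * b)) * (4 * M * (Real.log M - 1) - 2 * M * Real.log (nz (a * b))) +
      2 * M * Real.log (nz a) * ∑ b ∈ bl Y, mu b * (kap l b / nz b) -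
      ∑ b ∈ bl Y, mu b * ((kap l (a * b) - kap l b) / nz b) *
        (4 * M * (Real.log M - 1) - 2 * M * Real.log (nz (a * b))) := by
    rw [mul_sum, mul_sum, ← sum_add_distrib, ← sum_sub_distrib]
    refine sum_congr rfl fun b hb => ?_
    have hb1 := nz_pos (bl_ne hb)
    rw [Pool.Agent.N855.GN.nz_mul, Real.log_mul ha1.ne' hb1.ne']
    field_simp
    ring
  have e2 : ∑ b ∈ bl Y, ∑ c ∈ bl W, mu b * LamK c * (kap l (b * c) / nz (b * c)) =
      nz a * ∑ b ∈ bl Y, ∑ c ∈ bl W, mu b * LamK c * (kap l (a * (b * c)) / nz (a * (b * c))) -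
      ∑ b ∈ bl Y, ∑ c ∈ bl W, mu b * LamK c * ((kap l (a * (b * c)) - kap l (b * c)) / nz (b * c)) := by
    rw [mul_sum, ← sum_sub_distrib]
    refine sum_congr rfl fun b hb => ?_
    rw [mul_sum, ← sum_sub_distrib]
    refine sum_congr rfl fun c hc => ?_
    have hb1 := nz_pos (mul_ne_zero (bl_ne hb) (bl_ne hc))
    rw [Pool.Agent.N855.GN.nz_mul a]
    field_simp
    ring
  rw [e1, e2]
  ring

end Pool.Agent.J6H16.E2
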