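import Pool.Agent.J6H16.E2.Vd

/-!
# Project E2 (helper16): the asymptotic formula over the Gaussian integers
-/

set_option autoImplicit false

namespace Pool.Agent.J6H16.E2

open Finset Filter Topology
open Pool.Agent.N782.GN hiding f1
open Pool.Agent.N855.GN
open Pool.Agent.H304R3.HK (UH bb LamK CS)
open Pool.Agent.J6H16.PF Pool.Agent.J6H16.PR

theorem brk {M ℓ u : ℝ} (hM : 0 ≤ M) (hℓ : 1 ≤ ℓ) (hu0 : 0 ≤ u) (hu : u ≤ 3 * ℓ) :
    |4 * M * (ℓ - 1) - 2 * M * u| ≤ 6 * M * ℓ := by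
  have h1 : 0 ≤ M * (ℓ - 1) := mul_nonneg hM (by linarith)
  have h2 : 0 ≤ M * u := mul_nonneg hM hu0
  have h3 : M * u ≤ M * (3 * ℓ) := mul_le_mul_of_nonneg_left hu hM
  have h4 : 0 ≤ M * ℓ := mul_nonneg hM (by linarith)
  rw [abs_le]
  constructor <;> nlinarith

theorem RA1 {M L Y ℓ : ℝ} {a : ZI} (ha : np a) (hM : 3 ≤ M) (hL : 0 ≤ L) (hℓ : ℓ = Real.log M) (hℓ1 : 1 ≤ ℓ)
    (hY3 : 3 ≤ Y) (hlY : Real.log Y ≤ ℓ) (haY : nz a * Y ≤ M ^ 3) :
    ∑ l ∈ Icc 1 ⌊L⌋, |1 / 4 * ∑ b ∈ bl Y, mu b * ((kap l (a * b) - kap l b) / nz b) *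
      (4 * M * (Real.log M - 1) - 2 * M * Real.log (nz (a * b)))| ≤ 144 * (L * M * ℓ ^ 3) * (1 / nz a) := by
  classical
  have ha0 := np_ne ha
  have hap := nz_pos ha0
  have hM0 : 0 ≤ M := by linarith
  have e1 : ∀ l ∈ Icc 1 ⌊L⌋, |1 / 4 * ∑ b ∈ bl Y, mu b * ((kap l (a * b) - kap l b) / nz b) *
      (4 * M * (Real.log M - 1) - 2 * M * Real.log (nz (a * b)))| ≤
      3 / 2 * (M * ℓ) * ∑ b ∈ bl Y, |kap l (a * b) - kap l b| * (1 / nz b) := by
    intro l _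
    rw [abs_mul, abs_of_pos (by norm_num : (0 : ℝ) < 1 / 4)]
    have e2 : |∑ b ∈ bl Y, mu b * ((kap l (a * b) - kap l b) / nz b) *
      (4 * M * (Real.log M - 1) - 2 * M * Real.log (nz (a * b)))| ≤
      ∑ b ∈ bl Y, |kap l (a * b) - kap l b| * (1 / nz b) * (6 * M * ℓ) := by
      refine (abs_sum_le_sum_abs _ _).trans (sum_le_sum fun b hb => ?_)
      have hb0 := bl_ne hb
      have hbp := nz_pos hb0
      rw [abs_mul, abs_mul, abs_div, abs_of_pos hbp]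
      have h1 : |4 * M * (Real.log M - 1) - 2 * M * Real.log (nz (a * b))| ≤ 6 * M * ℓ := by
        rw [← hℓ]
        refine brk hM0 hℓ1 (Real.log_nonneg (one_le_nz (mul_ne_zero ha0 hb0))) ?_
        have h2 : nz (a * b) ≤ M ^ 3 := by
          rw [Pool.Agent.N855.GN.nz_mul]
          exact (mul_le_mul_of_nonneg_left (bl_le hb) hap.le).trans haY
        have h3 := Real.log_le_log (nz_pos (mul_ne_zero ha0 hb0)) h2
        rw [Real.log_pow, Nat.cast_ofNat] at h3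
        rw [hℓ]
        exact h3
      calc |mu b| * (|kap l (a * b) - kap l b| / nz b) * |4 * M * (Real.log M - 1) - 2 * M * Real.log (nz (a * b))|
          ≤ 1 * (|kap l (a * b) - kap l b| / nz b) * (6 * M * ℓ) := by
            refine mul_le_mul (mul_le_mul_of_nonneg_right (abs_mu_le b) (by positivity)) h1 (abs_nonneg _) (by positivity)
        _ = _ := by ring
    calc 1 / 4 * |∑ b ∈ bl Y, mu b * ((kap l (a * b) - kap l b) / nz b) *
      (4 * M * (Real.log M - 1) - 2 * M * Real.log (nz (a * b)))| ≤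
        1 / 4 * ∑ b ∈ bl Y, |kap l (a * b) - kap l b| * (1 / nz b) * (6 * M * ℓ) :=
          mul_le_mul_of_nonneg_left e2 (by norm_num)
      _ = _ := by
          rw [← sum_mul]
          ring
  refine (sum_le_sum e1).trans ?_
  rw [← mul_sum, sum_comm]
  have e3 : ∑ b ∈ bl Y, ∑ l ∈ Icc 1 ⌊L⌋, |kap l (a * b) - kap l b| * (1 / nz b) ≤
      2 * L * ∑ b ∈ bl Y, (if star a ∣ b then 1 / nz b else 0) := by
    rw [mul_sum]
    refine sum_le_sum fun b hb => ?_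
    have hb0 := bl_ne hb
    have hbp := nz_pos hb0
    rw [← sum_mul]
    have h1 := kap_diff hL ha hb0
    calc (∑ l ∈ Icc 1 ⌊L⌋, |kap l (a * b) - kap l b|) * (1 / nz b) ≤ (if star a ∣ b then 2 * L else 0) * (1 / nz b) :=
          mul_le_mul_of_nonneg_right h1 (by positivity)
      _ = _ := by split_ifs <;> ring
  have e4 := sum_star ha hY3
  have e5 : (Real.log Y) ^ 2 ≤ ℓ ^ 2 := pow_le_pow_left₀ (Real.log_nonneg (by linarith)) hlY 2
  calc 3 / 2 * (M * ℓ) * ∑ b ∈ bl Y, ∑ l ∈ Icc 1 ⌊L⌋, |kap l (a * b) - kap l b| * (1 / nz b)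
      ≤ 3 / 2 * (M * ℓ) * (2 * L * (1 / nz a * (48 * ℓ ^ 2))) := by
        apply mul_le_mul_of_nonneg_left _ (by positivity)
        refine e3.trans (mul_le_mul_of_nonneg_left (e4.trans ?_) (by positivity))
        exact mul_le_mul_of_nonneg_left (by linarith) (by positivity)
    _ = _ := by ring

theorem RA2 {M L Y W ℓ : ℝ} {a : ZI} (ha : np a) (hM : 3 ≤ M) (hL : 0 ≤ L) (hℓ1 : 1 ≤ ℓ)
    (hW : 0 ≤ W) (hWY3 : 3 ≤ W * Y) (hlWY : Real.log (W * Y) ≤ 2 * ℓ) :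
    ∑ l ∈ Icc 1 ⌊L⌋, |M / 8 * ∑ b ∈ bl Y, ∑ c ∈ bl W, mu b * LamK c *
      ((kap l (a * (b * c)) - kap l (b * c)) / nz (b * c))| ≤ 384 * (L * M * ℓ ^ 3) * (1 / nz a) := by
  classical
  have ha0 := np_ne ha
  have hap := nz_pos ha0
  have hM0 : 0 ≤ M := by linarith
  have e1 : ∀ l ∈ Icc 1 ⌊L⌋, |M / 8 * ∑ b ∈ bl Y, ∑ c ∈ bl W, mu b * LamK c *
      ((kap l (a * (b * c)) - kap l (b * c)) / nz (b * c))| ≤
      M / 8 * ∑ c ∈ bl W, ∑ b ∈ bl Y, LamK c * (1 / nz (c * b)) * |kap l (a * (c * b)) - kap l (c * b)| := by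
    intro l _
    rw [abs_mul, abs_of_nonneg (by positivity : 0 ≤ M / 8)]
    apply mul_le_mul_of_nonneg_left _ (by positivity)
    rw [sum_comm]
    refine (abs_sum_le_sum_abs _ _).trans (sum_le_sum fun c hc => ?_)
    refine (abs_sum_le_sum_abs _ _).trans (sum_le_sum fun b hb => ?_)
    have hbp := nz_pos (mul_ne_zero (bl_ne hc) (bl_ne hb))
    rw [mul_comm b c, abs_mul, abs_mul, abs_div, abs_of_pos hbp, abs_of_nonneg (LamK_nonneg c)]
    calc |mu b| * LamK c * (|kap l (a * (c * b)) - kap l (c * b)| / nz (c * b))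
        ≤ 1 * LamK c * (|kap l (a * (c * b)) - kap l (c * b)| / nz (c * b)) := by
          apply mul_le_mul_of_nonneg_right _ (by positivity)
          exact mul_le_mul_of_nonneg_right (abs_mu_le b) (LamK_nonneg c)
      _ = _ := by ring
  refine (sum_le_sum e1).trans ?_
  rw [← mul_sum]
  have e2 : ∑ l ∈ Icc 1 ⌊L⌋, ∑ c ∈ bl W, ∑ b ∈ bl Y, LamK c * (1 / nz (c * b)) * |kap l (a * (c * b)) - kap l (c * b)| ≤
      ∑ c ∈ bl W, ∑ b ∈ bl Y, LamK c * (fun _ => (1 : ℝ)) b * (if star a ∣ (c * b) then 2 * L * (1 / nz (c * b)) else 0) := by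
    rw [sum_comm]
    refine sum_le_sum fun c hc => ?_
    rw [sum_comm]
    refine sum_le_sum fun b hb => ?_
    have hcb0 := mul_ne_zero (bl_ne hc) (bl_ne hb)
    have hbp := nz_pos hcb0
    rw [← mul_sum]
    have h1 := kap_diff hL ha hcb0
    calc LamK c * (1 / nz (c * b)) * ∑ l ∈ Icc 1 ⌊L⌋, |kap l (a * (c * b)) - kap l (c * b)|
        ≤ LamK c * (1 / nz (c * b)) * (if star a ∣ (c * b) then 2 * L else 0) :=
          mul_le_mul_of_nonneg_left h1 (mul_nonneg (LamK_nonneg c) (by positivity))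
      _ = _ := by split_ifs <;> ring
  have e3 : ∑ c ∈ bl W, ∑ b ∈ bl Y, LamK c * (fun _ => (1 : ℝ)) b * (if star a ∣ (c * b) then 2 * L * (1 / nz (c * b)) else 0) ≤
      16 * ℓ * L * ∑ t ∈ bl (W * Y), (if star a ∣ t then 1 / nz t else 0) := by
    rw [grp LamK (fun _ => (1 : ℝ)) (fun t => if star a ∣ t then 2 * L * (1 / nz t) else 0) (bl W) (bl Y) (bl (W * Y))
      (fun c hc b hb => by
        rw [mem_bl] at hc hb ⊢
        refine ⟨mul_ne_zero hc.1 hb.1, ?_⟩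
        rw [Pool.Agent.N855.GN.nz_mul]
        exact mul_le_mul hc.2 hb.2 (nz_nonneg _) hW), mul_sum]
    refine sum_le_sum fun t ht => ?_
    rw [mem_bl] at ht
    have hbp := nz_pos ht.1
    have h1 : cf LamK (fun _ => 1) (bl W) (bl Y) t ≤ 8 * ℓ := by
      refine (cf_lam ht.1).trans ?_
      have := Real.log_le_log hbp ht.2
      linarith
    split_ifs
    · calc cf LamK (fun _ => 1) (bl W) (bl Y) t * (2 * L * (1 / nz t)) ≤ 8 * ℓ * (2 * L * (1 / nz t)) :=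
            mul_le_mul_of_nonneg_right h1 (by positivity)
        _ = _ := by ring
    · simp
  have e4 := sum_star ha hWY3
  have e5 : (Real.log (W * Y)) ^ 2 ≤ (2 * ℓ) ^ 2 := pow_le_pow_left₀ (Real.log_nonneg (by linarith)) hlWY 2
  calc M / 8 * ∑ l ∈ Icc 1 ⌊L⌋, ∑ c ∈ bl W, ∑ b ∈ bl Y, LamK c * (1 / nz (c * b)) * |kap l (a * (c * b)) - kap l (c * b)|
      ≤ M / 8 * (16 * ℓ * L * (1 / nz a * (48 * (2 * ℓ) ^ 2))) := by
        apply mul_le_mul_of_nonneg_left _ (by positivity)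
        refine (e2.trans e3).trans (mul_le_mul_of_nonneg_left (e4.trans ?_) (by positivity))
        exact mul_le_mul_of_nonneg_left (by linarith) (by positivity)
    _ = _ := by ring

theorem RA_sum {M L Y ℓ : ℝ} {a : ZI} (ha : np a) (hM : 3 ≤ M) (hL : 0 ≤ L) (hℓ : ℓ = Real.log M) (hℓ1 : 1 ≤ ℓ)
    (hY3 : 3 ≤ Y) (hlY : Real.log Y ≤ ℓ) (haY : nz a * Y ≤ M ^ 3) :
    ∑ l ∈ Icc 1 ⌊L⌋, |RA l M Y Y a| ≤ 528 * (L * M * ℓ ^ 3) * (1 / nz a) := by
  have h1 := RA1 ha hM hL hℓ hℓ1 hY3 hlY haY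
  have hYY : Real.log (Y * Y) ≤ 2 * ℓ := by
    rw [Real.log_mul (by linarith) (by linarith)]
    linarith
  have h2 := RA2 (Y := Y) (W := Y) ha hM hL hℓ1 (by linarith) (by nlinarith) hYY
  calc ∑ l ∈ Icc 1 ⌊L⌋, |RA l M Y Y a| ≤ ∑ l ∈ Icc 1 ⌊L⌋, (|1 / 4 * ∑ b ∈ bl Y, mu b * ((kap l (a * b) - kap l b) / nz b) *
      (4 * M * (Real.log M - 1) - 2 * M * Real.log (nz (a * b)))| + |M / 8 * ∑ b ∈ bl Y, ∑ c ∈ bl Y, mu b * LamK c *
      ((kap l (a * (b * c)) - kap l (b * c)) / nz (b * c))|) := sum_le_sum fun l _ => abs_sub _ _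
    _ ≤ 144 * (L * M * ℓ ^ 3) * (1 / nz a) + 384 * (L * M * ℓ ^ 3) * (1 / nz a) := by
        rw [sum_add_distrib]
        exact add_le_add h1 h2
    _ = _ := by ring

/-- the density of the first factors -/
noncomputable def sg (M x y : ℝ) : ℝ := ∑ a ∈ bg x y, fw M x y a / nz a

theorem sg_nonneg {M : ℝ} (hM : 1 ≤ M) (x y : ℝ) : 0 ≤ sg M x y :=
  sum_nonneg fun a _ => div_nonneg (fw_nonneg hM x y a) (nz_nonneg a)

theorem sg_le {M x y : ℝ} (hM : 1 < M) (hy1 : 1 ≤ y) (hy : y ≤ M) : sg M x y ≤ 288 := by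
  have hl := Real.log_pos hM
  unfold sg
  calc ∑ a ∈ bg x y, fw M x y a / nz a ≤ ∑ a ∈ bg x y, 1 / Real.log M * (LamK a / nz a) := by
        refine sum_le_sum fun a _ => ?_
        have h1 := (le_abs_self _).trans (fw_le hM x y a)
        have h2 := Lp_le_LamK a
        have h3 := nz_nonneg a
        calc fw M x y a / nz a ≤ (1 / Real.log M * LamK a) / nz a := by
              apply div_le_div_of_nonneg_right _ h3
              exact h1.trans (mul_le_mul_of_nonneg_left h2 (by positivity))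
          _ = _ := by ring
    _ ≤ ∑ a ∈ bl y, 1 / Real.log M * (LamK a / nz a) := by
        apply sum_le_sum_of_subset_of_nonneg
        · intro a ha
          rw [mem_bg] at ha
          exact (mem_bl _ _).2 ⟨ha.1, ha.2.1⟩
        · intro a _ _
          exact mul_nonneg (by positivity) (div_nonneg (LamK_nonneg a) (nz_nonneg a))
    _ = 1 / Real.log M * ∑ a ∈ bl y, LamK a / nz a := by rw [mul_sum]
    _ ≤ 1 / Real.log M * (288 * Real.log M) := by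
        apply mul_le_mul_of_nonneg_left _ (by positivity)
        refine (mert_up hy1).trans ?_
        have := Real.log_le_log (by linarith) hy
        linarith
    _ = 288 := by field_simp

/-- **the asymptotic formula over the Gaussian integers, on average over `l`** -/
theorem main_e2 (ε : ℝ) (A : ℕ) (hε : 0 < ε) (hε1 : ε ≤ 1 / 6) {c3 c4 : ℝ} (hc3 : 0 < c3) (h34 : c3 < c4)
    (hc4 : 6 * c4 ≤ ε) : ∃ C : ℝ, 0 < C ∧ ∀ᶠ M : ℝ in atTop, ∀ (L x y : ℝ),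
    M ^ (1 / 3 + 2 * ε) ≤ L → L ≤ M ^ (1 - 2 * ε) → M ^ c3 ≤ x → x ≤ y → y ≤ M ^ c4 →
    ∑ l ∈ Icc 1 ⌊L⌋, |∑ m ∈ Icc ⌈-M⌉ ⌊M⌋, cv (fw M x y) LamK (⟨l, m⟩ : ZI) - 2 * M * SS l * sg M x y| ≤
      C * (L * M / (Real.log M) ^ A) := by
  obtain ⟨C1, hC1, h1⟩ := sumE ε A hε hε1 hc3 h34 hc4
  obtain ⟨C2, hC2, h2⟩ := em_gen A hε
  obtain ⟨C5, hC5, h5⟩ := pow_log c3 (A + 3) hc3
  refine ⟨C1 + 288 * (C2 + C2 + 528 * C5), by positivity, ?_⟩
  filter_upwards [h1, eventually_ge_atTop (3 : ℝ), ev_rp hε 3] with M h1 hM3 hMε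
  intro L x y hL1 hL2 hx hxy hy
  have hM : 1 ≤ M := by linarith
  have hM1 : 1 < M := by linarith
  have hx1 : 1 ≤ x := (Real.one_le_rpow hM hc3.le).trans hx
  have hP : PE ε c4 M L y := ⟨hε, hε1, hM3, hL1, hL2, hc4, hx1.trans hxy, hy⟩
  have hL := hP.L0
  have hL0 : 0 ≤ L := by linarith
  have hM0 : 0 < M := by linarith
  have hlog := hP.log1
  have hyM : y ≤ M := by
    calc y ≤ M ^ c4 := hy
      _ ≤ M ^ (1 : ℝ) := Real.rpow_le_rpow_of_exponent_le hM (by linarith)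
      _ = M := Real.rpow_one _
  have g1 := h1 L x y hL1 hL2 hx hxy hy
  have hYlow : M ^ ε ≤ YE ε M L := by
    unfold YE
    exact le_mul_of_one_le_left (Real.rpow_nonneg hM0.le _) hP.ML1
  have hY3 : 3 ≤ YE ε M L := hMε.trans hYlow
  have hcY : ε * Real.log M ≤ Real.log (YE ε M L) := by
    have h4 := Real.log_le_log (Real.rpow_pos_of_pos hM0 _) hYlow
    rwa [Real.log_rpow hM0] at h4
  have hlY := hP.logY
  obtain ⟨g2, g3⟩ := h2 M L (YE ε M L) (YE ε M L) hM3 hL hY3 hY3 hcY (by linarith)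
  have hyY3 := hP.yY3
  generalize YE ε M L = Y at *
  set ℓ := Real.log M with hℓ
  have hℓ0 : 0 < ℓ := by linarith
  have hX : 0 ≤ L * M / ℓ ^ A := by positivity
  -- one `a`
  have ga : ∀ a ∈ bg x y, fw M x y a / nz a * ∑ l ∈ Icc 1 ⌊L⌋, |nz a * EA l M Y Y a - 2 * M * SS l| ≤
      fw M x y a / nz a * ((C2 + C2 + 528 * C5) * (L * M / ℓ ^ A)) := by
    intro a ha
    rw [mem_bg] at ha
    by_cases hf : fw M x y a = 0
    · rw [hf, zero_div, zero_mul, zero_mul]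
    apply mul_le_mul_of_nonneg_left _ (div_nonneg (fw_nonneg hM x y a) (nz_nonneg a))
    have hna := (fw_ne hf).1
    have hap := nz_pos ha.1
    have ha1 := nz_one_le ha.1
    have g4 := RA_sum (L := L) (Y := Y) hna hM3 hL0 rfl hlog hY3 hlY
      ((mul_le_mul_of_nonneg_right ha.2.1 (by linarith)).trans hyY3)
    have e1 : ∑ l ∈ Icc 1 ⌊L⌋, |nz a * EA l M Y Y a - 2 * M * SS l| ≤
        ∑ l ∈ Icc 1 ⌊L⌋, |Em l M Y Y - 2 * M * SS l| + M * ℓ * ∑ l ∈ Icc 1 ⌊L⌋, |∑ b ∈ bl Y, mu b * (kap l b / nz b)| +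
        ∑ l ∈ Icc 1 ⌊L⌋, |RA l M Y Y a| := by
      rw [mul_sum, ← sum_add_distrib, ← sum_add_distrib]
      refine sum_le_sum fun l _ => ?_
      rw [EA_eq l M Y Y ha.1]
      have e2 : Em l M Y Y - M / 2 * Real.log (nz a) * ∑ b ∈ bl Y, mu b * (kap l b / nz b) + RA l M Y Y a - 2 * M * SS l =
          (Em l M Y Y - 2 * M * SS l) - M / 2 * Real.log (nz a) * ∑ b ∈ bl Y, mu b * (kap l b / nz b) + RA l M Y Y a := by ring
      rw [e2]
      refine (abs_add_le _ _).trans (add_le_add ((abs_sub _ _).trans (add_le_add le_rfl ?_)) le_rfl)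
      rw [abs_mul]
      apply mul_le_mul_of_nonneg_right _ (abs_nonneg _)
      have h6 : 0 ≤ Real.log (nz a) := Real.log_nonneg ha1
      have h7 : Real.log (nz a) ≤ ℓ := Real.log_le_log hap (ha.2.1.trans hyM)
      rw [abs_of_nonneg (by positivity)]
      exact mul_le_mul (by linarith) h7 h6 hM0.le
    have e3 : M * ℓ * ∑ l ∈ Icc 1 ⌊L⌋, |∑ b ∈ bl Y, mu b * (kap l b / nz b)| ≤ C2 * (L * M / ℓ ^ A) := by
      calc _ ≤ M * ℓ * (C2 * (L / ℓ ^ (A + 1))) := mul_le_mul_of_nonneg_left g3 (by positivity)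
        _ = _ := by
          rw [pow_succ]
          field_simp
    have e4 : 528 * (L * M * ℓ ^ 3) * (1 / nz a) ≤ 528 * C5 * (L * M / ℓ ^ A) := by
      have h6 := h5 M hM
      have h7 : M ^ c3 ≤ nz a := hx.trans (ha.2.2.le)
      rw [mul_one_div, mul_div_assoc', div_le_div_iff₀ hap (by positivity)]
      calc 528 * (L * M * ℓ ^ 3) * ℓ ^ A = 528 * (L * M) * ℓ ^ (A + 3) := by ring
        _ ≤ 528 * (L * M) * (C5 * nz a) := by
          apply mul_le_mul_of_nonneg_left _ (by positivity)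
          exact h6.trans (mul_le_mul_of_nonneg_left h7 hC5.le)
        _ = _ := by ring
    refine e1.trans ?_
    calc _ ≤ C2 * (L * M / ℓ ^ A) + C2 * (L * M / ℓ ^ A) + 528 * C5 * (L * M / ℓ ^ A) :=
          add_le_add (add_le_add g2 e3) (g4.trans e4)
      _ = _ := by ring
  have e5 : ∑ l ∈ Icc 1 ⌊L⌋, |EmE l M x y Y Y - 2 * M * SS l * sg M x y| ≤
      288 * (C2 + C2 + 528 * C5) * (L * M / ℓ ^ A) := by
    have e6 : ∀ l ∈ Icc 1 ⌊L⌋, |EmE l M x y Y Y - 2 * M * SS l * sg M x y| ≤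
        ∑ a ∈ bg x y, fw M x y a / nz a * |nz a * EA l M Y Y a - 2 * M * SS l| := by
      intro l _
      have e7 : EmE l M x y Y Y - 2 * M * SS l * sg M x y =
          ∑ a ∈ bg x y, fw M x y a / nz a * (nz a * EA l M Y Y a - 2 * M * SS l) := by
        unfold EmE sg
        rw [mul_sum, ← sum_sub_distrib]
        refine sum_congr rfl fun a ha => ?_
        have hap := nz_pos (mem_bg.1 ha).1
        field_simp
      rw [e7]
      refine (abs_sum_le_sum_abs _ _).trans (sum_le_sum fun a _ => ?_)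
      rw [abs_mul, abs_of_nonneg (div_nonneg (fw_nonneg hM x y a) (nz_nonneg a))]
    refine (sum_le_sum e6).trans ?_
    rw [sum_comm]
    calc ∑ a ∈ bg x y, ∑ l ∈ Icc 1 ⌊L⌋, fw M x y a / nz a * |nz a * EA l M Y Y a - 2 * M * SS l|
        = ∑ a ∈ bg x y, fw M x y a / nz a * ∑ l ∈ Icc 1 ⌊L⌋, |nz a * EA l M Y Y a - 2 * M * SS l| := by
          refine sum_congr rfl fun a _ => ?_
          rw [mul_sum]
      _ ≤ ∑ a ∈ bg x y, fw M x y a / nz a * ((C2 + C2 + 528 * C5) * (L * M / ℓ ^ A)) := sum_le_sum ga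
      _ = sg M x y * ((C2 + C2 + 528 * C5) * (L * M / ℓ ^ A)) := by rw [← sum_mul, sg]
      _ ≤ 288 * ((C2 + C2 + 528 * C5) * (L * M / ℓ ^ A)) :=
          mul_le_mul_of_nonneg_right (sg_le hM1 (hx1.trans hxy) hyM) (by positivity)
      _ = _ := by ring
  calc ∑ l ∈ Icc 1 ⌊L⌋, |∑ m ∈ Icc ⌈-M⌉ ⌊M⌋, cv (fw M x y) LamK (⟨l, m⟩ : ZI) - 2 * M * SS l * sg M x y|
      ≤ ∑ l ∈ Icc 1 ⌊L⌋, (|∑ m ∈ Icc ⌈-M⌉ ⌊M⌋, cv (fw M x y) LamK (⟨l, m⟩ : ZI) - EmE l M x y Y Y| +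
        |EmE l M x y Y Y - 2 * M * SS l * sg M x y|) := by
        refine sum_le_sum fun l _ => ?_
        exact abs_sub_le _ _ _
    _ ≤ C1 * (L * M / ℓ ^ A) + 288 * (C2 + C2 + 528 * C5) * (L * M / ℓ ^ A) := by
        rw [sum_add_distrib]
        exact add_le_add g1 e5
    _ = _ := by ring

end Pool.Agent.J6H16.E2
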