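import Pool.Agent.J6H16.E2.Mk3
import Pool.Agent.N277.GN.IIe

/-!
# Project E2 (helper16): the frequency `k = 0`
-/

set_option autoImplicit false

namespace Pool.Agent.J6H16.E2

open Finset Filter Topology
open Pool.Agent.N782.GN hiding f1
open Pool.Agent.N855.GN
open Pool.Agent.H304R3.HK (UH bb LamK CS)
open Pool.Agent.J6H16.PF Pool.Agent.J6H16.PR

/-- the content of a product with a prime of degree one -/
theorem ct_np {a m : ZI} (ha : np a) (hm : ct m = 1) : ct (a * m) = 1 ∨ nz a ≤ (ct (a * m) : ℝ) := by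
  by_cases h1 : ct (a * m) = 1
  · exact Or.inl h1
  right
  obtain ⟨q, hq, hqd⟩ := Nat.exists_prime_and_dvd h1
  have hm0 : m ≠ 0 := by
    rintro rfl
    simp [ct] at hm
  have ham : a * m ≠ 0 := mul_ne_zero (np_ne ha) hm0
  have h2 : ((q : ℕ) : ZI) ∣ a * m := (Pool.Agent.N864.GN.MB.dvd_ct q (a * m)).2 hqd
  have hpa : Prime a := np_prime ha
  have key : nn a = q := by
    by_contra hne
    have hcop : IsCoprime ((q : ℕ) : ZI) a := by
      apply IsCoprime.symm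
      rw [hpa.irreducible.coprime_iff_not_dvd]
      intro hd
      have h3 : Zsqrtd.norm a ∣ Zsqrtd.norm ((q : ℕ) : ZI) := by
        obtain ⟨e, he⟩ := hd
        rw [he, Zsqrtd.norm_mul]
        exact dvd_mul_right _ _
      have h4 : nn a ∣ q * q := by
        have h5 := Int.natAbs_dvd_natAbs.2 h3
        rw [Zsqrtd.norm_natCast, Int.natAbs_mul, Int.natAbs_natCast] at h5
        exact h5
      have h6 : (nn a).Prime := ha
      rcases (Nat.Prime.dvd_mul h6).1 h4 with h | h <;>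
        exact hne ((Nat.prime_dvd_prime_iff_eq h6 hq).1 h)
    have h7 : ((q : ℕ) : ZI) ∣ m := hcop.dvd_of_dvd_mul_left h2
    have h8 := (Pool.Agent.N864.GN.MB.dvd_ct q m).1 h7
    rw [hm, Nat.dvd_one] at h8
    exact hq.one_lt.ne' h8
  rw [nz_nn, key, Nat.cast_le]
  exact Nat.le_of_dvd (ct_pos ham) hqd

/-- the Moebius function of `g`-coprime primitive numbers in classes -/
theorem be0 (A B : ℕ) : ∃ C : ℝ, 0 < C ∧ ∀ (V Y1 Y2 : ℝ) (q g : ℕ) (r : ZI), 2 ≤ V → 0 ≤ Y1 → Y1 ≤ Y2 → Y2 ≤ V →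
    1 ≤ q → (q : ℝ) ≤ (Real.log V) ^ B → 1 ≤ g → (g : ℝ) ≤ (Real.log V) ^ B →
    (∑ t ∈ ci q r Y1 Y2, be g t) ^ 2 ≤ C * V ^ 2 / (Real.log V) ^ A := by
  classical
  obtain ⟨C, hC, h⟩ := c_mb (1 / 4) A B (by norm_num)
  refine ⟨2 * Real.pi * C, by positivity, ?_⟩
  intro V Y1 Y2 q g r hV hY1 hY12 hY2 hq hqB hg hgB
  have hV1 : (1 : ℝ) ≤ V := by linarith
  have h1 := h V 1 Y1 Y2 q g r hV (by
    have : -(1 / 2) + (1 / 4 : ℝ) = -(1 / 4) := by norm_num
    rw [this]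
    exact Real.rpow_le_one_of_one_le_of_nonpos hV1 (by norm_num)) le_rfl hY1 hY12 hY2 hq hqB hg hgB
  have h2 := Pool.Agent.N546.GN.FTaux.pars (δ := 1) one_pos le_rfl ((cls q r Y2).filter (fun t => Y1 < nz t))
    (fun t => be g t)
  have h3 := h2.summable.le_tsum (0 : ℤ) (fun k _ => by positivity)
  rw [h2.tsum_eq] at h3
  have h4 : Pool.Agent.N546.GN.FTaux.Jk 1 0 = 1 := by
    unfold Pool.Agent.N546.GN.FTaux.Jk Pool.Agent.N546.GN.FTaux.ex
    simp
  rw [h4] at h3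
  have h5 : ∑ t ∈ (cls q r Y2).filter (fun t => Y1 < nz t), ((be g t : ℝ) : ℂ) * ph (-0) 0 t =
      ((∑ t ∈ ci q r Y1 Y2, be g t : ℝ) : ℂ) := by
    unfold ci
    push_cast
    refine sum_congr rfl fun t _ => ?_
    unfold ph
    simp
  rw [h5, Complex.norm_real, Real.norm_eq_abs, sq_abs, norm_one] at h3
  calc (∑ t ∈ ci q r Y1 Y2, be g t) ^ 2 = 1 ^ 2 * (∑ t ∈ ci q r Y1 Y2, be g t) ^ 2 := by ring
    _ ≤ _ := h3
    _ ≤ 2 * Real.pi * (C * 1 ^ 2 * V ^ 2 / (Real.log V) ^ A) := by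
        apply mul_le_mul_of_nonneg_left h1
        positivity
    _ = _ := by ring

/-- the same with a large parameter -/
theorem be0m {c : ℝ} (hc : 0 < c) (A B : ℕ) : ∀ᶠ M : ℝ in atTop, ∀ (Z Y1 : ℝ) (q g : ℕ) (r : ZI), M ^ c ≤ Z → 1 ≤ q →
    (q : ℝ) ≤ (Real.log M) ^ B → 1 ≤ g → (g : ℝ) ≤ (Real.log M) ^ B → 0 ≤ Y1 → Y1 ≤ Z →
    |∑ t ∈ ci q r Y1 Z, be g t| ≤ Z / (Real.log M) ^ A := by
  classical
  obtain ⟨C, hC, h⟩ := be0 (2 * A + 1) (B + 1)
  filter_upwards [ev_log (C / c ^ (2 * A + 1)), ev_log (1 / c ^ (B + 1)), ev_log 1, eventually_ge_atTop (3 : ℝ),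
    ev_rp hc 2] with M h1 h2 h3 hM3 h4
  intro Z Y1 q g r hZ hq hqB hg hgB hY1 hY1Z
  set ℓ := Real.log M with hℓ
  have hM0 : 0 < M := by linarith
  have hℓ0 : 0 < ℓ := by linarith
  have hZ0 : 0 < Z := lt_of_lt_of_le (by positivity) hZ
  have hL : c * ℓ ≤ Real.log Z := by
    rw [hℓ, ← Real.log_rpow hM0]
    exact Real.log_le_log (by positivity) hZ
  have hcℓ : 0 < c * ℓ := by positivity
  have hB : ℓ ^ B ≤ (Real.log Z) ^ (B + 1) := by
    calc ℓ ^ B ≤ (c * ℓ) ^ (B + 1) := by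
          rw [mul_pow, pow_succ ℓ B]
          have : 1 ≤ c ^ (B + 1) * ℓ := by
            rw [div_le_iff₀ (by positivity)] at h2
            linarith
          calc ℓ ^ B = 1 * ℓ ^ B := (one_mul _).symm
            _ ≤ (c ^ (B + 1) * ℓ) * ℓ ^ B := mul_le_mul_of_nonneg_right this (by positivity)
            _ = _ := by ring
      _ ≤ _ := pow_le_pow_left₀ hcℓ.le hL _
  have key := h Z Y1 Z q g r (h4.trans hZ) hY1 hY1Z le_rfl hq (hqB.trans hB) hg (hgB.trans hB)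
  apply abs_le_of_sq_le_sq _ (by positivity)
  refine key.trans ?_
  have h5 : (c * ℓ) ^ (2 * A + 1) ≤ (Real.log Z) ^ (2 * A + 1) := pow_le_pow_left₀ hcℓ.le hL _
  calc C * Z ^ 2 / (Real.log Z) ^ (2 * A + 1) ≤ C * Z ^ 2 / (c * ℓ) ^ (2 * A + 1) :=
        div_le_div_of_nonneg_left (by positivity) (by positivity) h5
    _ = (C / c ^ (2 * A + 1)) * (Z ^ 2 / ℓ ^ (2 * A + 1)) := by
        rw [mul_pow]
        field_simp
    _ ≤ ℓ * (Z ^ 2 / ℓ ^ (2 * A + 1)) := mul_le_mul_of_nonneg_right h1 (by positivity)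
    _ = (Z / ℓ ^ A) ^ 2 := by
        rw [div_pow, ← pow_mul, mul_comm A 2]
        field_simp
        ring

open Classical in
/-- the Moebius function, primitive numbers coprime to `g` of norm larger than `Y` -/
noncomputable def gy (Y : ℝ) (g : ℕ) (m : ZI) : ℝ := if Y < nz m then be g m else 0

theorem gy_abs (Y : ℝ) (g : ℕ) (m : ZI) : |gy Y g m| ≤ 1 := by
  unfold gy
  split_ifs
  · exact Pool.Agent.N277.GN.abs_be_le g m
  · rw [abs_zero]; norm_num

theorem gy_ct {Y : ℝ} {g : ℕ} {m : ZI} (h : ct m ≠ 1) : gy Y g m = 0 := by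
  unfold gy be
  rw [if_neg (fun h' : ct m = 1 ∧ _ => h h'.1)]
  simp

theorem gy_sum (Yg Y1 Y2 : ℝ) (g q : ℕ) (r : ZI) :
    ∑ t ∈ ci q r Y1 Y2, gy Yg g t = ∑ t ∈ ci q r (max Y1 Yg) Y2, be g t := by
  classical
  symm
  have hsub : ci q r (max Y1 Yg) Y2 ⊆ ci q r Y1 Y2 := by
    intro t ht
    rw [mem_ci] at ht ⊢
    exact ⟨ht.1, ht.2.1, ht.2.2.1, lt_of_le_of_lt (le_max_left _ _) ht.2.2.2⟩
  have e2 : ∑ t ∈ ci q r (max Y1 Yg) Y2, be g t = ∑ t ∈ ci q r (max Y1 Yg) Y2, gy Yg g t := by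
    refine sum_congr rfl fun t ht => ?_
    rw [mem_ci] at ht
    unfold gy
    rw [if_pos (lt_of_le_of_lt (le_max_right _ _) ht.2.2.2)]
  rw [e2]
  apply sum_subset hsub
  intro t ht ht'
  rw [mem_ci] at ht
  unfold gy
  rw [if_neg]
  intro h
  apply ht'
  rw [mem_ci]
  exact ⟨ht.1, ht.2.1, ht.2.2.1, max_lt ht.2.2.2 h⟩

/-- the sums over the classes of a product, all classes -/
theorem step0 {f g : ZI → ℝ} {q : ℕ} {η X w0 w1 : ℝ} (hw0 : 1 ≤ w0) (hX : 0 ≤ X)
    (hf0 : ∀ a, 0 ≤ f a) (hf : ∀ a, f a ≠ 0 → w0 < nz a ∧ nz a ≤ w1) (hfc : ∀ a, f a ≠ 0 → IsCoprime a ((q : ℕ) : ZI))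
    (hg : ∀ (s : ZI) (Y1 Y2 : ℝ), X ≤ Y2 → 0 ≤ Y1 → Y1 ≤ Y2 → |∑ t ∈ ci q s Y1 Y2, g t| ≤ η * Y2)
    (s : ZI) (Y1 Y2 : ℝ) (hY1 : 0 ≤ Y1) (hY12 : Y1 ≤ Y2) (hY2 : X * w1 ≤ Y2) :
    |∑ t ∈ ci q s Y1 Y2, cv f g t| ≤ (η * ∑ a ∈ bg w0 w1, f a / nz a) * Y2 := by
  classical
  set V := max Y2 w1 with hV
  have e0 : ∀ t ∈ ci q s Y1 Y2, cv f g t = cf f g (bg w0 w1) (bl V) t := by
    intro t ht
    rw [mem_ci] at ht
    symm
    apply cf_cv (ht.2.1.trans (le_max_left _ _))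
    · intro a ha
      exact ((mem_bg).1 ha).1
    · intro a ha _ h
      by_contra hcon
      apply h
      rw [mem_bg]
      exact ⟨ha, (hf a hcon).2, (hf a hcon).1⟩
  rw [sum_congr rfl e0, cfR f g w0 w1 V q s Y1 Y2 hw0 (le_max_right _ _) (le_max_left _ _)]
  have e1 : ∀ a ∈ bg w0 w1, |∑ m ∈ bl V, f a * g m * Jn q s Y1 Y2 (a * m)| ≤ f a / nz a * (η * Y2) := by
    intro a ha
    rw [mem_bg] at ha
    have hn := nz_pos ha.1
    have hn1 := nz_one_le ha.1
    by_cases h0 : f a = 0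
    · rw [h0, zero_div, zero_mul]
      rw [sum_eq_zero fun m _ => by rw [zero_mul, zero_mul], abs_zero]
    · have hfa := hf0 a
      obtain ⟨e, f', hef⟩ := hfc a h0
      have e2 : ∑ m ∈ bl V, f a * g m * Jn q s Y1 Y2 (a * m) = f a * ∑ m ∈ ci q (e * s) (Y1 / nz a) (Y2 / nz a), g m := by
        rw [← inner_ci g (le_max_left Y2 w1) (by linarith) ha.1 hef, mul_sum]
        exact sum_congr rfl fun m _ => by ring
      have e3 := hg (e * s) (Y1 / nz a) (Y2 / nz a) (by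
        rw [le_div_iff₀ hn]
        exact (mul_le_mul_of_nonneg_left ha.2.1 hX).trans hY2) (by positivity) (by gcongr)
      rw [e2, abs_mul, abs_of_nonneg hfa]
      calc f a * |∑ m ∈ ci q (e * s) (Y1 / nz a) (Y2 / nz a), g m| ≤
            f a * (η * (Y2 / nz a)) := mul_le_mul_of_nonneg_left e3 hfa
        _ = _ := by ring
  refine (abs_sum_le_sum_abs _ _).trans ((sum_le_sum e1).trans (le_of_eq ?_))
  rw [← sum_mul]
  ring

/-- the number of the elements with a large content -/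
theorem card_ct {V T : ℝ} (hV : 0 ≤ V) (hT : 2 ≤ T) :
    (((bl V).filter (fun t => T ≤ (ct t : ℝ))).card : ℝ) ≤ 18 * V / T := by
  classical
  set n : ℕ := ⌈T⌉₊ - 1 with hn
  set N : ℕ := ⌊Real.sqrt V⌋₊ with hN
  have hT1 : T ≤ ⌈T⌉₊ := Nat.le_ceil T
  have hc2 : 2 ≤ ⌈T⌉₊ := by
    have : (2 : ℝ) ≤ ⌈T⌉₊ := hT.trans hT1
    exact_mod_cast this
  have hn1 : 1 ≤ n := by omega
  have hnT : T / 2 ≤ n := by
    have : (n : ℝ) = (⌈T⌉₊ : ℝ) - 1 := by
      rw [hn, Nat.cast_sub (by omega)]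
      simp
    rw [this]
    linarith
  have hsub : (bl V).filter (fun t => T ≤ (ct t : ℝ)) ⊆ (Ioc n N).biUnion (fun e => (bl V).filter (fun t => ct t = e)) := by
    intro t ht
    rw [mem_filter] at ht
    rw [mem_biUnion]
    have ht' := (mem_bl _ _).1 ht.1
    refine ⟨ct t, ?_, ?_⟩
    · rw [mem_Ioc]
      constructor
      · have : ⌈T⌉₊ ≤ ct t := Nat.ceil_le.2 ht.2
        omega
      · rw [hN]
        apply Nat.le_floor
        apply Real.le_sqrt_of_sq_le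
        exact (ct_sq_le ht'.1).trans ht'.2
    · rw [mem_filter]
      exact ⟨ht.1, rfl⟩
  have h1 : ∀ e ∈ Ioc n N, (((bl V).filter (fun t => ct t = e)).card : ℝ) ≤ 9 * V * (1 / (e : ℝ) ^ 2) := by
    intro e he
    rw [mem_Ioc] at he
    have he1 : 1 ≤ e := by omega
    have he0 : (0 : ℝ) < (e : ℝ) ^ 2 := by
      have : (0 : ℝ) < e := by exact_mod_cast he1
      positivity
    have h2 := sum_ct V hV he1 (fun _ => 1)
    rw [sum_const, sum_const, nsmul_eq_mul, nsmul_eq_mul, mul_one, mul_one] at h2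
    have h3 : ((bl V).filter (fun t => ct t = e)).card = ((bl (V / (e : ℝ) ^ 2)).filter (fun t => ct t = 1)).card := by
      exact_mod_cast h2
    rw [h3]
    have hVe : 1 ≤ V / (e : ℝ) ^ 2 := by
      rw [le_div_iff₀ he0, one_mul]
      have h4 : (e : ℝ) ≤ Real.sqrt V := (by exact_mod_cast he.2 : (e : ℝ) ≤ N).trans (Nat.floor_le (Real.sqrt_nonneg _))
      calc (e : ℝ) ^ 2 ≤ (Real.sqrt V) ^ 2 := pow_le_pow_left₀ (Nat.cast_nonneg _) h4 2
        _ = V := Real.sq_sqrt hV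
    have h5 : (((bl (V / (e : ℝ) ^ 2)).filter (fun t => ct t = 1)).card : ℝ) ≤ ((bl (V / (e : ℝ) ^ 2)).card : ℝ) := by
      exact_mod_cast card_filter_le _ _
    refine h5.trans ((Pool.Agent.N277.GN.card_bl _ hVe).trans (le_of_eq ?_))
    ring
  calc (((bl V).filter (fun t => T ≤ (ct t : ℝ))).card : ℝ) ≤
        (((Ioc n N).biUnion (fun e => (bl V).filter (fun t => ct t = e))).card : ℝ) := by
          exact_mod_cast card_le_card hsub
    _ ≤ ∑ e ∈ Ioc n N, (((bl V).filter (fun t => ct t = e)).card : ℝ) := by exact_mod_cast card_biUnion_le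
    _ ≤ ∑ e ∈ Ioc n N, 9 * V * (1 / (e : ℝ) ^ 2) := sum_le_sum h1
    _ = 9 * V * ∑ e ∈ Ioc n N, (1 : ℝ) / (e : ℝ) ^ 2 := by rw [mul_sum]
    _ ≤ 9 * V * (1 / n) := by
        apply mul_le_mul_of_nonneg_left _ (by positivity)
        exact Pool.Agent.N277.GN.sum_one_div_sq n N hn1
    _ ≤ 9 * V * (1 / (T / 2)) := by
        apply mul_le_mul_of_nonneg_left _ (by positivity)
        exact one_div_le_one_div_of_le (by linarith) hnT
    _ = _ := by field_simp; ring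

/-- **the frequency `k = 0`** -/
theorem z0 {c3 c4 : ℝ} (hc3 : 0 < c3) (h34 : c3 < c4) (A B E : ℕ) (hE : c4 ≤ E) :
    ∀ᶠ M : ℝ in atTop, ∀ (x y Yg : ℝ) (g q : ℕ) (r : ZI) (V Y1 Y2 : ℝ), M ^ c3 ≤ x → y ≤ M ^ c4 →
      1 ≤ g → (g : ℝ) ≤ (Real.log M) ^ B → 1 ≤ q → (q : ℝ) ≤ (Real.log M) ^ B → M ^ (3 * c4) ≤ V → V ≤ M ^ E →
      0 ≤ Y1 → Y1 ≤ Y2 → Y2 ≤ V →
      |∑ t ∈ ci q r Y1 Y2, (if ct t = 1 then cv (fw M x y) (gy Yg g) t else 0)| ≤ V / (Real.log M) ^ A := by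
  classical
  have hc4 : 0 < c4 := by linarith
  filter_upwards [be0m hc4 (A + 1) B, ev_log (864 * c4 + 1), eventually_ge_atTop (3 : ℝ), ev_rp hc3 2, ev_qM hc3 B,
    ev_qM hc4 (A + 1), ev_qM hc3 (A + 1), ev_log (108 * E + 216 * E)] with M hbe hlog hM3 hMc3 hqM hM4 hM5 hlog2
  intro x y Yg g q r V Y1 Y2 hx hy hg hgB hq hqB hV hVE hY1 hY12 hY2
  have hM0 : 0 < M := by linarith
  have hM1 : 1 ≤ M := by linarith
  set ℓ := Real.log M with hℓ
  have hE0 : (0 : ℝ) ≤ E := Nat.cast_nonneg E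
  have hℓ1 : 1 ≤ ℓ := by linarith
  have hℓ0 : 0 < ℓ := by linarith
  have hw34 : M ^ c3 ≤ M ^ c4 := Real.rpow_le_rpow_of_exponent_le hM1 h34.le
  have hM3c : M ^ (3 * c4) = M ^ c4 * (M ^ c4 * M ^ c4) := by
    rw [← Real.rpow_add hM0, ← Real.rpow_add hM0]
    ring_nf
  have hm1 : (1 : ℝ) ≤ M ^ c4 := by linarith
  have hm0 : (0 : ℝ) < M ^ c4 := by linarith
  have hV1 : M ^ c4 * (M ^ c4 * M ^ c4) ≤ V := by rw [← hM3c]; exact hV
  have hV0 : 0 < V := lt_of_lt_of_le (by positivity) hV1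
  set β0 : ZI → ℝ := cv (fw M x y) (gy Yg g) with hβ0
  have hVlog : Real.log V ≤ E * ℓ := by
    have := Real.log_le_log hV0 hVE
    rwa [Real.log_pow] at this
  have hβ : ∀ t, t ≠ 0 → nz t ≤ V → |β0 t| ≤ 4 * E := by
    intro t ht htV
    have h1 := cv_bd (f := fw M x y) (g := gy Yg g) (κ := 1 / ℓ) (C1 := 1) (by positivity) (by norm_num)
      (fw_le (by linarith) _ _) (gy_abs _ _) ht
    refine h1.trans ?_
    have h2 : Real.log (nz t) ≤ E * ℓ := (Real.log_le_log (nz_pos ht) htV).trans hVlog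
    calc 1 * (1 / ℓ) * (4 * Real.log (nz t)) ≤ 1 * (1 / ℓ) * (4 * (E * ℓ)) := by gcongr
      _ = 4 * E := by field_simp
  have e1 : ∑ t ∈ ci q r Y1 Y2, (if ct t = 1 then β0 t else 0) =
      ∑ t ∈ ci q r Y1 Y2, β0 t - ∑ t ∈ (ci q r Y1 Y2).filter (fun t => ct t ≠ 1), β0 t := by
    rw [sum_filter, ← sum_sub_distrib]
    refine sum_congr rfl fun t _ => ?_
    split_ifs <;> simp_all
  -- the part with a large content
  have p1 : |∑ t ∈ (ci q r Y1 Y2).filter (fun t => ct t ≠ 1), β0 t| ≤ V / ℓ ^ A / 3 := by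
    have hz : ∀ t ∈ (ci q r Y1 Y2).filter (fun t => ct t ≠ 1),
        t ∉ (bl V).filter (fun t => M ^ c3 ≤ (ct t : ℝ)) → β0 t = 0 := by
      intro t ht ht'
      by_contra hne
      rw [mem_filter, mem_ci] at ht
      obtain ⟨a, m, h1, h2, h3, h4, h5⟩ := cv_ne hne
      have hf := fw_ne h2
      have hm : ct m = 1 := by
        by_contra hcon
        exact h3 (gy_ct hcon)
      rcases ct_np hf.1 hm with h6 | h6
      · rw [h1] at h6
        exact ht.2 h6
      · apply ht'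
        rw [mem_filter, mem_bl]
        rw [h1] at h6
        refine ⟨⟨ht.1.1, ht.1.2.1.trans hY2⟩, ?_⟩
        linarith [hf.2.1]
    calc |∑ t ∈ (ci q r Y1 Y2).filter (fun t => ct t ≠ 1), β0 t| ≤
          ∑ t ∈ (ci q r Y1 Y2).filter (fun t => ct t ≠ 1), |β0 t| := abs_sum_le_sum_abs _ _
      _ = ∑ t ∈ ((ci q r Y1 Y2).filter (fun t => ct t ≠ 1)).filter
          (fun t => t ∈ (bl V).filter (fun t => M ^ c3 ≤ (ct t : ℝ))), |β0 t| := by
          refine (sum_filter_of_ne (fun t ht h => ?_)).symm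
          by_contra hc
          exact h (by rw [hz t ht hc, abs_zero])
      _ ≤ ∑ t ∈ (bl V).filter (fun t => M ^ c3 ≤ (ct t : ℝ)), 4 * (E : ℝ) := by
          refine (sum_le_sum fun t ht => ?_).trans (sum_le_sum_of_subset_of_nonneg (fun t ht => (mem_filter.1 ht).2)
            (fun t _ _ => by positivity))
          rw [mem_filter, mem_filter, mem_ci] at ht
          exact hβ t ht.1.1.1 (ht.1.1.2.1.trans hY2)
      _ = (((bl V).filter (fun t => M ^ c3 ≤ (ct t : ℝ))).card : ℝ) * (4 * E) := by rw [sum_const, nsmul_eq_mul]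
      _ ≤ (18 * V / M ^ c3) * (4 * E) := mul_le_mul_of_nonneg_right (card_ct hV0.le hMc3) (by positivity)
      _ ≤ (18 * V / ℓ ^ (A + 1)) * (4 * E) := by gcongr
      _ = V / ℓ ^ A / 3 * ((216 * E) / ℓ) := by
          rw [pow_succ]
          field_simp
          ring
      _ ≤ V / ℓ ^ A / 3 * 1 := by
          apply mul_le_mul_of_nonneg_left _ (by positivity)
          rw [div_le_one hℓ0]
          nlinarith
      _ = _ := mul_one _
  -- the main part
  have p2 : |∑ t ∈ ci q r Y1 Y2, β0 t| ≤ V / ℓ ^ A / 3 := by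
    rcases le_or_gt (M ^ c4 * M ^ c4) Y2 with hcase | hcase
    · have h1 := step0 (f := fw M x y) (g := gy Yg g) (q := q) (η := 1 / ℓ ^ (A + 1)) (X := M ^ c4) (w0 := M ^ c3)
        (w1 := M ^ c4) (by linarith) hm0.le (fw_nonneg hM1 x y)
        (fun a ha => ⟨lt_of_le_of_lt hx (fw_ne ha).2.1, (fw_ne ha).2.2.trans hy⟩)
        (fun a ha => cop_np (fw_ne ha).1 hq (lt_of_le_of_lt (hqB.trans hqM) (lt_of_le_of_lt hx (fw_ne ha).2.1)))
        (fun s Z1 Z2 hZX hZ1 hZ12 => by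
          rw [gy_sum]
          rcases le_or_gt (max Z1 Yg) Z2 with h | h
          · have := hbe Z2 (max Z1 Yg) q g s hZX hq hqB hg hgB (hZ1.trans (le_max_left _ _)) h
            calc _ ≤ _ := this
              _ = _ := by ring
          · have : ci q s (max Z1 Yg) Z2 = ∅ := by
              rw [eq_empty_iff_forall_notMem]
              intro t ht
              rw [mem_ci] at ht
              linarith [ht.2.1, ht.2.2.2]
            rw [this, sum_empty, abs_zero]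
            have : 0 ≤ Z2 := hZ1.trans hZ12
            positivity) r Y1 Y2 hY1 hY12 hcase
      refine h1.trans ?_
      have h2 : ∑ a ∈ bg (M ^ c3) (M ^ c4), fw M x y a / nz a ≤ 288 * c4 := by
        calc ∑ a ∈ bg (M ^ c3) (M ^ c4), fw M x y a / nz a ≤ ∑ a ∈ bg (M ^ c3) (M ^ c4), (1 / ℓ) * (Lp a / nz a) := by
              refine sum_le_sum fun a ha => ?_
              rw [mem_bg] at ha
              have h3 := fw_le (M := M) (by linarith) x y a
              have h4 := nz_pos ha.1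
              rw [← hℓ] at h3
              calc fw M x y a / nz a ≤ (1 / ℓ * Lp a) / nz a := by
                    apply div_le_div_of_nonneg_right _ h4.le
                    exact (le_abs_self _).trans h3
                _ = _ := by ring
          _ = (1 / ℓ) * ∑ a ∈ bg (M ^ c3) (M ^ c4), Lp a / nz a := by rw [mul_sum]
          _ ≤ (1 / ℓ) * (288 * Real.log (M ^ c4)) := by
              apply mul_le_mul_of_nonneg_left (sum_Lp_nz hm1) (by positivity)
          _ = 288 * c4 := by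
              rw [Real.log_rpow hM0, ← hℓ]
              field_simp
      have hY20 : 0 ≤ Y2 := hY1.trans hY12
      calc (1 / ℓ ^ (A + 1) * ∑ a ∈ bg (M ^ c3) (M ^ c4), fw M x y a / nz a) * Y2 ≤ (1 / ℓ ^ (A + 1) * (288 * c4)) * V := by
            gcongr
        _ = V / ℓ ^ A / 3 * ((864 * c4) / ℓ) := by
            rw [pow_succ]
            field_simp
            ring
        _ ≤ V / ℓ ^ A / 3 * 1 := by
            apply mul_le_mul_of_nonneg_left _ (by positivity)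
            rw [div_le_one hℓ0]
            linarith
        _ = _ := mul_one _
    · calc |∑ t ∈ ci q r Y1 Y2, β0 t| ≤ ∑ t ∈ ci q r Y1 Y2, |β0 t| := abs_sum_le_sum_abs _ _
        _ ≤ ∑ t ∈ bl (M ^ c4 * M ^ c4), 4 * (E : ℝ) := by
            have hsub : ci q r Y1 Y2 ⊆ bl (M ^ c4 * M ^ c4) := by
              intro t ht
              rw [mem_ci] at ht
              rw [mem_bl]
              exact ⟨ht.1, ht.2.1.trans hcase.le⟩
            refine (sum_le_sum fun t ht => ?_).trans (sum_le_sum_of_subset_of_nonneg hsub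
              (fun t _ _ => by positivity))
            rw [mem_ci] at ht
            exact hβ t ht.1 (ht.2.1.trans hY2)
        _ = ((bl (M ^ c4 * M ^ c4)).card : ℝ) * (4 * E) := by rw [sum_const, nsmul_eq_mul]
        _ ≤ (9 * (M ^ c4 * M ^ c4)) * (4 * E) := by
            apply mul_le_mul_of_nonneg_right _ (by positivity)
            exact Pool.Agent.N277.GN.card_bl _ (by nlinarith)
        _ ≤ (9 * (V / M ^ c4)) * (4 * E) := by
            have : M ^ c4 * M ^ c4 ≤ V / M ^ c4 := by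
              rw [le_div_iff₀ hm0]
              linarith
            gcongr
        _ ≤ (9 * (V / ℓ ^ (A + 1))) * (4 * E) := by gcongr
        _ = V / ℓ ^ A / 3 * ((108 * E) / ℓ) := by
            rw [pow_succ]
            field_simp
            ring
        _ ≤ V / ℓ ^ A / 3 * 1 := by
            apply mul_le_mul_of_nonneg_left _ (by positivity)
            rw [div_le_one hℓ0]
            nlinarith
        _ = _ := mul_one _
  rw [e1]
  refine (abs_sub _ _).trans ?_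
  have : 0 ≤ V / ℓ ^ A := by positivity
  linarith

end Pool.Agent.J6H16.E2
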